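import Pool.Agent.PTG.P_G0
import Pool.Agent.PTP.Final
import Pool.Agent.PTF.Body

/-!
# PTG: A1 and the main theorem from the targets
-/

set_option autoImplicit false

namespace Pool.Agent.PTG

open Pool.Agent.PTR Filter Topology
open Pool.Agent.PTR.OL (V ii dif difs FLC InHull)
open Pool.Agent.PTP (Til TDP Iv wd SF Abv Stp Stk Ds Sm)
open Pool.Agent.PTA (Dir)

lemma per_of_tr {T : Set V} {p : V} (h : PSQ.tr T p = T) : Per p T := by
  intro z
  constructor
  · intro h1
    have h2 : z + p ∈ PSQ.tr T p := by rw [h]; exact h1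
    rw [PTP.mem_tr, add_sub_cancel_right] at h2
    exact h2
  · intro h1
    have h2 : z + p ∈ PSQ.tr T p := by rw [PTP.mem_tr, add_sub_cancel_right]; exact h1
    rwa [h] at h2

lemma tdp_of {C T : Set V} (hT : PSQ.Tiling C T) (hP : PSQ.Periodic T) : TDP C := by
  obtain ⟨p, v, hpv, hp, hv⟩ := hP
  exact ⟨T, (PTP.til_iff C T).1 hT, p, v, hpv, per_of_tr hp, per_of_tr hv⟩

/-- Tilings of finite local complexity. -/
theorem flc_tdp {C T : Set V} (hC : IsCompact C) (hT : Til C T) (hF : FLC T) : TDP C := by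
  obtain ⟨T', h1, h2⟩ := PTF.flc_body hC ((PTP.til_iff C T).2 hT) hF
  exact tdp_of h1 h2

theorem p_A1_of (hSTF : T_STF) : T_A1 := by
  intro C hP hIv e he T c c' hTil hcc hc hc'
  obtain ⟨T0, hT0⟩ := p_STA C hP e he.1 T c c' hTil hcc hc hc'
  have hw : 0 < wd C e := (p_WD C hP e he.1).1
  have key : ∀ n : ℕ, ∀ (h : ℝ) (T : Set V), Stp C e h T → h < n * wd C e →
      TDP C := by
    intro n
    induction n with
    | zero =>
      intro h T hT hlt
      exfalso
      have := hT.1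
      simp only [Nat.cast_zero, zero_mul] at hlt
      linarith
    | succ n ih =>
      intro h T hT hlt
      by_cases hno : ∀ T, Stp C e h T → ∀ c, 0 < c → c < h → ¬ SF C e T c
      · obtain ⟨w, hw⟩ := PTA.sta_height e he.1 h
        exact flc_tdp hP.cpt (p_STK C hP e w T h hT hw).1 (hSTF C hP hIv e he h hno T w hT hw)
      · push Not at hno
        obtain ⟨T1, hT1, c1, hc1, hc1h, hSF⟩ := hno
        obtain ⟨_, h2⟩ := p_STB C hP e he.1 T1 h hT1
        obtain ⟨h3, T2, hT2⟩ := h2 c1 hc1 hc1h hSF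
        refine ih c1 T2 hT2 ?_
        push_cast at hlt
        linarith
  obtain ⟨n, hn⟩ := exists_nat_gt ((c' - c) / wd C e)
  exact key n (c' - c) T0 hT0 ((div_lt_iff₀ hw).1 hn)

theorem p_R9_of (hA0 : T_A0) (hA1 : T_A1) (hHW : T_HW) (hHP : T_HP) (hHG : T_HG) : T_R9 := by
  rintro C hP hI ⟨T, hT⟩
  by_cases hns : NS C
  · by_cases hf : ∃ e, Dir C e ∧ ∃ T' c, Til C T' ∧ SF C e T' c
    · obtain ⟨e, he, T', c, hT', hc⟩ := hf
      obtain ⟨p, hp, hpe, hper⟩ := hHP C hP hI hns e he T' c hT' hc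
      exact hHG C hP e he.1 T' c hT' hc (hHW C hP hI hns e he T' c hT' hc) p hp hpe hper
    · refine flc_tdp hP.cpt hT ?_
      by_contra hcon
      exact hf (hA0 C hP hI T hT hcon)
  · simp only [NS, not_forall] at hns
    obtain ⟨e, he, T', c, c', hT', hcc, hc, hc', -⟩ := hns
    exact hA1 C hP hI e he T' c c' hT' hcc hc hc'

/-- Final statement. -/
theorem final_R9 (hR9 : T_R9) (C : Set V) (hC : PSQ.IsBody C)
    (h : (∀ e, Dir C e → Iv C e) ∨ IsPreconnected C) (hT : ∃ T, PSQ.Tiling C T) :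
    ∃ T, PSQ.Tiling C T ∧ PSQ.Periodic T := by
  obtain ⟨T, hT⟩ := hT
  obtain ⟨h1, h2⟩ := hC
  have hne : (interior C).Nonempty := by
    rw [Set.nonempty_iff_ne_empty]
    intro h3
    rw [h3, closure_empty] at h2
    have h4 : (0 : V) ∈ ⋃ t ∈ T, PSQ.tr C t := by rw [hT.2]; exact Set.mem_univ _
    simp only [Set.mem_iUnion, exists_prop] at h4
    obtain ⟨t, -, hz⟩ := h4
    rw [PTP.mem_tr, ← h2] at hz
    exact hz
  refine PTP.tdp_periodic (hR9 C ⟨h1, hne, h2⟩ ?_ ⟨T, (PTP.til_iff _ T).1 hT⟩)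
  rcases h with h | h
  · exact h
  · exact fun e he => PTP.iv_of_conn h2.symm.subset h he.1

end Pool.Agent.PTG
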