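import Pool.Agent.PTG.Targets

/-!
# PTG, target ANN: annihilators of the classes with small vectors
-/

set_option autoImplicit false

namespace Pool.Agent.PTG

open Pool.Agent.PTR Filter Topology
open Pool.Agent.PTR.OL (V ii dif difs FLC InHull)
open Pool.Agent.PTP (Til TDP Iv wd SF Abv Stp Stk Ds Sm)
open Pool.Agent.PTA (Dir)
open Equiv (Perm swap)

namespace ANN

/-- An alternating sum of a symmetric function vanishes. -/
lemma alt_zero {k : ℕ} (g : Perm (Fin k) → ℤ) (p q : Fin k) (hpq : p ≠ q)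
    (hg : ∀ s, g (s * swap p q) = g s) :
    ∑ s : Perm (Fin k), (Perm.sign s : ℤ) * g s = 0 := by
  have h1 := Equiv.sum_comp (Equiv.mulRight (swap p q))
    (fun s : Perm (Fin k) => (Perm.sign s : ℤ) * g s)
  have h2 : ∀ s : Perm (Fin k), (Perm.sign (Equiv.mulRight (swap p q) s) : ℤ) *
      g (Equiv.mulRight (swap p q) s) = -((Perm.sign s : ℤ) * g s) := by
    intro s
    rw [Equiv.coe_mulRight, Perm.sign_mul, Perm.sign_swap hpq, hg s]
    push_cast
    ring
  rw [Finset.sum_congr rfl fun s _ => h2 s, Finset.sum_neg_distrib] at h1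
  omega

/-- Cramer's rule for translations. -/
lemma core {k : ℕ} (hk : 2 ≤ k) (f : Fin k → V → ℤ) (b : Fin k → Fin k → V) (i : Fin k) (x : V)
    (h : ∀ s : Perm (Fin k),
      ∑ j, f j (x - (∑ m ∈ Finset.univ.erase i, b m (s m)) - b j (s i)) = 1) :
    ∑ s : Perm (Fin k), (Perm.sign s : ℤ) * f i (x - ∑ j, b j (s j)) = 0 := by
  have h0 : ∑ s : Perm (Fin k), (Perm.sign s : ℤ) * 1 = 0 :=
    alt_zero (fun _ => 1) (⟨0, by omega⟩ : Fin k) ⟨1, by omega⟩
      (by simp [Fin.ext_iff]) (fun _ => rfl)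
  have h1 : ∑ s : Perm (Fin k), (Perm.sign s : ℤ) *
      (∑ j, f j (x - (∑ m ∈ Finset.univ.erase i, b m (s m)) - b j (s i))) = 0 := by
    rw [← h0]
    exact Finset.sum_congr rfl fun s _ => by rw [h s]
  simp only [Finset.mul_sum] at h1
  rw [Finset.sum_comm] at h1
  rw [← Finset.add_sum_erase _ _ (Finset.mem_univ i)] at h1
  have h2 : ∑ j ∈ Finset.univ.erase i, ∑ s : Perm (Fin k), (Perm.sign s : ℤ) *
      f j (x - (∑ m ∈ Finset.univ.erase i, b m (s m)) - b j (s i)) = 0 := by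
    refine Finset.sum_eq_zero fun j hj => ?_
    have hji : j ≠ i := Finset.ne_of_mem_erase hj
    refine alt_zero (fun s => f j (x - (∑ m ∈ Finset.univ.erase i, b m (s m)) - b j (s i)))
      i j hji.symm (fun s => ?_)
    congr 1
    rw [← Finset.add_sum_erase _ _ hj, ← Finset.add_sum_erase (Finset.univ.erase i)
      (fun m => b m (s m)) hj]
    have e1 : ∀ m ∈ (Finset.univ.erase i).erase j, b m ((s * swap i j) m) = b m (s m) := by
      intro m hm
      have h3 := Finset.ne_of_mem_erase hm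
      have h4 := Finset.ne_of_mem_erase (Finset.mem_of_mem_erase hm)
      rw [Perm.mul_apply, Equiv.swap_apply_of_ne_of_ne h4 h3]
    rw [Finset.sum_congr rfl e1, Perm.mul_apply, Perm.mul_apply, Equiv.swap_apply_right,
      Equiv.swap_apply_left]
    abel
  rw [h2, add_zero] at h1
  rw [← h1]
  refine Finset.sum_congr rfl fun s _ => ?_
  congr 2
  rw [← Finset.add_sum_erase _ _ (Finset.mem_univ i)]
  abel

/-- The exponents of the determinant are different. -/
lemma inj {k : ℕ} (b : Fin k → Fin k → V) (δ : Fin k → ℝ) (hδ : ∀ l, 0 < δ l)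
    (h1 : ∀ l p q, p ≠ q → 4 * k * δ l ≤ ‖b p l - b q l‖)
    (h2 : ∀ l l' p, l < l' → ‖b p l'‖ ≤ δ l) :
    Function.Injective fun s : Perm (Fin k) => ∑ j, b j (s j) := by
  intro s s' hs
  by_contra hne
  simp only at hs
  have e : ∀ s : Perm (Fin k), ∑ j, b j (s j) = ∑ l, b (s⁻¹ l) l := by
    intro s
    rw [← Equiv.sum_comp s (fun l => b (s⁻¹ l) l)]
    exact Finset.sum_congr rfl fun j _ => by simp
  rw [e s, e s'] at hs
  have h3 : ∃ l, s⁻¹ l ≠ s'⁻¹ l := by
    by_contra hc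
    push Not at hc
    exact hne (inv_injective (Equiv.ext hc))
  obtain ⟨l, hl, hmin⟩ : ∃ l, s⁻¹ l ≠ s'⁻¹ l ∧ ∀ l', l' < l → s⁻¹ l' = s'⁻¹ l' := by
    obtain ⟨l, hl⟩ := h3
    induction l using WellFoundedLT.induction with
    | ind l ih =>
      by_cases hc : ∃ l', l' < l ∧ s⁻¹ l' ≠ s'⁻¹ l'
      · obtain ⟨l', h4, h5⟩ := hc
        exact ih l' h4 h5
      · push Not at hc
        exact ⟨l, hl, hc⟩
  have hk : (0 : ℝ) < k := by
    have := l.pos
    exact_mod_cast this
  have h4 : ∑ m, (b (s⁻¹ m) m - b (s'⁻¹ m) m) = 0 := by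
    rw [Finset.sum_sub_distrib, hs, sub_self]
  rw [← Finset.add_sum_erase _ _ (Finset.mem_univ l)] at h4
  have h5 : ‖∑ m ∈ Finset.univ.erase l, (b (s⁻¹ m) m - b (s'⁻¹ m) m)‖ ≤ k * (2 * δ l) := by
    refine (norm_sum_le _ _).trans ?_
    have h6 : ∀ m ∈ Finset.univ.erase l, ‖b (s⁻¹ m) m - b (s'⁻¹ m) m‖ ≤ 2 * δ l := by
      intro m hm
      rcases lt_trichotomy m l with h7 | h7 | h7
      · rw [hmin m h7, sub_self, norm_zero]
        linarith [hδ l]
      · exact absurd h7 (Finset.ne_of_mem_erase hm)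
      · calc ‖b (s⁻¹ m) m - b (s'⁻¹ m) m‖ ≤ ‖b (s⁻¹ m) m‖ + ‖b (s'⁻¹ m) m‖ := norm_sub_le _ _
          _ ≤ δ l + δ l := add_le_add (h2 l m _ h7) (h2 l m _ h7)
          _ = 2 * δ l := by ring
    refine (Finset.sum_le_card_nsmul _ _ _ h6).trans ?_
    rw [nsmul_eq_mul]
    refine mul_le_mul_of_nonneg_right ?_ (by linarith [hδ l])
    have h8 : (Finset.univ.erase l).card ≤ k := by
      refine (Finset.card_le_card (Finset.erase_subset _ _)).trans ?_
      rw [Finset.card_univ, Fintype.card_fin]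
    exact_mod_cast h8
  have h6 : b (s⁻¹ l) l - b (s'⁻¹ l) l =
      -∑ m ∈ Finset.univ.erase l, (b (s⁻¹ m) m - b (s'⁻¹ m) m) := by
    rw [eq_neg_iff_add_eq_zero]
    exact h4
  have h7 := h1 l _ _ hl
  rw [h6, norm_neg] at h7
  have h8 : 0 < k * δ l := mul_pos hk (hδ l)
  nlinarith

/-- A sequence with quickly decreasing bounds. -/
lemma seq (U : Ultrafilter ℕ) (G : ℕ → Prop) (hG : ∀ᶠ n in (U : Filter ℕ), G n)
    (bd gp : ℕ → ℝ) (hb : ∀ δ > (0 : ℝ), ∀ᶠ n in (U : Filter ℕ), bd n < δ)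
    (hg : ∀ n, 0 < gp n) (δ₀ : ℝ) (hδ : 0 < δ₀) :
    ∃ m : ℕ → ℕ, (∀ l, G (m l) ∧ bd (m l) < δ₀) ∧ ∀ l l', l < l' → bd (m l') < gp (m l) := by
  refine exists_seq_of_forall_finset_exists (fun n => G n ∧ bd n < δ₀)
    (fun x y => bd y < gp x) (fun s _ => ?_)
  have h1 : ∀ᶠ n in (U : Filter ℕ), ∀ x ∈ s, bd n < gp x :=
    (Filter.eventually_all_finset s).2 fun x _ => hb _ (hg x)
  obtain ⟨y, ⟨h2, h3⟩, h4⟩ := ((hG.and (hb δ₀ hδ)).and h1).exists
  exact ⟨y, ⟨h2, h3⟩, h4⟩

lemma gap {k : ℕ} (hk : 0 < k) (v : Fin k → V) :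
    ∃ δ : ℝ, 0 < δ ∧ (Function.Injective v → ∀ p q, p ≠ q → 4 * k * δ ≤ ‖v p - v q‖) := by
  classical
  by_cases hv : Function.Injective v
  · have : Nonempty (Fin k) := ⟨⟨0, hk⟩⟩
    obtain ⟨⟨p, q⟩, hm⟩ := Finite.exists_min
      (fun z : Fin k × Fin k => if z.1 = z.2 then (1 : ℝ) else ‖v z.1 - v z.2‖)
    have hk' : (0 : ℝ) < 4 * k := by
      have : (0 : ℝ) < k := by exact_mod_cast hk
      linarith
    set m : ℝ := if p = q then (1 : ℝ) else ‖v p - v q‖ with hmd
    have hm0 : 0 < m := by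
      rw [hmd]
      split_ifs with h
      · exact one_pos
      · exact norm_pos_iff.2 (sub_ne_zero.2 fun h' => h (hv h'))
    refine ⟨m / (4 * k), div_pos hm0 hk', fun _ p' q' h => ?_⟩
    have h1 := hm (p', q')
    simp only [h, if_false] at h1
    rw [mul_div_cancel₀ _ hk'.ne']
    exact h1
  · exact ⟨1, one_pos, fun h => absurd h hv⟩

end ANN

open ANN in
theorem p_ANN_of (hSPL : T_SPL) : T_ANN := by
  classical
  intro ι U cl a hC R hR
  obtain ⟨K, hK⟩ := hSPL
  have hfin := hC.fin (R + 2)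
  set F : Finset ι := hfin.toFinset with hF
  have hFm : ∀ i, i ∈ F ↔ ∃ y, ‖y‖ ≤ R + 2 ∧ cl y = i := by
    intro i
    rw [hF, Set.Finite.mem_toFinset]
    rfl
  set k : ℕ := F.card with hkd
  have hk : 2 ≤ k := by
    obtain ⟨x, y, hx, hy, hxy⟩ := hR
    have : 1 < F.card := Finset.one_lt_card.2 ⟨cl x, (hFm _).2 ⟨x, by linarith, rfl⟩,
      cl y, (hFm _).2 ⟨y, by linarith, rfl⟩, hxy⟩
    omega
  set e : Fin k ≃ F := F.equivFin.symm with he
  have hN : 2 ≤ k.factorial := by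
    calc 2 = Nat.factorial 2 := rfl
      _ ≤ k.factorial := Nat.factorial_le hk
  set N : ℕ := k.factorial with hNd
  refine ⟨N - 1, by omega, fun ε hε => ?_⟩
  -- scales
  set KK : ℝ := |K N N| + 1 with hKK
  have hKK0 : 0 < KK := by
    have := abs_nonneg (K N N)
    linarith
  obtain ⟨Q, hQd⟩ : ∃ Q : ℝ, Q = (N.factorial : ℝ) := ⟨_, rfl⟩
  have hQ0 : (0 : ℝ) < Q := by
    rw [hQd]
    exact_mod_cast N.factorial_pos
  obtain ⟨ε', hε', h1, h2, h3⟩ : ∃ ε' > (0 : ℝ), ε' ≤ 1 / 2 ∧ ε' * KK ≤ 1 / 2 ∧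
      Q * (2 * ε') < ε := by
    refine ⟨min (1 / 2) (min (1 / (2 * KK)) (ε / (4 * Q))), by positivity, min_le_left _ _,
      ?_, ?_⟩
    · calc min (1 / 2) (min (1 / (2 * KK)) (ε / (4 * Q))) * KK
          ≤ 1 / (2 * KK) * KK := mul_le_mul_of_nonneg_right
            ((min_le_right _ _).trans (min_le_left _ _)) hKK0.le
        _ = 1 / 2 := by field_simp
    · have h4 : min (1 / 2) (min (1 / (2 * KK)) (ε / (4 * Q))) ≤ ε / (4 * Q) :=
        (min_le_right _ _).trans (min_le_right _ _)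
      calc Q * (2 * min (1 / 2) (min (1 / (2 * KK)) (ε / (4 * Q))))
          ≤ Q * (2 * (ε / (4 * Q))) := by gcongr
        _ = ε / 2 := by field_simp; ring
        _ < ε := by linarith
  -- the sequence
  have hk0 : (0 : ℝ) < k := by
    have : 0 < k := by omega
    exact_mod_cast this
  have hcl : ∀ p : Fin k, ∃ y, ‖y‖ ≤ R + 2 ∧ cl y = e p := fun p => (hFm _).1 (e p).2
  have hlim : ∀ p : Fin k, Tendsto (fun n => ‖a (e p) n‖) (U : Filter ℕ) (𝓝 0) := by
    intro p
    obtain ⟨y, -, hy⟩ := hcl p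
    rw [← hy]
    exact tendsto_zero_iff_norm_tendsto_zero.1 (hC.lim y)
  have hsum : Tendsto (fun n => ∑ p : Fin k, ‖a (e p) n‖) (U : Filter ℕ) (𝓝 0) := by
    have := tendsto_finsetSum (Finset.univ : Finset (Fin k)) fun p _ => hlim p
    simpa using this
  have hsep : ∀ᶠ n in (U : Filter ℕ), Function.Injective fun p : Fin k => a (e p) n := by
    have h4 : ∀ p q : Fin k, ∀ᶠ n in (U : Filter ℕ), p ≠ q → a (e p) n ≠ a (e q) n := by
      intro p q
      by_cases hpq : p = q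
      · exact Filter.Eventually.of_forall fun n h => absurd hpq h
      · obtain ⟨y, -, hy⟩ := hcl p
        obtain ⟨y', -, hy'⟩ := hcl q
        have h5 : cl y ≠ cl y' := by
          rw [hy, hy']
          exact fun h => hpq (e.injective (Subtype.ext h))
        have h6 := hC.sep y y' h5
        rw [hy, hy'] at h6
        exact h6.mono fun n h _ => h
    have h5 := Filter.eventually_all.2 fun p => Filter.eventually_all.2 (h4 p)
    refine h5.mono fun n h p q hpq => ?_
    by_contra hne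
    exact h p q hne hpq
  choose gp hgp0 hgp using fun n => gap (k := k) (by omega) (fun p : Fin k => a (e p) n)
  obtain ⟨m, hm1, hm2⟩ := seq U _ (hsep.and (hC.cov (R + 1)))
    (fun n => ∑ p : Fin k, ‖a (e p) n‖) gp
    (fun δ hδ => hsum.eventually (gt_mem_nhds hδ)) hgp0 (ε' / k) (by positivity)
  set b : Fin k → Fin k → V := fun p l => a (e p) (m l) with hb
  have hble : ∀ p (l : ℕ), ‖a (e p) (m l)‖ ≤ ∑ p : Fin k, ‖a (e p) (m l)‖ := fun p l =>
    Finset.single_le_sum (f := fun p : Fin k => ‖a (e p) (m l)‖) (fun _ _ => norm_nonneg _)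
      (Finset.mem_univ p)
  have hbn : ∀ p l, ‖b p l‖ ≤ ε' / k := fun p l => (hble p l).trans (hm1 l).2.le
  have hinj : Function.Injective fun s : Perm (Fin k) => ∑ j, b j (s j) := by
    refine inj b (fun l => gp (m l)) (fun l => hgp0 _) (fun l p q hpq => ?_)
      (fun l l' p hl => ?_)
    · exact hgp (m l) (hm1 l).1.1 p q hpq
    · exact (hble p l').trans (hm2 l l' hl).le
  set E : Perm (Fin k) → V := fun s => ∑ j, b j (s j) with hE
  have hpart : ∀ (S : Finset (Fin k)) (s : Fin k → Fin k), ‖∑ j ∈ S, b j (s j)‖ ≤ ε' := by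
    intro S s
    refine (norm_sum_le _ _).trans ?_
    refine (Finset.sum_le_card_nsmul _ _ _ fun j _ => hbn j (s j)).trans ?_
    rw [nsmul_eq_mul]
    have h8 : (S.card : ℝ) ≤ k := by
      have := (Finset.card_le_card (Finset.subset_univ S))
      rw [Finset.card_univ, Fintype.card_fin] at this
      exact_mod_cast this
    calc (S.card : ℝ) * (ε' / k) ≤ k * (ε' / k) := by gcongr
      _ = ε' := by field_simp
  -- the cover
  set f : ι → V → ℤ := fun i => ii {y | cl y = i} with hf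
  have hcov : ∀ (l : Fin k) (y : V), ‖y‖ ≤ R + 1 → ∑ j, f (e j) (y - b j l) = 1 := by
    intro l y hy
    obtain ⟨i, ⟨⟨z, hz, hzi⟩, h4⟩, h5⟩ := (hm1 l).1.2 y hy
    have hiF : i ∈ F := (hFm i).2 ⟨z, by linarith, hzi⟩
    set j₀ : Fin k := e.symm ⟨i, hiF⟩ with hj₀
    have hej : (e j₀ : ι) = i := by rw [hj₀, Equiv.apply_symm_apply]
    rw [Finset.sum_eq_single j₀]
    · rw [hf]
      refine Pool.Agent.PTR.OL.ii_of_mem ?_
      change cl (y - a (e j₀) (m l)) = e j₀
      rw [hej]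
      exact h4
    · intro j _ hj
      rw [hf]
      refine Pool.Agent.PTR.OL.ii_of_not fun h6 => hj ?_
      have h7 : cl (y - a (e j) (m l)) = e j := h6
      have h8 := h5 (e j) ⟨?_, h7⟩
      · rw [← hej] at h8
        exact e.injective (Subtype.ext h8)
      · obtain ⟨z', hz', hz''⟩ := hcl j
        exact ⟨z', by linarith, hz''⟩
    · exact fun h => absurd (Finset.mem_univ _) h
  -- the relation
  have hrel : ∀ (i : ι) (x : V), ‖x‖ ≤ R + 1 / 2 →
      ∑ s : Perm (Fin k), (Perm.sign s : ℤ) * f i (x - E s) = 0 := by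
    intro i x hx
    by_cases hi : i ∈ F
    · set i₀ : Fin k := e.symm ⟨i, hi⟩ with hi₀
      have hei : (e i₀ : ι) = i := by rw [hi₀, Equiv.apply_symm_apply]
      have h4 := core hk (fun j => f (e j)) b i₀ x (fun s => hcov (s i₀) _ ?_)
      · simpa only [hei] using h4
      · calc ‖x - ∑ m ∈ Finset.univ.erase i₀, b m (s m)‖
            ≤ ‖x‖ + ‖∑ m ∈ Finset.univ.erase i₀, b m (s m)‖ := norm_sub_le _ _
          _ ≤ (R + 1 / 2) + ε' := add_le_add hx (hpart _ _)
          _ ≤ R + 1 := by linarith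
    · refine Finset.sum_eq_zero fun s _ => ?_
      have h5 : f i (x - E s) = 0 := by
        rw [hf]
        refine Pool.Agent.PTR.OL.ii_of_not fun h6 => hi ((hFm i).2 ⟨x - E s, ?_, h6⟩)
        calc ‖x - E s‖ ≤ ‖x‖ + ‖E s‖ := norm_sub_le _ _
          _ ≤ (R + 1 / 2) + ε' := add_le_add hx (hpart _ _)
          _ ≤ R + 2 := by linarith
      rw [h5, mul_zero]
  -- the data for SPL
  set D : Finset V := Finset.univ.image E with hD
  set c : V → ℤ := fun v => ∑ s : Perm (Fin k), if E s = v then (Perm.sign s : ℤ) else 0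
    with hc
  have hcE : ∀ s, c (E s) = (Perm.sign s : ℤ) := by
    intro s
    rw [hc]
    simp only [hinj.eq_iff]
    rw [Finset.sum_ite_eq' Finset.univ s fun s => (Perm.sign s : ℤ),
      if_pos (Finset.mem_univ s)]
  have hDs : ∀ g : V → ℤ, ∑ v ∈ D, g v = ∑ s, g (E s) := fun g =>
    Finset.sum_image fun s _ s' _ h => hinj h
  have hDc : D.card = N := by
    rw [hD, Finset.card_image_of_injective _ hinj, Finset.card_univ, Fintype.card_perm,
      Fintype.card_fin]
  have hab : ∑ v ∈ D, |c v| = (N : ℤ) := by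
    rw [hDs fun v => |c v|]
    have h4 : ∀ s ∈ (Finset.univ : Finset (Perm (Fin k))), |c (E s)| = 1 := by
      intro s _
      rw [hcE s]
      rcases Int.units_eq_one_or (Perm.sign s) with h | h <;> rw [h] <;> rfl
    rw [Finset.sum_congr rfl h4, Finset.sum_const, Finset.card_univ, Fintype.card_perm,
      Fintype.card_fin, nsmul_eq_mul, mul_one]
  have hv₀ : E 1 ∈ D := Finset.mem_image_of_mem _ (Finset.mem_univ _)
  have hDn : ∀ v ∈ D, ‖v‖ ≤ ε' := by
    intro v hv
    obtain ⟨s, -, rfl⟩ := Finset.mem_image.1 hv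
    exact hpart _ _
  have hDcl : ∀ v ∈ D, v ∈ AddSubgroup.closure {v | ∃ x n, v = a (cl x) n} := by
    intro v hv
    obtain ⟨s, -, rfl⟩ := Finset.mem_image.1 hv
    refine AddSubgroup.sum_mem _ fun j _ => AddSubgroup.subset_closure ?_
    obtain ⟨y, -, hy⟩ := hcl j
    exact ⟨y, m (s j), by rw [hy]⟩
  refine ⟨(D.erase (E 1)).toList.map fun v => N.factorial • (v - E 1), ?_, ?_, ?_, ?_⟩
  · rw [List.length_map, Finset.length_toList, Finset.card_erase_of_mem hv₀, hDc]
  · intro w hw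
    obtain ⟨v, hv, rfl⟩ := List.mem_map.1 hw
    rw [Finset.mem_toList] at hv
    have h4 := Finset.ne_of_mem_erase hv
    have h5 := Finset.mem_of_mem_erase hv
    refine ⟨fun h6 => ?_, ?_⟩
    · rcases smul_eq_zero.1 h6 with h7 | h7
      · exact absurd h7 N.factorial_pos.ne'
      · exact h4 (sub_eq_zero.1 h7)
    · calc ‖N.factorial • (v - E 1)‖ ≤ N.factorial * ‖v - E 1‖ := norm_nsmul_le
        _ = Q * ‖v - E 1‖ := by rw [hQd]
        _ ≤ Q * (2 * ε') := by
          refine mul_le_mul_of_nonneg_left ?_ hQ0.le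
          calc ‖v - E 1‖ ≤ ‖v‖ + ‖E 1‖ := norm_sub_le _ _
            _ ≤ ε' + ε' := add_le_add (hDn v h5) (hDn _ hv₀)
            _ = 2 * ε' := by ring
        _ < ε := h3
  · intro w hw
    obtain ⟨v, hv, rfl⟩ := List.mem_map.1 hw
    rw [Finset.mem_toList] at hv
    exact AddSubgroup.nsmul_mem _ (AddSubgroup.sub_mem _
      (hDcl v (Finset.mem_of_mem_erase hv)) (hDcl _ hv₀)) _
  · intro i x hx
    have h4 := hK D c (f i) (E 1) ε' (R + 1 / 2) ?_ hv₀ ?_ hDn ?_ x ?_
    · rw [hab, Int.toNat_natCast] at h4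
      exact h4
    · intro z
      by_cases h5 : z ∈ {y | cl y = i}
      · have h6 : f i z = 1 := Pool.Agent.PTR.OL.ii_of_mem h5
        rw [h6]
        norm_num
      · have h6 : f i z = 0 := Pool.Agent.PTR.OL.ii_of_not h5
        rw [h6]
        norm_num
    · rw [hcE]
      simp
    · intro z hz
      rw [hDs fun v => c v * f i (z - v)]
      simp only [hcE]
      exact hrel i z hz
    · rw [hab, Int.toNat_natCast, hDc]
      have h5 : ε' * K N N ≤ ε' * KK :=
        mul_le_mul_of_nonneg_left ((le_abs_self _).trans (by rw [hKK]; linarith)) hε'.le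
      linarith

end Pool.Agent.PTG
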