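import Pool.Agent.PTG.CRSc

/-!
# PTG: no crossings (CRS): isolated crossing points
-/

set_option autoImplicit false

namespace Pool.Agent.PTG

open Pool.Agent.PTR Filter Topology
open Pool.Agent.PTR.OL (V ii dif difs FLC InHull)

namespace CRS

lemma neg_ne {e : V} (h : e ≠ 0) : -e ≠ 0 := neg_ne_zero.2 h

/-- The coordinate along the second vector. -/
lemma ht_coord {e f x : V} (h : rdet e f ≠ 0) (a b : ℝ) :
    rdet e (x + a • e + b • f - x) / rdet e f = b := by
  rw [show x + a • e + b • f - x = a • e + b • f by abel, rd_add, rd_smul, rd_smul, rd_self,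
    mul_zero, zero_add, mul_div_assoc, div_self h, mul_one]

/-- Near a point of a line through an isolated crossing point the set `E` is the line. -/
lemma iso_line {E : Set V} {x : V} {D : Finset V} {δ r : ℝ} (h : Xd E x D δ)
    (hiso : ∀ p ∈ E, ‖p - x‖ < r → ∃ d ∈ D, ∃ s : ℝ, p = x + s • d) {d : V} (hd : d ∈ D) {s : ℝ}
    (hs : s ≠ 0) (hsr : ‖s • d‖ < r) :
    ∀ᶠ u in 𝓝 (x + s • d), (u ∈ E ↔ rdet d u = rdet d x) := by
  classical
  have h1 : ∀ᶠ u in 𝓝 (x + s • d), ‖u - x‖ < r := by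
    have hc : Continuous fun u : V => ‖u - x‖ := by fun_prop
    refine (isOpen_lt hc continuous_const).mem_nhds ?_
    show ‖x + s • d - x‖ < r
    rwa [add_sub_cancel_left]
  have h2 : ∀ᶠ u in 𝓝 (x + s • d), ∀ d' ∈ D, d' ≠ d → rdet d' (u - x) ≠ 0 := by
    rw [Filter.eventually_all_finset]
    intro d' hd'
    by_cases hne : d' = d
    · exact Filter.Eventually.of_forall fun q h' => absurd hne h'
    · have hc : Continuous fun u : V => rdet d' (u - x) := by
        unfold rdet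
        fun_prop
      have h3 : rdet d' (x + s • d - x) ≠ 0 := by
        rw [add_sub_cancel_left, rd_smul]
        exact mul_ne_zero hs fun h4 => hne (h.np d' hd' d hd h4)
      filter_upwards [(isOpen_ne_fun hc continuous_const).mem_nhds h3] with u hu _
      exact hu
  filter_upwards [h1, h2] with u hu1 hu2
  constructor
  · intro huE
    obtain ⟨d', hd', s', rfl⟩ := hiso u huE hu1
    by_cases hne : d' = d
    · rw [hne, rd_add, rd_smul, rd_self, mul_zero, add_zero]
    · exfalso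
      apply hu2 d' hd' hne
      rw [add_sub_cancel_left, rd_smul, rd_self, mul_zero]
  · intro hud
    obtain ⟨s', rfl⟩ := same_ht (h.ne d hd) hud.symm
    exact h.ln d hd s'

lemma iso_line' {E : Set V} {x : V} {D : Finset V} {δ r : ℝ} (h : Xd E x D δ)
    (hiso : ∀ p ∈ E, ‖p - x‖ < r → ∃ d ∈ D, ∃ s : ℝ, p = x + s • d) {e : V}
    (he : ∃ d ∈ D, ∃ k : ℝ, k ≠ 0 ∧ e = k • d) {s : ℝ}
    (hs : s ≠ 0) (hsr : ‖s • e‖ < r) :
    ∀ᶠ u in 𝓝 (x + s • e), (u ∈ E ↔ rdet e u = rdet e x) := by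
  obtain ⟨d, hd, k, hk, rfl⟩ := he
  rw [smul_smul] at hsr ⊢
  filter_upwards [iso_line h hiso hd (mul_ne_zero hs hk) hsr] with u hu
  rw [hu, rd_smul_left, rd_smul_left]
  exact ⟨fun h1 => by rw [h1], fun h1 => mul_left_cancel₀ hk h1⟩

/-- The two sides of a line through an isolated crossing point. -/
lemma sides {ι : Type} {E : Set V} {cl : V → ι}
    (hgerm : ∀ e p p' : V, e ≠ 0 → p ∈ E → rdet e p = rdet e p' → Smp E e p → Smp E e p' →
      ∃ r > (0 : ℝ), ∀ x y, ‖x - p‖ < r → ‖y - p'‖ < r → rdet e x = rdet e y →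
        x ∉ E → y ∉ E → cl x = cl y)
    {x : V} {D : Finset V} {δ r : ℝ} (h : Xd E x D δ)
    (hiso : ∀ p ∈ E, ‖p - x‖ < r → ∃ d ∈ D, ∃ s : ℝ, p = x + s • d) {e f : V}
    (he : ∃ d ∈ D, ∃ k : ℝ, k ≠ 0 ∧ e = k • d)
    (hef : rdet e f ≠ 0) {η : ℝ} (hη : 0 < η)
    (hηr : ‖(η / 2) • e‖ < r) {i j : ι}
    (hE : ∀ a b : ℝ, |a| < η → |b| < η → 0 < a * b → x + a • e + b • f ∉ E)
    (hj : ∀ a b : ℝ, 0 < a → a < η → 0 < b → b < η → cl (x + a • e + b • f) = j)
    (hi : ∀ a b : ℝ, 0 < a → a < η → 0 < b → b < η → cl (x + (-a) • e + (-b) • f) = i) :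
    ∀ᶠ u in 𝓝 (x + (η / 2) • e), (0 < rdet e (u - x) / rdet e f → cl u = j) ∧
      (rdet e (u - x) / rdet e f < 0 → cl u = i) := by
  have he0 : e ≠ 0 := by
    obtain ⟨d, hd, k, hk, rfl⟩ := he
    exact smul_ne_zero hk (h.ne d hd)
  have heln : x ∈ Ln E e := by
    obtain ⟨d, hd, k, hk, rfl⟩ := he
    exact (Ln_smul hk).2 (h.ln d hd)
  set p : V := x + (η / 2) • e with hp
  set p' : V := x + (-(η / 2)) • e with hp'
  have hη2 : η / 2 ≠ 0 := by positivity
  have hr' : ‖(-(η / 2)) • e‖ < r := by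
    rw [neg_smul, norm_neg]
    exact hηr
  have l1 := iso_line' h hiso he hη2 hηr
  have l2 := iso_line' h hiso he (neg_ne_zero.2 hη2) hr'
  have smp : ∀ q : V, (∀ᶠ u in 𝓝 q, (u ∈ E ↔ rdet e u = rdet e x)) → Smp E e q := by
    intro q hq
    obtain ⟨ρ, hρ, hb⟩ := Metric.eventually_nhds_iff.1 hq
    refine ⟨ρ, hρ, fun u v hu hv huv => ?_⟩
    rw [hb (show dist u q < ρ by rwa [dist_eq_norm]), hb (show dist v q < ρ by
      rwa [dist_eq_norm]), huv]
  have hpE : p ∈ E := heln (η / 2)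
  obtain ⟨r₁, hr₁, hg⟩ := hgerm e p p' he0 hpE (by
    simp only [hp, hp', rd_add, rd_smul, rd_self]; ring) (smp p l1) (smp p' l2)
  -- coordinates
  set ca : V → ℝ := fun q => rdet (q - x) f / rdet e f with hca
  set cb : V → ℝ := fun q => rdet e (q - x) / rdet e f with hcb
  have hcac : Continuous ca := by
    simp only [hca]; unfold rdet; fun_prop
  have hcbc : Continuous cb := by
    simp only [hcb]; unfold rdet; fun_prop
  have hq : ∀ q, q = x + ca q • e + cb q • f := by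
    intro q
    have h3 := coord hef (q - x)
    simp only [hca, hcb]
    rw [add_assoc, ← h3]
    abel
  have hca0 : ca p = η / 2 := by
    simp only [hca, hp]
    rw [add_sub_cancel_left, rd_smul_left, mul_div_assoc, div_self hef, mul_one]
  have hcb0 : cb p = 0 := by
    simp only [hcb, hp]
    rw [add_sub_cancel_left, rd_smul, rd_self, mul_zero, zero_div]
  have e1 : ∀ᶠ u in 𝓝 p, 0 < ca u ∧ ca u < η := by
    have : Tendsto ca (𝓝 p) (𝓝 (η / 2)) := by
      have := hcac.tendsto p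
      rwa [hca0] at this
    exact this.eventually (Ioo_mem_nhds (by linarith) (by linarith))
  have e2 : ∀ᶠ u in 𝓝 p, -η < cb u ∧ cb u < η := by
    have : Tendsto cb (𝓝 p) (𝓝 0) := by
      have := hcbc.tendsto p
      rwa [hcb0] at this
    exact this.eventually (Ioo_mem_nhds (by linarith) (by linarith))
  have e3 : ∀ᶠ u in 𝓝 p, ‖u - p‖ < r₁ := by
    have := Metric.ball_mem_nhds p hr₁
    filter_upwards [this] with u hu
    rwa [Metric.mem_ball, dist_eq_norm] at hu
  filter_upwards [e1, e2, e3, l1] with u h1 h2 h3 h4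
  constructor
  · intro hb
    rw [hq u]
    exact hj _ _ h1.1 h1.2 hb h2.2
  · intro hb
    have hb' : cb u < 0 := hb
    set v : V := u + (-η) • e with hv
    have hv1 : v = x + (-(η - ca u)) • e + (-(-cb u)) • f := by
      rw [hv]
      conv_lhs => rw [hq u]
      rw [neg_neg, neg_sub, sub_smul, neg_smul]
      abel
    have hvi : cl v = i := by
      rw [hv1]
      exact hi _ _ (by linarith) (by linarith) (by linarith) (by linarith)
    rw [← hvi]
    refine hg u v h3 ?_ ?_ ?_ ?_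
    · have : v - p' = u - p := by
        rw [hv, hp, hp', neg_smul, neg_smul]
        have h5 : η • e = (η / 2) • e + (η / 2) • e := by
          rw [← add_smul]; congr 1; ring
        rw [h5]
        abel
      rwa [this]
    · rw [hv, rd_add, rd_smul, rd_self, mul_zero, add_zero]
    · intro hcon
      have h5 := h4.1 hcon
      have h6 : cb u = 0 := by
        simp only [hcb]
        rw [rd_sub, h5, sub_self, zero_div]
      linarith
    · rw [hv1]
      refine hE _ _ ?_ ?_ ?_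
      · rw [abs_neg, abs_of_pos (by linarith)]
        linarith
      · rw [neg_neg, abs_of_neg hb']
        linarith
      · have h7 : 0 < η - ca u := by linarith
        nlinarith

/-- Isolated crossing points. -/
theorem conc {ι : Type} {E : Set V} {cl : V → ι} {Par : V → ι → ι → Prop}
    (hloc : ∀ x, x ∉ E → ∀ᶠ y in 𝓝 x, cl y = cl x)
    (hreg : ∀ p i, (∀ᶠ x in 𝓝 p, x ∉ E → cl x = i) → p ∉ E)
    (hgerm : ∀ e p p' : V, e ≠ 0 → p ∈ E → rdet e p = rdet e p' → Smp E e p → Smp E e p' →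
      ∃ r > (0 : ℝ), ∀ x y, ‖x - p‖ < r → ‖y - p'‖ < r → rdet e x = rdet e y →
        x ∉ E → y ∉ E → cl x = cl y)
    (htwo : ∀ (e p : V) (r : ℝ) (i j : ι), e ≠ 0 → 0 < r →
      (∀ x, ‖x - p‖ < r → rdet e x < rdet e p → cl x = i) →
      (∀ x, ‖x - p‖ < r → rdet e p < rdet e x → cl x = j) → Par e i j)
    (hpar : ∀ e e' i j, rdet e e' ≠ 0 → Par e i j → Par e' i j → i = j)
    {x : V} {D : Finset V} {δ r : ℝ} (h : Xd E x D δ) (hr : 0 < r)
    (hiso : ∀ p ∈ E, ‖p - x‖ < r → ∃ d ∈ D, ∃ s : ℝ, p = x + s • d) : False := by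
  classical
  obtain ⟨d₁, hd1⟩ : D.Nonempty := Finset.card_pos.1 (by have := h.two; omega)
  have hne' : (D.erase d₁).Nonempty := by
    rw [← Finset.card_pos, Finset.card_erase_of_mem hd1]
    have := h.two
    omega
  obtain ⟨d₂, hd2e, hmax⟩ := Finset.exists_max_image (D.erase d₁)
    (fun d => dt d₁ d / rdet d₁ d) hne'
  obtain ⟨hd21, hd2⟩ := Finset.mem_erase.1 hd2e
  have hΔ : rdet d₁ d₂ ≠ 0 := fun h0 => hd21 (h.np d₁ hd1 d₂ hd2 h0).symm
  -- `f` = `± d₂` with positive determinant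
  obtain ⟨f, hf, hfd⟩ : ∃ f : V, 0 < rdet d₁ f ∧ ∃ k : ℝ, k ≠ 0 ∧ f = k • d₂ := by
    rcases lt_or_gt_of_ne hΔ with h1 | h1
    · refine ⟨(-1 : ℝ) • d₂, ?_, -1, by norm_num, rfl⟩
      rw [rd_smul]
      linarith
    · exact ⟨(1 : ℝ) • d₂, by rw [rd_smul]; linarith, 1, one_ne_zero, rfl⟩
  obtain ⟨k, hk, hfk⟩ := hfd
  have hf0 : rdet d₁ f ≠ 0 := hf.ne'
  have hfD : ∃ d ∈ D, ∃ k : ℝ, k ≠ 0 ∧ f = k • d := ⟨d₂, hd2, k, hk, hfk⟩
  have hd1D : ∃ d ∈ D, ∃ k : ℝ, k ≠ 0 ∧ d₁ = k • d := ⟨d₁, hd1, 1, one_ne_zero, by rw [one_smul]⟩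
  have hff : rdet f d₂ = 0 := by rw [hfk, rd_smul_left, rd_self, mul_zero]
  -- the other directions are not in the sector
  have hQ : ∀ d ∈ D, d ≠ d₁ → d ≠ d₂ → 0 < rdet f d * rdet d₁ d := by
    intro d hd hne1 hne2
    have h1 := hmax d (Finset.mem_erase.2 ⟨hne1, hd⟩)
    have h2 : rdet d₁ d ≠ 0 := fun h0 => hne1 (h.np d₁ hd1 d hd h0).symm
    have h3 : rdet d₂ d ≠ 0 := fun h0 => hne2 (h.np d₂ hd2 d hd h0).symm
    have h4 : 0 < qd d₁ := by
      have h5 := h.ne d₁ hd1
      have h6 := qd_ge d₁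
      have h7 : 0 < ‖d₁‖ := norm_pos_iff.2 h5
      nlinarith
    have h5 : qd d₁ * rdet d₂ d = dt d₁ d₂ * rdet d₁ d - rdet d₁ d₂ * dt d₁ d := by
      simp only [qd, dt, rdet]
      ring
    have h6 : qd d₁ * (rdet d₂ d * rdet d₁ d * rdet d₁ d₂) =
        (rdet d₁ d) ^ 2 * (rdet d₁ d₂) ^ 2 * (dt d₁ d₂ / rdet d₁ d₂ - dt d₁ d / rdet d₁ d) := by
      rw [← mul_assoc, ← mul_assoc, h5]
      field_simp
    have h7 : 0 ≤ qd d₁ * (rdet d₂ d * rdet d₁ d * rdet d₁ d₂) := by
      rw [h6]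
      exact mul_nonneg (by positivity) (sub_nonneg.2 h1)
    have h8 : 0 ≤ rdet d₂ d * rdet d₁ d * rdet d₁ d₂ := nonneg_of_mul_nonneg_right h7 h4
    have h9 : rdet d₂ d * rdet d₁ d * rdet d₁ d₂ ≠ 0 := mul_ne_zero (mul_ne_zero h3 h2) hΔ
    have h10 : 0 < rdet d₂ d * rdet d₁ d * rdet d₁ d₂ := lt_of_le_of_ne h8 h9.symm
    have h11 : 0 < k * rdet d₁ d₂ := by
      rw [← rd_smul, ← hfk]
      exact hf
    rw [hfk, rd_smul_left]
    have h12 : 0 < (k * rdet d₁ d₂) * (rdet d₂ d * rdet d₁ d * rdet d₁ d₂) := mul_pos h11 h10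
    have h13 : (k * rdet d₁ d₂) * (rdet d₂ d * rdet d₁ d * rdet d₁ d₂) =
        (k * rdet d₂ d * rdet d₁ d) * (rdet d₁ d₂) ^ 2 := by ring
    rw [h13] at h12
    exact (mul_pos_iff_of_pos_right (by positivity)).1 h12
  have hden : 0 < ‖d₁‖ + ‖f‖ + 1 := by positivity
  set η : ℝ := r / (‖d₁‖ + ‖f‖ + 1) with hη
  have hη0 : 0 < η := div_pos hr hden
  have hηδ : η * (‖d₁‖ + ‖f‖ + 1) ≤ r := by rw [hη, div_mul_cancel₀ _ hden.ne']
  have hsec : ∀ a b : ℝ, |a| < η → |b| < η → 0 < a * b → x + a • d₁ + b • f ∉ E := by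
    intro a b ha hb hab hcon
    obtain ⟨d, hd, s, hs⟩ := hiso _ hcon (small hηδ hη0 ha hb)
    have hs' : a • d₁ + b • f = s • d := by
      rw [add_assoc] at hs
      exact add_left_cancel hs
    have k1 : b * rdet d₁ f = s * rdet d₁ d := by
      have := congrArg (rdet d₁) hs'
      rw [rd_add, rd_smul, rd_smul, rd_smul, rd_self, mul_zero, zero_add] at this
      exact this
    have k2 : a * rdet f d₁ = s * rdet f d := by
      have := congrArg (rdet f) hs'
      rw [rd_add, rd_smul, rd_smul, rd_smul, rd_self, mul_zero, add_zero] at this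
      exact this
    by_cases h1 : d = d₁
    · rw [h1, rd_self, mul_zero] at k1
      rcases mul_eq_zero.1 k1 with h2 | h2
      · rw [h2, mul_zero] at hab
        exact lt_irrefl _ hab
      · exact hf0 h2
    · by_cases h2 : d = d₂
      · rw [h2, hff, mul_zero] at k2
        rcases mul_eq_zero.1 k2 with h3 | h3
        · rw [h3, zero_mul] at hab
          exact lt_irrefl _ hab
        · rw [rd_swap, neg_eq_zero] at h3
          exact hf0 h3
      · have h3 := hQ d hd h1 h2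
        have h4 : a * b * (rdet d₁ f * rdet f d₁) = s ^ 2 * (rdet f d * rdet d₁ d) := by
          have : (b * rdet d₁ f) * (a * rdet f d₁) = (s * rdet d₁ d) * (s * rdet f d) := by
            rw [k1, k2]
          linarith [this, mul_comm (1 : ℝ) 1]
        have h5 : rdet f d₁ = - rdet d₁ f := rd_swap _ _
        rw [h5] at h4
        have h6 : 0 ≤ s ^ 2 * (rdet f d * rdet d₁ d) := mul_nonneg (sq_nonneg _) h3.le
        have h7 : 0 < a * b * (rdet d₁ f * rdet d₁ f) := mul_pos hab (mul_pos hf hf)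
        linarith
  -- the class function is constant on the two sectors
  have hquad : ∀ a b a' b' : ℝ, |a| < η → |b| < η → |a'| < η → |b'| < η →
      (0 < a ∧ 0 < b ∧ 0 < a' ∧ 0 < b') ∨ (a < 0 ∧ b < 0 ∧ a' < 0 ∧ b' < 0) →
      cl (x + a • d₁ + b • f) = cl (x + a' • d₁ + b' • f) := by
    intro a b a' b' ha hb ha' hb' hsign
    set g : ℝ → V := fun t => x + (a + t * (a' - a)) • d₁ + (b + t * (b' - b)) • f with hg
    have hgc : Continuous g := by
      simp only [hg]
      fun_prop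
    have hpre : IsPreconnected (g '' Set.Icc 0 1) := isPreconnected_Icc.image g hgc.continuousOn
    have hno : ∀ y ∈ g '' Set.Icc 0 1, y ∉ E := by
      rintro y ⟨t, ⟨ht0, ht1⟩, rfl⟩
      have e1 : a + t * (a' - a) = (1 - t) * a + t * a' := by ring
      have e2 : b + t * (b' - b) = (1 - t) * b + t * b' := by ring
      obtain ⟨q1, q2⟩ := abs_lt.1 ha
      obtain ⟨q3, q4⟩ := abs_lt.1 hb
      obtain ⟨q5, q6⟩ := abs_lt.1 ha'
      obtain ⟨q7, q8⟩ := abs_lt.1 hb'
      have ht2 : 0 ≤ 1 - t := by linarith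
      have conv : ∀ u v c : ℝ, u < c → v < c → (1 - t) * u + t * v < c := by
        intro u v c hu hv
        rcases eq_or_lt_of_le ht0 with h1 | h1
        · rw [← h1]; linarith
        · have h2 : t * v < t * c := mul_lt_mul_of_pos_left hv h1
          have h3 : (1 - t) * u ≤ (1 - t) * c := mul_le_mul_of_nonneg_left hu.le ht2
          linarith
      have conv' : ∀ u v c : ℝ, c < u → c < v → c < (1 - t) * u + t * v := by
        intro u v c hu hv
        have := conv (-u) (-v) (-c) (by linarith) (by linarith)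
        linarith
      refine hsec _ _ ?_ ?_ ?_
      · rw [e1, abs_lt]
        exact ⟨conv' _ _ _ q1 q5, conv _ _ _ q2 q6⟩
      · rw [e2, abs_lt]
        exact ⟨conv' _ _ _ q3 q7, conv _ _ _ q4 q8⟩
      · rw [e1, e2]
        rcases hsign with ⟨s1, s2, s3, s4⟩ | ⟨s1, s2, s3, s4⟩
        · exact mul_pos (conv' _ _ _ s1 s3) (conv' _ _ _ s2 s4)
        · exact mul_pos_of_neg_of_neg (conv _ _ _ s1 s3) (conv _ _ _ s2 s4)
    have h0 : x + a • d₁ + b • f = g 0 := by simp [hg]
    have h1 : x + a' • d₁ + b' • f = g 1 := by simp [hg]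
    rw [h0, h1]
    exact const_on hloc hpre hno ⟨0, by simp, rfl⟩ ⟨1, by simp, rfl⟩
  set j : ι := cl (x + (η / 2) • d₁ + (η / 2) • f) with hj
  set i : ι := cl (x + (-(η / 2)) • d₁ + (-(η / 2)) • f) with hi
  have hη2 : |η / 2| < η := by rw [abs_of_pos (by positivity)]; linarith
  have hη3 : |-(η / 2)| < η := by rw [abs_neg]; exact hη2
  have hj' : ∀ a b : ℝ, 0 < a → a < η → 0 < b → b < η → cl (x + a • d₁ + b • f) = j := by
    intro a b ha ha' hb hb'
    refine hquad a b _ _ (by rwa [abs_of_pos ha]) (by rwa [abs_of_pos hb]) hη2 hη2 (Or.inl ?_)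
    exact ⟨ha, hb, by positivity, by positivity⟩
  have hi' : ∀ a b : ℝ, 0 < a → a < η → 0 < b → b < η →
      cl (x + (-a) • d₁ + (-b) • f) = i := by
    intro a b ha ha' hb hb'
    refine hquad (-a) (-b) _ _ (by rwa [abs_neg, abs_of_pos ha])
      (by rwa [abs_neg, abs_of_pos hb]) hη3 hη3 (Or.inr ?_)
    exact ⟨by linarith, by linarith, by linarith, by linarith⟩
  have hn1 : ‖(η / 2) • d₁‖ < r := by
    have := small (d₁ := d₁) (d₂ := f) (x := x) (a := η / 2) (b := 0) hηδ hη0 hη2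
      (by rwa [abs_zero])
    rwa [zero_smul, add_zero, add_sub_cancel_left] at this
  have hn2 : ‖(η / 2) • f‖ < r := by
    have := small (d₁ := d₁) (d₂ := f) (x := x) (a := 0) (b := η / 2) hηδ hη0
      (by rwa [abs_zero]) hη2
    rwa [zero_smul, add_zero, add_sub_cancel_left] at this
  have comm : ∀ a b : ℝ, x + a • f + b • d₁ = x + b • d₁ + a • f := fun a b => by abel
  have S1 := sides hgerm h hiso hd1D hf0 hη0 hn1 hsec hj' hi'
  have S2 := sides (e := f) (f := d₁) hgerm h hiso hfD (by rw [rd_swap]; exact neg_ne_zero.2 hf0)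
    hη0 hn2 (fun a b ha hb hab => by
      rw [comm]
      exact hsec b a hb ha (by rwa [mul_comm]))
    (fun a b ha ha' hb hb' => by rw [comm]; exact hj' b a hb hb' ha ha')
    (fun a b ha ha' hb hb' => by rw [comm]; exact hi' b a hb hb' ha ha')
  have hd10 : d₁ ≠ 0 := h.ne d₁ hd1
  have hf00 : f ≠ 0 := by
    rintro rfl
    exact hf0 (by simp [rdet])
  have P1 : Par d₁ i j := by
    obtain ⟨ρ, hρ, hb⟩ := Metric.eventually_nhds_iff.1 S1
    have hht : rdet d₁ (x + (η / 2) • d₁) = rdet d₁ x := by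
      rw [rd_add, rd_smul, rd_self, mul_zero, add_zero]
    refine htwo d₁ (x + (η / 2) • d₁) ρ i j hd10 hρ (fun u hu h1 => ?_) (fun u hu h1 => ?_)
    · refine (hb (show dist u _ < ρ by rwa [dist_eq_norm])).2 ?_
      rw [hht] at h1
      exact div_neg_of_neg_of_pos (by rw [rd_sub]; linarith) hf
    · refine (hb (show dist u _ < ρ by rwa [dist_eq_norm])).1 ?_
      rw [hht] at h1
      exact div_pos (by rw [rd_sub]; linarith) hf
  have P2 : Par (-f) i j := by
    obtain ⟨ρ, hρ, hb⟩ := Metric.eventually_nhds_iff.1 S2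
    have hht : rdet (-f) (x + (η / 2) • f) = rdet (-f) x := by
      rw [rd_neg_left, rd_neg_left, rd_add, rd_smul, rd_self, mul_zero, add_zero]
    have hneg : rdet f d₁ < 0 := by rw [rd_swap]; linarith
    refine htwo (-f) (x + (η / 2) • f) ρ i j (neg_ne hf00) hρ (fun u hu h1 => ?_)
      (fun u hu h1 => ?_)
    · refine (hb (show dist u _ < ρ by rwa [dist_eq_norm])).2 ?_
      rw [hht, rd_neg_left, rd_neg_left] at h1
      exact div_neg_of_pos_of_neg (by rw [rd_sub]; linarith) hneg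
    · refine (hb (show dist u _ < ρ by rwa [dist_eq_norm])).1 ?_
      rw [hht, rd_neg_left, rd_neg_left] at h1
      exact div_pos_of_neg_of_neg (by rw [rd_sub]; linarith) hneg
  have hij : i = j := hpar d₁ (-f) i j (by
    rw [show rdet d₁ (-f) = - rdet d₁ f by simp only [rdet, Prod.fst_neg, Prod.snd_neg]; ring]
    exact neg_ne_zero.2 hf0) P1 P2
  have hpE : x + (η / 2) • d₁ ∈ E := h.ln d₁ hd1 (η / 2)
  refine hreg _ i ?_ hpE
  filter_upwards [S1, iso_line h hiso hd1 (by positivity : η / 2 ≠ 0) hn1] with u h1 h2 huE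
  have h3 : rdet d₁ (u - x) / rdet d₁ f ≠ 0 := by
    refine div_ne_zero ?_ hf0
    rw [rd_sub]
    exact sub_ne_zero.2 fun h4 => huE (h2.2 h4)
  rcases lt_or_gt_of_ne h3 with h4 | h4
  · exact h1.2 h4
  · rw [h1.1 h4, hij]

end CRS

end Pool.Agent.PTG
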