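import Pool.Agent.PTG.CRSb
import Pool.Agent.PTG.CRSd

/-!
# PTG: no crossings (CRS)
-/

set_option autoImplicit false

namespace Pool.Agent.PTG

open Pool.Agent.PTR Filter Topology
open Pool.Agent.PTR.OL (V ii dif difs FLC InHull)

open CRS in
/-- CRS. -/
theorem p_CRS : T_CRS := by
  intro ι E cl Par hE hint hloc hreg hfull hdirs hgerm htwo hpar hne
  have hcross : ∀ e e' c : V, rdet e e' ≠ 0 → c ∈ Ln E e → c ∈ Ln E e' → False := by
    intro e e' c he h1 h2
    obtain ⟨x, D, δ, h⟩ := exists_xd hE hint hfull hdirs he h1 h2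
    rcases Nat.lt_or_ge D.card 3 with h3 | h3
    · have h4 : D.card = 2 := by have := h.two; omega
      exact case2 hE hint hloc hreg hgerm h h4
    · obtain ⟨r, hr, hiso⟩ := isol hE hint h h3
      exact conc hloc hreg hgerm htwo hpar h hr hiso
  obtain ⟨p₀, hp₀⟩ := hne
  have hln : ∀ p ∈ E, ∃ d : V, d ≠ 0 ∧ p ∈ Ln E d := by
    intro p hp
    obtain ⟨D, hD, hcov⟩ := cover hE hint hfull hdirs ‖p‖
    obtain ⟨d, hd, hpd⟩ := hcov p hp le_rfl
    exact ⟨d, hD d hd, hpd⟩
  obtain ⟨e, he, hpe⟩ := hln p₀ hp₀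
  refine ⟨e, he, fun p hp => ?_⟩
  obtain ⟨d, hd, hpd⟩ := hln p hp
  by_cases hed : rdet e d = 0
  · have hde : rdet d e = 0 := by rw [rd_swap, hed, neg_zero]
    exact Ln_par hd he hde hpd
  · exfalso
    -- the two lines cross
    have h1 := coord hed (p - p₀)
    set a : ℝ := rdet (p - p₀) d / rdet e d with ha
    set b : ℝ := rdet e (p - p₀) / rdet e d with hb
    have h2 : p₀ + a • e = p + (-b) • d := by
      rw [neg_smul, ← sub_eq_add_neg, eq_sub_iff_add_eq, add_assoc, ← h1]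
      abel
    refine hcross e d (p₀ + a • e) hed (Ln_add hpe a) ?_
    rw [h2]
    exact Ln_add hpd (-b)

end Pool.Agent.PTG
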