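import Pool.Agent.PTG.Targets

/-!
# PTG: DET

Determinacy for vectors which are nearly parallel to the axis.
-/

set_option autoImplicit false

namespace Pool.Agent.PTG

open Pool.Agent.PTR Filter Topology
open Pool.Agent.PTR.OL (V ii dif difs FLC InHull)

/-- The differences vanish on the smaller slab. -/
lemma det_slab (α β : V →ₗ[ℝ] ℝ) (θ ε c : ℝ) (hθ : 0 ≤ θ) : ∀ (L : List V) (g : V → ℤ)
    (B a : ℝ), (∀ w ∈ L, |α w| ≤ ε ∧ |β w| ≤ θ * |α w|) →
    (∀ x, |α x - c| ≤ a → |β x| ≤ B → g x = 0) →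
    ∀ x, |α x - c| ≤ a - L.length * ε → |β x| ≤ B - L.length * ε * θ → difs L g x = 0 := by
  intro L
  induction L with
  | nil =>
    intro g B a _ h x h1 h2
    exact h x (by simpa using h1) (by simpa using h2)
  | cons w L ih =>
    intro g B a hL h x h1 h2
    have hL' : ∀ w ∈ L, |α w| ≤ ε ∧ |β w| ≤ θ * |α w| :=
      fun v hv => hL v (List.mem_cons_of_mem _ hv)
    obtain ⟨h3, h4⟩ := hL w List.mem_cons_self
    have hε : 0 ≤ ε := le_trans (abs_nonneg _) h3
    have h5 : |β w| ≤ θ * ε := h4.trans (mul_le_mul_of_nonneg_left h3 hθ)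
    have hθε : 0 ≤ θ * ε := mul_nonneg hθ hε
    rw [List.length_cons] at h1 h2
    push_cast at h1 h2
    have e1 : difs L g x = 0 := by
      refine ih g B a hL' h x ?_ ?_
      · linarith [h1]
      · nlinarith [h2]
    have e2 : difs L g (x - w) = 0 := by
      refine ih g B a hL' h (x - w) ?_ ?_
      · rw [map_sub]
        have : |α x - α w - c| ≤ |α x - c| + |α w| := by
          have := abs_sub (α x - c) (α w)
          calc |α x - α w - c| = |(α x - c) - α w| := by congr 1; ring
            _ ≤ _ := abs_sub _ _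
        linarith
      · rw [map_sub]
        have := abs_sub (β x) (β w)
        nlinarith
    show difs L g x - difs L g (x - w) = 0
    rw [e1, e2, sub_zero]

/-- The moved abscissa stays in the interval. -/
lemma det_btw {X c v A r : ℝ} (h1 : |X| ≤ A) (hc : |c| + r ≤ A) (h4 : r < |X - c|)
    (hv : |v| ≤ r) (h5 : |X - v - c| ≤ |X - c|) : |X - v| ≤ A := by
  have hx := abs_le.1 h1
  have hv1 := abs_le.1 hv
  have hr : 0 ≤ r := le_trans (abs_nonneg _) hv
  have hc1 := abs_le.1 (show |c| ≤ A - r by linarith)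
  have h6 := abs_le.1 h5
  rw [abs_le]
  rcases le_or_gt 0 (X - c) with h7 | h7
  · rw [abs_of_nonneg h7] at h4 h6
    constructor <;> linarith
  · rw [abs_of_neg h7] at h4 h6
    constructor <;> linarith

/-- Moving by multiples of `w` towards the slab. -/
lemma det_walk (α β : V →ₗ[ℝ] ℝ) (u : V → ℤ) (w : V) (A B B₁ r c θ : ℝ) (hθ : 0 ≤ θ)
    (hw : α w ≠ 0) (hwr : |α w| ≤ r) (hβ : |β w| ≤ θ * |α w|) (hcA : |c| + r ≤ A) (hB : B₁ ≤ B)
    (hu : ∀ x, |α x| ≤ A → |β x| ≤ B → u x = u (x - w))
    (h0 : ∀ x, |α x - c| ≤ r → |β x| ≤ B₁ → u x = 0) :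
    ∀ (N : ℕ) (x : V), |α x| ≤ A → |α x - c| ≤ r + N * |α w| → |β x| ≤ B₁ - N * (θ * |α w|) →
      u x = 0 := by
  have hw0 : 0 < |α w| := abs_pos.2 hw
  have hθw : 0 ≤ θ * |α w| := mul_nonneg hθ hw0.le
  intro N
  induction N with
  | zero =>
    intro x _ h2 h3
    exact h0 x (by simpa using h2) (by simpa using h3)
  | succ N ih =>
    intro x h1 h2 h3
    push_cast at h2 h3
    have hN : 0 ≤ (N : ℝ) * (θ * |α w|) := mul_nonneg (Nat.cast_nonneg _) hθw
    rcases le_or_gt (|α x - c|) r with h4 | h4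
    · exact h0 x h4 (by nlinarith)
    have key : ∀ v : V, |α v| = |α w| → |β v| = |β w| → |α x - α v - c| = |α x - c| - |α w| →
        |α x - α v| ≤ A → u (x - v) = 0 := by
      intro v hv1 hv2 hv3 hv4
      refine ih (x - v) (by rw [map_sub]; exact hv4) (by rw [map_sub, hv3]; linarith) ?_
      rw [map_sub]
      have := abs_sub (β x) (β v)
      rw [hv2] at this
      linarith
    -- the two directions
    have down : |α x - α w - c| = |α x - c| - |α w| → u x = 0 := by
      intro h5
      rw [hu x h1 (by linarith)]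
      exact key w rfl rfl h5 (det_btw h1 hcA h4 hwr (by rw [h5]; linarith))
    have up : |α x - α (-w) - c| = |α x - c| - |α w| → u x = 0 := by
      intro h5
      have h9 : |α x - α (-w)| ≤ A :=
        det_btw h1 hcA h4 (by rw [map_neg, abs_neg]; exact hwr) (by rw [h5]; linarith)
      have h10 : u (x - -w) = 0 :=
        key (-w) (by rw [map_neg, abs_neg]) (by rw [map_neg, abs_neg]) h5 h9
      have h11 : u (x - -w) = u (x - -w - w) := by
        refine hu _ (by rw [map_sub]; exact h9) ?_
        rw [map_sub]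
        have := abs_sub (β x) (β (-w))
        rw [map_neg, abs_neg] at this
        rw [map_neg]
        linarith
      rw [h11] at h10
      simpa using h10
    rcases le_or_gt 0 (α x - c) with h7 | h7
    · rw [abs_of_nonneg h7] at h4 up down
      rcases le_or_gt 0 (α w) with h8 | h8
      · rw [abs_of_nonneg h8] at *
        exact down (by rw [abs_of_nonneg (by linarith)]; ring)
      · rw [abs_of_neg h8] at *
        exact up (by rw [map_neg, abs_of_nonneg (by linarith)]; ring)
    · rw [abs_of_neg h7] at h4 up down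
      rcases le_or_gt 0 (α w) with h8 | h8
      · rw [abs_of_nonneg h8] at *
        exact up (by rw [map_neg, abs_of_nonpos (by linarith)]; ring)
      · rw [abs_of_neg h8] at *
        exact down (by rw [abs_of_nonpos (by linarith)]; ring)

theorem p_DET : T_DET := by
  intro α β L
  induction L with
  | nil =>
    intro g A B a c θ ε _ _ _ _ _ h1 _ x h3 h4
    exact h1 x h3 (by simpa using h4)
  | cons w L ih =>
    intro g A B a c θ ε hθ hε ha hA hL h1 h2 x h3 h4
    have hL' : ∀ w ∈ L, α w ≠ 0 ∧ |α w| ≤ ε ∧ |β w| ≤ θ * |α w| :=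
      fun v hv => hL v (List.mem_cons_of_mem _ hv)
    obtain ⟨hw0, hw1, hw2⟩ := hL w List.mem_cons_self
    rw [List.length_cons] at ha h4
    push_cast at ha h4
    have hm : 0 ≤ (L.length : ℝ) := Nat.cast_nonneg _
    have hmε : 0 ≤ (L.length : ℝ) * ε := mul_nonneg hm hε.le
    have hA0 : 0 ≤ A := by linarith [abs_nonneg c]
    have hAθ : 0 ≤ A * θ := mul_nonneg hA0 hθ
    have hmεθ : 0 ≤ (L.length : ℝ) * ε * θ := mul_nonneg hmε hθ
    have hεθ : 0 ≤ ε * θ := mul_nonneg hε.le hθ
    have hw0' : 0 < |α w| := abs_pos.2 hw0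
    set r : ℝ := a - L.length * ε with hr
    have hr2 : 2 * ε ≤ r := by rw [hr]; linarith
    have hs := det_slab α β θ ε c hθ L g B a (fun v hv => (hL' v hv).2) h2
    have hu : ∀ x, |α x| ≤ A → |β x| ≤ B → difs L g x = difs L g (x - w) := by
      intro x hx1 hx2
      exact sub_eq_zero.1 (h1 x hx1 hx2)
    have hwalk := det_walk α β (difs L g) w A B (B - L.length * ε * θ) r c θ hθ hw0
      (by linarith) hw2 (by linarith) (by linarith) hu hs
    have h5 : ∀ x, |α x| ≤ A → |β x| ≤ B - L.length * ε * θ - 2 * A * θ → difs L g x = 0 := by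
      intro x hx1 hx2
      rcases le_or_gt (|α x - c|) r with h6 | h6
      · exact hs x h6 (by linarith)
      set M : ℕ := ⌈(|α x - c| - r) / |α w|⌉₊ with hM
      have hM1 : (|α x - c| - r) / |α w| ≤ M := Nat.le_ceil _
      have hM2 : (M : ℝ) < (|α x - c| - r) / |α w| + 1 :=
        Nat.ceil_lt_add_one (div_nonneg (by linarith) hw0'.le)
      have hM3 : |α x - c| ≤ r + M * |α w| := by
        rw [div_le_iff₀ hw0'] at hM1
        linarith
      have hM4 : (M : ℝ) * |α w| ≤ 2 * A := by
        have : (M : ℝ) * |α w| < ((|α x - c| - r) / |α w| + 1) * |α w| :=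
          mul_lt_mul_of_pos_right hM2 hw0'
        rw [add_mul, div_mul_cancel₀ _ hw0'.ne', one_mul] at this
        have h7 : |α x - c| ≤ |α x| + |c| := abs_sub _ _
        linarith
      refine hwalk M x hx1 hM3 ?_
      have : (M : ℝ) * (θ * |α w|) ≤ 2 * A * θ := by
        calc (M : ℝ) * (θ * |α w|) = (M * |α w|) * θ := by ring
          _ ≤ 2 * A * θ := mul_le_mul_of_nonneg_right hM4 hθ
      linarith
    refine ih g A (B - L.length * ε * θ - 2 * A * θ) a c θ ε hθ hε (by linarith) hA hL' h5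
      (fun x hx1 hx2 => h2 x hx1 (by linarith)) x h3 ?_
    nlinarith [h4, hAθ, hmεθ, hεθ]

end Pool.Agent.PTG
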