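import Pool.Agent.PTG.Targets

/-!
# PTG: DIFF

The displacements of the classes differ by multiples of `e`.
-/

set_option autoImplicit false

namespace Pool.Agent.PTG

open Pool.Agent.PTR Filter Topology
open Pool.Agent.PTR.OL (V ii dif difs)

namespace DIFF

lemma dec_e {e n : V} (h : rdet e n = 1) (x : V) : x = rdet e x • n - rdet n x • e := by
  simp only [rdet] at h
  ext
  · simp only [rdet, Prod.fst_sub, Prod.smul_fst, smul_eq_mul]
    linear_combination -x.1 * h
  · simp only [rdet, Prod.snd_sub, Prod.smul_snd, smul_eq_mul]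
    linear_combination -x.2 * h

/-- The determinant as a linear map. -/
noncomputable def rdl (e : V) : V →ₗ[ℝ] ℝ where
  toFun := rdet e
  map_add' := rdet_add e
  map_smul' := by
    intro c x
    simp only [rdet, Prod.smul_snd, Prod.smul_fst, smul_eq_mul, RingHom.id_apply]
    ring

@[simp] lemma rdl_apply (e x : V) : rdl e x = rdet e x := rfl

lemma rdet_smul (e x : V) (c : ℝ) : rdet e (c • x) = c * rdet e x := by
  simp only [rdet, Prod.smul_snd, Prod.smul_fst, smul_eq_mul]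
  ring

/-- A class function is constant on the lines off the exceptional set. -/
lemma es_line {ι : Type} {cl : V → ι} {e : V}
    (hE : ∀ p ∈ Es cl, ∀ s : ℝ, p + s • e ∈ Es cl) {x : V} (hx : x ∉ Es cl) (s : ℝ) :
    cl (x + s • e) = cl x := by
  have hl : ∀ t : ℝ, x + t • e ∉ Es cl := by
    intro t ht
    have h1 := hE _ ht (-t)
    rw [neg_smul, add_neg_cancel_right] at h1
    exact hx h1
  have hlc : IsLocallyConstant fun t : ℝ => cl (x + t • e) := by
    rw [IsLocallyConstant.iff_eventually_eq]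
    intro t
    have h := es_not.1 (hl t)
    have hc : Continuous fun t' : ℝ => x + t' • e := by fun_prop
    exact (hc.tendsto t).eventually h
  have h2 := hlc.apply_eq_of_isPreconnected isPreconnected_univ (Set.mem_univ s)
    (Set.mem_univ (0 : ℝ))
  simpa using h2

/-- The class function is invariant in the direction `e`. -/
lemma cls_inv {ι : Type} {U : Ultrafilter ℕ} {cl : V → ι} {a : ι → ℕ → V} (h : Cls U cl a)
    {e : V} (hE : ∀ p ∈ Es cl, ∀ s : ℝ, p + s • e ∈ Es cl) (x : V) (s : ℝ) :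
    cl (x + s • e) = cl x := by
  obtain ⟨W, hW, hg⟩ := h.gen
  obtain ⟨w, ⟨h1, h2⟩, h3, h4⟩ := ((hg x).and (hg (x + s • e))).exists
  have h5 : x + w ∉ Es cl := es_not.2 h2
  have h6 := es_line hE h5 s
  rw [← h3, ← h1, ← h6]
  congr 1
  abel

lemma cls_inv' {ι : Type} {U : Ultrafilter ℕ} {cl : V → ι} {a : ι → ℕ → V} (h : Cls U cl a)
    {e n : V} (hn : rdet e n = 1) (hE : ∀ p ∈ Es cl, ∀ s : ℝ, p + s • e ∈ Es cl) {x y : V}
    (hxy : rdet e x = rdet e y) : cl x = cl y := by
  have h1 := dec_e hn x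
  have h2 := dec_e hn y
  have h3 : x = y + (rdet n y - rdet n x) • e := by
    rw [sub_smul]
    calc x = rdet e x • n - rdet n x • e := h1
      _ = (rdet e y • n - rdet n y • e) + (rdet n y • e - rdet n x • e) := by rw [hxy]; abel
      _ = y + (rdet n y • e - rdet n x • e) := by rw [← h2]
  rw [h3]
  exact cls_inv h hE y _

/-- The germ of the heights of the displacements. -/
noncomputable def clg {ι : Type} (U : Ultrafilter ℕ) (a : ι → ℕ → V) (e : V) (i : ι) :
    Germ (U : Filter ℕ) ℝ :=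
  ((fun n => rdet e (a i n) : ℕ → ℝ) : Germ (U : Filter ℕ) ℝ)

/-- A representative. -/
noncomputable def rp (U : Ultrafilter ℕ) (g : Germ (U : Filter ℕ) ℝ) : ℕ → ℝ :=
  Classical.choose (Quotient.exists_rep g)

lemma rp_spec (U : Ultrafilter ℕ) (g : Germ (U : Filter ℕ) ℝ) :
    ((rp U g : ℕ → ℝ) : Germ (U : Filter ℕ) ℝ) = g :=
  Classical.choose_spec (Quotient.exists_rep g)

noncomputable def ag (U : Ultrafilter ℕ) (n : V) (g : Germ (U : Filter ℕ) ℝ) (m : ℕ) : V :=
  rp U g m • n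

lemma ag_ev {ι : Type} (U : Ultrafilter ℕ) (a : ι → ℕ → V) (e n : V) (i : ι) :
    ∀ᶠ m in (U : Filter ℕ), ag U n (clg U a e i) m = rdet e (a i m) • n := by
  have h1 : (rp U (clg U a e i)) =ᶠ[(U : Filter ℕ)] fun m => rdet e (a i m) :=
    Germ.coe_eq.1 (rp_spec U (clg U a e i))
  filter_upwards [h1] with m hm
  rw [ag, hm]

lemma n_ne {e n : V} (hn : rdet e n = 1) : n ≠ 0 := by
  rintro rfl
  simp [rdet] at hn

/-- The heights of the displacements give a class function. -/
theorem cls_ht {ι : Type} {U : Ultrafilter ℕ} {cl : V → ι} {a : ι → ℕ → V} (h : Cls U cl a)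
    {e n : V} (hn : rdet e n = 1) (hE : ∀ p ∈ Es cl, ∀ s : ℝ, p + s • e ∈ Es cl) :
    Cls U (fun x => clg U a e (cl x)) (ag U n) := by
  have hn0 : n ≠ 0 := n_ne hn
  have hlim : ∀ x, Tendsto (ag U n (clg U a e (cl x))) (U : Filter ℕ) (𝓝 0) := by
    intro x
    have h1 : Tendsto (fun m => rdet e (a (cl x) m) • n) (U : Filter ℕ) (𝓝 0) := by
      have hc : Continuous fun z : V => rdet e z • n := by
        unfold rdet
        fun_prop
      have h2 := (hc.tendsto 0).comp (h.lim x)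
      have h3 : rdet e (0 : V) • n = 0 := by simp [rdet]
      rw [h3] at h2
      exact h2
    refine h1.congr' ?_
    filter_upwards [ag_ev U a e n (cl x)] with m hm
    exact hm.symm
  refine ⟨hlim, ?_, ?_, ?_, ?_⟩
  · -- sep
    intro x y hxy
    by_contra hcon
    have h1 : ∀ᶠ m in (U : Filter ℕ),
        ag U n (clg U a e (cl x)) m = ag U n (clg U a e (cl y)) m := by
      by_contra h2
      exact hcon (Ultrafilter.eventually_not.2 h2)
    apply hxy
    refine Germ.coe_eq.2 ?_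
    filter_upwards [h1, ag_ev U a e n (cl x), ag_ev U a e n (cl y)] with m h2 h3 h4
    rw [h3, h4] at h2
    exact smul_left_injective ℝ hn0 h2
  · -- fin
    intro R
    refine ((h.fin R).image (clg U a e)).subset ?_
    rintro g ⟨x, hx, rfl⟩
    exact ⟨cl x, ⟨x, hx, rfl⟩, rfl⟩
  · -- cov
    intro R
    have hf := h.fin (R + 1)
    have e1 : ∀ᶠ m in (U : Filter ℕ), ∀ i ∈ {i | ∃ x, ‖x‖ ≤ R + 1 ∧ cl x = i},
        ag U n (clg U a e i) m = rdet e (a i m) • n := by
      rw [Filter.eventually_all_finite hf]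
      intro i _
      exact ag_ev U a e n i
    have e2 : ∀ᶠ m in (U : Filter ℕ), ∀ i ∈ {i | ∃ x, ‖x‖ ≤ R + 1 ∧ cl x = i},
        ‖ag U n (clg U a e i) m‖ ≤ 1 := by
      rw [Filter.eventually_all_finite hf]
      rintro i ⟨x, _, rfl⟩
      have h2 := (hlim x).eventually (Metric.closedBall_mem_nhds (0 : V) one_pos)
      filter_upwards [h2] with m hm
      simpa using hm
    filter_upwards [e1, e2, h.cov R] with m h1 h2 h3 x hx
    obtain ⟨i, ⟨hi1, hi2⟩, hi3⟩ := h3 x hx
    refine ⟨clg U a e i, ⟨?_, ?_⟩, ?_⟩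
    · obtain ⟨y, hy, rfl⟩ := hi1
      exact ⟨y, hy, rfl⟩
    · have h4 : cl (x - ag U n (clg U a e i) m) = cl (x - a i m) := by
        apply cls_inv' h hn hE
        rw [h1 i hi1, rdet_sub, rdet_sub, rdet_smul, hn, mul_one]
      show clg U a e (cl (x - ag U n (clg U a e i) m)) = clg U a e i
      rw [h4, hi2]
    · rintro g ⟨⟨y, hy, rfl⟩, hg⟩
      obtain ⟨j, hj⟩ : ∃ j, j = cl (x - ag U n (clg U a e (cl y)) m) := ⟨_, rfl⟩
      have hg' : clg U a e j = clg U a e (cl y) := by
        rw [hj]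
        exact hg
      have hj1 : ∃ z, ‖z‖ ≤ R + 1 ∧ cl z = j := by
        refine ⟨x - ag U n (clg U a e (cl y)) m, ?_, hj.symm⟩
        calc ‖x - ag U n (clg U a e (cl y)) m‖ ≤ ‖x‖ + ‖ag U n (clg U a e (cl y)) m‖ :=
              norm_sub_le _ _
          _ ≤ R + 1 := add_le_add hx (h2 _ ⟨y, hy, rfl⟩)
      have h5 : cl (x - a j m) = j := by
        have h7 : cl (x - a j m) = cl (x - ag U n (clg U a e (cl y)) m) := by
          apply cls_inv' h hn hE
          rw [← hg', h1 j hj1, rdet_sub, rdet_sub, rdet_smul, hn, mul_one]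
        rw [h7, ← hj]
      have h6 := hi3 j ⟨hj1, h5⟩
      show clg U a e (cl y) = clg U a e i
      rw [← hg', h6]
  · -- gen
    obtain ⟨W, hW, hg⟩ := h.gen
    refine ⟨W, hW, fun x => ?_⟩
    filter_upwards [hg x] with w hw
    refine ⟨?_, ?_⟩
    · show clg U a e (cl (x + w)) = clg U a e (cl x)
      rw [hw.1]
    · filter_upwards [hw.2] with y hy
      show clg U a e (cl y) = clg U a e (cl (x + w))
      rw [hy]

lemma clo_mul {U : Ultrafilter ℕ} {X : Type} {cl : X → Germ (U : Filter ℕ) ℝ} {e n : V}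
    (hn : rdet e n = 1) {w : V}
    (hw : w ∈ AddSubgroup.closure {v | ∃ x m, v = ag U n (cl x) m}) : w = rdet e w • n := by
  induction hw using AddSubgroup.closure_induction with
  | mem v hv =>
    obtain ⟨x, m, rfl⟩ := hv
    rw [ag, rdet_smul, hn, mul_one]
  | zero => simp [rdet]
  | add u v _ _ hu hv =>
    rw [rdet_add, add_smul, ← hu, ← hv]
  | neg u _ hu =>
    have h1 : rdet e (-u) = -rdet e u := by
      simp only [rdet, Prod.snd_neg, Prod.fst_neg]
      ring
    rw [h1, neg_smul, ← hu]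

lemma exists_n {e : V} (he : e ≠ 0) : ∃ n : V, rdet e n = 1 := by
  have h0 : e.1 * e.1 + e.2 * e.2 ≠ 0 := by
    intro h
    apply he
    have h1 : e.1 = 0 := by nlinarith [mul_self_nonneg e.1, mul_self_nonneg e.2]
    have h2 : e.2 = 0 := by nlinarith [mul_self_nonneg e.1, mul_self_nonneg e.2]
    exact Prod.ext h1 h2
  refine ⟨(-e.2 / (e.1 * e.1 + e.2 * e.2), e.1 / (e.1 * e.1 + e.2 * e.2)), ?_⟩
  have h1 : e.1 * (e.1 / (e.1 * e.1 + e.2 * e.2)) - e.2 * (-e.2 / (e.1 * e.1 + e.2 * e.2)) =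
      (e.1 * e.1 + e.2 * e.2) / (e.1 * e.1 + e.2 * e.2) := by ring
  simp only [rdet]
  rw [h1, div_self h0]

end DIFF

open DIFF

theorem p_DIFF_of (hANN : T_ANN) (hDET : T_DET) : T_DIFF := by
  intro ι U cl a h e he hE x y
  obtain ⟨n, hn⟩ := exists_n he
  have hn0 : n ≠ 0 := n_ne hn
  have hnn : 0 < ‖n‖ := norm_pos_iff.2 hn0
  have hC := cls_ht h hn hE
  by_contra hcon
  have hne : clg U a e (cl x) ≠ clg U a e (cl y) := fun h1 => hcon (Germ.coe_eq.1 h1)
  -- a strip on which the class function is constant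
  obtain ⟨p, s, hs, hp⟩ := h.dns 0 1 one_pos
  have hstrip : ∀ z : V, |rdet e z - rdet e p| ≤ s / (2 * ‖n‖) → cl z = cl 0 := by
    intro z hz
    have h1 : cl z = cl (p + (rdet e z - rdet e p) • n) := by
      apply cls_inv' h hn hE
      rw [rdet_add, rdet_smul, hn]
      ring
    rw [h1]
    refine (hp _ ?_).2
    rw [add_sub_cancel_left, norm_smul, Real.norm_eq_abs]
    calc |rdet e z - rdet e p| * ‖n‖ ≤ s / (2 * ‖n‖) * ‖n‖ :=
          mul_le_mul_of_nonneg_right hz hnn.le
      _ = s / 2 := by field_simp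
      _ < s := by linarith
  set aa : ℝ := s / (2 * ‖n‖) with haa
  have haa0 : 0 < aa := by positivity
  set A : ℝ := max (|rdet e p| + aa) (max |rdet e x| |rdet e y|) with hA
  set B : ℝ := max |rdet n x| |rdet n y| with hB
  have hA1 : |rdet e p| + aa ≤ A := le_max_left _ _
  have hA2 : |rdet e x| ≤ A := (le_max_left _ _).trans (le_max_right _ _)
  have hA3 : |rdet e y| ≤ A := (le_max_right _ _).trans (le_max_right _ _)
  have hB2 : |rdet n x| ≤ B := le_max_left _ _
  have hB3 : |rdet n y| ≤ B := le_max_right _ _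
  have hbox : ∀ z : V, |rdet e z| ≤ A → |rdet n z| ≤ B → ‖z‖ ≤ A * ‖n‖ + B * ‖e‖ := by
    intro z h1 h2
    have h3 := dec_e hn z
    calc ‖z‖ = ‖rdet e z • n - rdet n z • e‖ := by rw [← h3]
      _ ≤ ‖rdet e z • n‖ + ‖rdet n z • e‖ := norm_sub_le _ _
      _ = |rdet e z| * ‖n‖ + |rdet n z| * ‖e‖ := by
          rw [norm_smul, norm_smul, Real.norm_eq_abs, Real.norm_eq_abs]
      _ ≤ A * ‖n‖ + B * ‖e‖ := add_le_add (mul_le_mul_of_nonneg_right h1 (norm_nonneg _))
          (mul_le_mul_of_nonneg_right h2 (norm_nonneg _))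
  obtain ⟨M, hM, hL⟩ := hANN _ U _ _ hC (A * ‖n‖ + B * ‖e‖)
    ⟨x, y, hbox x hA2 hB2, hbox y hA3 hB3, hne⟩
  set ε : ℝ := aa / (M + 1) with hε
  have hε0 : 0 < ε := by positivity
  obtain ⟨L, hL1, hL2, hL3, hL4⟩ := hL (ε * ‖n‖) (by positivity)
  have key : ∀ g : Germ (U : Filter ℕ) ℝ, g ≠ clg U a e (cl 0) → ∀ z : V, |rdet e z| ≤ A →
      |rdet n z| ≤ B → ii {v | clg U a e (cl v) = g} z = 0 := by
    intro g hg z hz1 hz2
    refine hDET (rdl e) (rdl n) L (ii {v | clg U a e (cl v) = g}) A B aa (rdet e p) 0 ε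
      le_rfl hε0 ?_ hA1 ?_ ?_ ?_ z hz1 ?_
    · rw [hL1, hε]
      have : ((M : ℝ) + 1) * (aa / (M + 1)) = aa := by field_simp
      exact this.le
    · intro w hw
      have h1 := clo_mul hn (hL3 w hw)
      obtain ⟨h2, h3⟩ := hL2 w hw
      have h4 : rdet e w ≠ 0 := by
        intro h5
        apply h2
        rw [h1, h5, zero_smul]
      refine ⟨h4, ?_, ?_⟩
      · rw [rdl_apply]
        rw [h1, norm_smul, Real.norm_eq_abs] at h3
        exact (lt_of_mul_lt_mul_right h3 hnn.le).le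
      · rw [rdl_apply, h1, rdet_smul, rdet_self, mul_zero, abs_zero]
        positivity
    · intro v hv1 hv2
      exact hL4 g v (hbox v hv1 hv2)
    · intro v hv1 _
      refine OL.ii_of_not fun h5 => ?_
      apply hg
      have h6 : clg U a e (cl v) = g := h5
      rw [← h6, hstrip v hv1]
    · rw [mul_zero, sub_zero]
      exact hz2
  have hconst : ∀ z : V, |rdet e z| ≤ A → |rdet n z| ≤ B →
      clg U a e (cl z) = clg U a e (cl 0) := by
    intro z h1 h2
    by_contra h3
    have h4 := key _ h3 z h1 h2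
    rw [OL.ii_of_mem (show z ∈ {v | clg U a e (cl v) = clg U a e (cl z)} from rfl)] at h4
    exact one_ne_zero h4
  exact hne ((hconst x hA2 hB2).trans (hconst y hA3 hB3).symm)

end Pool.Agent.PTG
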