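import Pool.Agent.PTG.Targets

/-!
# PTG: target ENT
-/

set_option autoImplicit false

namespace Pool.Agent.PTG

open Filter Topology

namespace ENT

/-- The indices for the point `x`. -/
noncomputable def Kx (q b x : ℝ) : Finset ℤ := Finset.Icc ⌈(-b - x) / q⌉ ⌊(b - x) / q⌋

lemma mem_Kx {q b x : ℝ} (hq : 0 < q) (k : ℤ) (h1 : -b ≤ x + k * q) (h2 : x + k * q ≤ b) :
    k ∈ Kx q b x := by
  rw [Kx, Finset.mem_Icc]
  constructor
  · rw [Int.ceil_le, div_le_iff₀ hq]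
    linarith
  · rw [Int.le_floor, le_div_iff₀ hq]
    linarith

lemma card_Kx {q b : ℝ} (hq : 0 < q) (hb : 0 ≤ b) (x : ℝ) :
    ((Kx q b x).card : ℝ) ≤ 2 * b / q + 1 := by
  rw [Kx, Int.card_Icc]
  have h1 : ((-b - x) / q) ≤ ⌈(-b - x) / q⌉ := Int.le_ceil _
  have h2 : (⌊(b - x) / q⌋ : ℝ) ≤ (b - x) / q := Int.floor_le _
  have h3 : ((b - x) / q) - ((-b - x) / q) = 2 * b / q := by ring
  have h4 : 0 ≤ 2 * b / q + 1 := by positivity
  rcases le_total 0 (⌊(b - x) / q⌋ + 1 - ⌈(-b - x) / q⌉) with h | h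
  · have h5 : (((⌊(b - x) / q⌋ + 1 - ⌈(-b - x) / q⌉).toNat : ℤ) : ℝ) =
        (⌊(b - x) / q⌋ : ℝ) + 1 - (⌈(-b - x) / q⌉ : ℝ) := by
      rw [Int.toNat_of_nonneg h]
      push_cast
      ring
    rw [Int.cast_natCast] at h5
    rw [h5]
    linarith
  · rw [Int.toNat_of_nonpos h]
    simpa using h4

lemma prd_eq {q b : ℝ} (hq : 0 < q) {f : ℝ → ℂ} (hf : ∀ y, y ∉ Set.Icc (-b) b → f y = 0)
    (x : ℝ) : prd q f x = ∑ k ∈ Kx q b x, f (x + k * q) := by
  rw [prd]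
  apply finsum_eq_sum_of_support_subset
  intro k hk
  rw [Function.mem_support] at hk
  have h : x + k * q ∈ Set.Icc (-b) b := by
    by_contra h
    exact hk (hf _ h)
  exact Finset.mem_coe.2 (mem_Kx hq k h.1 h.2)

lemma prd_norm {q b M : ℝ} (hq : 0 < q) (hb : 0 ≤ b) (hM : 0 ≤ M) {f : ℝ → ℂ}
    (hf : ∀ y, y ∉ Set.Icc (-b) b → f y = 0) (hfM : ∀ y, ‖f y‖ ≤ M) (x : ℝ) :
    ‖prd q f x‖ ≤ (2 * b / q + 1) * M := by
  rw [prd_eq hq hf x]
  calc ‖∑ k ∈ Kx q b x, f (x + k * q)‖ ≤ ∑ k ∈ Kx q b x, ‖f (x + k * q)‖ := norm_sum_le _ _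
    _ ≤ ∑ _k ∈ Kx q b x, M := Finset.sum_le_sum fun k _ => hfM _
    _ = (Kx q b x).card * M := by rw [Finset.sum_const, nsmul_eq_mul]
    _ ≤ _ := mul_le_mul_of_nonneg_right (card_Kx hq hb x) hM

/-- The bounded functions with support in `[-b, b]`. -/
def Ok (b : ℝ) (f : ℝ → ℂ) : Prop :=
  (∀ y, y ∉ Set.Icc (-b) b → f y = 0) ∧ ∃ M, 0 ≤ M ∧ ∀ y, ‖f y‖ ≤ M

lemma Ok.add {b : ℝ} {f g : ℝ → ℂ} (hf : Ok b f) (hg : Ok b g) : Ok b fun x => f x + g x := by
  obtain ⟨h1, M, hM, h2⟩ := hf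
  obtain ⟨h3, M', hM', h4⟩ := hg
  exact ⟨fun y hy => by simp [h1 y hy, h3 y hy], M + M', add_nonneg hM hM',
    fun y => (norm_add_le _ _).trans (add_le_add (h2 y) (h4 y))⟩

lemma Ok.smul {b : ℝ} {f : ℝ → ℂ} (c : ℂ) (hf : Ok b f) : Ok b fun x => c * f x := by
  obtain ⟨h1, M, hM, h2⟩ := hf
  refine ⟨fun y hy => by simp [h1 y hy], ‖c‖ * M, mul_nonneg (norm_nonneg _) hM, fun y => ?_⟩
  rw [norm_mul]
  exact mul_le_mul_of_nonneg_left (h2 y) (norm_nonneg _)

lemma L_bdd {q b : ℝ} (hq : 0 < q) (hb : 0 ≤ b) {f : ℝ → ℂ} (hf : Ok b f) :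
    ∃ B : ℝ, ∀ x, ‖prd q f x‖ ≤ B := by
  obtain ⟨h1, M, hM, h2⟩ := hf
  exact ⟨_, prd_norm hq hb hM h1 h2⟩

lemma L_add (m : MR) {q b : ℝ} (hq : 0 < q) (hb : 0 ≤ b) {f g : ℝ → ℂ} (hf : Ok b f)
    (hg : Ok b g) : m.E (prd q fun x => f x + g x) = m.E (prd q f) + m.E (prd q g) := by
  rw [← m.add _ _ (L_bdd hq hb hf) (L_bdd hq hb hg)]
  congr 1
  funext x
  rw [prd_eq hq (hf.add hg).1, prd_eq hq hf.1, prd_eq hq hg.1, Finset.sum_add_distrib]

lemma L_smul (m : MR) {q b : ℝ} (hq : 0 < q) (hb : 0 ≤ b) {f : ℝ → ℂ} (c : ℂ) (hf : Ok b f) :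
    m.E (prd q fun x => c * f x) = c * m.E (prd q f) := by
  rw [← m.smul c _ (L_bdd hq hb hf)]
  congr 1
  funext x
  rw [prd_eq hq (hf.smul c).1, prd_eq hq hf.1, Finset.mul_sum]

lemma L_bd (m : MR) {q b M : ℝ} (hq : 0 < q) (hb : 0 ≤ b) (hM : 0 ≤ M) {f : ℝ → ℂ}
    (hf : ∀ y, y ∉ Set.Icc (-b) b → f y = 0) (hfM : ∀ y, ‖f y‖ ≤ M) :
    ‖m.E (prd q f)‖ ≤ (2 * b / q + 1) * M :=
  m.bd _ _ (prd_norm hq hb hM hf hfM)

/-- The integrand. -/
noncomputable def fz (A : Set ℝ) (z : ℂ) (x : ℝ) : ℂ :=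
  Set.indicator A (fun _ => (1 : ℂ)) x * Complex.exp (-(z * x) * Complex.I)

/-- The integrand of the derivative. -/
noncomputable def dz (A : Set ℝ) (z : ℂ) (x : ℝ) : ℂ :=
  Set.indicator A (fun _ => (1 : ℂ)) x * (-x * Complex.I * Complex.exp (-(z * x) * Complex.I))

lemma ind_zero {A : Set ℝ} {b : ℝ} (hA : A ⊆ Set.Icc (-b) b) (c : ℂ) {y : ℝ}
    (hy : y ∉ Set.Icc (-b) b) : Set.indicator A (fun _ => (1 : ℂ)) y * c = 0 := by
  rw [Set.indicator_of_notMem (fun h => hy (hA h)), zero_mul]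

lemma ind_le {A : Set ℝ} {b M : ℝ} (hA : A ⊆ Set.Icc (-b) b) (hM : 0 ≤ M) {c : ℂ} {y : ℝ}
    (h : |y| ≤ b → ‖c‖ ≤ M) : ‖Set.indicator A (fun _ => (1 : ℂ)) y * c‖ ≤ M := by
  by_cases hy : y ∈ A
  · rw [Set.indicator_of_mem hy, one_mul]
    exact h (abs_le.2 (hA hy))
  · rw [Set.indicator_of_notMem hy, zero_mul, norm_zero]
    exact hM

lemma exp_le (z : ℂ) {b y : ℝ} (hy : |y| ≤ b) :
    ‖Complex.exp (-(z * y) * Complex.I)‖ ≤ Real.exp (‖z‖ * b) := by
  refine (Complex.norm_exp_le_exp_norm _).trans (Real.exp_le_exp.2 ?_)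
  rw [norm_mul, norm_neg, norm_mul, Complex.norm_I, mul_one, Complex.norm_real, Real.norm_eq_abs]
  exact mul_le_mul_of_nonneg_left hy (norm_nonneg _)

lemma fz_ok {A : Set ℝ} {b : ℝ} (hA : A ⊆ Set.Icc (-b) b) (z : ℂ) : Ok b (fz A z) :=
  ⟨fun _ hy => ind_zero hA _ hy, Real.exp (‖z‖ * b), (Real.exp_pos _).le,
    fun _ => ind_le hA (Real.exp_pos _).le fun hy => exp_le z hy⟩

lemma dz_ok {A : Set ℝ} {b : ℝ} (hb : 0 ≤ b) (hA : A ⊆ Set.Icc (-b) b) (z : ℂ) :
    Ok b (dz A z) := by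
  have h0 : 0 ≤ b * Real.exp (‖z‖ * b) := mul_nonneg hb (Real.exp_pos _).le
  refine ⟨fun _ hy => ind_zero hA _ hy, b * Real.exp (‖z‖ * b), h0,
    fun y => ind_le hA h0 fun hy => ?_⟩
  rw [norm_mul, norm_mul, norm_neg, Complex.norm_I, mul_one, Complex.norm_real, Real.norm_eq_abs]
  exact mul_le_mul hy (exp_le z hy) (norm_nonneg _) hb

lemma rem_le (z h : ℂ) {b y : ℝ} (hb : 0 ≤ b) (hy : |y| ≤ b) (hh : ‖h‖ * b ≤ 1) :
    ‖Complex.exp (-((z + h) * y) * Complex.I) - Complex.exp (-(z * y) * Complex.I)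
      - h * (-y * Complex.I * Complex.exp (-(z * y) * Complex.I))‖ ≤
      Real.exp (‖z‖ * b) * (b ^ 2 * ‖h‖ ^ 2) := by
  have h1 : Complex.exp (-((z + h) * y) * Complex.I) =
      Complex.exp (-(z * y) * Complex.I) * Complex.exp (-(h * y) * Complex.I) := by
    rw [← Complex.exp_add]
    congr 1
    ring
  have h2 : Complex.exp (-((z + h) * y) * Complex.I) - Complex.exp (-(z * y) * Complex.I)
      - h * (-y * Complex.I * Complex.exp (-(z * y) * Complex.I)) =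
      Complex.exp (-(z * y) * Complex.I) *
        (Complex.exp (-(h * y) * Complex.I) - 1 - (-(h * y) * Complex.I)) := by
    rw [h1]
    ring
  have h3 : ‖-(h * (y : ℂ)) * Complex.I‖ = ‖h‖ * |y| := by
    rw [norm_mul, norm_neg, norm_mul, Complex.norm_I, mul_one, Complex.norm_real,
      Real.norm_eq_abs]
  have h4 : ‖h‖ * |y| ≤ ‖h‖ * b := mul_le_mul_of_nonneg_left hy (norm_nonneg _)
  have h5 := Complex.norm_exp_sub_one_sub_id_le (x := -(h * (y : ℂ)) * Complex.I)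
    (by rw [h3]; linarith)
  rw [h2, norm_mul]
  refine mul_le_mul (exp_le z hy) (h5.trans ?_) (norm_nonneg _) (Real.exp_pos _).le
  rw [h3]
  calc (‖h‖ * |y|) ^ 2 ≤ (‖h‖ * b) ^ 2 :=
        pow_le_pow_left₀ (mul_nonneg (norm_nonneg _) (abs_nonneg _)) h4 2
    _ = b ^ 2 * ‖h‖ ^ 2 := by ring

lemma deriv_trf (m : MR) {q : ℝ} {A : Set ℝ} {b : ℝ} (hq : 0 < q) (hb : 0 ≤ b)
    (hA : A ⊆ Set.Icc (-b) b) (z : ℂ) :
    HasDerivAt (trf m q A) (m.E (prd q (dz A z))) z := by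
  rw [hasDerivAt_iff_isLittleO_nhds_zero]
  have hO : (fun h : ℂ => trf m q A (z + h) - trf m q A z - h • m.E (prd q (dz A z)))
      =O[𝓝 0] fun h : ℂ => h ^ 2 := by
    apply Asymptotics.IsBigO.of_bound ((2 * b / q + 1) * (Real.exp (‖z‖ * b) * b ^ 2))
    have hev : ∀ᶠ h : ℂ in 𝓝 0, ‖h‖ * b ≤ 1 := by
      have h1 : Tendsto (fun h : ℂ => ‖h‖ * b) (𝓝 0) (𝓝 (‖(0 : ℂ)‖ * b)) :=
        (continuous_norm.mul continuous_const).tendsto 0
      rw [norm_zero, zero_mul] at h1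
      exact (h1.eventually (gt_mem_nhds one_pos)).mono fun _ h => h.le
    filter_upwards [hev] with h hh
    set F : ℝ → ℂ := fun x => fz A (z + h) x - fz A z x - h * dz A z x with hF
    have hF0 : ∀ y, F y = Set.indicator A (fun _ => (1 : ℂ)) y *
        (Complex.exp (-((z + h) * y) * Complex.I) - Complex.exp (-(z * y) * Complex.I)
          - h * (-y * Complex.I * Complex.exp (-(z * y) * Complex.I))) := by
      intro y
      simp only [hF, fz, dz]
      ring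
    have hM : 0 ≤ Real.exp (‖z‖ * b) * (b ^ 2 * ‖h‖ ^ 2) := by positivity
    have hFs : ∀ y, y ∉ Set.Icc (-b) b → F y = 0 := fun y hy => by
      rw [hF0]
      exact ind_zero hA _ hy
    have hFb : ∀ y, ‖F y‖ ≤ Real.exp (‖z‖ * b) * (b ^ 2 * ‖h‖ ^ 2) := fun y => by
      rw [hF0]
      exact ind_le hA hM fun hy => rem_le z h hb hy hh
    have hFok : Ok b F := ⟨hFs, _, hM, hFb⟩
    have hsum : trf m q A (z + h) = m.E (prd q F) + (m.E (prd q (fz A z)) +
        h * m.E (prd q (dz A z))) := by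
      rw [← L_smul m hq hb h (dz_ok hb hA z), ← L_add m hq hb (fz_ok hA z)
        ((dz_ok hb hA z).smul h), ← L_add m hq hb hFok ((fz_ok hA z).add ((dz_ok hb hA z).smul h))]
      change m.E (prd q (fz A (z + h))) = _
      congr 2
      funext x
      simp only [hF]
      ring
    have hval : trf m q A (z + h) - trf m q A z - h • m.E (prd q (dz A z)) =
        m.E (prd q F) := by
      have h2 : trf m q A z = m.E (prd q (fz A z)) := rfl
      rw [hsum, h2, smul_eq_mul]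
      ring
    rw [hval]
    refine (L_bd m hq hb hM hFs hFb).trans (le_of_eq ?_)
    rw [norm_pow]
    ring
  exact hO.trans_isLittleO (Asymptotics.isLittleO_pow_id one_lt_two)

lemma E_sum (m : MR) (F : ℕ → ℝ → ℂ) (B : ℝ) (hF : ∀ j x, ‖F j x‖ ≤ B) (n : ℕ) :
    m.E (fun x => ∑ j ∈ Finset.range n, F j x) = ∑ j ∈ Finset.range n, m.E (F j) ∧
      ∃ B' : ℝ, ∀ x, ‖∑ j ∈ Finset.range n, F j x‖ ≤ B' := by
  have hbd : ∀ k : ℕ, ∃ B' : ℝ, ∀ x, ‖∑ j ∈ Finset.range k, F j x‖ ≤ B' := fun k =>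
    ⟨∑ _j ∈ Finset.range k, B, fun x => (norm_sum_le _ _).trans
      (Finset.sum_le_sum fun j _ => hF j x)⟩
  refine ⟨?_, hbd n⟩
  induction n with
  | zero =>
    simp only [Finset.range_zero, Finset.sum_empty]
    have h := m.smul 0 (fun _ => 1) ⟨1, fun _ => by simp⟩
    simpa using h
  | succ k ih =>
    rw [Finset.sum_range_succ, ← ih, ← m.add _ _ (hbd k) ⟨B, hF k⟩]
    congr 1
    funext x
    rw [Finset.sum_range_succ]

end ENT

open ENT

theorem p_ENT : T_ENT := by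
  intro m q A hq ⟨b₀, hA₀⟩
  obtain ⟨b, hb, hA⟩ : ∃ b : ℝ, 0 ≤ b ∧ A ⊆ Set.Icc (-b) b :=
    ⟨|b₀|, abs_nonneg _, fun x hx => ⟨by
      have := (hA₀ hx).1
      have := le_abs_self b₀
      linarith, by
      have := (hA₀ hx).2
      have := le_abs_self b₀
      linarith⟩⟩
  refine ⟨fun z => (deriv_trf m hq hb hA z).differentiableAt, ?_⟩
  rintro ⟨u, v, huv, hsub⟩ h0
  -- the real function
  set g : ℝ → ℝ := fun x => ∑ k ∈ Kx q b x, Set.indicator A (fun _ => (1 : ℝ)) (x + k * q)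
    with hg
  have hind : ∀ y : ℝ, 0 ≤ Set.indicator A (fun _ => (1 : ℝ)) y := fun y =>
    Set.indicator_nonneg (fun _ _ => zero_le_one) y
  have hg0 : ∀ x, 0 ≤ g x := fun x => Finset.sum_nonneg fun k _ => hind _
  have hfz : ∀ x, prd q (fz A 0) x = (g x : ℂ) := by
    intro x
    rw [prd_eq hq (fz_ok hA 0).1, hg]
    push_cast
    refine Finset.sum_congr rfl fun k _ => ?_
    rw [fz]
    by_cases hx : x + k * q ∈ A
    · rw [Set.indicator_of_mem hx, Set.indicator_of_mem hx]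
      simp
    · rw [Set.indicator_of_notMem hx, Set.indicator_of_notMem hx]
      simp
  have hE : m.E (fun x => (g x : ℂ)) = 0 := by
    rw [← h0]
    change _ = m.E (prd q (fz A 0))
    congr 1
    funext x
    rw [hfz]
  obtain ⟨B, hB⟩ := L_bdd hq hb (fz_ok hA 0)
  have hgB : ∀ x, ‖(g x : ℂ)‖ ≤ B := fun x => by
    rw [← hfz]
    exact hB x
  set δ : ℝ := (v - u) / 2 with hδ
  have hδ0 : 0 < δ := by
    rw [hδ]
    linarith
  obtain ⟨N, hN⟩ := exists_nat_gt (q / δ + 1)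
  have hcov : ∀ x, 1 ≤ ∑ j ∈ Finset.range (N + 1), g (x + j * δ) := by
    intro x
    -- choose k
    set k : ℤ := ⌈(u - q - x) / q⌉ with hk
    have hk1 : u - q ≤ x + k * q := by
      have h1 := Int.le_ceil ((u - q - x) / q)
      rw [div_le_iff₀ hq] at h1
      linarith
    have hk2 : x + k * q < u := by
      have h1 := Int.ceil_lt_add_one ((u - q - x) / q)
      rw [← hk] at h1
      have h2 : (k : ℝ) * q < ((u - q - x) / q + 1) * q := mul_lt_mul_of_pos_right h1 hq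
      have h3 : ((u - q - x) / q + 1) * q = u - x := by
        field_simp
        ring
      linarith
    set s : ℝ := x + k * q with hs
    have hs0 : 0 ≤ (u - s) / δ := div_nonneg (by linarith) hδ0.le
    set j : ℕ := ⌊(u - s) / δ⌋₊ + 1 with hj
    have hj1 : (u - s) / δ < j := by
      rw [hj]
      push_cast
      exact Nat.lt_floor_add_one _
    have hj2 : (j : ℝ) ≤ (u - s) / δ + 1 := by
      rw [hj]
      push_cast
      linarith [Nat.floor_le hs0]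
    have hj3 : u - s < j * δ := (div_lt_iff₀ hδ0).1 hj1
    have hj4 : j * δ ≤ u - s + δ := by
      have h1 := mul_le_mul_of_nonneg_right hj2 hδ0.le
      have h2 : ((u - s) / δ + 1) * δ = u - s + δ := by
        field_simp
      linarith
    have hjN : j ∈ Finset.range (N + 1) := by
      rw [Finset.mem_range]
      have h1 : (u - s) / δ ≤ q / δ := div_le_div_of_nonneg_right (by linarith) hδ0.le
      have h2 : (j : ℝ) < N := by linarith
      have h3 : j < N := by exact_mod_cast h2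
      omega
    have hmem : x + j * δ + k * q ∈ A := by
      apply hsub
      constructor
      · linarith
      · have : δ < v - u := by
          rw [hδ]
          linarith
        linarith
    have hkK : k ∈ Kx q b (x + j * δ) := mem_Kx hq k (hA hmem).1 (hA hmem).2
    have h1 : 1 ≤ g (x + j * δ) := by
      have h2 := Finset.single_le_sum
        (f := fun i : ℤ => Set.indicator A (fun _ => (1 : ℝ)) (x + j * δ + i * q))
        (fun i _ => hind _) hkK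
      simp only [Set.indicator_of_mem hmem] at h2
      exact h2
    exact h1.trans (Finset.single_le_sum (f := fun i : ℕ => g (x + i * δ))
      (fun i _ => hg0 _) hjN)
  -- the sum of the translates
  obtain ⟨hS, B', hB'⟩ := E_sum m (fun j x => (g (x + j * δ) : ℂ)) B (fun j x => hgB _) (N + 1)
  have hSh : ∀ j : ℕ, m.E (fun x => (g (x + j * δ) : ℂ)) = 0 := fun j => by
    rw [← hE]
    exact m.shift (fun x => (g x : ℂ)) (j * δ) ⟨B, hgB⟩
  have hS0 : m.E (fun x => ∑ j ∈ Finset.range (N + 1), (g (x + j * δ) : ℂ)) = 0 := by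
    rw [hS]
    exact Finset.sum_eq_zero fun j _ => hSh j
  have hpos := m.pos (fun x => ∑ j ∈ Finset.range (N + 1), g (x + j * δ) - 1)
    (fun x => by linarith [hcov x]) ⟨B', fun x => by
      have h1 := hB' x
      have h2 : (∑ j ∈ Finset.range (N + 1), (g (x + j * δ) : ℂ)) =
          ((∑ j ∈ Finset.range (N + 1), g (x + j * δ) : ℝ) : ℂ) := by
        push_cast
        rfl
      rw [h2, Complex.norm_real, Real.norm_eq_abs] at h1
      have h3 := le_abs_self (∑ j ∈ Finset.range (N + 1), g (x + j * δ))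
      linarith⟩
  have hval : m.E (fun x => ((∑ j ∈ Finset.range (N + 1), g (x + j * δ) - 1 : ℝ) : ℂ)) =
      -1 := by
    have h1 : (fun x : ℝ => ((∑ j ∈ Finset.range (N + 1), g (x + j * δ) - 1 : ℝ) : ℂ)) =
        fun x => (∑ j ∈ Finset.range (N + 1), (g (x + j * δ) : ℂ)) + (-1) * 1 := by
      funext x
      push_cast
      ring
    rw [h1, m.add _ _ ⟨B', hB'⟩ ⟨1, fun _ => by simp⟩, hS0,
      m.smul (-1) (fun _ => 1) ⟨1, fun _ => by simp⟩, m.one]
    ring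
  rw [hval] at hpos
  norm_num at hpos

end Pool.Agent.PTG
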