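import Pool.Agent.PTG.Targets

/-!
# PTG: the line through a nearest point (job PTG-FULL)
-/

set_option autoImplicit false

namespace Pool.Agent.PTG

open Pool.Agent.PTR Filter Topology
open Pool.Agent.PTR.OL (V ii dif difs FLC InHull)

namespace FULL

lemma dapp (L L' : List V) (u : V → ℤ) : difs (L ++ L') u = difs L (difs L' u) := by
  induction L with
  | nil => rfl
  | cons w L ih => rw [List.cons_append, OL.difs_cons, ih, OL.difs_cons]

lemma dsub (L : List V) (u v : V → ℤ) :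
    difs L (fun z => u z - v z) = fun z => difs L u z - difs L v z := by
  induction L with
  | nil => rfl
  | cons w L ih =>
    rw [OL.difs_cons, ih, OL.difs_cons, OL.difs_cons]
    funext z
    simp only [dif]
    ring

lemma dconst (L : List V) (hL : 0 < L.length) (c : ℤ) : difs L (fun _ => c) = fun _ => 0 := by
  induction L with
  | nil => simp at hL
  | cons w L ih =>
    rw [OL.difs_cons]
    rcases Nat.eq_zero_or_pos L.length with h | h
    · rw [List.length_eq_zero_iff.1 h]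
      funext z
      simp [dif, difs]
    · rw [ih h]
      funext z
      simp [dif]

lemma dloc (L : List V) (u : V → ℤ) (z : V) (r ε : ℝ) (hw : ∀ w ∈ L, ‖w‖ ≤ ε)
    (h0 : ∀ y, ‖y - z‖ ≤ r → u y = 0) (hε : 0 ≤ ε) :
    ∀ y, ‖y - z‖ + L.length * ε ≤ r → difs L u y = 0 := by
  induction L with
  | nil =>
    intro y hy
    exact h0 y (by simpa using hy)
  | cons w L ih =>
    intro y hy
    have ih' := ih fun w' hw' => hw w' (List.mem_cons_of_mem _ hw')
    have hw0 := hw w List.mem_cons_self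
    rw [List.length_cons] at hy
    push_cast at hy
    rw [OL.difs_cons]
    simp only [dif]
    rw [ih' y (by nlinarith [norm_nonneg w]), ih' (y - w) ?_, sub_self]
    have : ‖y - w - z‖ ≤ ‖y - z‖ + ‖w‖ := by
      calc ‖y - w - z‖ = ‖(y - z) - w‖ := by congr 1; abel
        _ ≤ _ := norm_sub_le _ _
    nlinarith

lemma dt_le (e v : V) : |dt e v| ≤ 2 * ‖e‖ * ‖v‖ := by
  have h1 : |e.1| ≤ ‖e‖ := norm_fst_le e
  have h2 : |e.2| ≤ ‖e‖ := norm_snd_le e
  have h3 : |v.1| ≤ ‖v‖ := norm_fst_le v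
  have h4 : |v.2| ≤ ‖v‖ := norm_snd_le v
  have h5 : |e.1 * v.1| ≤ ‖e‖ * ‖v‖ := by
    rw [abs_mul]; exact mul_le_mul h1 h3 (abs_nonneg _) (norm_nonneg _)
  have h6 : |e.2 * v.2| ≤ ‖e‖ * ‖v‖ := by
    rw [abs_mul]; exact mul_le_mul h2 h4 (abs_nonneg _) (norm_nonneg _)
  unfold dt
  have := abs_add_le (e.1 * v.1) (e.2 * v.2)
  linarith

lemma qd_pos {e : V} (he : e ≠ 0) : 0 < qd e := by
  unfold qd dt
  rcases eq_or_ne e.1 0 with h | h
  · have h2 : e.2 ≠ 0 := fun h2 => he (Prod.ext h h2)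
    have := mul_self_pos.2 h2
    nlinarith [mul_self_nonneg e.1]
  · have := mul_self_pos.2 h
    nlinarith [mul_self_nonneg e.2]

lemma dt_comm (u v : V) : dt u v = dt v u := by unfold dt; ring

/-- Coordinate along `e`. -/
noncomputable def co (e : V) : V →ₗ[ℝ] ℝ where
  toFun v := dt e v / qd e
  map_add' u v := by
    simp only [dt, Prod.fst_add, Prod.snd_add]
    ring
  map_smul' c v := by
    simp only [dt, Prod.smul_fst, Prod.smul_snd, smul_eq_mul, RingHom.id_apply]
    ring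

lemma co_apply (e v : V) : co e v = dt e v / qd e := rfl

lemma co_le {e : V} (he : e ≠ 0) (v : V) : |co e v| ≤ 2 * ‖e‖ / qd e * ‖v‖ := by
  rw [co_apply, abs_div, abs_of_pos (qd_pos he), div_mul_eq_mul_div]
  exact div_le_div_of_nonneg_right (dt_le e v) (qd_pos he).le

lemma decomp {e q : V} (he : e ≠ 0) (hq : q ≠ 0) (h : dt e q = 0) (v : V) :
    v = co e v • e + co q v • q := by
  have h1 := (qd_pos he).ne'
  have h2 := (qd_pos hq).ne'
  have h3 : qd e * qd q = (e.1 * q.2 - e.2 * q.1) ^ 2 := by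
    have : (e.1 * q.1 + e.2 * q.2) = 0 := h
    unfold qd dt
    linear_combination (e.1 * q.1 + e.2 * q.2) * this
  have hd : e.1 * q.2 - e.2 * q.1 ≠ 0 := by
    intro h0
    rw [h0] at h3
    exact mul_ne_zero h1 h2 (by simpa using h3)
  have hu : dt e (v - (co e v • e + co q v • q)) = 0 := by
    have hx : dt e (v - (co e v • e + co q v • q)) =
        dt e v - (co e v * qd e + co q v * dt e q) := by
      simp only [dt, qd, Prod.fst_sub, Prod.snd_sub, Prod.fst_add, Prod.snd_add, Prod.smul_fst,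
        Prod.smul_snd, smul_eq_mul]
      ring
    rw [hx, h, co_apply, div_mul_cancel₀ _ h1]
    ring
  have hv : dt q (v - (co e v • e + co q v • q)) = 0 := by
    have hx : dt q (v - (co e v • e + co q v • q)) =
        dt q v - (co e v * dt e q + co q v * qd q) := by
      simp only [dt, qd, Prod.fst_sub, Prod.snd_sub, Prod.fst_add, Prod.snd_add, Prod.smul_fst,
        Prod.smul_snd, smul_eq_mul]
      ring
    rw [hx, h, co_apply q, div_mul_cancel₀ _ h2]
    ring
  generalize hy : v - (co e v • e + co q v • q) = y at hu hv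
  have hy1 : y.1 = 0 := by
    have : (e.1 * q.2 - e.2 * q.1) * y.1 = 0 := by
      unfold dt at hu hv
      linear_combination q.2 * hu - e.2 * hv
    rcases mul_eq_zero.1 this with h | h
    · exact absurd h hd
    · exact h
  have hy2 : y.2 = 0 := by
    have : (e.1 * q.2 - e.2 * q.1) * y.2 = 0 := by
      unfold dt at hu hv
      linear_combination e.1 * hv - q.1 * hu
    rcases mul_eq_zero.1 this with h | h
    · exact absurd h hd
    · exact h
  have : y = 0 := Prod.ext hy1 hy2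
  rw [this] at hy
  exact sub_eq_zero.1 hy

lemma norm_dec {e q : V} (he : e ≠ 0) (hq : q ≠ 0) (h : dt e q = 0) (v : V) :
    ‖v‖ ≤ |co e v| * ‖e‖ + |co q v| * ‖q‖ := by
  calc ‖v‖ = ‖co e v • e + co q v • q‖ := by rw [← decomp he hq h v]
    _ ≤ ‖co e v • e‖ + ‖co q v • q‖ := norm_add_le _ _
    _ = _ := by rw [norm_smul, norm_smul, Real.norm_eq_abs, Real.norm_eq_abs]

lemma disc_const {ι : Type} {cl : V → ι} {x p : V} (h : Nrst (Es cl) x p) (y : V)
    (hy : qd (y - x) < qd (p - x)) : cl y = cl x := by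
  let _ : TopologicalSpace ι := ⊥
  have _ : DiscreteTopology ι := ⟨rfl⟩
  have hpre : IsPreconnected (segment ℝ x y) := (convex_segment x y).isPreconnected
  refine hpre.constant (f := cl) ?_ (right_mem_segment ℝ x y) (left_mem_segment ℝ x y)
  intro u hu
  have hu' : u ∉ Es cl := by
    intro hE
    have h1 := h.2.2 u hE
    rw [segment_eq_image'] at hu
    obtain ⟨t, ht, rfl⟩ := hu
    have h2 : qd (x + t • (y - x) - x) = t ^ 2 * qd (y - x) := by
      simp only [qd, dt, Prod.fst_sub, Prod.snd_sub, Prod.fst_add, Prod.snd_add, Prod.smul_fst,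
        Prod.smul_snd, smul_eq_mul]
      ring
    have h3 : 0 ≤ qd (y - x) := by
      unfold qd dt
      nlinarith [mul_self_nonneg (y - x).1, mul_self_nonneg (y - x).2]
    have h4 : t ^ 2 ≤ 1 := by nlinarith [ht.1, ht.2]
    rw [h2] at h1
    nlinarith
  have h5 : ∀ᶠ v in 𝓝 u, cl v = cl u := es_not.1 hu'
  have h6 : ContinuousAt cl u := by
    have : Tendsto cl (𝓝 u) (𝓝 (cl u)) := by
      rw [nhds_discrete ι, tendsto_pure]
      exact h5
    exact this
  exact h6.continuousWithinAt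

lemma ofFn_ex (L : List V) (M : ℕ) (h : L.length = M) : ∃ w : Fin M → V, L = List.ofFn w := by
  subst h
  exact ⟨L.get, (List.ofFn_get L).symm⟩

lemma pick {M : ℕ} (w : ℕ → Fin M → V) (q : V) : ∃ J : Finset (Fin M), ∃ κ > (0 : ℝ),
    ∀ θ > (0 : ℝ), ∀ N : ℕ, ∃ n ≥ N, (∀ j ∈ J, κ * ‖w n j‖ ≤ |dt q (w n j)|) ∧
      ∀ j, j ∉ J → |dt q (w n j)| ≤ θ * ‖w n j‖ := by
  classical
  let P : Fin M → Prop := fun j => ∃ κ > (0 : ℝ), ∀ᶠ n in (hyperfilter ℕ : Filter ℕ),
    κ * ‖w n j‖ ≤ |dt q (w n j)|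
  have hk : ∀ j, ∃ κ > (0 : ℝ), P j → ∀ᶠ n in (hyperfilter ℕ : Filter ℕ),
      κ * ‖w n j‖ ≤ |dt q (w n j)| := by
    intro j
    by_cases h : P j
    · obtain ⟨κ, h1, h2⟩ := h
      exact ⟨κ, h1, fun _ => h2⟩
    · exact ⟨1, one_pos, fun h' => absurd h' h⟩
  choose κ hκ0 hκ using hk
  obtain ⟨k, hk1, hk2⟩ : ∃ k > (0 : ℝ), ∀ j, k ≤ κ j := by
    have h1 : ∀ᶠ k in 𝓝[>] (0 : ℝ), ∀ j, k ≤ κ j := by
      rw [eventually_all]
      intro j
      have : ∀ᶠ k in 𝓝 (0 : ℝ), k ≤ κ j := Iic_mem_nhds (hκ0 j)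
      exact nhdsWithin_le_nhds this
    obtain ⟨k, h2, h3⟩ := (h1.and self_mem_nhdsWithin).exists
    exact ⟨k, h3, h2⟩
  refine ⟨Finset.univ.filter P, k, hk1, fun θ hθ N => ?_⟩
  have e1 : ∀ᶠ n in (hyperfilter ℕ : Filter ℕ), ∀ j, P j → k * ‖w n j‖ ≤ |dt q (w n j)| := by
    rw [eventually_all]
    intro j
    by_cases h : P j
    · filter_upwards [hκ j h] with n hn _
      exact (mul_le_mul_of_nonneg_right (hk2 j) (norm_nonneg _)).trans hn
    · exact Eventually.of_forall fun n h' => absurd h' h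
  have e2 : ∀ᶠ n in (hyperfilter ℕ : Filter ℕ), ∀ j, ¬ P j → |dt q (w n j)| ≤ θ * ‖w n j‖ := by
    rw [eventually_all]
    intro j
    by_cases h : P j
    · exact Eventually.of_forall fun n h' => absurd h h'
    · have h1 : ¬ ∀ᶠ n in (hyperfilter ℕ : Filter ℕ), θ * ‖w n j‖ ≤ |dt q (w n j)| :=
        fun h' => h ⟨θ, hθ, h'⟩
      have h2 := Ultrafilter.eventually_not.2 h1
      filter_upwards [h2] with n hn _
      exact (not_le.1 hn).le
  have e3 : ∀ᶠ n in (hyperfilter ℕ : Filter ℕ), N ≤ n := by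
    have h1 : (hyperfilter ℕ : Filter ℕ) ≤ atTop := by
      rw [← Nat.cofinite_eq_atTop]
      exact hyperfilter_le_cofinite
    exact h1 (eventually_ge_atTop N)
  obtain ⟨n, ⟨h1, h2⟩, h3⟩ := ((e1.and e2).and e3).exists
  exact ⟨n, h3, fun j hj => h1 j (Finset.mem_filter.1 hj).2,
    fun j hj => h2 j fun h => hj (Finset.mem_filter.2 ⟨Finset.mem_univ _, h⟩)⟩

lemma perm_split {M : ℕ} (w : Fin M → V) (J : Finset (Fin M)) :
    (List.ofFn w).Perm ((Jᶜ.toList).map w ++ (J.toList).map w) := by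
  classical
  rw [List.ofFn_eq_map, ← List.map_append]
  refine List.Perm.map _ ?_
  refine (List.perm_ext_iff_of_nodup (List.nodup_finRange M) ?_).2 fun j => ?_
  · rw [List.nodup_append]
    refine ⟨Finset.nodup_toList _, Finset.nodup_toList _, ?_⟩
    intro a ha b hb hab
    rw [Finset.mem_toList] at ha hb
    rw [hab] at ha
    exact (Finset.mem_compl.1 ha) hb
  · simp only [List.mem_finRange, List.mem_append, Finset.mem_toList, Finset.mem_compl, true_iff]
    exact (em (j ∈ J)).symm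

/-- It is enough that the indicator of one class is constant near `p`. -/
lemma fin_step {ι : Type} {cl : V → ι} {p : V} {c : ℤ}
    (h : ∀ᶠ y in 𝓝 p, ii {y | cl y = cl p} y - c = 0) : p ∉ Es cl := by
  refine es_not.2 ?_
  have h0 := h.self_of_nhds
  have h1 : ii {y | cl y = cl p} p = 1 := OL.ii_of_mem rfl
  filter_upwards [h] with y hy
  have h2 : ii {y | cl y = cl p} y = 1 := by
    have : ii {y | cl y = cl p} y = ii {y | cl y = cl p} p := by
      rw [sub_eq_zero.1 hy, sub_eq_zero.1 h0]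
    rw [this, h1]
  exact OL.ii_ne (T := {y | cl y = cl p}) (by rw [h2]; exact one_ne_zero)

end FULL

open FULL

theorem p_DIRS_of (hANN : T_ANN) (hTCH : T_TCH) : T_DIRS := by
  classical
  intro ι U cl a hC R
  by_cases hall : ∀ y y', ‖y‖ ≤ R + 1 → ‖y'‖ ≤ R + 1 → cl y = cl y'
  · refine ⟨∅, fun x p hN hp => ?_⟩
    exfalso
    have h1 : ∀ᶠ y in 𝓝 p, cl y = cl p := by
      have h2 : ∀ᶠ y in 𝓝 p, y ∈ Metric.ball p 1 := Metric.ball_mem_nhds p one_pos
      filter_upwards [h2] with y hy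
      refine hall y p ?_ (by linarith)
      rw [Metric.mem_ball, dist_eq_norm] at hy
      calc ‖y‖ = ‖p + (y - p)‖ := by congr 1; abel
        _ ≤ ‖p‖ + ‖y - p‖ := norm_add_le _ _
        _ ≤ _ := by linarith
    exact (es_not.2 h1) hN.2.1
  push Not at hall
  obtain ⟨y₀, y₁, hy₀, hy₁, hne⟩ := hall
  obtain ⟨M, hM, hL⟩ := hANN ι U cl a hC (R + 1) ⟨y₀, y₁, hy₀, hy₁, hne⟩
  have hL' : ∀ n : ℕ, ∃ w : Fin M → V, (∀ j, w j ≠ 0 ∧ ‖w j‖ < 1 / ((n : ℝ) + 1)) ∧
      ∀ (i : ι) (x : V), ‖x‖ ≤ R + 1 → difs (List.ofFn w) (ii {y | cl y = i}) x = 0 := by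
    intro n
    obtain ⟨L, h1, h2, _, h3⟩ := hL (1 / ((n : ℝ) + 1)) (by positivity)
    obtain ⟨w, rfl⟩ := ofFn_ex L M h1
    exact ⟨w, fun j => h2 _ (List.mem_ofFn.2 ⟨j, rfl⟩), h3⟩
  choose w hw hd using hL'
  -- limits of the unit vectors
  have hlim : ∀ j : Fin M, ∃ d : V, ‖d‖ = 1 ∧
      Tendsto (fun n => (‖w n j‖)⁻¹ • w n j) (hyperfilter ℕ : Filter ℕ) (𝓝 d) := by
    intro j
    have hc : IsCompact (Metric.sphere (0 : V) 1) := isCompact_sphere 0 1
    have h1 : ∀ n, (‖w n j‖)⁻¹ • w n j ∈ Metric.sphere (0 : V) 1 := by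
      intro n
      rw [mem_sphere_zero_iff_norm, norm_smul, norm_inv, norm_norm]
      exact inv_mul_cancel₀ (norm_ne_zero_iff.2 (hw n j).1)
    have h2 := hc.ultrafilter_le_nhds ((hyperfilter ℕ).map fun n => (‖w n j‖)⁻¹ • w n j) (by
      rw [le_principal_iff]
      exact Ultrafilter.mem_map.2 (Filter.univ_mem' h1))
    obtain ⟨d, hd1, hd2⟩ := h2
    exact ⟨d, mem_sphere_zero_iff_norm.1 hd1, hd2⟩
  choose d hd1 hd2 using hlim
  refine ⟨Finset.univ.image d, fun x p hN hp => ?_⟩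
  by_contra hcon
  push Not at hcon
  have hpos : ∀ j, 0 < |dt (d j) (p - x)| := by
    intro j
    refine abs_pos.2 (hcon (d j) (Finset.mem_image.2 ⟨j, Finset.mem_univ _, rfl⟩) ?_)
    intro h0
    have := hd1 j
    rw [h0, norm_zero] at this
    exact zero_ne_one this
  obtain ⟨κ, hκ, hκ2⟩ : ∃ k > (0 : ℝ), ∀ j, k < |dt (d j) (p - x)| := by
    have h1 : ∀ᶠ k in 𝓝[>] (0 : ℝ), ∀ j, k < |dt (d j) (p - x)| := by
      rw [eventually_all]
      intro j
      have : ∀ᶠ k in 𝓝 (0 : ℝ), k < |dt (d j) (p - x)| := Iio_mem_nhds (hpos j)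
      exact nhdsWithin_le_nhds this
    obtain ⟨k, h2, h3⟩ := (h1.and self_mem_nhdsWithin).exists
    exact ⟨k, h3, h2⟩
  have hxp : x ≠ p := fun h => hN.1 (h ▸ hN.2.1)
  obtain ⟨δ₀, hδ₀, hT⟩ := hTCH x p κ 1 M hκ one_pos hxp
  have e1 : ∀ᶠ n in (hyperfilter ℕ : Filter ℕ), ∀ j, κ * ‖w n j‖ ≤ |dt (p - x) (w n j)| := by
    rw [eventually_all]
    intro j
    have hcont : Continuous fun v : V => |dt v (p - x)| := by
      unfold dt
      fun_prop
    have h1 := (hcont.tendsto (d j)).comp (hd2 j)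
    have h2 : ∀ᶠ n in (hyperfilter ℕ : Filter ℕ),
        κ < ((fun v : V => |dt v (p - x)|) ∘ fun n => (‖w n j‖)⁻¹ • w n j) n :=
      h1.eventually (Ioi_mem_nhds (hκ2 j))
    filter_upwards [h2] with n hn
    have h3 : 0 < ‖w n j‖ := norm_pos_iff.2 (hw n j).1
    have h4 : dt ((‖w n j‖)⁻¹ • w n j) (p - x) = (‖w n j‖)⁻¹ * dt (p - x) (w n j) := by
      simp only [dt, Prod.smul_fst, Prod.smul_snd, smul_eq_mul]
      ring
    simp only [Function.comp_apply] at hn
    rw [h4, abs_mul, abs_of_pos (inv_pos.2 h3)] at hn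
    have h5 := mul_lt_mul_of_pos_right hn h3
    have h6 : (‖w n j‖)⁻¹ * |dt (p - x) (w n j)| * ‖w n j‖ = |dt (p - x) (w n j)| := by
      field_simp
    rw [h6] at h5
    exact h5.le
  have e2 : ∀ᶠ n : ℕ in (hyperfilter ℕ : Filter ℕ), 1 / ((n : ℝ) + 1) < δ₀ := by
    have h1 : (hyperfilter ℕ : Filter ℕ) ≤ atTop := by
      rw [← Nat.cofinite_eq_atTop]
      exact hyperfilter_le_cofinite
    have h2 := (tendsto_one_div_add_atTop_nhds_zero_nat (𝕜 := ℝ)).eventually (Iio_mem_nhds hδ₀)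
    exact h1 h2
  obtain ⟨n, h1, h2⟩ := (e1.and e2).exists
  set f : V → ℤ := ii {y | cl y = cl p} with hf
  have h3 := hT (List.ofFn (w n)) (List.length_ofFn) (fun v hv => by
    obtain ⟨j, rfl⟩ := List.mem_ofFn.1 hv
    exact ⟨(hw n j).1, ((hw n j).2).trans h2, h1 j⟩) (fun y => f y - f x) (fun y hy => by
      have := disc_const hN y hy
      rw [hf]
      have h4 : ii {y | cl y = cl p} y = ii {y | cl y = cl p} x :=
        OL.ii_congr (by simp only [Set.mem_ofPred_eq]; rw [this])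
      exact sub_eq_zero.2 h4) (fun y hy => by
      rw [dsub, dconst _ (by rw [List.length_ofFn]; exact hM)]
      simp only [sub_zero]
      refine hd n (cl p) y ?_
      calc ‖y‖ = ‖p + (y - p)‖ := by congr 1; abel
        _ ≤ ‖p‖ + ‖y - p‖ := norm_add_le _ _
        _ ≤ _ := by linarith)
  exact fin_step h3 hN.2.1

theorem p_FULL_of (hANN : T_ANN) (hDET : T_DET) (hTCH : T_TCH) : T_FULL := by
  classical
  intro ι U cl a hC x p hN e hdt s
  by_contra hz
  set z := p + s • e with hzdef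
  have he : e ≠ 0 := by
    rintro rfl
    apply hz
    rw [hzdef, smul_zero, add_zero]
    exact hN.2.1
  have hxp : x ≠ p := fun h => hN.1 (h ▸ hN.2.1)
  set q := p - x with hqdef
  have hq : q ≠ 0 := fun h => hxp (sub_eq_zero.1 h).symm
  have hz' : ∀ᶠ y in 𝓝 z, cl y = cl z := es_not.1 hz
  obtain ⟨r, hr, hrz⟩ := Metric.eventually_nhds_iff.1 hz'
  have hE0 : 0 < ‖e‖ := norm_pos_iff.2 he
  have hQ0 : 0 < ‖q‖ := norm_pos_iff.2 hq
  have hqe := qd_pos he
  have hqq := qd_pos hq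
  set b : ℝ := r / (8 * ‖e‖) with hb
  set B : ℝ := r / (8 * ‖q‖) with hB
  have hb0 : 0 < b := by positivity
  have hB0 : 0 < B := by positivity
  have hbE : b * ‖e‖ = r / 8 := by rw [hb]; field_simp
  have hBQ : B * ‖q‖ = r / 8 := by rw [hB]; field_simp
  set A : ℝ := |s| + b with hA
  have hA0 : 0 < A := by have := abs_nonneg s; linarith
  set R : ℝ := ‖p‖ + A * ‖e‖ + B * ‖q‖ + 1 with hR
  have hpR : ‖p‖ < R := by
    have h1 : 0 < A * ‖e‖ := mul_pos hA0 hE0
    have h2 : 0 < B * ‖q‖ := mul_pos hB0 hQ0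
    linarith
  by_cases hall : ∀ y y', ‖y‖ ≤ R → ‖y'‖ ≤ R → cl y = cl y'
  · have h1 : ∀ᶠ y in 𝓝 p, cl y = cl p := by
      have h2 : ∀ᶠ y in 𝓝 p, ‖y‖ < R := by
        have : Continuous fun y : V => ‖y‖ := continuous_norm
        exact (this.tendsto p).eventually (Iio_mem_nhds hpR)
      filter_upwards [h2] with y hy
      exact hall y p hy.le hpR.le
    exact (es_not.2 h1) hN.2.1
  push Not at hall
  obtain ⟨y₀, y₁, hy₀, hy₁, hne⟩ := hall
  obtain ⟨M, hM, hL⟩ := hANN ι U cl a hC R ⟨y₀, y₁, hy₀, hy₁, hne⟩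
  have hL' : ∀ n : ℕ, ∃ w : Fin M → V, (∀ j, w j ≠ 0 ∧ ‖w j‖ < 1 / ((n : ℝ) + 1)) ∧
      ∀ (i : ι) (x : V), ‖x‖ ≤ R → difs (List.ofFn w) (ii {y | cl y = i}) x = 0 := by
    intro n
    obtain ⟨L, h1, h2, _, h3⟩ := hL (1 / ((n : ℝ) + 1)) (by positivity)
    obtain ⟨w, rfl⟩ := ofFn_ex L M h1
    exact ⟨w, fun j => h2 _ (List.mem_ofFn.2 ⟨j, rfl⟩), h3⟩
  choose w hw hd using hL'
  obtain ⟨J, κ, hκ, hpick⟩ := pick w q
  -- constants
  have hM0 : (0 : ℝ) < M := by exact_mod_cast hM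
  set δ₁ : ℝ := min (A * (qd e / (2 * ‖e‖))) (B / 2 * (qd q / (2 * ‖q‖))) with hδ₁
  have hδ₁0 : 0 < δ₁ := by
    refine lt_min ?_ ?_ <;> positivity
  obtain ⟨δ₀, hδ₀, hT⟩ := hTCH x p κ δ₁ J.card hκ hδ₁0 hxp
  set θ : ℝ := B / (2 * (M * (2 * A + M))) with hθ
  have hθ0 : 0 < θ := by positivity
  set θ' : ℝ := min (qd q / (2 * ‖q‖)) (θ * qd q / (2 * ‖e‖)) with hθ'
  have hθ'0 : 0 < θ' := by
    refine lt_min ?_ ?_ <;> positivity
  set ε : ℝ := min 1 (b / (M + 1)) with hε
  have hε0 : 0 < ε := by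
    refine lt_min one_pos ?_
    positivity
  obtain ⟨N, hN1⟩ : ∃ N : ℕ, ∀ n : ℕ, N ≤ n → 1 / ((n : ℝ) + 1) <
      min δ₀ (min (ε * (qd e / (2 * ‖e‖))) (r / (4 * M))) := by
    have hp : 0 < min δ₀ (min (ε * (qd e / (2 * ‖e‖))) (r / (4 * M))) := by
      refine lt_min hδ₀ (lt_min ?_ ?_) <;> positivity
    have h2 := (tendsto_one_div_add_atTop_nhds_zero_nat (𝕜 := ℝ)).eventually (Iio_mem_nhds hp)
    exact eventually_atTop.1 h2
  obtain ⟨n, hn, hJ, hJc⟩ := hpick θ' hθ'0 N
  have hsm := hN1 n hn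
  have hw0 : ∀ j, w n j ≠ 0 := fun j => (hw n j).1
  have hwδ : ∀ j, ‖w n j‖ < δ₀ := fun j =>
    ((hw n j).2).trans (hsm.trans_le (min_le_left _ _))
  have hwε : ∀ j, ‖w n j‖ < ε * (qd e / (2 * ‖e‖)) := fun j =>
    ((hw n j).2).trans (hsm.trans_le ((min_le_right _ _).trans (min_le_left _ _)))
  have hwr : ∀ j, ‖w n j‖ < r / (4 * M) := fun j =>
    ((hw n j).2).trans (hsm.trans_le ((min_le_right _ _).trans (min_le_right _ _)))
  set L1 : List V := (Jᶜ.toList).map (w n) with hL1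
  set L2 : List V := (J.toList).map (w n) with hL2
  have hL1len : L1.length ≤ M := by
    rw [hL1, List.length_map, Finset.length_toList]
    exact (Finset.card_le_univ _).trans (by simp)
  have hL2len : L2.length ≤ M := by
    rw [hL2, List.length_map, Finset.length_toList]
    exact (Finset.card_le_univ _).trans (by simp)
  set f : V → ℤ := ii {y | cl y = cl p} with hf
  have hcomb : ∀ (c : ℤ) (y : V), ‖y‖ ≤ R → difs L1 (difs L2 fun v => f v - c) y = 0 := by
    intro c y hy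
    rw [← dapp, ← OL.difs_perm (perm_split (w n) J), dsub,
      dconst _ (by rw [List.length_ofFn]; exact hM)]
    simp only [sub_zero]
    exact hd n (cl p) y hy
  set g : V → ℤ := difs L2 fun v => f v - f z with hg
  have hball : ∀ v : V, |co e v| ≤ A → |co q v| ≤ B → ‖v + p‖ ≤ R := by
    intro v h1 h2
    have h3 := norm_dec he hq hdt v
    have h4 := norm_add_le v p
    have h5 : |co e v| * ‖e‖ ≤ A * ‖e‖ := mul_le_mul_of_nonneg_right h1 hE0.le
    have h6 : |co q v| * ‖q‖ ≤ B * ‖q‖ := mul_le_mul_of_nonneg_right h2 hQ0.le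
    linarith
  have hqcomm : dt e q = 0 := hdt
  -- determinacy
  have hdet := hDET (co e) (co q) L1 (fun v => g (v + p)) A B b s θ ε hθ0.le hε0
    (by
      have h1 : ε ≤ b / (M + 1) := min_le_right _ _
      have h2 : (L1.length : ℝ) ≤ M := by exact_mod_cast hL1len
      calc ((L1.length : ℝ) + 1) * ε ≤ (M + 1) * (b / (M + 1)) := by
            apply mul_le_mul (by linarith) h1 hε0.le (by linarith)
        _ = b := by field_simp)
    le_rfl
    (by
      intro v hv
      rw [hL1, List.mem_map] at hv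
      obtain ⟨j, hj, rfl⟩ := hv
      rw [Finset.mem_toList, Finset.mem_compl] at hj
      have h1 := hJc j hj
      have h2 := norm_dec he hq hdt (w n j)
      have h3 : 0 < ‖w n j‖ := norm_pos_iff.2 (hw0 j)
      have h4 : |co q (w n j)| ≤ θ' * ‖w n j‖ / qd q := by
        rw [co_apply, abs_div, abs_of_pos hqq]
        exact div_le_div_of_nonneg_right h1 hqq.le
      have h5 : |co q (w n j)| * ‖q‖ ≤ ‖w n j‖ / 2 := by
        have h6 : θ' ≤ qd q / (2 * ‖q‖) := min_le_left _ _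
        calc |co q (w n j)| * ‖q‖ ≤ (θ' * ‖w n j‖ / qd q) * ‖q‖ :=
              mul_le_mul_of_nonneg_right h4 hQ0.le
          _ ≤ ((qd q / (2 * ‖q‖)) * ‖w n j‖ / qd q) * ‖q‖ := by gcongr
          _ = ‖w n j‖ / 2 := by field_simp
      have h6 : ‖w n j‖ ≤ 2 * (|co e (w n j)| * ‖e‖) := by linarith
      have h7 : 0 < |co e (w n j)| := by
        by_contra hcon
        have : |co e (w n j)| = 0 := le_antisymm (not_lt.1 hcon) (abs_nonneg _)
        rw [this] at h6
        linarith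
      refine ⟨abs_pos.1 h7, ?_, ?_⟩
      · refine (co_le he _).trans ?_
        calc 2 * ‖e‖ / qd e * ‖w n j‖ ≤ 2 * ‖e‖ / qd e * (ε * (qd e / (2 * ‖e‖))) := by
              have := (hwε j).le
              gcongr
          _ = ε := by field_simp
      · have h8 : θ' ≤ θ * qd q / (2 * ‖e‖) := min_le_right _ _
        calc |co q (w n j)| ≤ θ' * ‖w n j‖ / qd q := h4
          _ ≤ (θ * qd q / (2 * ‖e‖)) * (2 * (|co e (w n j)| * ‖e‖)) / qd q := by gcongr
          _ = θ * |co e (w n j)| := by field_simp)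
    (by
      intro v h1 h2
      have h3 : difs L1 (fun v => g (v + p)) v = difs L1 g (v + p) := by
        rw [OL.difs_shift]
      rw [h3, hg]
      exact hcomb _ _ (hball v h1 h2))
    (by
      intro v h1 h2
      have h3 : ‖v + p - z‖ ≤ r / 4 := by
        have h4 : v + p - z = v - s • e := by rw [hzdef]; abel
        have h5 := norm_dec he hq hdt (v - s • e)
        have h6 : co e (v - s • e) = co e v - s := by
          rw [map_sub, map_smul, co_apply e e]
          have : dt e e / qd e = 1 := div_self hqe.ne'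
          rw [this, smul_eq_mul, mul_one]
        have h7 : co q (v - s • e) = co q v := by
          rw [map_sub, map_smul, co_apply q e, dt_comm, hdt]
          simp
        rw [h6, h7] at h5
        rw [h4]
        have h8 : |co e v - s| * ‖e‖ ≤ b * ‖e‖ := mul_le_mul_of_nonneg_right h1 hE0.le
        have h9 : |co q v| * ‖q‖ ≤ B * ‖q‖ := mul_le_mul_of_nonneg_right h2 hQ0.le
        linarith
      refine dloc L2 (fun v => f v - f z) z (r / 2) (r / (4 * M)) ?_ ?_ (by positivity)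
        (v + p) ?_
      · intro u hu
        rw [hL2, List.mem_map] at hu
        obtain ⟨j, _, rfl⟩ := hu
        exact (hwr j).le
      · intro y hy
        have h4 : cl y = cl z := hrz (by rw [dist_eq_norm]; linarith)
        have h5 : f y = f z := OL.ii_congr (by simp only [Set.mem_ofPred_eq]; rw [h4])
        exact sub_eq_zero.2 h5
      · have h4 : (L2.length : ℝ) ≤ M := by exact_mod_cast hL2len
        have h5 : (L2.length : ℝ) * (r / (4 * M)) ≤ M * (r / (4 * M)) :=
          mul_le_mul_of_nonneg_right h4 (by positivity)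
        have h6 : (M : ℝ) * (r / (4 * M)) = r / 4 := by field_simp
        linarith)
  -- `g` vanishes near `p`
  have hshr : B / 2 ≤ B - L1.length * (2 * A + L1.length * ε) * θ := by
    have h1 : (L1.length : ℝ) ≤ M := by exact_mod_cast hL1len
    have h0 : (0 : ℝ) ≤ L1.length := Nat.cast_nonneg _
    have h2 : ε ≤ 1 := min_le_left _ _
    have h3 : (L1.length : ℝ) * (2 * A + L1.length * ε) * θ ≤ M * (2 * A + M * 1) * θ := by
      gcongr
    have h4 : (M : ℝ) * (2 * A + M * 1) * θ = B / 2 := by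
      rw [hθ, mul_one]
      field_simp
    linarith
  have hgp : ∀ y, ‖y - p‖ ≤ δ₁ → g y = 0 := by
    intro y hy
    have h1 : |co e (y - p)| ≤ A := by
      refine (co_le he _).trans ?_
      have h2 : δ₁ ≤ A * (qd e / (2 * ‖e‖)) := min_le_left _ _
      calc 2 * ‖e‖ / qd e * ‖y - p‖ ≤ 2 * ‖e‖ / qd e * (A * (qd e / (2 * ‖e‖))) := by
            have := hy.trans h2
            gcongr
        _ = A := by field_simp
    have h2 : |co q (y - p)| ≤ B / 2 := by
      refine (co_le hq _).trans ?_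
      have h2 : δ₁ ≤ B / 2 * (qd q / (2 * ‖q‖)) := min_le_right _ _
      calc 2 * ‖q‖ / qd q * ‖y - p‖ ≤ 2 * ‖q‖ / qd q * (B / 2 * (qd q / (2 * ‖q‖))) := by
            have := hy.trans h2
            gcongr
        _ = B / 2 := by field_simp
    have h3 := hdet (y - p) h1 (h2.trans hshr)
    simpa using h3
  -- conclusion
  rcases Nat.eq_zero_or_pos L2.length with h0 | h0
  · have h1 : L2 = [] := List.length_eq_zero_iff.1 h0
    have h2 : ∀ᶠ y in 𝓝 p, f y - f z = 0 := by
      filter_upwards [Metric.closedBall_mem_nhds p hδ₁0] with y hy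
      have h3 := hgp y (by rwa [Metric.mem_closedBall, dist_eq_norm] at hy)
      rw [hg, h1] at h3
      exact h3
    exact fin_step h2 hN.2.1
  · have h1 := hT L2 (by rw [hL2, List.length_map, Finset.length_toList]) (fun u hu => by
      rw [hL2, List.mem_map] at hu
      obtain ⟨j, hj, rfl⟩ := hu
      rw [Finset.mem_toList] at hj
      exact ⟨hw0 j, hwδ j, hJ j hj⟩) (fun y => f y - f x) (fun y hy => by
      have h3 := disc_const hN y hy
      have h4 : f y = f x := OL.ii_congr (by simp only [Set.mem_ofPred_eq]; rw [h3])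
      exact sub_eq_zero.2 h4) (fun y hy => by
      have h2 := hgp y hy
      rw [hg, dsub, dconst _ h0] at h2
      rw [dsub, dconst _ h0]
      exact h2)
    exact fin_step h1 hN.2.1

end Pool.Agent.PTG
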