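import Pool.Agent.PTG.Targets
import Pool.Agent.PTP.P_STK
import Pool.Agent.PTA.P_STA
import Pool.Agent.PTA.P_SEP

/-!
# PTG: WD, SEP, ULT, ULB, SFL, FC, SLF, STA, STB, STK
-/

set_option autoImplicit false

namespace Pool.Agent.PTG

open Pool.Agent.PTR Filter Topology
open Pool.Agent.PTR.OL (V ii dif difs FLC InHull)
open Pool.Agent.PTP (Til TDP Iv wd SF Abv Stp Stk Ds Sm)
open Pool.Agent.PTA (Dir)

namespace G0

lemma rcont (e : V) : Continuous (rdet e) := by
  unfold rdet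
  exact (continuous_const.mul continuous_snd).sub (continuous_const.mul continuous_fst)

lemma rsmul (e z : V) (s : ℝ) : rdet e (s • z) = s * rdet e z := by
  simp only [rdet, Prod.smul_fst, Prod.smul_snd, smul_eq_mul]
  ring

lemma rneg (e z : V) : rdet e (-z) = -rdet e z := by
  simp only [rdet, Prod.fst_neg, Prod.snd_neg]; ring

lemma rneg_l (e z : V) : rdet (-e) z = -rdet e z := by
  simp only [rdet, Prod.fst_neg, Prod.snd_neg]; ring

lemma rself (e : V) : rdet e e = 0 := by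
  simp only [rdet]; ring

lemma rperp {e : V} (he : e ≠ 0) : 0 < rdet e (-e.2, e.1) := by
  simp only [rdet]
  have h : e.1 ≠ 0 ∨ e.2 ≠ 0 := by
    by_contra hcon
    push Not at hcon
    exact he (Prod.ext hcon.1 hcon.2)
  rcases h with h | h
  · have := mul_self_pos.2 h
    nlinarith [mul_self_nonneg e.2]
  · have := mul_self_pos.2 h
    nlinarith [mul_self_nonneg e.1]

end G0

open G0

theorem p_WD : T_WD := by
  intro C hP e he
  obtain ⟨hc, ⟨x0, hx0⟩, hcl⟩ := hP
  have hx0C : x0 ∈ C := interior_subset hx0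
  obtain ⟨xM, hxM, hM⟩ := hc.exists_isMaxOn ⟨x0, hx0C⟩ (rcont e).continuousOn
  obtain ⟨xm, hxm, hm⟩ := hc.exists_isMinOn ⟨x0, hx0C⟩ (rcont e).continuousOn
  have hM' : ∀ x ∈ C, rdet e x ≤ rdet e xM := fun x hx => hM hx
  have hm' : ∀ x ∈ C, rdet e xm ≤ rdet e x := fun x hx => hm hx
  have hg : IsGreatest {d : ℝ | ∃ x ∈ C, ∃ y ∈ C, d = rdet e x - rdet e y}
      (rdet e xM - rdet e xm) := by
    refine ⟨⟨xM, hxM, xm, hxm, rfl⟩, ?_⟩
    rintro d ⟨x, hx, y, hy, rfl⟩
    linarith [hM' x hx, hm' y hy]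
  have hw : wd C e = rdet e xM - rdet e xm := hg.csSup_eq
  have hpos : 0 < wd C e := by
    rw [hw]
    have h1 : Tendsto (fun s : ℝ => x0 + s • ((-e.2, e.1) : V)) (𝓝 0)
        (𝓝 (x0 + (0 : ℝ) • ((-e.2, e.1) : V))) := by
      apply Continuous.tendsto
      fun_prop
    rw [zero_smul, add_zero] at h1
    have h2 : ∀ᶠ s in 𝓝[>] (0 : ℝ), x0 + s • ((-e.2, e.1) : V) ∈ interior C :=
      (h1.mono_left nhdsWithin_le_nhds).eventually (isOpen_interior.mem_nhds hx0)
    obtain ⟨s, hs, hs0⟩ := (h2.and (eventually_mem_set.2 self_mem_nhdsWithin)).exists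
    have hs0' : 0 < s := hs0
    have h4 := hM' _ (interior_subset hs)
    rw [rdet_add, rsmul] at h4
    have h5 := hm' _ hx0C
    have h6 : 0 < s * rdet e (-e.2, e.1) := mul_pos hs0' (rperp he)
    linarith
  refine ⟨hpos, ?_, ⟨xM, hxM, xm, hxm, hw.symm⟩, ?_⟩
  · intro x hx y hy
    rw [hw]
    linarith [hM' x hx, hm' y hy]
  · intro hI d hd
    have key : ∀ z ∈ C, ∀ η > (0 : ℝ), ∃ y ∈ interior C, |rdet e y - rdet e z| < η := by
      intro z hz η hη
      rw [← hcl] at hz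
      have h1 : {y | |rdet e y - rdet e z| < η} ∈ 𝓝 z := by
        apply IsOpen.mem_nhds
        · exact isOpen_lt ((rcont e).sub continuous_const).abs continuous_const
        · simpa using hη
      obtain ⟨y, hy1, hy2⟩ := mem_closure_iff_nhds.1 hz _ h1
      exact ⟨y, hy2, hy1⟩
    obtain ⟨x, hx, hx'⟩ := key xM hxM ((wd C e - |d|) / 2) (by linarith)
    obtain ⟨y, hy, hy'⟩ := key xm hxm ((wd C e - |d|) / 2) (by linarith)
    rw [abs_lt] at hx' hy'
    have hd1 : |d| < rdet e x - rdet e y := by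
      rw [hw] at hx' hy' hd
      linarith [hx'.1, hy'.2]
    have hA : rdet e x - rdet e y ∈ {d : ℝ | ∃ x ∈ interior C, ∃ y ∈ interior C,
        d = rdet e x - rdet e y} := ⟨x, hx, y, hy, rfl⟩
    have hB : rdet e y - rdet e x ∈ {d : ℝ | ∃ x ∈ interior C, ∃ y ∈ interior C,
        d = rdet e x - rdet e y} := ⟨y, hy, x, hx, rfl⟩
    have h5 : d ∈ Set.Icc (rdet e y - rdet e x) (rdet e x - rdet e y) := by
      have := abs_lt.1 hd1
      exact ⟨by linarith [this.1], this.2.le⟩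
    exact hI.out hB hA h5

theorem p_SEP : T_SEP := by
  intro C hP
  obtain ⟨-, ⟨x₀, hx₀⟩, -⟩ := hP
  obtain ⟨ρ, hρ, hball⟩ := Metric.isOpen_iff.1 isOpen_interior x₀ hx₀
  refine ⟨ρ, hρ, fun T hT => ?_⟩
  have hsep : ∀ t ∈ T, ∀ t' ∈ T, t ≠ t' → ρ ≤ ‖t - t'‖ := by
    intro t ht t' ht' hne
    by_contra hlt
    push Not at hlt
    refine hne (hT t ht t' ht' (t + x₀) ?_ ?_)
    · rw [add_sub_cancel_left]
      exact hx₀
    · refine hball ?_
      rw [Metric.mem_ball, dist_eq_norm]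
      have : t + x₀ - t' - x₀ = t - t' := by abel
      rw [this]
      exact hlt
  exact ⟨hsep, PTA.SEP_fin hρ hsep⟩

/-- Two sequences of tiles with the same limit are eventually equal. -/
lemma ULT_eq {C : Set V} (hP : Bdy C) {U : Ultrafilter ℕ}
    {Tn : ℕ → Set V} (hT : ∀ n, Til C (Tn n)) {s : V} {f g : ℕ → V}
    (hf : ∀ᶠ n in (U : Filter ℕ), f n ∈ Tn n) (hg : ∀ᶠ n in (U : Filter ℕ), g n ∈ Tn n)
    (hf' : Tendsto f (U : Filter ℕ) (𝓝 s)) (hg' : Tendsto g (U : Filter ℕ) (𝓝 s)) :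
    ∀ᶠ n in (U : Filter ℕ), f n = g n := by
  obtain ⟨ρ, hρ, hsep⟩ := p_SEP C hP
  have h1 : Tendsto (fun n => ‖f n - g n‖) (U : Filter ℕ) (𝓝 0) := by
    have := (hf'.sub hg').norm
    rwa [sub_self, norm_zero] at this
  filter_upwards [hf, hg, h1.eventually (gt_mem_nhds hρ)] with n g1 g2 g3
  by_contra hne
  exact absurd ((hsep (Tn n) (hT n).2).1 _ g1 _ g2 hne) (not_le.2 g3)

theorem p_ULT : T_ULT := by
  intro C hP U Tn hT
  obtain ⟨hc, -, -⟩ := hP
  obtain ⟨K, hK⟩ := hc.isBounded.exists_norm_le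
  refine ⟨⟨fun z => ?_, ?_⟩, ?_⟩
  · have h1 : ∀ n, ∃ t ∈ Tn n, z - t ∈ C := fun n => (hT n).1 z
    choose t ht1 ht2 using h1
    obtain ⟨s, hs⟩ := ultra_conv U t (‖z‖ + K) (Eventually.of_forall fun n => by
      have h2 : t n = z - (z - t n) := by abel
      rw [h2]
      exact (norm_sub_le _ _).trans (add_le_add (le_refl _) (hK _ (ht2 n))))
    refine ⟨s, ⟨t, Eventually.of_forall ht1, hs⟩, ?_⟩
    exact hc.isClosed.mem_of_tendsto (tendsto_const_nhds.sub hs) (Eventually.of_forall ht2)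
  · rintro s ⟨t, ht1, ht2⟩ s' ⟨t', ht1', ht2'⟩ z hz hz'
    have e1 : ∀ᶠ n in (U : Filter ℕ), z - t n ∈ interior C :=
      (tendsto_const_nhds.sub ht2).eventually (isOpen_interior.mem_nhds hz)
    have e2 : ∀ᶠ n in (U : Filter ℕ), z - t' n ∈ interior C :=
      (tendsto_const_nhds.sub ht2').eventually (isOpen_interior.mem_nhds hz')
    have h4 : ∀ᶠ n in (U : Filter ℕ), t n = t' n := by
      filter_upwards [ht1, ht1', e1, e2] with n g1 g2 g3 g4
      exact (hT n).2 _ g1 _ g2 z g3 g4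
    exact tendsto_nhds_unique (ht2.congr' h4) ht2'
  · have h1 : ∀ t : V, ∃ f : ℕ → V, t ∈ Lim U Tn →
        (∀ᶠ n in (U : Filter ℕ), f n ∈ Tn n) ∧ Tendsto f (U : Filter ℕ) (𝓝 t) := by
      intro t
      by_cases ht : t ∈ Lim U Tn
      · obtain ⟨f, hf⟩ := ht
        exact ⟨f, fun _ => hf⟩
      · exact ⟨fun _ => 0, fun h => absurd h ht⟩
    choose f hf using h1
    refine ⟨fun t n => f t n - t, fun t ht => ⟨?_, ?_⟩⟩
    · filter_upwards [(hf t ht).1] with n hn
      rw [add_sub_cancel]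
      exact hn
    · have := (hf t ht).2.sub (tendsto_const_nhds (x := t))
      rwa [sub_self] at this

theorem p_ULB : T_ULB := by
  intro C hP U Tn hT δ hδ f R hf hR
  obtain ⟨s, hs⟩ := ultra_conv U f R hR
  have hs' : s ∈ Lim U Tn := ⟨f, hf, hs⟩
  refine ⟨s, hs', ?_⟩
  refine ULT_eq hP hT hf (hδ s hs').1 hs ?_
  have := (tendsto_const_nhds (x := s)).add (hδ s hs').2
  rwa [add_zero] at this

theorem p_SFL : T_SFL := by
  intro C _ U Tn e cn c _ _ hcn hF s hs
  obtain ⟨t, ht1, ht2⟩ := hs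
  have hlim : ∀ x : V, Tendsto (fun n => rdet e (t n + x)) (U : Filter ℕ)
      (𝓝 (rdet e (s + x))) := by
    intro x
    have h1 : Continuous (fun w : V => rdet e (w + x)) := by
      unfold rdet
      fun_prop
    exact (h1.tendsto s).comp ht2
  have h2 : (∀ᶠ n in (U : Filter ℕ), ∀ x ∈ C, rdet e (t n + x) ≤ cn n) ∨
      ∀ᶠ n in (U : Filter ℕ), ∀ x ∈ C, cn n ≤ rdet e (t n + x) := by
    rw [← Ultrafilter.eventually_or]
    filter_upwards [ht1, hF] with n hn hn'
    exact hn' _ hn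
  rcases h2 with h2 | h2
  · exact Or.inl fun x hx => le_of_tendsto_of_tendsto (hlim x) hcn (h2.mono fun n hn => hn x hx)
  · exact Or.inr fun x hx => le_of_tendsto_of_tendsto hcn (hlim x) (h2.mono fun n hn => hn x hx)

theorem p_FC : T_FC := by
  intro C hP e he hI T R hs htr hR t ht t' ht' hnR hle
  obtain ⟨hw0, hw1, ⟨x0, hx0, y0, hy0, hxy⟩, hw4⟩ := p_WD C hP e he
  have hiv := hw4 hI
  set W := wd C e with hWdef
  have hmax : ∀ x ∈ C, rdet e x ≤ rdet e x0 := fun x hx => by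
    have := hw1 x hx y0 hy0
    linarith
  have hmin : ∀ x ∈ C, rdet e y0 ≤ rdet e x := fun x hx => by
    have := hw1 x0 hx0 x hx
    linarith
  have hnear : ∀ s ∈ T, ∀ s' ∈ T, |rdet e s - rdet e s'| < W → R s s' := by
    intro s hs s' hs' h
    obtain ⟨x, hx, y, hy, hd⟩ := hiv (rdet e s' - rdet e s) (by rw [abs_sub_comm]; exact h)
    exact hR s hs s' hs' x hx y hy (by rw [rdet_add, rdet_add]; linarith)
  set S : Set ℝ := {r | ∃ s ∈ T, R t s ∧ rdet e s ≤ rdet e t' ∧ r = rdet e s} with hS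
  have htS : rdet e t ∈ S := ⟨t, ht, hnear t ht t ht (by rw [sub_self, abs_zero]; exact hw0),
    hle, rfl⟩
  have hbd : BddAbove S := ⟨rdet e t', by rintro r ⟨s, -, -, h, rfl⟩; exact h⟩
  set a := sSup S with ha
  have hta : rdet e t ≤ a := le_csSup hbd htS
  have hat' : a ≤ rdet e t' - W := by
    refine csSup_le ⟨_, htS⟩ ?_
    rintro r ⟨s, hsT, hRs, hst, rfl⟩
    by_contra hcon
    push Not at hcon
    have h1 := hnear s hsT t' ht' (by rw [abs_lt]; constructor <;> linarith)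
    exact hnR (htr t ht s hsT t' ht' hRs h1)
  have hgap : ∀ s ∈ T, a < rdet e s → a + W ≤ rdet e s := by
    intro s hsT hsa
    by_contra hcon
    push Not at hcon
    obtain ⟨r, ⟨s', hs'T, hRs', hs't, rfl⟩, hr⟩ :=
      exists_lt_of_lt_csSup ⟨_, htS⟩ (show rdet e s - W < sSup S by rw [← ha]; linarith)
    have h1 : rdet e s' ≤ a := le_csSup hbd ⟨s', hs'T, hRs', hs't, rfl⟩
    have h2 := hnear s' hs'T s hsT (by rw [abs_lt]; constructor <;> linarith)
    have h3 : rdet e s ∈ S := ⟨s, hsT, htr t ht s' hs'T s hsT hRs' h2, by linarith, rfl⟩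
    exact absurd (le_csSup hbd h3) (not_le.2 hsa)
  refine ⟨a + rdet e x0, ?_, ?_, ?_⟩
  · intro s hsT
    rcases le_or_gt (rdet e s) a with h | h
    · left
      intro x hx
      rw [rdet_add]
      have := hmax x hx
      linarith
    · right
      intro x hx
      rw [rdet_add]
      have h1 := hgap s hsT h
      have h2 := hmin x hx
      linarith
  · intro x hx
    rw [rdet_add]
    have := hmax x hx
    linarith
  · intro x hx
    rw [rdet_add]
    have h2 := hmin x hx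
    linarith

theorem p_SLF : T_SLF := by
  intro C hP U Tn hT δ hδ e he hI hSl t ht t' ht' hns
  have hsym : ∀ t t' : V, Sm U δ t t' → Sm U δ t' t := fun t t' h => h.mono fun n hn => hn.symm
  have htr : ∀ t t' t'' : V, Sm U δ t t' → Sm U δ t' t'' → Sm U δ t t'' := fun t t' t'' h h' => by
    filter_upwards [h, h'] with n h1 h2
    exact h1.trans h2
  rcases le_total (rdet e t) (rdet e t') with h | h
  · left
    exact p_FC C hP e he hI (Lim U Tn) (Sm U δ) (fun t _ t' _ => hsym t t')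
      (fun t _ t' _ t'' _ => htr t t' t'') hSl.2 t ht t' ht' hns h
  · right
    exact p_FC C hP e he hI (Lim U Tn) (Sm U δ) (fun t _ t' _ => hsym t t')
      (fun t _ t' _ t'' _ => htr t t' t'') hSl.2 t' ht' t ht (fun h' => hns (hsym _ _ h')) h

open PTA (sta_height sta_add sta_sub)

/-- STA. -/
theorem p_STA : T_STA := by
  intro C _ e he T c c' hT hc hf hf'
  obtain ⟨w, hw⟩ := sta_height e he c
  refine ⟨{t | t + w ∈ T ∧ ∀ x ∈ C, c ≤ rdet e (t + w + x) ∧ rdet e (t + w + x) ≤ c'},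
    sub_pos.2 hc, ?_, ?_, ?_⟩
  · intro z hz hz'
    obtain ⟨t, ht, hzt⟩ := hT.1 (z + w)
    have hh : rdet e (t + (z + w - t)) = rdet e z + c := by
      rw [show t + (z + w - t) = z + w by abel, sta_add, hw]
    refine ⟨t - w, ⟨by simpa using ht, ?_⟩, ?_⟩
    · have e1 : t - w + w = t := by abel
      rw [e1]
      intro x hx
      constructor
      · rcases hf t ht with h | h
        · exact absurd (h _ hzt) (by rw [hh]; linarith)
        · exact h x hx
      · rcases hf' t ht with h | h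
        · exact h x hx
        · exact absurd (h _ hzt) (by rw [hh]; linarith)
    · have e2 : z - (t - w) = z + w - t := by abel
      rw [e2]
      exact hzt
  · rintro t ⟨ht, _⟩ t' ⟨ht', _⟩ z hz hz'
    have h := hT.2 (t + w) ht (t' + w) ht' (z + w)
      (by rw [show z + w - (t + w) = z - t by abel]; exact hz)
      (by rw [show z + w - (t' + w) = z - t' by abel]; exact hz')
    exact add_right_cancel h
  · rintro t ⟨_, ht⟩ x hx
    have h := ht x hx
    rw [show t + w + x = (t + x) + w by abel, sta_add, hw] at h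
    constructor <;> linarith [h.1, h.2]

/-- STB. -/
theorem p_STB : T_STB := by
  intro C hP e he T h hS
  obtain ⟨hh, hcov, hdis, hin⟩ := hS
  obtain ⟨_, _, ⟨x, hx, y, hy, hxy⟩, _⟩ := p_WD C hP e he
  refine ⟨?_, ?_⟩
  · obtain ⟨z, hz⟩ := sta_height e he (h / 2)
    obtain ⟨t, ht, _⟩ := hcov z (by rw [hz]; linarith) (by rw [hz]; linarith)
    have h1 := hin t ht x hx
    have h2 := hin t ht y hy
    rw [sta_add] at h1 h2
    linarith [h1.1, h1.2, h2.1, h2.2]
  · intro c hc hch hf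
    refine ⟨?_, ?_⟩
    · obtain ⟨z, hz⟩ := sta_height e he ((c + h) / 2)
      obtain ⟨t, ht, hzt⟩ := hcov z (by rw [hz]; linarith) (by rw [hz]; linarith)
      have hh' : rdet e (t + (z - t)) = (c + h) / 2 := by
        rw [show t + (z - t) = z by abel, hz]
      rcases hf t ht with h3 | h3
      · exact absurd (h3 _ hzt) (by rw [hh']; linarith)
      · have h1 := hin t ht x hx
        have h2 := h3 y hy
        rw [sta_add] at h1 h2
        linarith [h1.1, h1.2, h2]
    · refine ⟨{t | t ∈ T ∧ ∀ x ∈ C, rdet e (t + x) ≤ c}, hc, ?_, ?_, ?_⟩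
      · intro z hz hz'
        obtain ⟨t, ht, hzt⟩ := hcov z hz (by linarith)
        have hh' : rdet e (t + (z - t)) = rdet e z := by
          rw [show t + (z - t) = z by abel]
        refine ⟨t, ⟨ht, ?_⟩, hzt⟩
        rcases hf t ht with h3 | h3
        · exact h3
        · exact absurd (h3 _ hzt) (by rw [hh']; linarith)
      · rintro t ⟨ht, _⟩ t' ⟨ht', _⟩ z hz hz'
        exact hdis t ht t' ht' z hz hz'
      · rintro t ⟨ht, ht'⟩ x' hx'
        exact ⟨(hin t ht x' hx').1, ht' x' hx'⟩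

theorem p_STK : T_STK := by
  intro C hC e w T h hS hw
  obtain ⟨ρ, hρ, hsep⟩ := p_SEP C hC
  have hbd : ∃ r : ℝ, ∀ x ∈ C, ‖x‖ ≤ r := hC.cpt.isBounded.exists_norm_le
  exact Pool.Agent.PTP.STKx.stk_core hC.cpt.isClosed hbd (hsep T hS.2.2.1).2 hS hw

end Pool.Agent.PTG
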