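import Pool.Agent.PTG.Targets

/-!
# PTG: GAP and RDT
-/

set_option autoImplicit false

namespace Pool.Agent.PTG

open Pool.Agent.PTR Filter Topology
open Pool.Agent.PTR.OL (V ii dif difs FLC InHull)
open Pool.Agent.PTP (Til TDP Iv wd SF Abv Stp Stk Ds Sm)
open Pool.Agent.PTA (Dir)

namespace GapAux

lemma perR_nat {q : ℝ} {S : Set ℝ} (h : PerR q S) (k : ℕ) (s : ℝ) : s + k * q ∈ S ↔ s ∈ S := by
  induction k with
  | zero => simp
  | succ k ih =>
    have h1 : s + ((k + 1 : ℕ) : ℝ) * q = (s + k * q) + q := by push_cast; ring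
    rw [h1, h, ih]

lemma perR_int {q : ℝ} {S : Set ℝ} (h : PerR q S) (k : ℤ) (s : ℝ) : s + k * q ∈ S ↔ s ∈ S := by
  obtain ⟨m, rfl | rfl⟩ := k.eq_nat_or_neg
  · simpa using perR_nat h m s
  · have := perR_nat h m (s + ((-(m : ℤ) : ℤ) : ℝ) * q)
    rw [← this]
    have h1 : s + ((-(m : ℤ) : ℤ) : ℝ) * q + m * q = s := by push_cast; ring
    rw [h1]

lemma perR_mul {q : ℝ} {S : Set ℝ} (h : PerR q S) (k : ℕ) : PerR (k * q) S :=
  fun s => perR_nat h k s

lemma perR_empty (q : ℝ) : PerR q (∅ : Set ℝ) := fun s => by simp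

lemma spR_empty (X : Set ℝ) (q : ℝ) : SpR X q (∅ : Set ℝ) := by
  intro k hk
  exact absurd (by simp [fc]) hk

/-- Two periods of a nonempty separated set are commensurable. -/
lemma comm {S : Set ℝ} (hf : ∀ u v : ℝ, (S ∩ Set.Icc u v).Finite) (hne : S.Nonempty)
    {q q₀ : ℝ} (hq : 0 < q) (hq₀ : 0 < q₀) (h : PerR q S) (h₀ : PerR q₀ S) :
    ∃ k k₀ : ℕ, 0 < k ∧ 0 < k₀ ∧ (k₀ : ℝ) * q = k * q₀ := by
  obtain ⟨s, hs⟩ := hne
  have hfin : Finite ↥(S ∩ Set.Icc s (s + q₀)) := (hf s (s + q₀)).to_subtype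
  have hmem : ∀ j : ℕ, toIcoMod hq₀ s (s + j * q) ∈ S ∩ Set.Icc s (s + q₀) := by
    intro j
    refine ⟨?_, ?_⟩
    · have h1 : toIcoMod hq₀ s (s + j * q) =
          (s + j * q) + ((-(toIcoDiv hq₀ s (s + j * q)) : ℤ) : ℝ) * q₀ := by
        rw [toIcoMod]; push_cast; rw [zsmul_eq_mul]; ring
      rw [h1, perR_int h₀, perR_nat h]
      exact hs
    · have := toIcoMod_mem_Ico hq₀ s (s + j * q)
      exact ⟨this.1, this.2.le⟩
  obtain ⟨j, j', hjj, he⟩ := Finite.exists_ne_map_eq_of_infinite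
    (fun j : ℕ => (⟨toIcoMod hq₀ s (s + j * q), hmem j⟩ : ↥(S ∩ Set.Icc s (s + q₀))))
  have key : ∀ j j' : ℕ, j < j' → toIcoMod hq₀ s (s + j * q) = toIcoMod hq₀ s (s + j' * q) →
      ∃ k k₀ : ℕ, 0 < k ∧ 0 < k₀ ∧ (k₀ : ℝ) * q = k * q₀ := by
    intro j j' hlt he
    have h1 : ((j' - j : ℕ) : ℝ) * q =
        ((toIcoDiv hq₀ s (s + j' * q) - toIcoDiv hq₀ s (s + j * q) : ℤ) : ℝ) * q₀ := by
      rw [toIcoMod, toIcoMod, zsmul_eq_mul, zsmul_eq_mul] at he
      rw [Nat.cast_sub hlt.le]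
      push_cast
      linarith
    have h2 : (0 : ℝ) < ((j' - j : ℕ) : ℝ) * q := by
      have : 0 < j' - j := Nat.sub_pos_of_lt hlt
      positivity
    rw [h1] at h2
    have h3 : (0 : ℝ) <
        ((toIcoDiv hq₀ s (s + j' * q) - toIcoDiv hq₀ s (s + j * q) : ℤ) : ℝ) := by
      by_contra hcon
      push Not at hcon
      have := mul_nonpos_of_nonpos_of_nonneg hcon hq₀.le
      linarith
    have h4 : 0 < toIcoDiv hq₀ s (s + j' * q) - toIcoDiv hq₀ s (s + j * q) := by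
      exact_mod_cast h3
    refine ⟨(toIcoDiv hq₀ s (s + j' * q) - toIcoDiv hq₀ s (s + j * q)).toNat, j' - j, ?_,
      Nat.sub_pos_of_lt hlt, ?_⟩
    · omega
    · rw [h1]
      have h5 : (((toIcoDiv hq₀ s (s + j' * q) - toIcoDiv hq₀ s (s + j * q)).toNat : ℤ) : ℝ) =
          ((toIcoDiv hq₀ s (s + j' * q) - toIcoDiv hq₀ s (s + j * q) : ℤ) : ℝ) := by
        rw [Int.toNat_of_nonneg h4.le]
      rw [← h5]
      norm_cast
  have he' := congrArg Subtype.val he
  simp only at he'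
  rcases lt_or_gt_of_ne hjj with hlt | hlt
  · exact key j j' hlt he'
  · exact key j' j hlt he'.symm

/-- The data of the rows. -/
lemma data (hSEP : T_SEP) (hHH : T_HH) (hHQ : T_HQ) (hSPEC : T_SPEC) (C : Set V) (hC : Bdy C)
    (hI : ∀ e, Dir C e → Iv C e) (hN : NS C) (e n : V) (he : Dir C e) (hn : rdet e n = 1)
    (T : Set V) (c : ℝ) (hT : Til C T) (hF : SF C e T c)
    (hne : ∃ y, (row e n (Abv C e T c) y).Nonempty) :
    ∃ ρ > (0 : ℝ), ∃ X : Set ℝ, LF X ∧ (∀ y, SepR ρ (row e n (Abv C e T c) y)) ∧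
      (∀ y u v, (row e n (Abv C e T c) y ∩ Set.Icc u v).Finite) ∧
      ∀ y M : ℝ, ∃ Q : ℝ, M ≤ Q ∧ 0 < Q ∧ PerR Q (row e n (Abv C e T c) y) ∧
        SpR X Q (row e n (Abv C e T c) y) := by
  set A := Abv C e T c with hA
  have he0 : e ≠ 0 := he.1
  have hen : 0 < ‖e‖ := norm_pos_iff.2 he0
  obtain ⟨ρ, hρ, hsep⟩ := hSEP C hC
  obtain ⟨hs1, hs2⟩ := hsep A (fun t ht t' ht' z hz hz' => hT.2 t ht.1 t' ht'.1 z hz hz')
  have hfin : ∀ y u v, (row e n A y ∩ Set.Icc u v).Finite := by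
    intro y u v
    have h1 := hs2 ((|u| + |v|) * ‖e‖ + |y| * ‖n‖)
    have hinj : Set.InjOn (fun s : ℝ => s • e + y • n)
        ((fun s : ℝ => s • e + y • n) ⁻¹' {t | t ∈ A ∧ ‖t‖ ≤ (|u| + |v|) * ‖e‖ + |y| * ‖n‖}) := by
      intro s _ s' _ hss
      have h2 : (s - s') • e = 0 := by
        have : s • e = s' • e := by simpa using hss
        rw [sub_smul, this, sub_self]
      rcases smul_eq_zero.1 h2 with h3 | h3
      · linarith
      · exact absurd h3 he0
    refine (h1.preimage hinj).subset ?_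
    intro s hs
    refine ⟨hs.1, ?_⟩
    have hsuv : |s| ≤ |u| + |v| := by
      obtain ⟨h3, h4⟩ := hs.2
      rw [abs_le]
      constructor
      · have := neg_abs_le u; have := abs_nonneg v; linarith
      · have := le_abs_self v; have := abs_nonneg u; linarith
    calc ‖s • e + y • n‖ ≤ ‖s • e‖ + ‖y • n‖ := norm_add_le _ _
      _ = |s| * ‖e‖ + |y| * ‖n‖ := by rw [norm_smul, norm_smul, Real.norm_eq_abs, Real.norm_eq_abs]
      _ ≤ _ := by gcongr
  have hsepR : ∀ y, SepR (ρ / ‖e‖) (row e n A y) := by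
    intro y s hs s' hs' hne'
    have h1 := hs1 _ hs _ hs' (by
      intro h
      have h2 : (s - s') • e = 0 := by
        have : s • e = s' • e := by simpa using h
        rw [sub_smul, this, sub_self]
      rcases smul_eq_zero.1 h2 with h3 | h3
      · exact hne' (by linarith)
      · exact he0 h3)
    have h2 : s • e + y • n - (s' • e + y • n) = (s - s') • e := by rw [sub_smul]; abel
    rw [h2, norm_smul, Real.norm_eq_abs] at h1
    rw [div_le_iff₀ hen]
    exact h1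
  obtain ⟨y₁, hy₁⟩ := hne
  have hrow : ∀ (q Y : ℝ), (∀ z, rdet e z ≤ Y → (z + q • e ∈ A ↔ z ∈ A)) →
      ∀ y ≤ Y, PerR q (row e n A y) := by
    intro q Y hq y hy s
    have h1 : rdet e (s • e + y • n) = y := by
      have h2 : rdet e (s • e + y • n) = y * rdet e n := by
        simp [rdet]; ring
      rw [h2, hn, mul_one]
    have h3 := hq (s • e + y • n) (by rw [h1]; exact hy)
    have h4 : (s + q) • e + y • n = s • e + y • n + q • e := by rw [add_smul]; abel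
    change (s + q) • e + y • n ∈ A ↔ s • e + y • n ∈ A
    rw [h4]
    exact h3
  obtain ⟨q₀, hq₀, hq₀'⟩ := hHQ C hC hI hN e he T c hT hF y₁
  obtain ⟨X, hX, hX'⟩ := hSPEC C hC e n hn T c hT hF (hHH C hC hI hN e he T c hT hF) q₀ hq₀
  refine ⟨ρ / ‖e‖, div_pos hρ hen, X, hX, hsepR, hfin, ?_⟩
  intro y M
  obtain ⟨q, hq, hq'⟩ := hHQ C hC hI hN e he T c hT hF (max (y + wd C e) (max y y₁))
  have hp₁ : PerR q (row e n A y₁) :=
    hrow q _ hq' y₁ (le_trans (le_max_right _ _) (le_max_right _ _))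
  have hp₀ : PerR q₀ (row e n A y₁) := hrow q₀ y₁ hq₀' y₁ le_rfl
  obtain ⟨k, k₀, hk, hk₀, hkk⟩ := comm (hfin y₁) hy₁ hq hq₀ hp₁ hp₀
  obtain ⟨j, hj⟩ := exists_nat_gt (M / (k * q₀))
  have hkq : 0 < (k : ℝ) * q₀ := by positivity
  have hper : ∀ y' ≤ max (y + wd C e) (max y y₁),
      PerR (((j + 1) * k : ℕ) * q₀) (row e n A y') := by
    intro y' hy'
    have h1 : (((j + 1) * k : ℕ) : ℝ) * q₀ = (((j + 1) * k₀ : ℕ) : ℝ) * q := by
      push_cast
      rw [mul_assoc, ← hkk, ← mul_assoc]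
    rw [h1]
    exact perR_mul (hrow q _ hq' y' hy') _
  refine ⟨((j + 1) * k : ℕ) * q₀, ?_, ?_, ?_, ?_⟩
  · rw [div_lt_iff₀ hkq] at hj
    push_cast
    nlinarith
  · positivity
  · exact hper y (le_trans (le_max_left _ _) (le_max_right _ _))
  · exact hX' y ((j + 1) * k) (by positivity)
      (fun y' hy' => hper y' (le_trans hy' (le_max_left _ _)))

/-- GAP for one set. -/
lemma gap_abs (hLU : T_LU) {X : Set ℝ} (hX : LF X) {ρ : ℝ} (hρ : 0 < ρ) :
    ∃ L > (0 : ℝ), ∀ S : Set ℝ, SepR ρ S → (∀ u v : ℝ, (S ∩ Set.Icc u v).Finite) →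
      (∀ M : ℝ, ∃ Q : ℝ, M ≤ Q ∧ 0 < Q ∧ PerR Q S ∧ SpR X Q S) → S.Nonempty →
      ∀ a : ℝ, ∃ s ∈ S, a ≤ s ∧ s ≤ a + L := by
  obtain ⟨L, hL, hU⟩ := hLU X hX ρ hρ 1 one_pos
  refine ⟨L, hL, ?_⟩
  intro S hsep hfin hQ hne a
  obtain ⟨Q, hLQ, hQ0, hper, hsp⟩ := hQ L
  obtain ⟨s, hs⟩ := hne
  -- a point of `S` to the right of `a`
  obtain ⟨m, hm⟩ := exists_nat_gt ((a - s) / Q)
  have hm' : a ≤ s + m * Q := by
    rw [div_lt_iff₀ hQ0] at hm
    linarith
  have hmS : s + m * Q ∈ S := (perR_nat hper m s).2 hs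
  obtain ⟨s₀, hs₀, hmin⟩ := (hfin a (s + m * Q)).exists_minimalFor id _
    ⟨s + m * Q, hmS, hm', le_rfl⟩
  have hmin' : ∀ u ∈ S, a ≤ u → s₀ ≤ u := by
    intro u hu hau
    by_contra hcon
    push Not at hcon
    have h1 := hmin (j := u) ⟨hu, hau, by
      have := hs₀.2.2
      linarith⟩ hcon.le
    simp only [id] at h1
    linarith
  refine ⟨s₀, hs₀.1, hs₀.2.1, ?_⟩
  by_contra hcon
  push Not at hcon
  refine (hU Q hLQ S ∅ hper (perR_empty Q) hsep (fun s hs => absurd hs (by simp)) hsp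
    (spR_empty X Q) s₀ hs₀.1 (fun s hs => absurd hs (by simp))).1 ?_
  intro u hu1 hu2
  constructor
  · intro hu
    have := hmin' u hu (by linarith)
    linarith
  · intro hu
    exact absurd hu (by simp)

lemma toIcoMod_eq {q : ℝ} (hq : 0 < q) (x : ℝ) :
    ∃ d : ℤ, toIcoMod hq 0 x = x + d * q := by
  refine ⟨-toIcoDiv hq 0 x, ?_⟩
  rw [toIcoMod, zsmul_eq_mul]; push_cast; ring

/-- Fourier coefficients of a translate. -/
lemma fc_shift {q : ℝ} (hq : 0 < q) {S : Set ℝ} (h : PerR q S) (τ : ℝ) (k : ℤ) :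
    fc q {s | s + τ ∈ S} k =
      Complex.exp ((2 * Real.pi * k * τ / q : ℝ) * Complex.I) * fc q S k := by
  unfold fc
  rw [mul_finsum_mem]
  refine finsum_mem_eq_of_bijOn (fun s => toIcoMod hq 0 (s + τ)) ⟨?_, ?_, ?_⟩ ?_
  · intro s hs
    have hs1 : s + τ ∈ S := hs.1
    have h1 := toIcoMod_mem_Ico hq 0 (s + τ)
    rw [zero_add] at h1
    obtain ⟨d, hd⟩ := toIcoMod_eq hq (s + τ)
    refine ⟨?_, h1⟩
    simp only
    rw [hd, perR_int h]
    exact hs1
  · intro s hs s' hs' hss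
    simp only at hss
    obtain ⟨d, hd⟩ := toIcoMod_eq hq (s + τ)
    obtain ⟨d', hd'⟩ := toIcoMod_eq hq (s' + τ)
    rw [hd, hd'] at hss
    have h1 := hs.2
    have h2 := hs'.2
    have h3 : s - s' = ((d' - d : ℤ) : ℝ) * q := by push_cast; linarith
    have h4 : |((d' - d : ℤ) : ℝ)| < 1 := by
      have h5 : |((d' - d : ℤ) : ℝ) * q| < q := by
        rw [← h3, abs_lt]
        constructor
        · have := h1.1; have := h2.2; linarith
        · have := h2.1; have := h1.2; linarith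
      rw [abs_mul, abs_of_pos hq] at h5
      by_contra hcon
      push Not at hcon
      nlinarith
    have h6 : d' - d = 0 := by
      rw [← Int.abs_lt_one_iff]
      exact_mod_cast h4
    rw [h6] at h3
    simp only [Int.cast_zero, zero_mul] at h3
    linarith
  · intro u hu
    refine ⟨toIcoMod hq 0 (u - τ), ⟨?_, ?_⟩, ?_⟩
    · obtain ⟨d, hd⟩ := toIcoMod_eq hq (u - τ)
      change toIcoMod hq 0 (u - τ) + τ ∈ S
      rw [hd]
      have h1 : u - τ + d * q + τ = u + d * q := by ring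
      rw [h1, perR_int h]
      exact hu.1
    · have h1 := toIcoMod_mem_Ico hq 0 (u - τ)
      rw [zero_add] at h1
      exact h1
    · simp only
      obtain ⟨d, hd⟩ := toIcoMod_eq hq (u - τ)
      rw [hd]
      have h1 : u - τ + d * q + τ = u + d • q := by rw [zsmul_eq_mul]; ring
      rw [h1, toIcoMod_add_zsmul]
      rw [toIcoMod_eq_self]
      rw [zero_add]
      exact hu.2
  · intro s hs
    obtain ⟨d, hd⟩ := toIcoMod_eq hq (s + τ)
    rw [hd, ← Complex.exp_add, Complex.exp_eq_exp_iff_exists_int]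
    refine ⟨k * d, ?_⟩
    have hqc : (q : ℂ) ≠ 0 := by exact_mod_cast hq.ne'
    push_cast
    field_simp
    ring

lemma spR_shift {X : Set ℝ} {q : ℝ} (hq : 0 < q) {S : Set ℝ} (h : PerR q S) (hS : SpR X q S)
    (τ : ℝ) : SpR X q {s | s + τ ∈ S} := by
  intro k hk
  apply hS k
  intro h0
  apply hk
  rw [fc_shift hq h, h0, mul_zero]

/-- Minimal distance in a finite set. -/
lemma minDist {D : Set ℝ} (hD : D.Finite) :
    ∃ κ > (0 : ℝ), κ ≤ 1 ∧ ∀ d ∈ D, ∀ d' ∈ D, |d - d'| < κ → d = d' := by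
  induction D, hD using Set.Finite.induction_on with
  | empty => exact ⟨1, one_pos, le_rfl, fun d hd => absurd hd (by simp)⟩
  | @insert x D hx hD ih =>
    obtain ⟨κ, hκ, hκ1, h⟩ := ih
    have h1 : ∃ κ' > (0 : ℝ), ∀ d ∈ D, κ' ≤ |x - d| := by
      have h2 : ∀ᶠ y in 𝓝 x, y ∉ D := by
        have := hD.isClosed.isOpen_compl.mem_nhds hx
        exact this
      obtain ⟨r, hr, hr'⟩ := Metric.eventually_nhds_iff.1 h2
      refine ⟨r, hr, fun d hd => ?_⟩
      by_contra hcon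
      push Not at hcon
      exact hr' (y := d) (by rw [Real.dist_eq, abs_sub_comm]; exact hcon) hd
    obtain ⟨κ', hκ', h'⟩ := h1
    refine ⟨min κ κ', lt_min hκ hκ', le_trans (min_le_left _ _) hκ1, ?_⟩
    intro d hd d' hd' hdd
    rcases hd with rfl | hd
    · rcases hd' with rfl | hd'
      · rfl
      · have := h' d' hd'
        have := lt_of_lt_of_le hdd (min_le_right _ _)
        linarith
    · rcases hd' with rfl | hd'
      · have := h' d hd
        rw [abs_sub_comm] at this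
        have := lt_of_lt_of_le hdd (min_le_right _ _)
        linarith
      · exact h d hd d' hd' (lt_of_lt_of_le hdd (min_le_left _ _))

/-- One step: a point `x` of `S` (with differences in `D`) which is not in `S'`. -/
lemma step {S S' D : Set ℝ} {κ L₀ : ℝ} (hκ : κ ≤ 1)
    (hD : ∀ d ∈ D, ∀ d' ∈ D, |d - d'| < κ → d = d')
    (hS : ∀ d, |d| ≤ L₀ + 2 → (∃ s ∈ S, s + d ∈ S) → d ∈ D)
    (hS' : ∀ d, |d| ≤ L₀ + 2 → (∃ s ∈ S', s + d ∈ S') → d ∈ D)
    {x z : ℝ} (hx : x ∈ S) (hx' : x ∉ S') (hz : z ∈ S) (hz' : z ∈ S')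
    (hxz : |x - z| ≤ L₀ + 1) : ∀ s ∈ S', κ ≤ |s - x| := by
  intro s hs
  by_contra hcon
  push Not at hcon
  have h1 : x - z ∈ D := hS _ (by linarith) ⟨z, hz, by simpa using hx⟩
  have h2 : s - z ∈ D := by
    refine hS' _ ?_ ⟨z, hz', by simpa using hs⟩
    calc |s - z| = |(s - x) + (x - z)| := by ring_nf
      _ ≤ |s - x| + |x - z| := abs_add_le _ _
      _ ≤ L₀ + 2 := by linarith
  have h3 := hD _ h2 _ h1 (by
    have : s - z - (x - z) = s - x := by ring
    rw [this]; exact hcon)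
  have h4 : s = x := by linarith
  exact hx' (h4 ▸ hs)

/-- RDT for one set. -/
lemma rdt_abs (hLU : T_LU) {X : Set ℝ} (hX : LF X) {ρ L₀ : ℝ} (hρ : 0 < ρ) (hL₀ : 0 < L₀)
    {D : Set ℝ} (hD : D.Finite) :
    ∃ L > (0 : ℝ), ∀ S : Set ℝ, SepR ρ S → (∀ u v : ℝ, (S ∩ Set.Icc u v).Finite) →
      (∀ M : ℝ, ∃ Q : ℝ, M ≤ Q ∧ 0 < Q ∧ PerR Q S ∧ SpR X Q S) →
      (∀ a : ℝ, ∃ s ∈ S, a ≤ s ∧ s ≤ a + L₀) →
      (∀ d, |d| ≤ L₀ + 2 → (∃ s ∈ S, s + d ∈ S) → d ∈ D) →
      ∀ τ a : ℝ, (∀ s, a ≤ s → s ≤ a + L → (s ∈ S ↔ s + τ ∈ S)) → PerR τ S := by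
  obtain ⟨κ, hκ, hκ1, hDκ⟩ := minDist hD
  obtain ⟨L, hL, hU⟩ := hLU X hX ρ hρ κ hκ
  refine ⟨L + L₀ + 2, by linarith, ?_⟩
  intro S hsep hfin hQ hgap hSD τ a hag
  obtain ⟨Q, hLQ, hQ0, hper, hsp⟩ := hQ L
  set S' : Set ℝ := {s | s + τ ∈ S} with hS'
  have hper' : PerR Q S' := by
    intro s
    have h1 : s + Q + τ = s + τ + Q := by ring
    change s + Q + τ ∈ S ↔ s + τ ∈ S
    rw [h1]
    exact hper (s + τ)
  have hsep' : SepR ρ S' := by
    intro s hs s' hs' hne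
    have := hsep _ hs _ hs' (by intro h; exact hne (by linarith))
    have h1 : s + τ - (s' + τ) = s - s' := by ring
    rwa [h1] at this
  have hsp' : SpR X Q S' := spR_shift hQ0 hper hsp τ
  have hSD' : ∀ d, |d| ≤ L₀ + 2 → (∃ s ∈ S', s + d ∈ S') → d ∈ D := by
    rintro d hd ⟨s, hs, hs'⟩
    refine hSD d hd ⟨s + τ, hs, ?_⟩
    have h1 : s + τ + d = s + d + τ := by ring
    rw [h1]; exact hs'
  have hfin' : ∀ u v : ℝ, (S' ∩ Set.Icc u v).Finite := by
    intro u v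
    have h1 := (hfin (u + τ) (v + τ)).preimage (f := fun s : ℝ => s + τ)
      (fun x _ y _ hxy => by simpa using hxy)
    refine h1.subset ?_
    intro s hs
    exact ⟨hs.1, by simpa using hs.2⟩
  -- the difference set
  have hdif : ∀ u v : ℝ, ({s | ¬ (s ∈ S ↔ s ∈ S')} ∩ Set.Icc u v).Finite := by
    intro u v
    refine ((hfin u v).union (hfin' u v)).subset ?_
    intro s hs
    by_cases h1 : s ∈ S
    · exact Or.inl ⟨h1, hs.2⟩
    · by_cases h2 : s ∈ S'
      · exact Or.inr ⟨h2, hs.2⟩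
      · exact absurd (iff_of_false h1 h2) hs.1
  -- contradiction from a difference with agreement on one side
  have hR : ∀ x, ¬ (x ∈ S ↔ x ∈ S') → (∀ s, x - (L + L₀ + 2) ≤ s → s < x → (s ∈ S ↔ s ∈ S')) →
      False := by
    intro x hx hagx
    obtain ⟨z, hz, hz1, hz2⟩ := hgap (x - 1 - L₀)
    have hz' : z ∈ S' := (hagx z (by linarith) (by linarith)).1 hz
    have hxz : |x - z| ≤ L₀ + 1 := by rw [abs_le]; constructor <;> linarith
    by_cases h1 : x ∈ S
    · have h2 : x ∉ S' := fun h2 => hx (iff_of_true h1 h2)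
      refine (hU Q hLQ S S' hper hper' hsep hsep' hsp hsp' x h1
        (step hκ1 hDκ hSD hSD' h1 h2 hz hz' hxz)).1 ?_
      intro s hs1 hs2
      exact hagx s (by linarith) hs2
    · have h2 : x ∈ S' := by
        by_contra h2
        exact hx (iff_of_false h1 h2)
      refine (hU Q hLQ S' S hper' hper hsep' hsep hsp' hsp x h2
        (step hκ1 hDκ hSD' hSD h2 h1 hz' hz hxz)).1 ?_
      intro s hs1 hs2
      exact (hagx s (by linarith) hs2).symm
  have hLft : ∀ x, ¬ (x ∈ S ↔ x ∈ S') →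
      (∀ s, x < s → s ≤ x + (L + L₀ + 2) → (s ∈ S ↔ s ∈ S')) → False := by
    intro x hx hagx
    obtain ⟨z, hz, hz1, hz2⟩ := hgap (x + 1)
    have hz' : z ∈ S' := (hagx z (by linarith) (by linarith)).1 hz
    have hxz : |x - z| ≤ L₀ + 1 := by rw [abs_le]; constructor <;> linarith
    by_cases h1 : x ∈ S
    · have h2 : x ∉ S' := fun h2 => hx (iff_of_true h1 h2)
      refine (hU Q hLQ S S' hper hper' hsep hsep' hsp hsp' x h1
        (step hκ1 hDκ hSD hSD' h1 h2 hz hz' hxz)).2 ?_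
      intro s hs1 hs2
      exact hagx s hs1 (by linarith)
    · have h2 : x ∈ S' := by
        by_contra h2
        exact hx (iff_of_false h1 h2)
      refine (hU Q hLQ S' S hper' hper hsep' hsep hsp' hsp x h2
        (step hκ1 hDκ hSD' hSD h2 h1 hz' hz hxz)).2 ?_
      intro s hs1 hs2
      exact (hagx s hs1 (by linarith)).symm
  have hall : ∀ x, (x ∈ S ↔ x ∈ S') := by
    intro x
    by_contra hx
    have hx' : x < a ∨ a + (L + L₀ + 2) < x := by
      by_contra hcon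
      push Not at hcon
      exact hx (hag x hcon.1 hcon.2)
    rcases hx' with hxa | hxa
    · obtain ⟨x₀, hx₀, hmax⟩ := (hdif x a).exists_maximalFor id _ ⟨x, hx, le_rfl, hxa.le⟩
      have hx₀a : x₀ < a := by
        rcases lt_or_eq_of_le hx₀.2.2 with h | h
        · exact h
        · exfalso
          apply hx₀.1
          rw [h]
          exact hag a le_rfl (by linarith)
      refine hLft x₀ hx₀.1 ?_
      intro s hs1 hs2
      by_contra hs
      rcases le_or_gt s a with hsa | hsa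
      · have h1 := hmax (j := s) ⟨hs, le_trans hx₀.2.1 hs1.le, hsa⟩ hs1.le
        simp only [id] at h1
        linarith
      · exact hs (hag s hsa.le (by linarith))
    · obtain ⟨x₀, hx₀, hmin⟩ := (hdif (a + (L + L₀ + 2)) x).exists_minimalFor id _
        ⟨x, hx, hxa.le, le_rfl⟩
      have hx₀a : a + (L + L₀ + 2) < x₀ := by
        rcases lt_or_eq_of_le hx₀.2.1 with h | h
        · exact h
        · exfalso
          apply hx₀.1
          rw [← h]
          exact hag _ (by linarith) le_rfl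
      refine hR x₀ hx₀.1 ?_
      intro s hs1 hs2
      by_contra hs
      rcases le_or_gt (a + (L + L₀ + 2)) s with hsa | hsa
      · have h1 := hmin (j := s) ⟨hs, hsa, le_trans hs2.le hx₀.2.2⟩ hs2.le
        simp only [id] at h1
        linarith
      · exact hs (hag s (by linarith) hsa.le)
  intro s
  exact (hall s).symm

end GapAux

open GapAux

theorem p_GAP_of (hSEP : T_SEP) (hHH : T_HH) (hHQ : T_HQ) (hSPEC : T_SPEC) (hLU : T_LU) :
    T_GAP := by
  intro C hC hI hN e n he hn T c hT hF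
  by_cases hne : ∃ y, (row e n (Abv C e T c) y).Nonempty
  · obtain ⟨ρ, hρ, X, hX, hsep, hfin, hQ⟩ := data hSEP hHH hHQ hSPEC C hC hI hN e n he hn T c hT
      hF hne
    obtain ⟨L, hL, h⟩ := gap_abs hLU hX hρ
    exact ⟨L, hL, fun y hy a => h _ (hsep y) (hfin y) (hQ y) hy a⟩
  · exact ⟨1, one_pos, fun y hy => absurd ⟨y, hy⟩ hne⟩

theorem p_RDT_of (hSEP : T_SEP) (hHH : T_HH) (hHQ : T_HQ) (hSPEC : T_SPEC) (hLU : T_LU)
    (hGAP : T_GAP) : T_RDT := by
  intro C hC hI hN e n he hn T c hT hF hD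
  by_cases hne : ∃ y, (row e n (Abv C e T c) y).Nonempty
  · obtain ⟨ρ, hρ, X, hX, hsep, hfin, hQ⟩ := data hSEP hHH hHQ hSPEC C hC hI hN e n he hn T c hT
      hF hne
    obtain ⟨L₀, hL₀, hg⟩ := hGAP C hC hI hN e n he hn T c hT hF
    obtain ⟨L, hL, h⟩ := rdt_abs hLU hX hρ hL₀ (hD (L₀ + 2))
    refine ⟨L, hL, ?_⟩
    intro y τ a hag
    by_cases hy : (row e n (Abv C e T c) y).Nonempty
    · exact h _ (hsep y) (hfin y) (hQ y) (hg y hy)
        (fun d hd hd' => ⟨hd, y, hd'⟩) τ a hag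
    · rw [Set.not_nonempty_iff_eq_empty] at hy
      rw [hy]
      exact perR_empty τ
  · refine ⟨1, one_pos, ?_⟩
    intro y τ a hag
    have hy : row e n (Abv C e T c) y = ∅ := by
      rw [← Set.not_nonempty_iff_eq_empty]
      exact fun h => hne ⟨y, h⟩
    rw [hy]
    exact perR_empty τ

end Pool.Agent.PTG
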