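import Pool.Agent.PTG.P_DIFF
import Pool.Agent.PTG.P_FULL

/-!
# PTG: GERM

The germ of the class function along a line of the exceptional set.
-/

set_option autoImplicit false

namespace Pool.Agent.PTG

open Pool.Agent.PTR Filter Topology
open Pool.Agent.PTR.OL (V ii dif difs)

namespace GERM

open DIFF FULL

/-- The class function is constant on a segment off the exceptional set. -/
lemma seg_const {ι : Type} {cl : V → ι} {x v : V}
    (h : ∀ t : ℝ, 0 ≤ t → t ≤ 1 → x + t • v ∉ Es cl) : cl (x + v) = cl x := by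
  have hlc : IsLocallyConstant fun t : ℝ => cl (x + (max 0 (min t 1)) • v) := by
    rw [IsLocallyConstant.iff_eventually_eq]
    intro t
    have h1 := es_not.1 (h (max 0 (min t 1)) (le_max_left _ _)
      (max_le zero_le_one (min_le_right _ _)))
    have hc : Continuous fun t' : ℝ => x + (max 0 (min t' 1)) • v := by fun_prop
    exact (hc.tendsto t).eventually h1
  have h2 := hlc.apply_eq_of_isPreconnected isPreconnected_univ (Set.mem_univ (1 : ℝ))
    (Set.mem_univ (0 : ℝ))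
  simpa using h2

/-- Near a simple point the class function depends only on the height. -/
lemma smp_const {ι : Type} {U : Ultrafilter ℕ} {cl : V → ι} {a : ι → ℕ → V} (h : Cls U cl a)
    {e p : V} (hS : Smp (Es cl) e p) : ∃ r > (0 : ℝ), ∀ x y, ‖x - p‖ < r → ‖y - p‖ < r →
    rdet e x = rdet e y → cl x = cl y := by
  obtain ⟨r, hr, hS⟩ := hS
  have hoff : ∀ x y, ‖x - p‖ < r → ‖y - p‖ < r → rdet e x = rdet e y → x ∉ Es cl →
      cl x = cl y := by
    intro x y hx hy hxy hxE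
    have h1 : cl (x + (y - x)) = cl x := by
      refine seg_const fun t ht0 ht1 hE => ?_
      have hb : x + t • (y - x) ∈ Metric.ball p r :=
        (convex_ball p r).add_smul_sub_mem (by rwa [mem_ball_iff_norm])
          (by rwa [mem_ball_iff_norm]) ⟨ht0, ht1⟩
      rw [mem_ball_iff_norm] at hb
      refine hxE ((hS x _ hx hb ?_).2 hE)
      rw [rdet_add, rdet_smul, rdet_sub, hxy]
      ring
    rw [add_sub_cancel] at h1
    exact h1.symm
  obtain ⟨W, hW, hg⟩ := h.gen
  refine ⟨r / 2, half_pos hr, fun x y hx hy hxy => ?_⟩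
  have hw : ∀ᶠ w in (W : Filter V), ‖w‖ < r / 2 := by
    refine hW ?_
    have := Metric.ball_mem_nhds (0 : V) (half_pos hr)
    filter_upwards [this] with w hw
    simpa using hw
  obtain ⟨w, ⟨⟨h1, h2⟩, h3, h4⟩, h5⟩ := (((hg x).and (hg y)).and hw).exists
  rw [← h1, ← h3]
  have hn : ∀ z, ‖z - p‖ < r / 2 → ‖z + w - p‖ < r := by
    intro z hz
    calc ‖z + w - p‖ = ‖(z - p) + w‖ := by congr 1; abel
      _ ≤ ‖z - p‖ + ‖w‖ := norm_add_le _ _
      _ < r / 2 + r / 2 := add_lt_add hz h5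
      _ = r := by ring
  exact hoff _ _ (hn x hx) (hn y hy) (by rw [rdet_add, rdet_add, hxy]) (es_not.2 h2)

/-- A small interval of heights on which both germs are constant. -/
lemma gen_ht {ι : Type} {U : Ultrafilter ℕ} {cl : V → ι} {a : ι → ℕ → V} (h : Cls U cl a)
    {e n p p' : V} (hn : rdet e n = 1) {r η : ℝ} (hr : 0 < r) (hη : 0 < η)
    (hc : ∀ x y, ‖x - p‖ < r → ‖y - p‖ < r → rdet e x = rdet e y → cl x = cl y)
    (hc' : ∀ x y, ‖x - p'‖ < r → ‖y - p'‖ < r → rdet e x = rdet e y → cl x = cl y) :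
    ∃ h₁ s : ℝ, 0 < s ∧ |h₁| + s ≤ η ∧ ∀ t : ℝ, |t - h₁| ≤ s →
      cl (p + t • n) = cl p ∧ cl (p' + t • n) = cl p' := by
  have hN : 0 < ‖n‖ := norm_pos_iff.2 (n_ne hn)
  obtain ⟨W, hW, hg⟩ := h.gen
  -- the size of `w`
  set δ : ℝ := min (r / 2) (min (η / 2) (r / (4 * ‖n‖)) / (2 * ‖e‖ + 1)) with hδ
  have hδ0 : 0 < δ := by
    refine lt_min (by positivity) (div_pos (lt_min (by positivity) (by positivity)) ?_)
    positivity
  have hw : ∀ᶠ w in (W : Filter V), ‖w‖ < δ := by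
    refine hW ?_
    have := Metric.ball_mem_nhds (0 : V) hδ0
    filter_upwards [this] with w hw
    simpa using hw
  obtain ⟨w, ⟨⟨h1, h2⟩, h3, h4⟩, h5⟩ := (((hg p).and (hg p')).and hw).exists
  obtain ⟨s₁, hs₁, h6⟩ := Metric.eventually_nhds_iff.1 h2
  obtain ⟨s₂, hs₂, h7⟩ := Metric.eventually_nhds_iff.1 h4
  have hh1 : |rdet e w| ≤ min (η / 2) (r / (4 * ‖n‖)) := by
    have e1 := rdet_abs e w
    have e2 : ‖w‖ ≤ min (η / 2) (r / (4 * ‖n‖)) / (2 * ‖e‖ + 1) :=
      h5.le.trans (min_le_right _ _)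
    rw [le_div_iff₀ (by positivity)] at e2
    nlinarith [norm_nonneg w, norm_nonneg e]
  have hh2 : |rdet e w| ≤ η / 2 := hh1.trans (min_le_left _ _)
  have hh3 : |rdet e w| * ‖n‖ ≤ r / 4 := by
    have e1 : |rdet e w| ≤ r / (4 * ‖n‖) := hh1.trans (min_le_right _ _)
    calc |rdet e w| * ‖n‖ ≤ r / (4 * ‖n‖) * ‖n‖ := mul_le_mul_of_nonneg_right e1 hN.le
      _ = r / 4 := by field_simp
  set s : ℝ := min (η / 2) (min (min s₁ s₂) (r / 2) / (2 * ‖n‖)) with hs
  have hs0 : 0 < s := by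
    refine lt_min (by positivity) (div_pos (lt_min (lt_min hs₁ hs₂) (by positivity)) ?_)
    positivity
  have hs3 : s * ‖n‖ ≤ min (min s₁ s₂) (r / 2) / 2 := by
    have e1 : s ≤ min (min s₁ s₂) (r / 2) / (2 * ‖n‖) := min_le_right _ _
    calc s * ‖n‖ ≤ min (min s₁ s₂) (r / 2) / (2 * ‖n‖) * ‖n‖ :=
          mul_le_mul_of_nonneg_right e1 hN.le
      _ = min (min s₁ s₂) (r / 2) / 2 := by field_simp
  have hs4 : s * ‖n‖ ≤ r / 4 := by
    have : min (min s₁ s₂) (r / 2) ≤ r / 2 := min_le_right _ _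
    linarith
  have hs5 : s * ‖n‖ < s₁ := by
    have e1 : min (min s₁ s₂) (r / 2) ≤ s₁ := (min_le_left _ _).trans (min_le_left _ _)
    linarith
  have hs6 : s * ‖n‖ < s₂ := by
    have e1 : min (min s₁ s₂) (r / 2) ≤ s₂ := (min_le_left _ _).trans (min_le_right _ _)
    linarith
  refine ⟨rdet e w, s, hs0, ?_, ?_⟩
  · have : s ≤ η / 2 := min_le_left _ _
    linarith
  intro t ht
  have ht1 : |t - rdet e w| * ‖n‖ ≤ s * ‖n‖ := mul_le_mul_of_nonneg_right ht hN.le
  have ht2 : |t| * ‖n‖ ≤ |rdet e w| * ‖n‖ + |t - rdet e w| * ‖n‖ := by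
    rw [← add_mul]
    refine mul_le_mul_of_nonneg_right ?_ hN.le
    calc |t| = |rdet e w + (t - rdet e w)| := by congr 1; ring
      _ ≤ _ := abs_add_le _ _
  have hw5 : ‖w‖ < r / 2 := lt_of_lt_of_le h5 (min_le_left _ _)
  have gen : ∀ z : V, ∀ s' : ℝ, s * ‖n‖ < s' →
      (∀ x y, ‖x - z‖ < r → ‖y - z‖ < r → rdet e x = rdet e y → cl x = cl y) →
      cl (z + w) = cl z → (∀ ⦃y : V⦄, dist y (z + w) < s' → cl y = cl (z + w)) →
      cl (z + t • n) = cl z := by
    intro z s' hs' hcz hz1 hz2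
    rw [← hz1]
    have e1 : cl (z + w + (t - rdet e w) • n) = cl (z + w) := by
      apply hz2
      rw [dist_eq_norm, add_sub_cancel_left, norm_smul, Real.norm_eq_abs]
      linarith
    rw [← e1]
    apply hcz
    · rw [add_sub_cancel_left, norm_smul, Real.norm_eq_abs]
      linarith
    · calc ‖z + w + (t - rdet e w) • n - z‖ = ‖w + (t - rdet e w) • n‖ := by congr 1; abel
        _ ≤ ‖w‖ + ‖(t - rdet e w) • n‖ := norm_add_le _ _
        _ < r := by
          rw [norm_smul, Real.norm_eq_abs]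
          linarith
    · rw [rdet_add, rdet_add, rdet_add, rdet_smul, rdet_smul, hn]
      ring
  exact ⟨gen p s₁ hs5 hc h1 h6, gen p' s₂ hs6 hc' h3 h7⟩

end GERM

open DIFF FULL GERM

theorem p_GERM_of (hANN : T_ANN) (hDET : T_DET) : T_GERM := by
  intro ι U cl a h e p p' he hpE hpp hS hS'
  obtain ⟨n, hn⟩ := exists_n he
  have hn0 : n ≠ 0 := n_ne hn
  have hN : 0 < ‖n‖ := norm_pos_iff.2 hn0
  have hE : 0 < ‖e‖ := norm_pos_iff.2 he
  obtain ⟨r₁, hr₁, hc₁⟩ := smp_const h hS
  obtain ⟨r₂, hr₂, hc₂⟩ := smp_const h hS'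
  obtain ⟨r, hr, hr1, hr2⟩ : ∃ r > (0 : ℝ), r ≤ r₁ ∧ r ≤ r₂ :=
    ⟨min r₁ r₂, lt_min hr₁ hr₂, min_le_left _ _, min_le_right _ _⟩
  have hc : ∀ x y, ‖x - p‖ < r → ‖y - p‖ < r → rdet e x = rdet e y → cl x = cl y :=
    fun x y hx hy => hc₁ x y (lt_of_lt_of_le hx hr1) (lt_of_lt_of_le hy hr1)
  have hc' : ∀ x y, ‖x - p'‖ < r → ‖y - p'‖ < r → rdet e x = rdet e y → cl x = cl y :=
    fun x y hx hy => hc₂ x y (lt_of_lt_of_le hx hr2) (lt_of_lt_of_le hy hr2)
  -- coordinates
  have hdec : ∀ z : V, z = rdet e z • n + (-rdl n) z • e := by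
    intro z
    have h1 := dec_e hn z
    rw [LinearMap.neg_apply, rdl_apply, neg_smul, ← sub_eq_add_neg]
    exact h1
  have hnd : ∀ z : V, ‖z‖ ≤ |rdet e z| * ‖n‖ + |(-rdl n) z| * ‖e‖ := by
    intro z
    calc ‖z‖ = ‖rdet e z • n + (-rdl n) z • e‖ := by rw [← hdec z]
      _ ≤ ‖rdet e z • n‖ + ‖(-rdl n) z • e‖ := norm_add_le _ _
      _ = _ := by rw [norm_smul, norm_smul, Real.norm_eq_abs, Real.norm_eq_abs]
  have hαn : (-rdl n) n = 0 := by rw [LinearMap.neg_apply, rdl_apply, rdet_self, neg_zero]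
  -- the constants
  obtain ⟨ρ, hρ0, hρ1, hρ2⟩ : ∃ ρ > (0 : ℝ), ρ < r ∧ 2 * ‖e‖ * ρ * ‖n‖ < r := by
    refine ⟨min (r / 2) (r / (4 * ‖e‖ * ‖n‖)), lt_min (by positivity) (by positivity),
      lt_of_le_of_lt (min_le_left _ _) (by linarith), ?_⟩
    have e1 : min (r / 2) (r / (4 * ‖e‖ * ‖n‖)) ≤ r / (4 * ‖e‖ * ‖n‖) := min_le_right _ _
    have e2 : 2 * ‖e‖ * min (r / 2) (r / (4 * ‖e‖ * ‖n‖)) * ‖n‖ ≤
        2 * ‖e‖ * (r / (4 * ‖e‖ * ‖n‖)) * ‖n‖ :=
      mul_le_mul_of_nonneg_right (mul_le_mul_of_nonneg_left e1 (by positivity)) hN.le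
    have e3 : 2 * ‖e‖ * (r / (4 * ‖e‖ * ‖n‖)) * ‖n‖ = r / 2 := by field_simp; norm_num
    linarith
  set q : V := p' - p with hq
  have hqe : rdet e q = 0 := by rw [hq, rdet_sub, hpp, sub_self]
  set aa : ℝ := ρ / (4 * ‖e‖) with haa
  set B : ℝ := ρ / (4 * ‖n‖) with hB
  have haa0 : 0 < aa := by positivity
  have hB0 : 0 < B := by positivity
  have haae : aa * ‖e‖ = ρ / 4 := by rw [haa]; field_simp
  have hBn : B * ‖n‖ = ρ / 4 := by rw [hB]; field_simp
  set A : ℝ := |(-rdl n) q| + aa with hA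
  have hA0 : 0 < A := by positivity
  -- points near `p`, `p'`
  have hy1 : ∀ y : V, ‖y‖ ≤ ρ → ‖rdet e y • n‖ < r := by
    intro y hy
    rw [norm_smul, Real.norm_eq_abs]
    have e1 := rdet_abs e y
    have e2 : |rdet e y| ≤ 2 * ‖e‖ * ρ := e1.trans (mul_le_mul_of_nonneg_left hy (by positivity))
    exact lt_of_le_of_lt (mul_le_mul_of_nonneg_right e2 hN.le) hρ2
  have hnear : ∀ y : V, ‖y‖ ≤ ρ → cl (y + p) = cl (p + rdet e y • n) := by
    intro y hy
    apply hc
    · rw [add_sub_cancel_right]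
      exact lt_of_le_of_lt hy hρ1
    · rw [add_sub_cancel_left]
      exact hy1 y hy
    · rw [rdet_add, rdet_add, rdet_smul, hn]
      ring
  have hnear' : ∀ y : V, ‖y - q‖ ≤ ρ → cl (y + p) = cl (p' + rdet e y • n) := by
    intro y hy
    have e1 : rdet e y = rdet e (y - q) := by rw [rdet_sub, hqe, sub_zero]
    apply hc'
    · have e2 : y + p - p' = y - q := by rw [hq]; abel
      rw [e2]
      exact lt_of_le_of_lt hy hρ1
    · rw [add_sub_cancel_left, e1]
      exact hy1 _ hy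
    · rw [rdet_add, rdet_add, rdet_smul, hn, hpp]
      ring
  -- two classes
  obtain ⟨R, hR⟩ : ∃ R : ℝ, R = ‖p‖ + (B * ‖n‖ + A * ‖e‖) + 1 := ⟨_, rfl⟩
  have htwo : ∃ x y, ‖x‖ ≤ R ∧ ‖y‖ ≤ R ∧ cl x ≠ cl y := by
    have h1 : ¬ ∀ᶠ y in 𝓝 p, cl y = cl p := hpE
    rw [Metric.eventually_nhds_iff] at h1
    push Not at h1
    obtain ⟨y, hy1, hy2⟩ := h1 1 one_pos
    have hBA : 0 ≤ B * ‖n‖ + A * ‖e‖ := by positivity
    refine ⟨y, p, ?_, ?_, hy2⟩
    · rw [dist_eq_norm] at hy1
      calc ‖y‖ = ‖(y - p) + p‖ := by rw [sub_add_cancel]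
        _ ≤ ‖y - p‖ + ‖p‖ := norm_add_le _ _
        _ ≤ R := by rw [hR]; linarith
    · rw [hR]
      linarith
  obtain ⟨M, hM, hL⟩ := hANN ι U cl a h R htwo
  have hM' : (0 : ℝ) < M := by exact_mod_cast hM
  -- the interval
  obtain ⟨h₁, s, hs0, hs1, hs2⟩ := gen_ht h hn hr (show 0 < B / 2 by positivity) hc hc'
  -- the small constants
  obtain ⟨θ, hθ⟩ : ∃ θ : ℝ, θ = B / (2 * M * (2 * A + M)) := ⟨_, rfl⟩
  have hθ0 : 0 < θ := by rw [hθ]; positivity
  obtain ⟨ε₁, hε₁, hε1, hε2⟩ : ∃ ε₁ > (0 : ℝ), ε₁ ≤ 1 ∧ (M + 1) * ε₁ ≤ aa := by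
    refine ⟨min 1 (aa / (M + 1)), lt_min one_pos (by positivity), min_le_left _ _, ?_⟩
    calc (M + 1) * min 1 (aa / (M + 1)) ≤ (M + 1) * (aa / (M + 1)) :=
          mul_le_mul_of_nonneg_left (min_le_right _ _) (by positivity)
      _ = aa := by field_simp
  obtain ⟨ε₂, hε₂, hε3⟩ : ∃ ε₂ > (0 : ℝ), (M + 1) * ε₂ ≤ s :=
    ⟨s / (M + 1), by positivity, by
      have : ((M : ℝ) + 1) * (s / (M + 1)) = s := by field_simp
      exact this.le⟩
  obtain ⟨ε, hε, hε4, hε5, hε6⟩ : ∃ ε > (0 : ℝ), 2 * ‖n‖ * ε ≤ ε₁ ∧ 2 * ‖e‖ * ε ≤ ε₂ ∧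
      M * ε ≤ ρ / 2 := by
    refine ⟨min (ε₁ / (2 * ‖n‖)) (min (ε₂ / (2 * ‖e‖)) (ρ / (2 * M))),
      lt_min (by positivity) (lt_min (by positivity) (by positivity)), ?_, ?_, ?_⟩
    · calc 2 * ‖n‖ * min (ε₁ / (2 * ‖n‖)) (min (ε₂ / (2 * ‖e‖)) (ρ / (2 * M))) ≤
            2 * ‖n‖ * (ε₁ / (2 * ‖n‖)) :=
            mul_le_mul_of_nonneg_left (min_le_left _ _) (by positivity)
        _ = ε₁ := by field_simp
    · calc 2 * ‖e‖ * min (ε₁ / (2 * ‖n‖)) (min (ε₂ / (2 * ‖e‖)) (ρ / (2 * M))) ≤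
            2 * ‖e‖ * (ε₂ / (2 * ‖e‖)) :=
            mul_le_mul_of_nonneg_left ((min_le_right _ _).trans (min_le_left _ _)) (by positivity)
        _ = ε₂ := by field_simp
    · calc M * min (ε₁ / (2 * ‖n‖)) (min (ε₂ / (2 * ‖e‖)) (ρ / (2 * M))) ≤
            M * (ρ / (2 * M)) :=
            mul_le_mul_of_nonneg_left ((min_le_right _ _).trans (min_le_right _ _)) (by positivity)
        _ = ρ / 2 := by field_simp
  obtain ⟨L, hL1, hL2, -, hL4⟩ := hL ε hε
  -- the two parts of the list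
  obtain ⟨L₁, L₂, hperm, hLa, hLb⟩ : ∃ L₁ L₂ : List V, L.Perm (L₁ ++ L₂) ∧
      (∀ w ∈ L₁, w ∈ L ∧ |rdet e w| ≤ θ * |(-rdl n) w|) ∧
      ∀ w ∈ L₂, w ∈ L ∧ rdet e w ≠ 0 := by
    classical
    refine ⟨L.filter fun w => decide (|rdet e w| ≤ θ * |(-rdl n) w|),
      L.filter fun w => !decide (|rdet e w| ≤ θ * |(-rdl n) w|),
      (List.filter_append_perm (fun w : V => decide (|rdet e w| ≤ θ * |(-rdl n) w|)) L).symm,
      ?_, ?_⟩
    · intro w hw
      rw [List.mem_filter] at hw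
      exact ⟨hw.1, by simpa using hw.2⟩
    · intro w hw
      rw [List.mem_filter] at hw
      refine ⟨hw.1, fun h0 => ?_⟩
      have h1 : ¬ |rdet e w| ≤ θ * |(-rdl n) w| := by simpa using hw.2
      apply h1
      rw [h0, abs_zero]
      positivity
  have hlen : L₁.length + L₂.length = M := by
    rw [← hL1, hperm.length_eq, List.length_append]
  have hlen1 : (L₁.length : ℝ) ≤ M := by
    have : L₁.length ≤ M := by omega
    exact_mod_cast this
  have hlen2 : (L₂.length : ℝ) ≤ M := by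
    have : L₂.length ≤ M := by omega
    exact_mod_cast this
  have hwn : ∀ w ∈ L, |(-rdl n) w| ≤ ε₁ := by
    intro w hw
    rw [LinearMap.neg_apply, rdl_apply, abs_neg]
    refine (rdet_abs n w).trans (le_trans ?_ hε4)
    exact mul_le_mul_of_nonneg_left (hL2 w hw).2.le (by positivity)
  have hwe : ∀ w ∈ L, |rdet e w| ≤ ε₂ := by
    intro w hw
    refine (rdet_abs e w).trans (le_trans ?_ hε5)
    exact mul_le_mul_of_nonneg_left (hL2 w hw).2.le (by positivity)
  -- the key: the difference of the germs is constant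
  have key : ∀ i : ι, ∀ t : ℝ, |t| ≤ B / 2 →
      ii {y | cl y = i} (p' + t • n) - ii {y | cl y = i} (p + t • n) =
        ii {y | cl y = i} p' - ii {y | cl y = i} p := by
    intro i
    have hfc : ∀ x y : V, cl x = cl y → ii {y | cl y = i} x = ii {y | cl y = i} y := by
      intro x y hxy
      refine OL.ii_congr ?_
      show cl x = i ↔ cl y = i
      rw [hxy]
    set f : V → ℤ := ii {y | cl y = i} with hf
    set F : V → ℤ := fun z => f (p + rdet e z • n) with hF
    set g : V → ℤ := fun z => f (z + p) - F z with hg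
    set P : V → ℤ := fun z => f (p' + rdet e z • n) - F z with hP
    set c₀ : ℤ := f p' - f p with hc₀
    have hFh : ∀ (L' : List V) (x y : V), rdet e x = rdet e y → difs L' F x = difs L' F y := by
      intro L' x y hxy
      apply OL.difs_congr
      intro s' _
      show f (p + rdet e (x - s') • n) = f (p + rdet e (y - s') • n)
      rw [rdet_sub, rdet_sub, hxy]
    have hPh : ∀ (L' : List V) (x y : V), rdet e x = rdet e y → difs L' P x = difs L' P y := by
      intro L' x y hxy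
      apply OL.difs_congr
      intro s' _
      show f (p' + rdet e (x - s') • n) - f (p + rdet e (x - s') • n) =
        f (p' + rdet e (y - s') • n) - f (p + rdet e (y - s') • n)
      rw [rdet_sub, rdet_sub, hxy]
    have hg0 : ∀ y, ‖y - 0‖ ≤ ρ → g y = 0 := by
      intro y hy
      rw [sub_zero] at hy
      show f (y + p) - f (p + rdet e y • n) = 0
      rw [hfc _ _ (hnear y hy), sub_self]
    have hgl : ∀ (L' : List V), (∀ w ∈ L', w ∈ L) → (L'.length : ℝ) ≤ M → ∀ y, ‖y‖ ≤ ρ / 2 →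
        difs L' g y = 0 := by
      intro L' hL' hlen' y hy
      refine dloc L' g 0 ρ ε (fun w hw => (hL2 w (hL' w hw)).2.le) hg0 hε.le y ?_
      rw [sub_zero]
      have : (L'.length : ℝ) * ε ≤ M * ε := mul_le_mul_of_nonneg_right hlen' hε.le
      linarith
    have hLM : (L.length : ℝ) ≤ M := by rw [hL1]
    -- the annihilator kills `g` on the band
    have hft : ∀ x, ‖x + p‖ ≤ R → difs L (fun z => f (z + p)) x = 0 := by
      intro x hx
      rw [OL.difs_shift]
      exact hL4 i _ hx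
    have hgeq : ∀ L' : List V, difs L' g = fun z =>
        difs L' (fun z => f (z + p)) z - difs L' F z := fun L' => dsub L' _ _
    have hFz : ∀ x, |rdet e x| ≤ B → difs L F x = 0 := by
      intro x hx
      have e1 : ‖rdet e x • n‖ ≤ ρ / 4 := by
        rw [norm_smul, Real.norm_eq_abs, ← hBn]
        exact mul_le_mul_of_nonneg_right hx hN.le
      have e2 : difs L F x = difs L F (rdet e x • n) := by
        apply hFh
        rw [rdet_smul, hn, mul_one]
      have e3 : difs L g (rdet e x • n) = 0 :=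
        hgl L (fun w hw => hw) hLM _ (by linarith)
      have e4 : difs L (fun z => f (z + p)) (rdet e x • n) = 0 := by
        apply hft
        have e5 : (0 : ℝ) ≤ A * ‖e‖ := by positivity
        calc ‖rdet e x • n + p‖ ≤ ‖rdet e x • n‖ + ‖p‖ := norm_add_le _ _
          _ ≤ R := by rw [hR, hBn]; linarith
      rw [hgeq] at e3
      simp only at e3
      rw [e4] at e3
      rw [e2]
      linarith
    have hgz : ∀ x, |(-rdl n) x| ≤ A → |rdet e x| ≤ B → difs L g x = 0 := by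
      intro x hx1 hx2
      rw [hgeq]
      simp only
      rw [hFz x hx2, hft x, sub_zero]
      have e1 := hnd x
      have e2 : |rdet e x| * ‖n‖ ≤ B * ‖n‖ := mul_le_mul_of_nonneg_right hx2 hN.le
      have e3 : |(-rdl n) x| * ‖e‖ ≤ A * ‖e‖ := mul_le_mul_of_nonneg_right hx1 hE.le
      calc ‖x + p‖ ≤ ‖x‖ + ‖p‖ := norm_add_le _ _
        _ ≤ R := by rw [hR]; linarith
    -- determinacy in the direction `e`
    have hg2 : ∀ x, |(-rdl n) x| ≤ A → |rdet e x| ≤ B / 2 → difs L₂ g x = 0 := by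
      intro x hx1 hx2
      refine hDET (-rdl n) (rdl e) L₁ (difs L₂ g) A B aa 0 θ ε₁ hθ0.le hε₁ ?_ ?_ ?_ ?_ ?_ x hx1 ?_
      · refine le_trans ?_ hε2
        exact mul_le_mul_of_nonneg_right (by linarith) hε₁.le
      · rw [abs_zero, zero_add, hA]
        linarith [abs_nonneg ((-rdl n) q)]
      · intro w hw
        obtain ⟨e1, e2⟩ := hLa w hw
        refine ⟨fun e3 => ?_, hwn w e1, e2⟩
        rw [e3, abs_zero, mul_zero] at e2
        have e4 : rdet e w = 0 := abs_nonpos_iff.1 e2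
        apply (hL2 w e1).1
        rw [hdec w, e3, e4, zero_smul, zero_smul, add_zero]
      · intro y hy1 hy2
        rw [← dapp, ← OL.difs_perm hperm]
        exact hgz y hy1 hy2
      · intro y hy1 hy2
        rw [sub_zero] at hy1
        refine hgl L₂ (fun w hw => (hLb w hw).1) hlen2 y ?_
        have e1 := hnd y
        have e2 : |rdet e y| * ‖n‖ ≤ B * ‖n‖ := mul_le_mul_of_nonneg_right hy2 hN.le
        have e3 : |(-rdl n) y| * ‖e‖ ≤ aa * ‖e‖ := mul_le_mul_of_nonneg_right hy1 hE.le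
        linarith
      · have e1 : (L₁.length : ℝ) * (2 * A + L₁.length * ε₁) * θ ≤ M * (2 * A + M) * θ := by
          refine mul_le_mul_of_nonneg_right ?_ hθ0.le
          refine mul_le_mul hlen1 ?_ (by positivity) hM'.le
          have : (L₁.length : ℝ) * ε₁ ≤ M * 1 :=
            mul_le_mul hlen1 hε1 hε₁.le hM'.le
          linarith
        have e2 : (M : ℝ) * (2 * A + M) * θ = B / 2 := by
          rw [hθ]
          field_simp
        rw [rdl_apply]
        linarith
    -- the function of the heights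
    have hP2 : ∀ x, |rdet e x| ≤ B / 2 → difs L₂ P x = 0 := by
      intro x hx
      have e0 : rdet e (q + rdet e x • n) = rdet e x := by
        rw [rdet_add, rdet_smul, hn, hqe]
        ring
      have e1 : difs L₂ P x = difs L₂ P (q + rdet e x • n) := hPh _ _ _ e0.symm
      have e2 : ‖q + rdet e x • n - q‖ ≤ ρ / 4 := by
        rw [add_sub_cancel_left, norm_smul, Real.norm_eq_abs, ← hBn]
        exact mul_le_mul_of_nonneg_right (by linarith) hN.le
      have e3 : difs L₂ (fun z => g z - P z) (q + rdet e x • n) = 0 := by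
        refine dloc L₂ _ q ρ ε (fun w hw => (hL2 w (hLb w hw).1).2.le) ?_ hε.le _ ?_
        · intro y hy
          show f (y + p) - F y - (f (p' + rdet e y • n) - F y) = 0
          rw [hfc _ _ (hnear' y hy)]
          ring
        · have : (L₂.length : ℝ) * ε ≤ M * ε := mul_le_mul_of_nonneg_right hlen2 hε.le
          linarith
      rw [dsub] at e3
      simp only at e3
      have e4 : difs L₂ g (q + rdet e x • n) = 0 := by
        apply hg2
        · rw [map_add, map_smul, hαn, smul_zero, add_zero, hA]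
          linarith
        · rw [e0]
          exact hx
      rw [e1]
      linarith
    have hPs : ∀ x, |rdet e x - h₁| ≤ s → P x = c₀ := by
      intro x hx
      obtain ⟨e1, e2⟩ := hs2 _ hx
      show f (p' + rdet e x • n) - f (p + rdet e x • n) = f p' - f p
      rw [hfc _ _ e1, hfc _ _ e2]
    have hPc : ∀ x, |rdet e x| ≤ B / 2 → P x = c₀ := by
      rcases Nat.eq_zero_or_pos L₂.length with h0 | h0
      · rw [List.length_eq_zero_iff] at h0
        rw [h0] at hP2
        have e1 : ∀ x, |rdet e x| ≤ B / 2 → P x = 0 := hP2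
        have e2 : rdet e (h₁ • n) = h₁ := by rw [rdet_smul, hn, mul_one]
        have e3 := hPs (h₁ • n) (by rw [e2, sub_self, abs_zero]; exact hs0.le)
        have e4 := e1 (h₁ • n) (by rw [e2]; linarith)
        intro x hx
        rw [e1 x hx, ← e3, e4]
      · intro x hx
        have e1 := hDET (rdl e) 0 L₂ (fun z => P z - (fun _ => c₀) z) (B / 2) 0 s h₁ 0 ε₂ le_rfl
          hε₂ ?_ hs1 ?_ ?_ ?_ x hx ?_
        · simp only at e1
          linarith
        · refine le_trans ?_ hε3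
          exact mul_le_mul_of_nonneg_right (by linarith) hε₂.le
        · intro w hw
          obtain ⟨e2, e3⟩ := hLb w hw
          refine ⟨e3, hwe w e2, ?_⟩
          simp
        · intro y hy _
          rw [dsub, dconst L₂ h0]
          simp only
          rw [hP2 y hy, sub_zero]
        · intro y hy _
          simp only
          rw [hPs y hy, sub_self]
        · simp
    intro t ht
    have e2 : rdet e (t • n) = t := by rw [rdet_smul, hn, mul_one]
    have e1 := hPc (t • n) (by rw [e2]; exact ht)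
    have e3 : P (t • n) = f (p' + t • n) - f (p + t • n) := by
      show f (p' + rdet e (t • n) • n) - f (p + rdet e (t • n) • n) = _
      rw [e2]
    rw [← e3, e1]
  -- the classes at `p` and `p'` are equal
  have hpp' : cl p = cl p' := by
    by_contra hne
    apply hpE
    rw [Metric.eventually_nhds_iff]
    refine ⟨min ρ (B / 2 / (2 * ‖e‖)), lt_min hρ0 (by positivity), fun y hy => ?_⟩
    rw [dist_eq_norm] at hy
    have hy1 : ‖y - p‖ ≤ ρ := hy.le.trans (min_le_left _ _)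
    have hy2 : ‖y - p‖ ≤ B / 2 / (2 * ‖e‖) := hy.le.trans (min_le_right _ _)
    have hy3 : |rdet e (y - p)| ≤ B / 2 := by
      rw [le_div_iff₀ (by positivity)] at hy2
      have := rdet_abs e (y - p)
      linarith
    have e1 := key (cl p) _ hy3
    have e2 : ii {y | cl y = cl p} p = 1 := OL.ii_of_mem rfl
    have e3 : ii {y | cl y = cl p} p' = 0 := OL.ii_of_not fun h0 => hne (Eq.symm h0)
    rw [e2, e3] at e1
    have e4 := hnear (y - p) hy1
    rw [sub_add_cancel] at e4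
    rw [e4]
    by_contra e5
    have e6 : ii {y | cl y = cl p} (p + rdet e (y - p) • n) = 0 := OL.ii_of_not e5
    rw [e6] at e1
    by_cases e7 : cl (p' + rdet e (y - p) • n) = cl p
    · have e8 : ii {y | cl y = cl p} (p' + rdet e (y - p) • n) = 1 := OL.ii_of_mem e7
      rw [e8] at e1
      norm_num at e1
    · have e8 : ii {y | cl y = cl p} (p' + rdet e (y - p) • n) = 0 := OL.ii_of_not e7
      rw [e8] at e1
      norm_num at e1
  have hfin : ∀ t : ℝ, |t| ≤ B / 2 → cl (p + t • n) = cl (p' + t • n) := by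
    intro t ht
    have e1 := key (cl (p + t • n)) t ht
    have e2 : ii {y | cl y = cl (p + t • n)} p' = ii {y | cl y = cl (p + t • n)} p := by
      refine OL.ii_congr ?_
      show cl p' = _ ↔ cl p = _
      rw [hpp']
    have e3 : ii {y | cl y = cl (p + t • n)} (p + t • n) = 1 := OL.ii_of_mem rfl
    rw [e2, e3, sub_self] at e1
    have e4 : ii {y | cl y = cl (p + t • n)} (p' + t • n) ≠ 0 := by
      intro e5
      rw [e5] at e1
      norm_num at e1
    exact (OL.ii_ne e4).symm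
  refine ⟨min ρ (B / 2 / (2 * ‖e‖)), lt_min hρ0 (by positivity), ?_⟩
  intro x y hx hy hxy _ _
  have hx1 : ‖x - p‖ ≤ ρ := hx.le.trans (min_le_left _ _)
  have hx2 : ‖x - p‖ ≤ B / 2 / (2 * ‖e‖) := hx.le.trans (min_le_right _ _)
  have hy1 : ‖y - p'‖ ≤ ρ := hy.le.trans (min_le_left _ _)
  have hx3 : |rdet e (x - p)| ≤ B / 2 := by
    rw [le_div_iff₀ (by positivity)] at hx2
    have := rdet_abs e (x - p)
    linarith
  have e1 := hnear (x - p) hx1
  have e2 := hnear' (y - p) (by rw [hq]; convert hy1 using 2; abel)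
  rw [sub_add_cancel] at e1 e2
  have e3 : rdet e (y - p) = rdet e (x - p) := by rw [rdet_sub, rdet_sub, hxy]
  rw [e1, e2, e3]
  exact hfin _ hx3

end Pool.Agent.PTG
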