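import Pool.Agent.PTG.Targets

/-!
# PTG: finite local complexity below every height (T_HB)
-/

set_option autoImplicit false

namespace Pool.Agent.PTG

open Pool.Agent.PTR Filter Topology
open Pool.Agent.PTR.OL (V ii dif difs FLC InHull)
open Pool.Agent.PTP (Til TDP Iv wd SF Abv Stp Stk Ds Sm)
open Pool.Agent.PTA (Dir)

/-- Translates of tilings. -/
private lemma hb_til {C T : Set V} (hT : Til C T) (s : V) : Til C {z | z + s ∈ T} := by
  constructor
  · intro z
    obtain ⟨t, ht, htC⟩ := hT.1 (z + s)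
    refine ⟨t - s, ?_, ?_⟩
    · change t - s + s ∈ T
      rw [sub_add_cancel]; exact ht
    · rw [show z - (t - s) = z + s - t by abel]; exact htC
  · intro t ht t' ht' z h1 h2
    have := hT.2 (t + s) ht (t' + s) ht' (z + s) (by rw [add_sub_add_right_eq_sub]; exact h1)
      (by rw [add_sub_add_right_eq_sub]; exact h2)
    exact add_right_cancel this

/-- Parallel directions. -/
private lemma hb_scale {e e' : V} (he : e ≠ 0) (he' : e' ≠ 0) (hpar : rdet e e' = 0) :
    ∃ s : ℝ, s ≠ 0 ∧ ∀ z, rdet e' z = s * rdet e z := by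
  simp only [rdet] at hpar
  by_cases hc : e.1 = 0
  · have hc2 : e.2 ≠ 0 := fun h => he (Prod.ext hc h)
    have hc3 : e'.1 = 0 := by
      rw [hc, zero_mul, zero_sub, neg_eq_zero] at hpar
      exact (mul_eq_zero.1 hpar).resolve_left hc2
    have hc4 : e'.2 ≠ 0 := fun h => he' (Prod.ext hc3 h)
    refine ⟨e'.2 / e.2, div_ne_zero hc4 hc2, fun z => ?_⟩
    simp only [rdet, hc, hc3]
    field_simp
    ring
  · have hc4 : e'.1 ≠ 0 := by
      intro h
      rw [h, mul_zero, sub_zero] at hpar
      exact he' (Prod.ext h ((mul_eq_zero.1 hpar).resolve_left hc))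
    refine ⟨e'.1 / e.1, div_ne_zero hc4 hc, fun z => ?_⟩
    have h5 : e'.2 = e'.1 / e.1 * e.2 := by
      field_simp
      linarith
    have h6 : e'.1 = e'.1 / e.1 * e.1 := by field_simp
    simp only [rdet]
    rw [h5]
    nth_rewrite 1 [h6]
    ring

/-- Two points of different heights. -/
private lemma hb_wd {C : Set V} (hC : (interior C).Nonempty) {e : V} (he : e ≠ 0) :
    ∃ x ∈ C, ∃ y ∈ C, rdet e x < rdet e y := by
  obtain ⟨x, hx⟩ := hC
  set n : V := (-e.2, e.1) with hn
  have hen : 0 < rdet e n := by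
    have h1 : rdet e n = e.1 ^ 2 + e.2 ^ 2 := by simp only [rdet, hn]; ring
    rw [h1]
    by_contra hcon
    push Not at hcon
    have h2 : e.1 = 0 := by nlinarith [sq_nonneg e.1, sq_nonneg e.2]
    have h3 : e.2 = 0 := by nlinarith [sq_nonneg e.1, sq_nonneg e.2]
    exact he (Prod.ext h2 h3)
  have hc : Continuous fun s : ℝ => x + s • n := by fun_prop
  have ho : IsOpen ((fun s : ℝ => x + s • n) ⁻¹' interior C) := isOpen_interior.preimage hc
  have h0 : (0 : ℝ) ∈ (fun s : ℝ => x + s • n) ⁻¹' interior C := by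
    change x + (0 : ℝ) • n ∈ interior C
    rw [zero_smul, add_zero]; exact hx
  obtain ⟨r, hr, hr'⟩ := Metric.isOpen_iff.1 ho 0 h0
  have h1 : x + (r / 2) • n ∈ interior C := hr' (by
    rw [Metric.mem_ball, dist_eq_norm, sub_zero, Real.norm_eq_abs, abs_of_pos (by linarith)]
    linarith)
  refine ⟨x, interior_subset hx, x + (r / 2) • n, interior_subset h1, ?_⟩
  have h2 : rdet e (x + (r / 2) • n) = rdet e x + r / 2 * rdet e n := by
    simp only [rdet, Prod.fst_add, Prod.snd_add, Prod.smul_fst, Prod.smul_snd, smul_eq_mul]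
    ring
  rw [h2]
  have := mul_pos (show (0 : ℝ) < r / 2 by linarith) hen
  linarith

theorem p_HB_of (hULT : T_ULT) (hULB : T_ULB) (hSFL : T_SFL) (hSLIDE : T_SLIDE) (hSLF : T_SLF)
    (hSTZ : T_STZ) : T_HB := by
  intro C hC hI hNS e he T c hT hF R Y
  by_contra hcon
  have hinf : {d | ‖d‖ ≤ R ∧ ∃ t ∈ Abv C e T c, t + d ∈ Abv C e T c ∧
    rdet e t ≤ Y ∧ rdet e (t + d) ≤ Y}.Infinite := hcon
  obtain ⟨d, hdinj, hdmem⟩ : ∃ d : ℕ → V, Function.Injective d ∧ ∀ n, ‖d n‖ ≤ R ∧
      ∃ t ∈ Abv C e T c, t + d n ∈ Abv C e T c ∧ rdet e t ≤ Y ∧ rdet e (t + d n) ≤ Y := by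
    refine ⟨fun n => (hinf.natEmbedding _ n : V), ?_, fun n => (hinf.natEmbedding _ n).2⟩
    intro a b hab
    exact (hinf.natEmbedding _).injective (Subtype.ext hab)
  choose hdR tn htn htdn htY _ using hdmem
  set U : Ultrafilter ℕ := hyperfilter ℕ with hU
  set Tn : ℕ → Set V := fun n => {z | z + tn n ∈ T} with hTn
  have hTil : ∀ n, Til C (Tn n) := fun n => hb_til hT (tn n)
  obtain ⟨hLT, δ, hδ⟩ := hULT C hC U Tn hTil
  -- the limits of the two tiles
  obtain ⟨t0, ht0L, ht0⟩ := hULB C hC U Tn hTil δ hδ (fun _ => 0) 0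
    (Eventually.of_forall fun n => by
      change 0 + tn n ∈ T
      rw [zero_add]; exact (htn n).1)
    (Eventually.of_forall fun n => by rw [norm_zero])
  obtain ⟨t1, ht1L, ht1⟩ := hULB C hC U Tn hTil δ hδ d R (Eventually.of_forall fun n => by
    change d n + tn n ∈ T
    rw [add_comm]; exact (htdn n).1) (Eventually.of_forall hdR)
  have hns : ¬ Sm U δ t0 t1 := by
    intro hs
    have h1 : ∀ᶠ n in (U : Filter ℕ), d n = t1 - t0 := by
      filter_upwards [ht1, ht0, hs] with n g1 g2 g3
      rw [g1, ← g3]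
      have g4 : δ t0 n = -t0 := eq_neg_of_add_eq_zero_right g2.symm
      rw [g4]; abel
    have h2 : {n | d n = t1 - t0}.Subsingleton := fun a ha b hb => hdinj (ha.trans hb.symm)
    exact notMem_hyperfilter_of_finite h2.finite h1
  -- the faults of the translated tilings
  set cn : ℕ → ℝ := fun n => c - rdet e (tn n) with hcn
  have hSFn : ∀ n, SF C e (Tn n) (cn n) := by
    intro n t ht
    rcases hF (t + tn n) ht with h | h
    · left
      intro x hx
      have h1 := h x hx
      rw [rdet_add, rdet_add] at h1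
      rw [rdet_add]
      simp only [hcn]
      linarith
    · right
      intro x hx
      have h1 := h x hx
      rw [rdet_add, rdet_add] at h1
      rw [rdet_add]
      simp only [hcn]
      linarith
  obtain ⟨x₀, hx₀⟩ := hC.ne
  have hx₀C : x₀ ∈ C := interior_subset hx₀
  have hcnb : ∀ n, cn n ∈ Set.Icc (c - Y) (rdet e x₀) := by
    intro n
    have h1 := (htn n).2 x₀ hx₀C
    have h2 := htY n
    rw [rdet_add] at h1
    simp only [hcn, Set.mem_Icc]
    constructor <;> linarith
  obtain ⟨c', -, hc'⟩ : ∃ c' ∈ Set.Icc (c - Y) (rdet e x₀),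
      Tendsto cn (U : Filter ℕ) (𝓝 c') := by
    have h1 : ((U.map cn : Ultrafilter ℝ) : Filter ℝ) ≤ 𝓟 (Set.Icc (c - Y) (rdet e x₀)) := by
      rw [le_principal_iff]
      exact Filter.mem_map.2 (Filter.univ_mem' hcnb)
    obtain ⟨c', hc1, hc2⟩ := isCompact_Icc.ultrafilter_le_nhds (U.map cn) h1
    exact ⟨c', hc1, hc2⟩
  have hSFL' : SF C e (Lim U Tn) c' := hSFL C hC U Tn e cn c' he.1 hTil hc'
    (Eventually.of_forall hSFn)
  -- continuity of the heights
  have hcont : Continuous fun z : V => rdet e z := by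
    have : (fun z : V => rdet e z) = fun z : V => e.1 * z.2 - e.2 * z.1 := rfl
    rw [this]; fun_prop
  have habv : ∀ (t : V) (f : ℕ → V), t ∈ Lim U Tn →
      (∀ᶠ n in (U : Filter ℕ), f n = t + δ t n) → (∀ n, tn n + f n ∈ Abv C e T c) →
      ∀ x ∈ C, c' ≤ rdet e (t + x) := by
    intro t f htL hf hfa x hx
    have h1 : Tendsto (fun n => rdet e (t + δ t n + x)) (U : Filter ℕ)
        (𝓝 (rdet e (t + 0 + x))) :=
      (hcont.tendsto _).comp ((tendsto_const_nhds.add (hδ t htL).2).add tendsto_const_nhds)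
    rw [add_zero] at h1
    refine le_of_tendsto_of_tendsto hc' h1 ?_
    filter_upwards [hf] with n hn
    have h2 := (hfa n).2 x hx
    rw [rdet_add, rdet_add, hn] at h2
    rw [rdet_add]
    simp only [hcn]
    linarith
  have hab0 := habv t0 (fun _ => 0) ht0L ht0 (fun n => by
    rw [add_zero]; exact htn n)
  have hab1 := habv t1 d ht1L ht1 htdn
  rcases hSLIDE C hC U Tn hTil δ hδ with hall | ⟨e', he', hsg⟩
  · exact hns (hall t0 ht0L t1 ht1L)
  by_cases hpar : rdet e e' = 0
  · -- parallel case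
    obtain ⟨s, hs0, hs⟩ := hb_scale he.1 he'.1 hpar
    have hSFs : ∀ b, SF C e' (Lim U Tn) b → SF C e (Lim U Tn) (b / s) := by
      intro b hb t ht
      rcases lt_or_gt_of_ne hs0 with hneg | hpos
      · rcases hb t ht with h | h
        · right
          intro x hx
          have h1 := h x hx
          rw [hs] at h1
          rw [div_le_iff_of_neg hneg]
          linarith [mul_comm s (rdet e (t + x))]
        · left
          intro x hx
          have h1 := h x hx
          rw [hs] at h1
          rw [le_div_iff_of_neg hneg]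
          linarith [mul_comm s (rdet e (t + x))]
      · rcases hb t ht with h | h
        · left
          intro x hx
          have h1 := h x hx
          rw [hs] at h1
          rw [le_div_iff₀ hpos]
          linarith [mul_comm s (rdet e (t + x))]
        · right
          intro x hx
          have h1 := h x hx
          rw [hs] at h1
          rw [div_le_iff₀ hpos]
          linarith [mul_comm s (rdet e (t + x))]
    obtain ⟨u, huC, v, hvC, huv⟩ := hb_wd hC.ne he.1
    -- one of the two tiles is below the second fault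
    have hfin : ∀ b, SF C e' (Lim U Tn) b → (∃ t, (∀ x ∈ C, c' ≤ rdet e (t + x)) ∧
        ∀ x ∈ C, rdet e (t + x) ≤ b / s) → False := by
      rintro b hb ⟨t, h1, h2⟩
      have g1 := h1 u huC
      have g2 := h2 v hvC
      rw [rdet_add] at g1 g2
      exact hNS e he (Lim U Tn) c' (b / s) hLT (by linarith) hSFL' (hSFs b hb)
    have hcase : ∀ a₀ a₁ : V, (∀ x ∈ C, c' ≤ rdet e (a₀ + x)) →
        (∀ x ∈ C, c' ≤ rdet e (a₁ + x)) → (∃ b, SF C e' (Lim U Tn) b ∧
        (∀ x ∈ C, rdet e' (a₀ + x) ≤ b) ∧ ∀ x ∈ C, b ≤ rdet e' (a₁ + x)) → False := by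
      rintro a₀ a₁ ha₀ ha₁ ⟨b, hb, hb1, hb2⟩
      rcases lt_or_gt_of_ne hs0 with hneg | hpos
      · refine hfin b hb ⟨a₁, ha₁, fun x hx => ?_⟩
        have h1 := hb2 x hx
        rw [hs] at h1
        rw [le_div_iff_of_neg hneg]
        linarith [mul_comm s (rdet e (a₁ + x))]
      · refine hfin b hb ⟨a₀, ha₀, fun x hx => ?_⟩
        have h1 := hb1 x hx
        rw [hs] at h1
        rw [le_div_iff₀ hpos]
        linarith [mul_comm s (rdet e (a₀ + x))]
    rcases hSLF C hC U Tn hTil δ hδ e' he'.1 (hI e' he') hsg t0 ht0L t1 ht1L hns with h | h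
    · exact hcase t0 t1 hab0 hab1 h
    · exact hcase t1 t0 hab1 hab0 h
  · -- transversal case
    exact hns (hSTZ C hC U Tn hTil δ hδ e e' hpar cn c' hc' (Eventually.of_forall hSFn) hsg
      t0 ht0L t1 ht1L)

end Pool.Agent.PTG
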