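import Pool.Agent.PTG.P_G0
import Pool.Agent.PTA.P_HG
import Pool.Agent.PTP.P_GLU

/-!
# PTG: HG, pigeonhole and gluing
-/

set_option autoImplicit false

namespace Pool.Agent.PTG

open Pool.Agent.PTR Filter Topology
open Pool.Agent.PTR.OL (V ii dif difs FLC InHull)
open Pool.Agent.PTP (Til TDP Iv wd SF Abv Stp Stk Ds Sm)
open Pool.Agent.PTA (Dir)
open PTA.HGx

theorem p_HG_of (hHO : T_HO) : T_HG := by
  intro C hP e he T c hT hc hfin p hp hpe hper
  obtain ⟨l, hl, hper'⟩ := pos_per he hp hpe hper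
  set T0 : Set V := Abv C e T c with hT0
  set q : V := l • e with hq
  have hqe : ∀ z, rdet q z = l * rdet e z := fun z => rdet_smul_l l e z
  have hq0 : q ≠ 0 := smul_ne_zero hl.ne' he
  set u0 : V := (-e.2, e.1) with hu0
  have hn := nrm_pos he
  have hu1 : rdet e u0 = e.1 ^ 2 + e.2 ^ 2 := by simp only [rdet, hu0]; ring
  obtain ⟨hw0, -, -, -⟩ := p_WD C hP e he
  obtain ⟨W, C', hHo⟩ := hHO C hP e he
  obtain ⟨lo, hlo, hlo'⟩ := hHo.ht
  set w : ℝ := wd C e with hw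
  have hloC : ∀ x ∈ C', lo ≤ rdet e x ∧ rdet e x < lo + w :=
    fun x hx => ⟨(hlo x (hHo.sub x hx)).1, hlo' x hx⟩
  have hcov := hHo.te T hT
  -- points above the fault are covered once by `T0`
  have hcov0 : ∀ z, c ≤ rdet e z → ∃! t, t ∈ T0 ∧ z - t ∈ C' := by
    intro z hz
    obtain ⟨t, ⟨ht, htC⟩, huniq⟩ := hcov z
    exact ⟨t, ⟨(hHo.up T c hT hc z t ht htC).1 hz, htC⟩, fun t' ht' => huniq t' ⟨ht'.1.1, ht'.2⟩⟩
  -- base tiles
  set H : ℕ → ℝ := fun n => c + n * (2 * w) with hH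
  have hHc : ∀ n, c ≤ H n := fun n => by
    have : 0 ≤ (n : ℝ) * (2 * w) := by positivity
    simp only [hH]
    linarith
  have hbase : ∀ n : ℕ, ∃ t ∈ T0, H n - lo - w < rdet e t ∧ rdet e t ≤ H n - lo := by
    intro n
    have hz : rdet e ((H n / (e.1 ^ 2 + e.2 ^ 2)) • u0) = H n := by
      rw [rdet_smul_r, hu1, div_mul_cancel₀ _ hn.ne']
    obtain ⟨t, ⟨ht, htC⟩, -⟩ := hcov0 ((H n / (e.1 ^ 2 + e.2 ^ 2)) • u0) (by
      rw [hz]; exact hHc n)
    obtain ⟨h1, h2⟩ := hloC _ htC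
    rw [rdet_sub, hz] at h1 h2
    exact ⟨t, ht, by linarith, by linarith⟩
  choose t ht1 ht2 ht3 using hbase
  obtain ⟨R, hR⟩ := mod_p q hq0 (l * w)
  have hSf := hfin R
  set S : Set V := {d | ‖d‖ ≤ R ∧ |rdet e d| < w ∧ ∃ t ∈ T0, t + d ∈ T0} with hS
  set Q : ℕ → Set V := fun n => {d | ‖d‖ ≤ R ∧ |rdet e d| < w ∧ t n + d ∈ T0} with hQ
  obtain ⟨n1, _, n2, _, hne, heq⟩ := Set.Infinite.exists_ne_map_eq_of_mapsTo
    (s := (Set.univ : Set ℕ)) (t := 𝒫 S) (f := Q) Set.infinite_univ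
    (fun n _ d hd => ⟨hd.1, hd.2.1, t n, ht1 n, hd.2.2⟩) hSf.finite_subsets
  wlog hlt : n1 < n2 generalizing n1 n2
  · exact this n2 trivial n1 trivial hne.symm heq.symm (by omega)
  set v : V := t n2 - t n1 with hv
  have hvdet : w ≤ rdet e v := by
    rw [hv, rdet_sub]
    have a1 := ht3 n1
    have a2 := ht2 n2
    have a3 : (n1 : ℝ) + 1 ≤ n2 := by exact_mod_cast hlt
    have a4 : ((n1 : ℝ) + 1) * (2 * w) ≤ n2 * (2 * w) :=
      mul_le_mul_of_nonneg_right a3 (by linarith)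
    simp only [hH] at a1 a2
    nlinarith
  have hqe0 : ∀ k : ℤ, rdet e (k • q) = 0 := by
    intro k
    rw [rdet_zsmul, hq, rdet_smul_r, rdet_self, mul_zero, mul_zero]
  have hag : ∀ x : V, |rdet e (x - t n1)| < w → (x + v ∈ T0 ↔ x ∈ T0) := by
    intro x hx
    obtain ⟨k, hk⟩ := hR (x - t n1) (by
      rw [hqe, abs_mul, abs_of_pos hl]
      exact mul_le_mul_of_nonneg_left hx.le hl.le)
    have e1 : ∀ n : ℕ, (x - t n1 + k • q ∈ Q n ↔ t n + (x - t n1) ∈ T0) := by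
      intro n
      constructor
      · rintro ⟨_, _, h2⟩
        rw [← add_assoc, mem_zsmul hper'] at h2
        exact h2
      · intro h2
        refine ⟨hk, ?_, ?_⟩
        · rw [rdet_add, hqe0, add_zero]
          exact hx
        · rw [← add_assoc, mem_zsmul hper']
          exact h2
    have e2 := e1 n1
    have e3 := e1 n2
    rw [← heq, e2] at e3
    rw [show x + v = t n2 + (x - t n1) by rw [hv]; abel]
    conv_rhs => rw [show x = t n1 + (x - t n1) by abel]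
    exact e3.symm
  have hvq : 0 < rdet q v := by
    rw [hqe]
    exact mul_pos hl (by linarith)
  have g1 : ∀ z ∈ C', l * lo ≤ rdet q z ∧ rdet q z < l * (lo + w) := by
    intro z hz
    obtain ⟨h1, h2⟩ := hloC z hz
    rw [hqe]
    exact ⟨mul_le_mul_of_nonneg_left h1 hl.le, mul_lt_mul_of_pos_left h2 hl⟩
  have g2 : l * (lo + w) - l * lo ≤ rdet q v := by
    rw [hqe]
    have := mul_le_mul_of_nonneg_left hvdet hl.le
    linarith
  have g3 : ∀ x : V, l * (lo + rdet e (t n1) + w) - l * (lo + w) < rdet q x →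
      rdet q x < l * (lo + rdet e (t n1) + w) - l * lo → (x + v ∈ T0 ↔ x ∈ T0) := by
    intro x h1 h2
    rw [hqe] at h1 h2
    have h3 : l * rdet e (t n1) < l * rdet e x := by linarith
    have h4 : l * rdet e x < l * (rdet e (t n1) + w) := by linarith
    have h5 := lt_of_mul_lt_mul_left h3 hl.le
    have h6 := lt_of_mul_lt_mul_left h4 hl.le
    refine hag x ?_
    rw [rdet_sub, abs_lt]
    constructor <;> linarith
  have g4 : ∀ z, l * (lo + rdet e (t n1) + w) ≤ rdet q z →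
      rdet q z < l * (lo + rdet e (t n1) + w) + rdet q v →
      ∃! t, t ∈ T0 ∧ z - t ∈ C' := by
    intro z h1 _
    rw [hqe] at h1
    have h3 := le_of_mul_le_mul_left h1 hl
    have h4 := ht2 n1
    have h5 := hHc n1
    exact hcov0 z (by linarith)
  obtain ⟨T', b1, b2, b3⟩ := PTP.p_GLU C' T0 q v (l * lo) (l * (lo + w))
    (l * (lo + rdet e (t n1) + w)) hper' g1 hvq g2 g3 g4
  exact ⟨T', hHo.et T' b3, q, v, li_of hvq.ne', b1, b2⟩

end Pool.Agent.PTG
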