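import Pool.Agent.PTG.Targets

/-!
# PTG: finitely many heights below every height (T_HH)
-/

set_option autoImplicit false

namespace Pool.Agent.PTG

open Pool.Agent.PTR Filter Topology
open Pool.Agent.PTR.OL (V ii dif difs FLC InHull)
open Pool.Agent.PTP (Til TDP Iv wd SF Abv Stp Stk Ds Sm)
open Pool.Agent.PTA (Dir)

private lemma hh_smul (e n : V) (s : ℝ) : rdet e (s • n) = s * rdet e n := by
  simp only [rdet, Prod.smul_fst, Prod.smul_snd, smul_eq_mul]; ring

private lemma hh_norm {e : V} (he : e ≠ 0) : ∃ n : V, rdet e n = 1 := by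
  have h1 : e.1 ^ 2 + e.2 ^ 2 ≠ 0 := by
    intro h
    have h2 : e.1 = 0 := by nlinarith [sq_nonneg e.1, sq_nonneg e.2]
    have h3 : e.2 = 0 := by nlinarith [sq_nonneg e.1, sq_nonneg e.2]
    exact he (Prod.ext h2 h3)
  refine ⟨(1 / (e.1 ^ 2 + e.2 ^ 2)) • ((-e.2, e.1) : V), ?_⟩
  rw [hh_smul]
  have h2 : rdet e ((-e.2, e.1) : V) = e.1 ^ 2 + e.2 ^ 2 := by simp only [rdet]; ring
  rw [h2, one_div, inv_mul_cancel₀ h1]

theorem p_HH_of (hHO : T_HO) (hWD : T_WD) (hHB : T_HB) (_hSEP : T_SEP) : T_HH := by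
  intro C hC hIv hNS e hdir T c hT hF Y
  have he : e ≠ 0 := hdir.1
  obtain ⟨W, C', hHo⟩ := hHO C hC e he
  obtain ⟨lo, hlo, -⟩ := hHo.ht
  obtain ⟨-, -, ⟨x₁, hx₁, y₁, hy₁, hxy⟩, -⟩ := hWD C hC e he
  have hy₁' : rdet e y₁ = lo := by
    have h1 := (hlo x₁ hx₁).2
    have h2 := (hlo y₁ hy₁).1
    linarith
  obtain ⟨n, hn⟩ := hh_norm he
  obtain ⟨r, hr⟩ := hC.cpt.isBounded.exists_norm_le
  have hlow : ∀ t ∈ Abv C e T c, c - lo ≤ rdet e t := by
    intro t ht
    have h1 := ht.2 y₁ hy₁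
    rw [rdet_add, hy₁'] at h1
    linarith
  set Y' : ℝ := max Y (c - lo) with hY'
  set R : ℝ := (|Y| + |c| + |c - lo|) * ‖n‖ + r with hR
  have hfin := hHB C hC hIv hNS e hdir T c hT hF R Y'
  refine (hfin.image fun d => c - lo + rdet e d).subset ?_
  rintro y ⟨hyY, t, ht, rfl⟩
  set z : V := t + (c - rdet e t) • n with hz
  have hzh : rdet e z = c := by
    rw [hz, rdet_add, hh_smul, hn]; ring
  obtain ⟨t₀, ⟨ht₀, hzt⟩, -⟩ := hHo.te T hT z
  have ht₀A : t₀ ∈ Abv C e T c := (hHo.up T c hT hF z t₀ ht₀ hzt).1 hzh.ge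
  have h1 : rdet e t₀ = c - lo := by
    apply le_antisymm _ (hlow t₀ ht₀A)
    have h2 := (hlo _ (hHo.sub _ hzt)).1
    rw [rdet_sub, hzh] at h2
    linarith
  have htl := hlow t ht
  refine ⟨t - t₀, ⟨?_, t₀, ht₀A, ?_, ?_, ?_⟩, ?_⟩
  · have h3 : t - t₀ = (z - t₀) - (c - rdet e t) • n := by rw [hz]; abel
    have h4 : |c - rdet e t| ≤ |Y| + |c| + |c - lo| := by
      rw [abs_le]
      constructor
      · have := le_abs_self Y
        have := neg_abs_le c
        have := abs_nonneg (c - lo)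
        linarith
      · have := neg_abs_le (c - lo)
        have := le_abs_self c
        have := abs_nonneg Y
        linarith
    calc ‖t - t₀‖ = ‖(z - t₀) - (c - rdet e t) • n‖ := by rw [h3]
      _ ≤ ‖z - t₀‖ + ‖(c - rdet e t) • n‖ := norm_sub_le _ _
      _ ≤ r + (|Y| + |c| + |c - lo|) * ‖n‖ := by
          refine add_le_add (hr _ (hHo.sub _ hzt)) ?_
          rw [norm_smul, Real.norm_eq_abs]
          exact mul_le_mul_of_nonneg_right h4 (norm_nonneg _)
      _ = R := by rw [hR]; ring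
  · rw [add_sub_cancel]; exact ht
  · rw [h1]; exact le_max_right _ _
  · rw [add_sub_cancel]; exact hyY.trans (le_max_left _ _)
  · change c - lo + rdet e (t - t₀) = rdet e t
    rw [rdet_sub, h1]; ring

end Pool.Agent.PTG
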