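import Pool.Agent.PTG.Targets

/-!
# PTG, section A: HO

An ultrafilter converging to `0` from above the line turns a body into a set which covers exactly.
-/

set_option autoImplicit false

namespace Pool.Agent.PTG

open Pool.Agent.PTR Filter Topology
open Pool.Agent.PTR.OL (V ii dif difs FLC InHull)
open Pool.Agent.PTP (Til TDP Iv wd SF Abv Stp Stk Ds Sm)
open Pool.Agent.PTA (Dir)

namespace HOx

lemma rcont (e : V) : Continuous (rdet e) := by
  unfold rdet
  exact (continuous_const.mul continuous_snd).sub (continuous_const.mul continuous_fst)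

lemma radd (e x y : V) : rdet e (x + y) = rdet e x + rdet e y := by
  simp only [rdet, Prod.fst_add, Prod.snd_add]
  ring

lemma rsmul (e z : V) (s : ℝ) : rdet e (s • z) = s * rdet e z := by
  simp only [rdet, Prod.smul_fst, Prod.smul_snd, smul_eq_mul]
  ring

lemma rperp {e : V} (he : e ≠ 0) : 0 < rdet e (-e.2, e.1) := by
  simp only [rdet]
  have h : e.1 ≠ 0 ∨ e.2 ≠ 0 := by
    by_contra hcon
    push Not at hcon
    exact he (Prod.ext hcon.1 hcon.2)
  rcases h with h | h
  · have := mul_self_pos.2 h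
    nlinarith [mul_self_nonneg e.2]
  · have := mul_self_pos.2 h
    nlinarith [mul_self_nonneg e.1]

/-- An ultrafilter converging to `0` from above which avoids all translates of the boundary. -/
lemma exists_ultra {C : Set V} (hC : IsClosed C) {e : V} (he : e ≠ 0) :
    ∃ U : Ultrafilter V, (U : Filter V) ≤ 𝓝 0 ∧ (∀ z, ∀ᶠ w in (U : Filter V), z + w ∉ frontier C) ∧
      ∀ᶠ w in (U : Filter V), 0 < rdet e w := by
  have hne : (𝓝 (0 : V) ⊓ (residual V ⊓ 𝓟 {w : V | 0 < rdet e w})).NeBot := by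
    rw [Filter.inf_neBot_iff]
    intro s hs s' hs'
    obtain ⟨O, hO, hO1, hO2⟩ := mem_nhds_iff.1 hs
    rw [mem_inf_principal] at hs'
    have hP : IsOpen {w : V | 0 < rdet e w} := isOpen_lt continuous_const (rcont e)
    have hne2 : (O ∩ {w : V | 0 < rdet e w}).Nonempty := by
      have h1 : Tendsto (fun s : ℝ => s • ((-e.2, e.1) : V)) (𝓝 0)
          (𝓝 ((0 : ℝ) • ((-e.2, e.1) : V))) := by
        apply Continuous.tendsto
        fun_prop
      rw [zero_smul] at h1
      have h2 : ∀ᶠ s in 𝓝[>] (0 : ℝ), s • ((-e.2, e.1) : V) ∈ O :=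
        (h1.mono_left nhdsWithin_le_nhds).eventually (hO1.mem_nhds hO2)
      obtain ⟨s, hs, hs0⟩ := (h2.and (eventually_mem_set.2 self_mem_nhdsWithin)).exists
      have hs0' : 0 < s := hs0
      refine ⟨s • ((-e.2, e.1) : V), hs, ?_⟩
      show 0 < rdet e (s • ((-e.2, e.1) : V))
      rw [rsmul]
      exact mul_pos hs0' (rperp he)
    obtain ⟨w, hw, hw'⟩ := (dense_of_mem_residual hs').inter_open_nonempty _ (hO1.inter hP) hne2
    exact ⟨w, hO hw.1, hw' hw.2⟩
  refine ⟨Ultrafilter.of (𝓝 (0 : V) ⊓ (residual V ⊓ 𝓟 {w : V | 0 < rdet e w})),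
    (Ultrafilter.of_le _).trans inf_le_left, fun z => ?_, ?_⟩
  · refine (Ultrafilter.of_le _).trans (inf_le_right.trans inf_le_left) ?_
    have h1 : IsOpen {w : V | z + w ∉ frontier C} := by
      have hc : Continuous (fun w : V => z + w) := by fun_prop
      exact (isClosed_frontier.preimage hc).isOpen_compl
    refine residual_of_dense_open h1 ?_
    have h2 : Dense (frontier C)ᶜ := by
      rw [← interior_eq_empty_iff_dense_compl]
      exact interior_frontier hC
    exact h2.preimage (Homeomorph.addLeft z).isOpenMap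
  · exact (Ultrafilter.of_le _).trans (inf_le_right.trans inf_le_right) (mem_principal_self _)

/-- A uniformly separated set has finitely many points in every ball. -/
lemma fin_of_sep {T : Set V} {ρ : ℝ} (hρ : 0 < ρ)
    (h : ∀ t ∈ T, ∀ t' ∈ T, t ≠ t' → ρ ≤ ‖t - t'‖) (R : ℝ) : {t | t ∈ T ∧ ‖t‖ ≤ R}.Finite := by
  by_contra hinf
  have hinf' : {t | t ∈ T ∧ ‖t‖ ≤ R}.Infinite := hinf
  have hsub : {t | t ∈ T ∧ ‖t‖ ≤ R} ⊆ Metric.closedBall (0 : V) R := by
    intro t ht
    rw [Metric.mem_closedBall, dist_zero_right]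
    exact ht.2
  obtain ⟨a, -, hacc⟩ := hinf'.exists_accPt_of_subset_isCompact (isCompact_closedBall 0 R) hsub
  rw [accPt_iff_frequently] at hacc
  have key : ∀ r : ℝ, 0 < r → ∃ y ∈ T, y ≠ a ∧ ‖y - a‖ < r := by
    intro r hr
    obtain ⟨y, hy, hyr⟩ := (hacc.and_eventually (Metric.ball_mem_nhds a hr)).exists
    refine ⟨y, hy.2.1, hy.1, ?_⟩
    have h1 := Metric.mem_ball.1 hyr
    rwa [dist_eq_norm] at h1
  obtain ⟨y, hyT, hya, hyr⟩ := key (ρ / 2) (by linarith)
  have hpos : 0 < ‖y - a‖ := norm_pos_iff.2 (sub_ne_zero.2 hya)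
  obtain ⟨y', hyT', -, hyr'⟩ := key (min (ρ / 2) ‖y - a‖) (lt_min (by linarith) hpos)
  have hne : y ≠ y' := by
    rintro rfl
    exact absurd (lt_of_lt_of_le hyr' (min_le_right _ _)) (lt_irrefl _)
  have h1 := h y hyT y' hyT' hne
  have h2 : ‖y - y'‖ ≤ ‖y - a‖ + ‖y' - a‖ := by
    have : y - y' = (y - a) - (y' - a) := by abel
    rw [this]
    exact norm_sub_le _ _
  have h3 := lt_of_lt_of_le hyr' (min_le_left _ _)
  linarith

/-- A packing has finitely many tiles in every ball. -/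
lemma fin_of_pack {C : Set V} (hC : (interior C).Nonempty) {T : Set V}
    (hT : ∀ t ∈ T, ∀ t' ∈ T, ∀ z, z - t ∈ interior C → z - t' ∈ interior C → t = t') (R : ℝ) :
    {t | t ∈ T ∧ ‖t‖ ≤ R}.Finite := by
  obtain ⟨x₀, hx₀⟩ := hC
  obtain ⟨ρ, hρ, hball⟩ := Metric.isOpen_iff.1 isOpen_interior x₀ hx₀
  refine fin_of_sep hρ ?_ R
  intro t ht t' ht' hne
  by_contra hlt
  push Not at hlt
  refine hne (hT t ht t' ht' (t + x₀) ?_ ?_)
  · rw [add_sub_cancel_left]
    exact hx₀
  · refine hball ?_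
    rw [Metric.mem_ball, dist_eq_norm]
    have : t + x₀ - t' - x₀ = t - t' := by abel
    rw [this]
    exact hlt

end HOx

open HOx

theorem p_HO : T_HO := by
  intro C hB e he
  have hcl : IsClosed C := hB.cpt.isClosed
  obtain ⟨U, hU0, hU, hUe⟩ := exists_ultra hcl he
  obtain ⟨r, hr⟩ := hB.cpt.isBounded.exists_norm_le
  have hsub : ∀ z, (∀ᶠ w in (U : Filter V), z + w ∈ interior C) → z ∈ C := by
    intro z hz
    have h1 : Tendsto (fun w : V => z + w) (U : Filter V) (𝓝 z) := by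
      have h2 : Tendsto (fun w : V => z + w) (𝓝 0) (𝓝 (z + 0)) := by
        have hc : Continuous (fun w : V => z + w) := by fun_prop
        exact hc.tendsto 0
      rw [add_zero] at h2
      exact h2.mono_left hU0
    exact hcl.mem_of_tendsto h1 (hz.mono fun w hw => interior_subset hw)
  have hint : ∀ z ∈ interior C, ∀ᶠ w in (U : Filter V), z + w ∈ interior C := by
    intro z hz
    refine hU0 ?_
    have hc : Continuous (fun w : V => z + w) := by fun_prop
    have h1 : IsOpen ((fun w : V => z + w) ⁻¹' interior C) := isOpen_interior.preimage hc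
    refine mem_nhds_iff.2 ⟨(fun w : V => z + w) ⁻¹' interior C, fun w hw => hw, h1, ?_⟩
    show z + 0 ∈ interior C
    rwa [add_zero]
  have hnf : ∀ z, (∀ᶠ w in (U : Filter V), z + w ∈ C) →
      ∀ᶠ w in (U : Filter V), z + w ∈ interior C := by
    intro z hz
    filter_upwards [hz, hU z] with w h1 h2
    rw [hcl.frontier_eq, Set.mem_sdiff] at h2
    push Not at h2
    exact h2 h1
  obtain ⟨x0, hx0⟩ := hB.ne
  have hx0C : x0 ∈ C := interior_subset hx0
  obtain ⟨xM, hxM, hM⟩ := hB.cpt.exists_isMaxOn ⟨x0, hx0C⟩ (rcont e).continuousOn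
  obtain ⟨xm, hxm, hm⟩ := hB.cpt.exists_isMinOn ⟨x0, hx0C⟩ (rcont e).continuousOn
  have hM' : ∀ x ∈ C, rdet e x ≤ rdet e xM := fun x hx => hM hx
  have hm' : ∀ x ∈ C, rdet e xm ≤ rdet e x := fun x hx => hm hx
  have hg : IsGreatest {d : ℝ | ∃ x ∈ C, ∃ y ∈ C, d = rdet e x - rdet e y}
      (rdet e xM - rdet e xm) := by
    refine ⟨⟨xM, hxM, xm, hxm, rfl⟩, ?_⟩
    rintro d ⟨x, hx, y, hy, rfl⟩
    linarith [hM' x hx, hm' y hy]
  have hw : wd C e = rdet e xM - rdet e xm := hg.csSup_eq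
  refine ⟨U, {z | ∀ᶠ w in (U : Filter V), z + w ∈ interior C},
    { w0 := hU0, mem := fun z => Iff.rfl, sub := hsub, int := hint, te := ?_, et := ?_,
      ht := ?_, up := ?_ }⟩
  · intro T hT z
    obtain ⟨h1, h2⟩ := hT
    have hfin := fin_of_pack hB.ne h2
    have hex : ∀ᶠ w in (U : Filter V), ∃ t ∈ {t : V | t ∈ T ∧ ‖t‖ ≤ ‖z‖ + 1 + r},
        z - t + w ∈ C := by
      have h3 : ∀ᶠ w in (U : Filter V), ‖w‖ ≤ 1 := by
        refine hU0 ?_
        have := Metric.closedBall_mem_nhds (0 : V) one_pos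
        filter_upwards [this] with w hw
        simpa using hw
      filter_upwards [h3] with w hw
      obtain ⟨t, ht, hz⟩ := h1 (z + w)
      refine ⟨t, ⟨ht, ?_⟩, ?_⟩
      · have h5 := hr _ hz
        calc ‖t‖ = ‖z + w - (z + w - t)‖ := by congr 1; abel
          _ ≤ ‖z + w‖ + ‖z + w - t‖ := norm_sub_le _ _
          _ ≤ ‖z‖ + ‖w‖ + ‖z + w - t‖ := by gcongr; exact norm_add_le _ _
          _ ≤ ‖z‖ + 1 + r := by gcongr
      · rwa [show z - t + w = z + w - t by abel]
    have hex2 : ∃ t ∈ {t : V | t ∈ T ∧ ‖t‖ ≤ ‖z‖ + 1 + r},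
        ∀ᶠ w in (U : Filter V), z - t + w ∈ C := by
      have h3 : (⋃ t ∈ {t : V | t ∈ T ∧ ‖t‖ ≤ ‖z‖ + 1 + r}, {w : V | z - t + w ∈ C}) ∈ U := by
        refine Filter.mem_of_superset hex ?_
        rintro w ⟨t, ht, hw⟩
        simp only [Set.mem_iUnion, exists_prop]
        exact ⟨t, ht, hw⟩
      obtain ⟨t, ht, h4⟩ := (Ultrafilter.finite_biUnion_mem_iff (hfin _)).1 h3
      exact ⟨t, ht, h4⟩
    obtain ⟨t, ⟨ht, -⟩, htz⟩ := hex2
    have htz2 := hnf _ htz
    refine ⟨t, ⟨ht, htz2⟩, ?_⟩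
    rintro t' ⟨ht', htz'⟩
    have htz'' : ∀ᶠ w in (U : Filter V), z - t' + w ∈ interior C := htz'
    obtain ⟨w, hw1, hw2⟩ := (htz''.and htz2).exists
    refine h2 t' ht' t ht (z + w) ?_ ?_
    · rwa [show z + w - t' = z - t' + w by abel]
    · rwa [show z + w - t = z - t + w by abel]
  · intro T h
    refine ⟨?_, ?_⟩
    · intro z
      obtain ⟨t, ⟨ht, hz⟩, -⟩ := h z
      exact ⟨t, ht, hsub _ hz⟩
    · intro t ht t' ht' z hz hz'
      exact (h z).unique ⟨ht, hint _ hz⟩ ⟨ht', hint _ hz'⟩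
  · refine ⟨rdet e xm, fun x hx => ⟨hm' x hx, ?_⟩, ?_⟩
    · rw [hw]
      linarith [hM' x hx]
    · intro x hx
      have hx' : ∀ᶠ w in (U : Filter V), x + w ∈ interior C := hx
      obtain ⟨w, hw1, hw2⟩ := (hx'.and hUe).exists
      have h3 := hM' _ (interior_subset hw1)
      rw [radd] at h3
      rw [hw]
      linarith
  · intro T c _ hSF z t ht hz
    have hz' : ∀ᶠ w in (U : Filter V), z - t + w ∈ interior C := hz
    constructor
    · intro hc
      rcases hSF t ht with h1 | h1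
      · exfalso
        obtain ⟨w, hw1, hw2⟩ := (hz'.and hUe).exists
        have h3 := h1 _ (interior_subset hw1)
        rw [show t + (z - t + w) = z + w by abel, radd] at h3
        linarith
      · exact ⟨ht, h1⟩
    · rintro ⟨-, h1⟩
      have h3 := h1 _ (hsub _ hz')
      rwa [show t + (z - t) = z by abel] at h3

end Pool.Agent.PTG
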