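import Pool.Agent.PTG.Targets

/-!
# PTG: HQ, the half plane below a height is periodic
-/

set_option autoImplicit false

namespace Pool.Agent.PTG

open Pool.Agent.PTR Filter Topology
open Pool.Agent.PTR.OL (V ii dif difs FLC InHull)
open Pool.Agent.PTP (Til TDP Iv wd SF Abv Stp Stk Ds Sm)
open Pool.Agent.PTA (Dir)

/-- The first difference of two rows is impossible. -/
theorem HQ_core {C' A1 A2 : Set V} {e : V} {c y lo β ε δ : ℝ} {σ : V → ℝ}
    (hsub : ∀ a b, σ (a - b) = σ a - σ b) (hadd : ∀ a b, σ (a + b) = σ a + σ b)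
    (hinj : ∀ a b, rdet e a = rdet e b → σ a = σ b → a = b) (hδ : δ ≠ 0)
    (hlo : ∀ x ∈ C', lo ≤ rdet e x)
    (hβ : ∀ x ∈ C', ∀ x' ∈ C', δ * (σ x - σ x') ≤ β)
    (hne : ∃ x ∈ C', rdet e x = lo)
    (cov2 : ∀ z, c ≤ rdet e z → ∃ t ∈ A2, z - t ∈ C')
    (uni1 : ∀ z, ∀ t ∈ A1, ∀ t' ∈ A1, z - t ∈ C' → z - t' ∈ C' → t = t')
    (hy : c ≤ y + lo) {p : V} (hp1 : p ∈ A1) (hp2 : p ∉ A2) (hpy : rdet e p = y)
    (IH : ∀ t, rdet e t < y → (t ∈ A1 ↔ t ∈ A2))
    (hwin : ∀ t, rdet e t = y → δ * σ p - β ≤ δ * σ t → δ * σ t < δ * σ p →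
      (t ∈ A1 ↔ t ∈ A2))
    (hε : 0 < ε)
    (hgap : ∀ t ∈ A2, rdet e t = y → δ * σ p < δ * σ t → δ * σ p + ε < δ * σ t) : False := by
  set S0 : Set ℝ := {r | ∃ x ∈ C', rdet e x = lo ∧ r = δ * σ x} with hS0
  have hS0ne : S0.Nonempty := by
    obtain ⟨x, hx, hx2⟩ := hne
    exact ⟨δ * σ x, x, hx, hx2, rfl⟩
  have hS0bd : BddBelow S0 := by
    obtain ⟨x, hx, -⟩ := hne
    refine ⟨δ * σ x - β, ?_⟩
    rintro r ⟨x', hx', -, rfl⟩
    have := hβ x hx x' hx'
    linarith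
  obtain ⟨r, ⟨x1, hx1, hx1lo, rfl⟩, hr⟩ :=
    exists_lt_of_csInf_lt hS0ne (lt_add_of_pos_right (sInf S0) hε)
  have hz : rdet e (p + x1) = y + lo := by rw [rdet_add, hpy, hx1lo]
  obtain ⟨t, ht, htC⟩ := cov2 (p + x1) (by rw [hz]; exact hy)
  have hpC : p + x1 - p ∈ C' := by rwa [add_sub_cancel_left]
  have h1 := hlo _ htC
  rw [rdet_sub, hz] at h1
  rcases lt_or_eq_of_le (show rdet e t ≤ y by linarith) with h2 | h2
  · have h3 := uni1 (p + x1) p hp1 t ((IH t h2).2 ht) hpC htC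
    rw [← h3, hpy] at h2
    exact lt_irrefl _ h2
  · have h3 : rdet e (p + x1 - t) = lo := by rw [rdet_sub, hz, h2]; ring
    have h4 : sInf S0 ≤ δ * σ (p + x1 - t) := csInf_le hS0bd ⟨_, htC, h3, rfl⟩
    have h5 : σ (p + x1 - t) = σ p + σ x1 - σ t := by rw [hsub, hadd]
    rw [h5] at h4
    have h6 := hβ _ htC x1 hx1
    rw [h5] at h6
    have h7 : δ * σ t < δ * σ p + ε := by nlinarith
    have h8 : δ * σ t ≤ δ * σ p := by
      by_contra hc
      push Not at hc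
      have := hgap t ht h2 hc
      linarith
    rcases lt_or_eq_of_le h8 with h9 | h9
    · have h10 : t ∈ A1 := (hwin t h2 (by nlinarith) h9).2 ht
      have h11 := uni1 (p + x1) p hp1 t h10 hpC htC
      rw [← h11] at ht
      exact hp2 ht
    · have h10 : σ t = σ p := mul_left_cancel₀ hδ h9
      have h11 := hinj t p (by rw [h2, hpy]) h10
      rw [h11] at ht
      exact hp2 ht

/-- The rows agree on the side `δ` of the window. -/
theorem HQ_side {C' A : Set V} {e : V} {c y lo β δ α : ℝ} {u : V} {σ : V → ℝ}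
    (hsub : ∀ a b, σ (a - b) = σ a - σ b) (hadd : ∀ a b, σ (a + b) = σ a + σ b)
    (hinj : ∀ a b, rdet e a = rdet e b → σ a = σ b → a = b) (hδ : δ = 1 ∨ δ = -1)
    (hlo : ∀ x ∈ C', lo ≤ rdet e x)
    (hβ : ∀ x ∈ C', ∀ x' ∈ C', |σ x - σ x'| ≤ β)
    (hne : ∃ x ∈ C', rdet e x = lo) (hu : rdet e u = 0)
    (cov : ∀ z, c ≤ rdet e z → ∃ t ∈ A, z - t ∈ C')
    (uni : ∀ z, ∀ t ∈ A, ∀ t' ∈ A, z - t ∈ C' → z - t' ∈ C' → t = t')
    (hy : c ≤ y + lo)
    (hfin : ∀ M : ℝ, {t | (t ∈ A ∨ t + u ∈ A) ∧ rdet e t = y ∧ |σ t| ≤ M}.Finite)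
    (IH : ∀ t, rdet e t < y → (t + u ∈ A ↔ t ∈ A))
    (hwin : ∀ t, rdet e t = y → |σ t - α| ≤ β → (t + u ∈ A ↔ t ∈ A)) :
    ∀ p, rdet e p = y → β < δ * (σ p - α) → (p + u ∈ A ↔ p ∈ A) := by
  intro p0 hp0 hp0s
  by_contra hbad
  have hβ0 : 0 ≤ β := by
    obtain ⟨x, hx, -⟩ := hne
    exact (abs_nonneg _).trans (hβ x hx x hx)
  have hδ0 : δ ≠ 0 := by rcases hδ with h | h <;> rw [h] <;> norm_num
  have hδa : |δ| = 1 := by rcases hδ with h | h <;> rw [h] <;> norm_num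
  set B : Set V := {t | ¬ (t + u ∈ A ↔ t ∈ A) ∧ rdet e t = y ∧ β < δ * (σ t - α) ∧
    δ * (σ t - α) ≤ δ * (σ p0 - α)} with hB
  have hBfin : B.Finite := by
    refine (hfin (|δ * (σ p0 - α)| + |α|)).subset ?_
    rintro t ⟨h1, h2, h3, h4⟩
    refine ⟨?_, h2, ?_⟩
    · by_contra hc
      push Not at hc
      exact h1 ⟨fun h => absurd h hc.2, fun h => absurd h hc.1⟩
    · have h5 : |σ t - α| ≤ |δ * (σ p0 - α)| := by
        have : |σ t - α| = |δ * (σ t - α)| := by rw [abs_mul, hδa, one_mul]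
        rw [this, abs_of_pos (lt_of_le_of_lt hβ0 h3)]
        exact h4.trans (le_abs_self _)
      calc |σ t| = |(σ t - α) + α| := by ring_nf
        _ ≤ |σ t - α| + |α| := abs_add_le _ _
        _ ≤ _ := by linarith
  have hBne : B.Nonempty := ⟨p0, hbad, hp0, hp0s, le_rfl⟩
  obtain ⟨p, hp, hmin⟩ := hBfin.exists_minimalFor (fun t => δ * σ t) B hBne
  obtain ⟨hpb, hpy, hps, hple⟩ := hp
  -- all the points between the window and `p`
  have hw : ∀ t, rdet e t = y → δ * σ p - β ≤ δ * σ t → δ * σ t < δ * σ p →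
      (t + u ∈ A ↔ t ∈ A) := by
    intro t ht h1 h2
    by_cases h3 : β < δ * (σ t - α)
    · by_contra hc
      have h4 : t ∈ B := ⟨hc, ht, h3, by nlinarith⟩
      have h5 := hmin h4 (show δ * σ t ≤ δ * σ p from h2.le)
      have h6 : δ * σ p ≤ δ * σ t := h5
      linarith
    · push Not at h3
      refine hwin t ht ?_
      have h4 : |σ t - α| = |δ * (σ t - α)| := by rw [abs_mul, hδa, one_mul]
      rw [h4, abs_le]
      exact ⟨by nlinarith, h3⟩
  -- a gap behind `p`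
  obtain ⟨ε, hε, hgap⟩ : ∃ ε > (0 : ℝ), ∀ t, (t ∈ A ∨ t + u ∈ A) → rdet e t = y →
      δ * σ p < δ * σ t → δ * σ p + ε < δ * σ t := by
    set F : Set V := {t | (t ∈ A ∨ t + u ∈ A) ∧ rdet e t = y ∧ |σ t| ≤ |σ p| + 1} with hF
    have hFfin : F.Finite := hfin _
    set G : Set V := {t | t ∈ F ∧ δ * σ p < δ * σ t} with hG
    have hGfin : G.Finite := hFfin.subset fun t ht => ht.1
    have key : ∃ ε > (0 : ℝ), ∀ t ∈ G, δ * σ p + ε < δ * σ t := by
      rcases G.eq_empty_or_nonempty with h0 | h0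
      · exact ⟨1, one_pos, fun t ht => by rw [h0] at ht; exact absurd ht (Set.notMem_empty t)⟩
      · obtain ⟨g, hg, hgm⟩ := hGfin.exists_minimalFor (fun t => δ * σ t) G h0
        refine ⟨(δ * σ g - δ * σ p) / 2, by linarith [hg.2], fun t ht => ?_⟩
        have h1 : δ * σ g ≤ δ * σ t := by
          rcases le_total (δ * σ t) (δ * σ g) with h | h
          · exact hgm ht h
          · exact h
        linarith [hg.2]
    obtain ⟨ε, hε, hk⟩ := key
    refine ⟨min ε (1 / 2), lt_min hε (by norm_num), fun t ht hty hlt => ?_⟩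
    by_cases h1 : |σ t| ≤ |σ p| + 1
    · have := hk t ⟨⟨ht, hty, h1⟩, hlt⟩
      linarith [min_le_left ε (1 / 2)]
    · push Not at h1
      have h2 : 1 < |σ t - σ p| := by
        have := abs_sub_abs_le_abs_sub (σ t) (σ p)
        linarith
      have h3 : |σ t - σ p| = δ * σ t - δ * σ p := by
        have : |σ t - σ p| = |δ * (σ t - σ p)| := by rw [abs_mul, hδa, one_mul]
        rw [this, abs_of_pos (by nlinarith)]
        ring
      linarith [min_le_right ε (1 / 2)]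
  have hβ' : ∀ x ∈ C', ∀ x' ∈ C', δ * (σ x - σ x') ≤ β := fun x hx x' hx' => by
    have h1 := hβ x hx x' hx'
    have h2 : |δ * (σ x - σ x')| = |σ x - σ x'| := by rw [abs_mul, hδa, one_mul]
    exact (le_abs_self _).trans (h2.le.trans h1)
  set A2 : Set V := {t | t + u ∈ A} with hA2
  have cov2 : ∀ z, c ≤ rdet e z → ∃ t ∈ A2, z - t ∈ C' := by
    intro z hz
    obtain ⟨t, ht, htC⟩ := cov (z + u) (by rw [rdet_add, hu, add_zero]; exact hz)
    refine ⟨t - u, by simpa [hA2] using ht, ?_⟩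
    have : z - (t - u) = z + u - t := by abel
    rwa [this]
  have uni2 : ∀ z, ∀ t ∈ A2, ∀ t' ∈ A2, z - t ∈ C' → z - t' ∈ C' → t = t' := by
    intro z t ht t' ht' h1 h2
    have h3 := uni (z + u) (t + u) ht (t' + u) ht' (by rwa [add_sub_add_right_eq_sub])
      (by rwa [add_sub_add_right_eq_sub])
    exact add_right_cancel h3
  by_cases hpA : p ∈ A
  · have hpA2 : p ∉ A2 := fun h => hpb ⟨fun _ => hpA, fun _ => h⟩
    exact HQ_core hsub hadd hinj hδ0 hlo hβ' hne cov2 uni hy hpA hpA2 hpy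
      (fun t ht => (IH t ht).symm) (fun t ht h1 h2 => (hw t ht h1 h2).symm) hε
      (fun t ht hty h1 => hgap t (Or.inr ht) hty h1)
  · have hpA2 : p ∈ A2 := by
      by_contra hc
      exact hpb ⟨fun h => absurd h hc, fun h => absurd h hpA⟩
    exact HQ_core hsub hadd hinj hδ0 hlo hβ' hne cov uni2 hy hpA2 hpA hpy
      (fun t ht => IH t ht) (fun t ht h1 h2 => hw t ht h1 h2) hε
      (fun t ht hty h1 => hgap t (Or.inl ht) hty h1)

theorem p_HQ_of (hHO : T_HO) (hWD : T_WD) (hSEP : T_SEP) (hHB : T_HB) (hHH : T_HH) : T_HQ := by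
  intro C hP hIv hNS e hDir T c hT hc Y0
  have he : e ≠ 0 := hDir.1
  obtain ⟨hw0, -, ⟨xM, hxM, xm, hxm, hxMm⟩, -⟩ := hWD C hP e he
  obtain ⟨W, C', hHo⟩ := hHO C hP e he
  obtain ⟨lo, hlo, hlo'⟩ := hHo.ht
  obtain ⟨ρ, hρ, hsep⟩ := hSEP C hP
  set w : ℝ := wd C e with hw
  set A : Set V := Abv C e T c with hA
  -- the lowest height
  have hxmlo : rdet e xm = lo := by
    have h1 := (hlo xm hxm).1
    have h2 := (hlo xM hxM).2
    linarith
  have hAlo : ∀ t ∈ A, c ≤ rdet e t + lo := by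
    intro t ht
    have := ht.2 xm hxm
    rwa [rdet_add, hxmlo] at this
  -- coordinates
  set N : ℝ := e.1 ^ 2 + e.2 ^ 2 with hN
  have hNpos : 0 < N := by
    rcases eq_or_ne e.1 0 with h1 | h1
    · rcases eq_or_ne e.2 0 with h2 | h2
      · exact absurd (Prod.ext h1 h2) he
      · have := sq_pos_of_ne_zero h2
        have := sq_nonneg e.1
        rw [hN]; linarith
    · have := sq_pos_of_ne_zero h1
      have := sq_nonneg e.2
      rw [hN]; linarith
  set n : V := (-e.2 / N, e.1 / N) with hn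
  have hen : rdet e n = 1 := by
    simp only [rdet, hn]
    field_simp
    rw [hN]; ring
  set σ : V → ℝ := fun z => rdet z n with hσ
  have hsub : ∀ a b, σ (a - b) = σ a - σ b := fun a b => by
    simp only [hσ, rdet, Prod.fst_sub, Prod.snd_sub]; ring
  have hadd : ∀ a b, σ (a + b) = σ a + σ b := fun a b => by
    simp only [hσ, rdet, Prod.fst_add, Prod.snd_add]; ring
  have hdec : ∀ z : V, z = σ z • e + rdet e z • n := by
    intro z
    have hNe : N ≠ 0 := hNpos.ne'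
    apply Prod.ext
    · simp only [hσ, rdet, hn, Prod.fst_add, Prod.smul_fst, smul_eq_mul]
      field_simp
      rw [hN]; ring
    · simp only [hσ, rdet, hn, Prod.snd_add, Prod.smul_snd, smul_eq_mul]
      field_simp
      rw [hN]; ring
  have hinj : ∀ a b, rdet e a = rdet e b → σ a = σ b → a = b := fun a b h1 h2 => by
    rw [hdec a, hdec b, h1, h2]
  have hσe : ∀ r : ℝ, σ (r • e) = r := fun r => by
    have : σ (r • e) = r * rdet e n := by
      simp only [hσ, rdet, Prod.smul_fst, Prod.smul_snd, smul_eq_mul]; ring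
    rw [this, hen, mul_one]
  have hre : ∀ r : ℝ, rdet e (r • e) = 0 := fun r => by
    simp only [rdet, Prod.smul_fst, Prod.smul_snd, smul_eq_mul]; ring
  have hσn : ∀ r : ℝ, σ (r • n) = 0 := fun r => by
    simp only [hσ, rdet, Prod.smul_fst, Prod.smul_snd, smul_eq_mul]; ring
  have hrn : ∀ r : ℝ, rdet e (r • n) = r := fun r => by
    have : rdet e (r • n) = r * rdet e n := by
      simp only [rdet, Prod.smul_fst, Prod.smul_snd, smul_eq_mul]; ring
    rw [this, hen, mul_one]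
  -- bound of the abscissae of `C'`
  obtain ⟨β0, hβ0⟩ : ∃ β0 : ℝ, ∀ x ∈ C', |σ x| ≤ β0 := by
    have hcont : Continuous σ := by
      simp only [hσ, rdet]
      fun_prop
    obtain ⟨b, hb⟩ := hP.cpt.exists_bound_of_continuousOn hcont.continuousOn
    exact ⟨b, fun x hx => hb x (hHo.sub x hx)⟩
  have hloC : ∀ x ∈ C', lo ≤ rdet e x := fun x hx => (hlo x (hHo.sub x hx)).1
  have hcov := hHo.te T hT
  have cov : ∀ z, c ≤ rdet e z → ∃ t ∈ A, z - t ∈ C' := by
    intro z hz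
    obtain ⟨t, ⟨ht, htC⟩, -⟩ := hcov z
    exact ⟨t, (hHo.up T c hT hc z t ht htC).1 hz, htC⟩
  have uni : ∀ z, ∀ t ∈ A, ∀ t' ∈ A, z - t ∈ C' → z - t' ∈ C' → t = t' := by
    intro z t ht t' ht' h1 h2
    obtain ⟨t'', -, huniq⟩ := hcov z
    rw [huniq t ⟨ht.1, h1⟩, huniq t' ⟨ht'.1, h2⟩]
  have hβn : 0 ≤ β0 := by
    obtain ⟨t, -, htC⟩ := cov (c • n) (by rw [hrn])
    exact (abs_nonneg _).trans (hβ0 _ htC)
  -- the lowest row
  set y0 : ℝ := c - lo with hy0
  have hlow : ∀ z, rdet e z = c → ∀ t ∈ A, z - t ∈ C' → rdet e t = y0 ∧ rdet e (z - t) = lo := by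
    intro z hz t ht htC
    have h1 := hAlo t ht
    have h2 := hloC _ htC
    rw [rdet_sub, hz] at h2
    have h3 : rdet e t = y0 := by rw [hy0]; linarith
    refine ⟨h3, ?_⟩
    rw [rdet_sub, hz, h3, hy0]; ring
  have hz0 : ∀ k : ℕ, rdet e (((k : ℝ) * (2 * β0 + 1)) • e + c • n) = c := fun k => by
    rw [rdet_add, hre, hrn, zero_add]
  have hch : ∀ k : ℕ, ∃ t ∈ A, ((k : ℝ) * (2 * β0 + 1)) • e + c • n - t ∈ C' := fun k =>
    cov _ (by rw [hz0])
  choose t htA htC using hch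
  have hty : ∀ k, rdet e (t k) = y0 := fun k => (hlow _ (hz0 k) _ (htA k) (htC k)).1
  have hne : ∃ x ∈ C', rdet e x = lo :=
    ⟨_, htC 0, (hlow _ (hz0 0) _ (htA 0) (htC 0)).2⟩
  have hσt : ∀ k : ℕ, |(k : ℝ) * (2 * β0 + 1) - σ (t k)| ≤ β0 := fun k => by
    have h1 := hβ0 _ (htC k)
    rwa [hsub, hadd, hσe, hσn, add_zero] at h1
  have hmono : ∀ k l : ℕ, k < l → σ (t k) < σ (t l) := by
    intro k l hkl
    have h1 := abs_le.1 (hσt k)
    have h2 := abs_le.1 (hσt l)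
    have h3 : (k : ℝ) + 1 ≤ l := by exact_mod_cast hkl
    nlinarith
  -- the window
  set Y : ℝ := max Y0 y0 with hY
  set R : ℝ := 2 * β0 * ‖e‖ + (Y - y0) * ‖n‖ with hR
  have hDfin := hHB C hP hIv hNS e hDir T c hT hc R Y
  set D : Set V := {d | ‖d‖ ≤ R ∧ ∃ t ∈ A, t + d ∈ A ∧ rdet e t ≤ Y ∧ rdet e (t + d) ≤ Y} with hD
  set Q : ℕ → Set V := fun k => {d | ‖d‖ ≤ R ∧ t k + d ∈ A ∧ rdet e (t k + d) ≤ Y} with hQ
  have hyY : y0 ≤ Y := le_max_right _ _
  have hQD : ∀ k, Q k ∈ D.powerset := by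
    intro k d hd
    exact ⟨hd.1, t k, htA k, hd.2.1, by rw [hty k]; exact hyY, hd.2.2⟩
  have hpow : D.powerset.Finite := hDfin.powerset
  obtain ⟨k, l, hkl, hQkl⟩ : ∃ k l : ℕ, k < l ∧ Q k = Q l := by
    have : ¬ Set.InjOn Q Set.univ := by
      intro hinj'
      have h1 : (Q '' Set.univ).Finite := hpow.subset (by
        rintro _ ⟨k, -, rfl⟩
        exact hQD k)
      exact Set.infinite_univ (Set.Finite.of_finite_image h1 hinj')
    simp only [Set.InjOn, Set.mem_univ, true_implies, not_forall] at this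
    obtain ⟨k, l, h1, h2⟩ := this
    rcases lt_or_gt_of_ne h2 with h | h
    · exact ⟨k, l, h, h1⟩
    · exact ⟨l, k, h, h1.symm⟩
  set q : ℝ := σ (t l) - σ (t k) with hq
  have hqpos : 0 < q := by rw [hq]; linarith [hmono k l hkl]
  have htl : t l = t k + q • e := by
    refine hinj _ _ ?_ ?_
    · rw [rdet_add, hre, hty, hty, add_zero]
    · rw [hadd, hσe, hq]; ring
  set α : ℝ := σ (t k) with hα
  have hwin : ∀ z, rdet e z ≤ Y → |σ z - α| ≤ 2 * β0 → (z + q • e ∈ A ↔ z ∈ A) := by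
    intro z hzY hzα
    have hzq : rdet e (z + q • e) = rdet e z := by rw [rdet_add, hre, add_zero]
    by_cases hz0 : rdet e z < y0
    · constructor
      · intro h
        have := hAlo _ h
        rw [hzq] at this
        rw [hy0] at hz0
        linarith
      · intro h
        have := hAlo _ h
        rw [hy0] at hz0
        linarith
    · push Not at hz0
      have hd : ‖z - t k‖ ≤ R := by
        have h1 : z - t k = (σ z - α) • e + (rdet e z - y0) • n := by
          rw [hdec (z - t k), hsub, rdet_sub, hty k]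
        rw [h1]
        refine (norm_add_le _ _).trans ?_
        rw [norm_smul, norm_smul, Real.norm_eq_abs, Real.norm_eq_abs]
        have h2 : |rdet e z - y0| ≤ Y - y0 := by
          rw [abs_of_nonneg (by linarith)]
          linarith
        exact add_le_add (mul_le_mul_of_nonneg_right hzα (norm_nonneg _))
          (mul_le_mul_of_nonneg_right h2 (norm_nonneg _))
      have h3 : z - t k ∈ Q k ↔ z ∈ A := by
        simp only [hQ, Set.mem_ofPred_eq, add_sub_cancel]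
        exact ⟨fun h => h.2.1, fun h => ⟨hd, h, hzY⟩⟩
      have h4 : z - t k ∈ Q l ↔ z + q • e ∈ A := by
        have h5 : t l + (z - t k) = z + q • e := by rw [htl]; abel
        simp only [hQ, Set.mem_ofPred_eq, h5]
        exact ⟨fun h => h.2.1, fun h => ⟨hd, h, by rw [hzq]; exact hzY⟩⟩
      rw [← h3, ← h4, hQkl]
  have hβ : ∀ x ∈ C', ∀ x' ∈ C', |σ x - σ x'| ≤ 2 * β0 := fun x hx x' hx' => by
    have h1 := abs_le.1 (hβ0 x hx)
    have h2 := abs_le.1 (hβ0 x' hx')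
    rw [abs_le]
    constructor <;> linarith
  have hu : rdet e (q • e) = 0 := hre q
  -- all the rows
  have hall : ∀ z, rdet e z ≤ Y → (z + q • e ∈ A ↔ z ∈ A) := by
    by_contra hcon
    push Not at hcon
    obtain ⟨z1, hz1Y, hz1⟩ := hcon
    set H : Set ℝ := {y | y ≤ Y ∧ ∃ z, rdet e z = y ∧ ¬ (z + q • e ∈ A ↔ z ∈ A)} with hH
    have hHfin : H.Finite := by
      refine (hHH C hP hIv hNS e hDir T c hT hc Y).subset ?_
      rintro y ⟨hyY', z, hzy, hzb⟩
      refine ⟨hyY', ?_⟩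
      by_cases hzA : z ∈ A
      · exact ⟨z, hzA, hzy⟩
      · by_cases hzA2 : z + q • e ∈ A
        · exact ⟨_, hzA2, by rw [rdet_add, hu, add_zero, hzy]⟩
        · exact absurd ⟨fun h => absurd h hzA2, fun h => absurd h hzA⟩ hzb
    have hHne : H.Nonempty := ⟨_, hz1Y, z1, rfl, fun h => by
      rcases hz1 with ⟨h1, h2⟩ | ⟨h1, h2⟩
      · exact h2 (h.1 h1)
      · exact h1 (h.2 h2)⟩
    obtain ⟨y, hyH, hymin⟩ := hHfin.exists_minimalFor id H hHne
    obtain ⟨hyY', z, hzy, hzb⟩ := hyH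
    have IH : ∀ t, rdet e t < y → (t + q • e ∈ A ↔ t ∈ A) := by
      intro t ht
      by_contra hb
      have h1 : rdet e t ∈ H := ⟨by linarith, t, rfl, hb⟩
      have h2 : y ≤ rdet e t := hymin h1 ht.le
      linarith
    have hyc : c ≤ y + lo := by
      by_cases hzA : z ∈ A
      · rw [← hzy]; exact hAlo _ hzA
      · by_cases hzA2 : z + q • e ∈ A
        · have := hAlo _ hzA2
          rwa [rdet_add, hu, add_zero, hzy] at this
        · exact absurd ⟨fun h => absurd h hzA2, fun h => absurd h hzA⟩ hzb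
    have hfin : ∀ M : ℝ, {t | (t ∈ A ∨ t + q • e ∈ A) ∧ rdet e t = y ∧ |σ t| ≤ M}.Finite := by
      intro M
      set R1 : ℝ := M * ‖e‖ + |y| * ‖n‖ with hR1
      have hTf : ∀ R : ℝ, {t | t ∈ T ∧ ‖t‖ ≤ R}.Finite := (hsep T hT.2).2
      have hbd : ∀ t, rdet e t = y → |σ t| ≤ M → ‖t‖ ≤ R1 := by
        intro t ht h1
        rw [hdec t, ht]
        refine (norm_add_le _ _).trans ?_
        rw [norm_smul, norm_smul, Real.norm_eq_abs, Real.norm_eq_abs]
        exact add_le_add (mul_le_mul_of_nonneg_right h1 (norm_nonneg _)) le_rfl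
      have hf1 : {t | t ∈ A ∧ rdet e t = y ∧ |σ t| ≤ M}.Finite :=
        (hTf R1).subset fun t ht => ⟨ht.1.1, hbd t ht.2.1 ht.2.2⟩
      have hf2 : {t | t + q • e ∈ A ∧ rdet e t = y ∧ |σ t| ≤ M}.Finite := by
        refine Set.Finite.of_finite_image (f := fun t => t + q • e)
          ((hTf (R1 + ‖q • e‖)).subset ?_) (fun a _ b _ h => add_right_cancel h)
        rintro _ ⟨t, ht, rfl⟩
        exact ⟨ht.1.1, (norm_add_le _ _).trans (by
          have := hbd t ht.2.1 ht.2.2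
          linarith)⟩
      refine (hf1.union hf2).subset ?_
      rintro t ⟨h1 | h1, h2, h3⟩
      · exact Or.inl ⟨h1, h2, h3⟩
      · exact Or.inr ⟨h1, h2, h3⟩
    have hwin' : ∀ t, rdet e t = y → |σ t - α| ≤ 2 * β0 → (t + q • e ∈ A ↔ t ∈ A) :=
      fun t ht h1 => hwin t (by rw [ht]; exact hyY') h1
    by_cases h1 : |σ z - α| ≤ 2 * β0
    · exact hzb (hwin' z hzy h1)
    · push Not at h1
      rcases lt_abs.1 h1 with h2 | h2
      · exact hzb (HQ_side hsub hadd hinj (Or.inl rfl) hloC hβ hne hu cov uni hyc hfin IH hwin'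
          z hzy (by linarith))
      · exact hzb (HQ_side hsub hadd hinj (Or.inr rfl) hloC hβ hne hu cov uni hyc hfin IH hwin'
          z hzy (by linarith))
  exact ⟨q, hqpos, fun z hz => hall z (hz.trans (le_max_left _ _))⟩

end Pool.Agent.PTG
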