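import Pool.Agent.PTG.Targets
import Pool.Agent.PTG.P_G0

/-!
# PTG: windows of a half plane have finite local complexity (T_HW)
-/

set_option autoImplicit false

namespace Pool.Agent.PTG

open Pool.Agent.PTR Filter Topology
open Pool.Agent.PTR.OL (V ii dif difs FLC InHull)
open Pool.Agent.PTP (Til TDP Iv wd SF Abv Stp Stk Ds Sm)
open Pool.Agent.PTA (Dir)

namespace HWx

theorem til {C T : Set V} (h : Til C T) (a : V) : Til C {z | z + a ∈ T} := by
  constructor
  · intro z
    obtain ⟨t, ht, hz⟩ := h.1 (z + a)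
    refine ⟨t - a, ?_, ?_⟩
    · change t - a + a ∈ T
      rw [sub_add_cancel]; exact ht
    · have h1 : z - (t - a) = z + a - t := by abel
      rw [h1]; exact hz
  · intro t ht t' ht' z hz hz'
    have h1 : z + a - (t + a) = z - t := by abel
    have h2 : z + a - (t' + a) = z - t' := by abel
    exact add_right_cancel (h.2 (t + a) ht (t' + a) ht' (z + a) (by rw [h1]; exact hz)
      (by rw [h2]; exact hz'))

/-- A sequence with constant value has the displacement zero. -/
theorem const {C : Set V} (hP : Bdy C) (hULB : T_ULB) {U : Ultrafilter ℕ}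
    {Tn : ℕ → Set V} (hT : ∀ n, Til C (Tn n)) {δ : V → ℕ → V} (hδ : Ds U Tn δ) {z : V}
    (hz : ∀ᶠ n in (U : Filter ℕ), z ∈ Tn n) :
    z ∈ Lim U Tn ∧ ∀ᶠ n in (U : Filter ℕ), δ z n = 0 := by
  obtain ⟨t, ht, h1⟩ := hULB C hP U Tn hT δ hδ (fun _ => z) ‖z‖ hz (Eventually.of_forall
    fun _ => le_rfl)
  have h2 : Tendsto (fun n => t + δ t n) (U : Filter ℕ) (𝓝 (t + 0)) :=
    tendsto_const_nhds.add (hδ t ht).2
  have h3 : Tendsto (fun _ : ℕ => z) (U : Filter ℕ) (𝓝 (t + 0)) := by
    refine h2.congr' ?_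
    filter_upwards [h1] with n hn
    exact hn.symm
  have h4 : z = t + 0 := tendsto_nhds_unique tendsto_const_nhds h3
  rw [add_zero] at h4
  subst h4
  refine ⟨ht, ?_⟩
  filter_upwards [h1] with n hn
  have h5 : z + δ z n = z + 0 := by rw [add_zero]; exact hn.symm
  exact add_left_cancel h5

/-- A vector which is parallel to two non-parallel vectors is zero. -/
theorem par {e e' w : V} (h : rdet e' e ≠ 0) (h1 : rdet e w = 0) (h2 : rdet e' w = 0) :
    w = 0 := by
  simp only [rdet] at h h1 h2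
  have a1 : (e'.1 * e.2 - e'.2 * e.1) * w.1 = 0 := by linear_combination e.1 * h2 - e'.1 * h1
  have a2 : (e'.1 * e.2 - e'.2 * e.1) * w.2 = 0 := by linear_combination e.2 * h2 - e'.2 * h1
  refine Prod.ext ?_ ?_
  · exact (mul_eq_zero.1 a1).resolve_left h
  · exact (mul_eq_zero.1 a2).resolve_left h

theorem rsm (e z : V) (s : ℝ) : rdet e (s • z) = s * rdet e z := by
  simp only [rdet, Prod.smul_fst, Prod.smul_snd, smul_eq_mul]; ring

theorem rz (e : V) : rdet e 0 = 0 := by
  simp only [rdet, Prod.fst_zero, Prod.snd_zero]; ring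

theorem rcon (e : V) : Continuous (fun z : V => rdet e z) := by
  have : (fun z : V => rdet e z) = fun z : V => e.1 * z.2 - e.2 * z.1 := rfl
  rw [this]; fun_prop

theorem unit {e : V} (he : e ≠ 0) : ∃ n : V, rdet e n = 1 := by
  have h1 : e.1 ^ 2 + e.2 ^ 2 ≠ 0 := by
    intro h
    have h2 : e.1 = 0 := by nlinarith [sq_nonneg e.1, sq_nonneg e.2]
    have h3 : e.2 = 0 := by nlinarith [sq_nonneg e.1, sq_nonneg e.2]
    exact he (Prod.ext h2 h3)
  refine ⟨(1 / (e.1 ^ 2 + e.2 ^ 2)) • ((-e.2, e.1) : V), ?_⟩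
  rw [rsm]
  have h2 : rdet e ((-e.2, e.1) : V) = e.1 ^ 2 + e.2 ^ 2 := by simp only [rdet]; ring
  rw [h2, one_div, inv_mul_cancel₀ h1]

/-- Coordinates. -/
theorem dec {e n : V} (hn : rdet e n = 1) (z : V) : rdet z n • e + rdet e z • n = z := by
  simp only [rdet] at hn ⊢
  refine Prod.ext ?_ ?_
  · simp only [Prod.fst_add, Prod.smul_fst, smul_eq_mul]
    linear_combination z.1 * hn
  · simp only [Prod.snd_add, Prod.smul_snd, smul_eq_mul]
    linear_combination z.2 * hn

/-- Parallel directions. -/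
theorem scale {e e' : V} (he : e ≠ 0) (he' : e' ≠ 0) (hpar : rdet e' e = 0) :
    ∃ s : ℝ, s ≠ 0 ∧ ∀ z, rdet e' z = s * rdet e z := by
  simp only [rdet] at hpar
  by_cases hc : e.1 = 0
  · have hc2 : e.2 ≠ 0 := fun h => he (Prod.ext hc h)
    have hc3 : e'.1 = 0 := by
      rw [hc, mul_zero, sub_zero] at hpar
      exact (mul_eq_zero.1 hpar).resolve_right hc2
    have hc4 : e'.2 ≠ 0 := fun h => he' (Prod.ext hc3 h)
    refine ⟨e'.2 / e.2, div_ne_zero hc4 hc2, fun z => ?_⟩
    simp only [rdet, hc, hc3]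
    field_simp
    ring
  · have hc4 : e'.1 ≠ 0 := by
      intro h
      rw [h, zero_mul, zero_sub, neg_eq_zero] at hpar
      exact he' (Prod.ext h ((mul_eq_zero.1 hpar).resolve_right hc))
    refine ⟨e'.1 / e.1, div_ne_zero hc4 hc, fun z => ?_⟩
    have h5 : e'.2 = e'.1 / e.1 * e.2 := by
      field_simp
      linarith
    have h6 : e'.1 = e'.1 / e.1 * e.1 := by field_simp
    simp only [rdet]
    rw [h5]
    nth_rewrite 1 [h6]
    ring

end HWx

theorem p_HW_of (hULT : T_ULT) (hULB : T_ULB) (_hSFL : T_SFL) (hSLIDE : T_SLIDE) (hSLF : T_SLF)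
    (_hHB : T_HB) (hGAP : T_GAP) : T_HW := by
  intro C hP hI hNS e he T c hT hF R
  by_contra hcon
  have hinf : {d | ‖d‖ ≤ R ∧ |rdet e d| < wd C e ∧
    ∃ t ∈ Abv C e T c, t + d ∈ Abv C e T c}.Infinite := hcon
  obtain ⟨d, hdinj, hdmem⟩ : ∃ d : ℕ → V, Function.Injective d ∧ ∀ n, ‖d n‖ ≤ R ∧
      |rdet e (d n)| < wd C e ∧
      ∃ t ∈ Abv C e T c, t + d n ∈ Abv C e T c := by
    refine ⟨fun n => (hinf.natEmbedding _ n : V), ?_, fun n => (hinf.natEmbedding _ n).2⟩
    intro a b hab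
    exact (hinf.natEmbedding _).injective (Subtype.ext hab)
  choose hdR hdw tn htn htdn using hdmem
  set U : Ultrafilter ℕ := hyperfilter ℕ with hU
  set Tn : ℕ → Set V := fun n => {z | z + tn n ∈ T} with hTn
  have hTil : ∀ n, Til C (Tn n) := fun n => HWx.til hT (tn n)
  obtain ⟨hLT, δ, hδ⟩ := hULT C hP U Tn hTil
  obtain ⟨h0L, h0δ⟩ := HWx.const hP hULB hTil hδ (z := 0) (Eventually.of_forall fun n => by
    change 0 + tn n ∈ T
    rw [zero_add]; exact (htn n).1)
  obtain ⟨t', ht'L, ht'⟩ := hULB C hP U Tn hTil δ hδ d R (Eventually.of_forall fun n => by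
    change d n + tn n ∈ T
    rw [add_comm]; exact (htdn n).1) (Eventually.of_forall hdR)
  -- different displacements
  have hns : ¬ Sm U δ 0 t' := by
    intro hs
    have h1 : ∀ᶠ n in (U : Filter ℕ), d n = t' := by
      filter_upwards [ht', h0δ, hs] with n g1 g2 g3
      rw [g1, ← g3, g2, add_zero]
    have h2 : {n | d n = t'}.Subsingleton := fun a ha b hb => hdinj (ha.trans hb.symm)
    exact notMem_hyperfilter_of_finite h2.finite h1
  rcases hSLIDE C hP U Tn hTil δ hδ with hall | ⟨e', he', hsl⟩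
  · exact hns (hall 0 h0L t' ht'L)
  have hslf : ∀ t ∈ Lim U Tn, ∀ s ∈ Lim U Tn, ¬ Sm U δ t s →
      (∃ c, SF C e' (Lim U Tn) c ∧ (∀ x ∈ C, rdet e' (t + x) ≤ c) ∧
        ∀ x ∈ C, c ≤ rdet e' (s + x)) ∨
      ∃ c, SF C e' (Lim U Tn) c ∧ (∀ x ∈ C, rdet e' (s + x) ≤ c) ∧
        ∀ x ∈ C, c ≤ rdet e' (t + x) :=
    hSLF C hP U Tn hTil δ hδ e' he'.1 (hI e' he') hsl
  by_cases hpar : rdet e' e = 0
  · -- parallel case
    obtain ⟨s, hs0, hs⟩ := HWx.scale he.1 he'.1 hpar
    have hht : |rdet e t'| < wd C e := by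
      obtain ⟨n, g1, g2, g3⟩ := ((hsl.1 0 h0L t' ht'L).and (ht'.and h0δ)).exists
      rw [g3, hs, hs, HWx.rz, mul_zero] at g1
      have g5 : rdet e (δ t' n) = 0 := (mul_eq_zero.1 g1.symm).resolve_left hs0
      have g6 := hdw n
      rw [g2, rdet_add, g5, add_zero] at g6
      exact g6
    obtain ⟨-, -, -, hwd⟩ := p_WD C hP e he.1
    obtain ⟨x, hx, y, hy, hxy⟩ := hwd (hI e he) _ hht
    refine hns (hsl.2 0 h0L t' ht'L x hx y hy ?_)
    rw [zero_add, hs, hs, rdet_add, hxy]
    ring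
  · -- transversal case
    obtain ⟨-, -, ⟨x₁, hx₁, y₁, hy₁, hxy₁⟩, -⟩ := p_WD C hP e' he'.1
    have hwpos' : 0 < wd C e' := (p_WD C hP e' he'.1).1
    have huniq : ∀ a b : ℝ, SF C e' (Lim U Tn) a → SF C e' (Lim U Tn) b → a = b := by
      intro a b ha hb
      rcases lt_trichotomy a b with h | h | h
      · exact (hNS e' he' (Lim U Tn) a b hLT h ha hb).elim
      · exact h
      · exact (hNS e' he' (Lim U Tn) b a hLT h hb ha).elim
    -- a tile is not on both sides
    have hside : ∀ (t : V) (a : ℝ), (∀ x ∈ C, rdet e' (t + x) ≤ a) →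
        (∀ x ∈ C, a ≤ rdet e' (t + x)) → False := by
      intro t a h1 h2
      have g1 := h1 x₁ hx₁
      have g2 := h2 y₁ hy₁
      rw [rdet_add] at g1 g2
      linarith
    obtain ⟨n₀, hn₀⟩ := HWx.unit he.1
    obtain ⟨L, hL, hgap⟩ := hGAP C hP hI hNS e n₀ he hn₀ T c hT hF
    -- tiles on the line through `0`
    have hfar : ∀ a : ℝ, ∃ t ∈ Lim U Tn, Sm U δ t 0 ∧ ∃ s : ℝ, a ≤ s ∧ s ≤ a + L ∧
        t = s • e := by
      intro a
      have h1 : ∀ m, ∃ s : ℝ, a ≤ s ∧ s ≤ a + L ∧ s • e + tn m ∈ T := by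
        intro m
        have hne : (row e n₀ (Abv C e T c) (rdet e (tn m))).Nonempty := by
          refine ⟨rdet (tn m) n₀, ?_⟩
          change rdet (tn m) n₀ • e + rdet e (tn m) • n₀ ∈ Abv C e T c
          rw [HWx.dec hn₀]; exact htn m
        obtain ⟨s, hs, hs1, hs2⟩ := hgap _ hne (a + rdet (tn m) n₀)
        refine ⟨s - rdet (tn m) n₀, by linarith, by linarith, ?_⟩
        have hs' : s • e + rdet e (tn m) • n₀ ∈ Abv C e T c := hs
        have h2 : (s - rdet (tn m) n₀) • e + tn m = s • e + rdet e (tn m) • n₀ := by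
          nth_rewrite 2 [← HWx.dec hn₀ (tn m)]
          rw [sub_smul]; abel
        rw [h2]; exact hs'.1
      choose s hs1 hs2 hs3 using h1
      obtain ⟨t, htL, ht⟩ := hULB C hP U Tn hTil δ hδ (fun m => s m • e)
        ((|a| + L) * ‖e‖) (Eventually.of_forall fun m => hs3 m)
        (Eventually.of_forall fun m => by
          rw [norm_smul, Real.norm_eq_abs]
          refine mul_le_mul_of_nonneg_right ?_ (norm_nonneg _)
          have := hs1 m
          have := hs2 m
          have := neg_abs_le a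
          have := le_abs_self a
          rw [abs_le]
          constructor <;> linarith)
      have h3 : Tendsto (fun m => rdet e (t + δ t m)) (U : Filter ℕ) (𝓝 (rdet e (t + 0))) :=
        ((HWx.rcon e).tendsto _).comp (tendsto_const_nhds.add (hδ t htL).2)
      have h4 : Tendsto (fun _ : ℕ => (0 : ℝ)) (U : Filter ℕ) (𝓝 (rdet e (t + 0))) := by
        refine h3.congr' ?_
        filter_upwards [ht] with m hm
        rw [← hm, HWx.rsm, rdet_self, mul_zero]
      have h5 : rdet e t = 0 := by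
        have := tendsto_nhds_unique tendsto_const_nhds h4
        rw [add_zero] at this
        exact this.symm
      have h6 : ∀ᶠ m in (U : Filter ℕ), δ t m = 0 := by
        filter_upwards [ht, hsl.1 t htL 0 h0L, h0δ] with m g1 g2 g3
        rw [g3, HWx.rz] at g2
        have g4 : rdet e (t + δ t m) = 0 := by
          rw [← g1, HWx.rsm, rdet_self, mul_zero]
        rw [rdet_add, h5, zero_add] at g4
        exact HWx.par hpar g4 g2
      refine ⟨t, htL, ?_, ?_⟩
      · filter_upwards [h6, h0δ] with m g1 g2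
        rw [g1, g2]
      · obtain ⟨m, g1, g2⟩ := (ht.and h6).exists
        refine ⟨s m, hs1 m, hs2 m, ?_⟩
        rw [g2, add_zero] at g1
        exact g1.symm
    have hup : ∀ M : ℝ, ∃ t ∈ Lim U Tn, Sm U δ t 0 ∧ M < rdet e' t := by
      intro M
      rcases lt_or_gt_of_ne hpar with hneg | hpos
      · obtain ⟨t, h1, h2, s, h3, h4, h5⟩ := hfar ((M + 1) / rdet e' e - L)
        refine ⟨t, h1, h2, ?_⟩
        rw [h5, HWx.rsm]
        have h6 : s ≤ (M + 1) / rdet e' e := by linarith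
        rw [le_div_iff_of_neg hneg] at h6
        linarith
      · obtain ⟨t, h1, h2, s, h3, h4, h5⟩ := hfar ((M + 1) / rdet e' e)
        refine ⟨t, h1, h2, ?_⟩
        rw [h5, HWx.rsm]
        rw [div_le_iff₀ hpos] at h3
        linarith
    have hdn : ∀ M : ℝ, ∃ t ∈ Lim U Tn, Sm U δ t 0 ∧ rdet e' t < M := by
      intro M
      rcases lt_or_gt_of_ne hpar with hneg | hpos
      · obtain ⟨t, h1, h2, s, h3, h4, h5⟩ := hfar ((M - 1) / rdet e' e)
        refine ⟨t, h1, h2, ?_⟩
        rw [h5, HWx.rsm]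
        rw [div_le_iff_of_neg hneg] at h3
        linarith
      · obtain ⟨t, h1, h2, s, h3, h4, h5⟩ := hfar ((M - 1) / rdet e' e - L)
        refine ⟨t, h1, h2, ?_⟩
        rw [h5, HWx.rsm]
        have h6 : s ≤ (M - 1) / rdet e' e := by linarith
        rw [le_div_iff₀ hpos] at h6
        linarith
    rcases hslf 0 h0L t' ht'L hns with ⟨a, haF, ha1, ha2⟩ | ⟨a, haF, ha1, ha2⟩
    · -- `0` is below, `t'` above
      obtain ⟨z, hzL, hz0, hzM⟩ := hup (a - rdet e' x₁)
      have hzt : ¬ Sm U δ z t' := fun h => hns (by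
        filter_upwards [h, hz0] with n g1 g2
        rw [← g2, g1])
      have hbelow : ∀ x ∈ C, rdet e' (z + x) ≤ a := by
        rcases hslf z hzL t' ht'L hzt with ⟨b, hbF, hb1, hb2⟩ | ⟨b, hbF, hb1, hb2⟩
        · rw [huniq a b haF hbF]; exact hb1
        · have hab := huniq a b haF hbF
          subst hab
          exact (hside t' a hb1 ha2).elim
      have g1 := hbelow x₁ hx₁
      rw [rdet_add] at g1
      linarith
    · -- `t'` is below, `0` above
      obtain ⟨z, hzL, hz0, hzM⟩ := hdn (a - rdet e' x₁)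
      have hzt : ¬ Sm U δ z t' := fun h => hns (by
        filter_upwards [h, hz0] with n g1 g2
        rw [← g2, g1])
      have habove : ∀ x ∈ C, a ≤ rdet e' (z + x) := by
        rcases hslf z hzL t' ht'L hzt with ⟨b, hbF, hb1, hb2⟩ | ⟨b, hbF, hb1, hb2⟩
        · have hab := huniq a b haF hbF
          subst hab
          exact (hside t' a ha1 hb2).elim
        · rw [huniq a b haF hbF]; exact hb2
      have g1 := habove x₁ hx₁
      rw [rdet_add] at g1
      linarith

end Pool.Agent.PTG
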