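import Pool.Agent.PTG.Targets

/-!
# PTG: target LU

Lemma U of ideas row 2773 (MP_eac546_co): two periodic separated sets of real numbers with
frequencies in one locally finite set do not agree on a long segment next to a point where they
differ.
-/

set_option autoImplicit false

namespace Pool.Agent.PTG

open Filter Topology
open Pool.Agent.PTR.OL (V)

/-! ## Periodic sets -/

lemma lu_per_int {q : ℝ} {S : Set ℝ} (h : PerR q S) (s : ℝ) (n : ℤ) : s + n * q ∈ S ↔ s ∈ S := by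
  induction n using Int.induction_on with
  | zero => simp
  | succ n ih =>
    have e : s + ((n : ℤ) + 1 : ℤ) * q = (s + (n : ℤ) * q) + q := by push_cast; ring
    rw [e, h, ih]
  | pred n ih =>
    have e : (s + ((-(n : ℤ) - 1 : ℤ) : ℝ) * q) + q = s + ((-(n : ℤ) : ℤ) : ℝ) * q := by
      push_cast; ring
    rw [← ih, ← e, h]

lemma lu_mod_mem {q : ℝ} (hq : 0 < q) {S : Set ℝ} (h : PerR q S) (a s : ℝ) :
    toIcoMod hq a s ∈ S ↔ s ∈ S := by
  have e : toIcoMod hq a s = s + ((-toIcoDiv hq a s : ℤ) : ℝ) * q := by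
    rw [← self_sub_toIcoDiv_zsmul]
    push_cast
    simp only [zsmul_eq_mul]
    ring
  rw [e, lu_per_int h]

lemma lu_mod_fun {q : ℝ} (hq : 0 < q) {f : ℝ → ℝ} (h : ∀ s, f (s + q) = f s) (a s : ℝ) :
    f (toIcoMod hq a s) = f s := by
  have hp : Function.Periodic f q := h
  rw [← self_sub_toIcoDiv_zsmul]
  exact hp.sub_zsmul_eq _

/-- Change of the window. -/
lemma lu_win {q : ℝ} (hq : 0 < q) {S : Set ℝ} (h : PerR q S) {f : ℝ → ℝ}
    (hf : ∀ s, f (s + q) = f s) (a b : ℝ) (A B : Finset ℝ)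
    (hA : ∀ s, s ∈ A ↔ s ∈ S ∧ s ∈ Set.Ico a (a + q))
    (hB : ∀ s, s ∈ B ↔ s ∈ S ∧ s ∈ Set.Ico b (b + q)) :
    ∑ s ∈ A, f s = ∑ s ∈ B, f s := by
  refine Finset.sum_nbij' (fun s => toIcoMod hq b s) (fun s => toIcoMod hq a s) ?_ ?_ ?_ ?_ ?_
  · intro s hs
    exact (hB _).2 ⟨(lu_mod_mem hq h b s).2 ((hA s).1 hs).1, toIcoMod_mem_Ico hq b s⟩
  · intro s hs
    exact (hA _).2 ⟨(lu_mod_mem hq h a s).2 ((hB s).1 hs).1, toIcoMod_mem_Ico hq a s⟩
  · intro s hs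
    rw [toIcoMod_toIcoMod]
    exact (toIcoMod_eq_self hq).2 ((hA s).1 hs).2
  · intro s hs
    rw [toIcoMod_toIcoMod]
    exact (toIcoMod_eq_self hq).2 ((hB s).1 hs).2
  · intro s _
    exact (lu_mod_fun hq hf b s).symm

/-! ## Separated sets -/

lemma lu_floor_inj {ρ : ℝ} (hρ : 0 < ρ) {S : Set ℝ} (h : SepR ρ S) (a : ℝ) {s t : ℝ}
    (hs : s ∈ S) (ht : t ∈ S) (has : a ≤ s) (hat : a ≤ t)
    (e : ⌊(s - a) / ρ⌋₊ = ⌊(t - a) / ρ⌋₊) : s = t := by
  by_contra hne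
  have h1 := h s hs t ht hne
  have hs0 : 0 ≤ (s - a) / ρ := div_nonneg (by linarith) hρ.le
  have ht0 : 0 ≤ (t - a) / ρ := div_nonneg (by linarith) hρ.le
  have a1 := Nat.floor_le hs0
  have a2 := Nat.lt_floor_add_one ((s - a) / ρ)
  have a3 := Nat.floor_le ht0
  have a4 := Nat.lt_floor_add_one ((t - a) / ρ)
  rw [e] at a1 a2
  have h2 : |(s - a) / ρ - (t - a) / ρ| < 1 := by
    rw [abs_lt]
    constructor <;> linarith
  have h3 : (s - a) / ρ - (t - a) / ρ = (s - t) / ρ := by ring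
  rw [h3, abs_div, abs_of_pos hρ, div_lt_one hρ] at h2
  linarith

lemma lu_fin {ρ : ℝ} (hρ : 0 < ρ) {S : Set ℝ} (h : SepR ρ S) (a b : ℝ) :
    (S ∩ Set.Ico a b).Finite := by
  refine Set.Finite.of_finite_image (f := fun s => ⌊(s - a) / ρ⌋₊) ?_ ?_
  · refine (Set.finite_Iic ⌊(b - a) / ρ⌋₊).subset ?_
    rintro _ ⟨s, ⟨_, hs⟩, rfl⟩
    exact Nat.floor_le_floor (div_le_div_of_nonneg_right (by linarith [hs.2]) hρ.le)
  · intro s hs t ht e
    exact lu_floor_inj hρ h a hs.1 ht.1 hs.2.1 ht.2.1 e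

lemma lu_card {ρ : ℝ} (hρ : 0 < ρ) {S : Set ℝ} (h : SepR ρ S) {q : ℝ} (hq : 0 < q)
    (A : Finset ℝ) (hA : ∀ s, s ∈ A ↔ s ∈ S ∧ s ∈ Set.Ico (0 : ℝ) (0 + q)) :
    (A.card : ℝ) ≤ q / ρ + 1 := by
  have h1 : A.card ≤ (Finset.range (⌊q / ρ⌋₊ + 1)).card := by
    refine Finset.card_le_card_of_injOn (fun s => ⌊(s - 0) / ρ⌋₊) ?_ ?_
    · intro s hs
      have h2 := ((hA s).1 hs).2
      simp only [Finset.coe_range, Set.mem_Iio]
      refine Nat.lt_succ_of_le (Nat.floor_le_floor (div_le_div_of_nonneg_right ?_ hρ.le))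
      linarith [h2.2]
    · intro s hs t ht e
      exact lu_floor_inj hρ h 0 ((hA s).1 hs).1 ((hA t).1 ht).1 ((hA s).1 hs).2.1
        ((hA t).1 ht).2.1 e
  rw [Finset.card_range] at h1
  have h3 : ((⌊q / ρ⌋₊ : ℕ) : ℝ) ≤ q / ρ := Nat.floor_le (div_nonneg hq.le hρ.le)
  have h4 : (A.card : ℝ) ≤ (⌊q / ρ⌋₊ : ℝ) + 1 := by exact_mod_cast h1
  linarith

lemma lu_series {δ ρ : ℝ} (hδ : 0 < δ) (hρ : 0 < ρ) (n : ℕ) :
    ∑ k ∈ Finset.range (n + 1), 1 / (δ + k * ρ) ^ 2 ≤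
      1 / δ ^ 2 + 1 / (ρ * δ) - 1 / (ρ * (δ + n * ρ)) := by
  induction n with
  | zero => simp
  | succ n ih =>
    rw [Finset.sum_range_succ]
    have hn : (0 : ℝ) ≤ n := Nat.cast_nonneg n
    have p1 : 0 < δ + n * ρ := by positivity
    have p2 : 0 < δ + ((n + 1 : ℕ) : ℝ) * ρ := by positivity
    have e1 : δ + ((n + 1 : ℕ) : ℝ) * ρ = (δ + n * ρ) + ρ := by push_cast; ring
    have key : 1 / (δ + ((n + 1 : ℕ) : ℝ) * ρ) ^ 2 ≤
        1 / (ρ * (δ + n * ρ)) - 1 / (ρ * (δ + ((n + 1 : ℕ) : ℝ) * ρ)) := by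
      rw [e1] at p2 ⊢
      generalize δ + n * ρ = u at *
      have e2 : 1 / (ρ * u) - 1 / (ρ * (u + ρ)) = 1 / (u * (u + ρ)) := by
        field_simp
        ring
      rw [e2]
      apply one_div_le_one_div_of_le (by positivity)
      nlinarith
    linarith

/-- Tail sums of a separated set on one side. -/
lemma lu_tail {δ ρ : ℝ} (hδ : 0 < δ) (hρ : 0 < ρ) {S : Set ℝ} (h : SepR ρ S) (σ x : ℝ)
    (hσ : σ = 1 ∨ σ = -1) (A : Finset ℝ) (hA : ∀ s ∈ A, s ∈ S ∧ δ ≤ σ * (s - x)) :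
    ∑ s ∈ A, 1 / (s - x) ^ 2 ≤ 1 / δ ^ 2 + 1 / (ρ * δ) := by
  have hσ2 : σ ^ 2 = 1 := by rcases hσ with h | h <;> rw [h] <;> norm_num
  have inj : ∀ s ∈ A, ∀ t ∈ A, ⌊(σ * (s - x) - δ) / ρ⌋₊ = ⌊(σ * (t - x) - δ) / ρ⌋₊ → s = t := by
    intro s hs t ht e
    have hsep : SepR ρ ((fun u => σ * (u - x)) '' S) := by
      rintro _ ⟨u, hu, rfl⟩ _ ⟨v, hv, rfl⟩ hne
      have huv : u ≠ v := fun e => hne (by rw [e])
      have h1 := h u hu v hv huv
      have e1 : σ * (u - x) - σ * (v - x) = σ * (u - v) := by ring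
      have e2 : |σ| = 1 := by rcases hσ with h | h <;> rw [h] <;> norm_num
      show ρ ≤ |σ * (u - x) - σ * (v - x)|
      rw [e1, abs_mul, e2, one_mul]
      exact h1
    have h2 := lu_floor_inj hρ hsep δ ⟨s, (hA s hs).1, rfl⟩ ⟨t, (hA t ht).1, rfl⟩
      (hA s hs).2 (hA t ht).2 e
    have h3 : σ * (s - x) = σ * (t - x) := h2
    have h4 : σ * (σ * (s - x)) = σ * (σ * (t - x)) := by rw [h3]
    have h5 : σ ^ 2 * (s - x) = σ ^ 2 * (t - x) := by linarith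
    rw [hσ2] at h5
    linarith
  have step1 : ∑ s ∈ A, 1 / (s - x) ^ 2 ≤
      ∑ s ∈ A, 1 / (δ + (⌊(σ * (s - x) - δ) / ρ⌋₊ : ℕ) * ρ) ^ 2 := by
    refine Finset.sum_le_sum fun s hs => ?_
    have h1 := (hA s hs).2
    have h2 : ((⌊(σ * (s - x) - δ) / ρ⌋₊ : ℕ) : ℝ) ≤ (σ * (s - x) - δ) / ρ :=
      Nat.floor_le (div_nonneg (by linarith) hρ.le)
    rw [le_div_iff₀ hρ] at h2
    have h3 : (0 : ℝ) ≤ (⌊(σ * (s - x) - δ) / ρ⌋₊ : ℕ) := Nat.cast_nonneg _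
    have h4 : (s - x) ^ 2 = (σ * (s - x)) ^ 2 := by rw [mul_pow, hσ2, one_mul]
    rw [h4]
    apply one_div_le_one_div_of_le (by positivity)
    apply pow_le_pow_left₀ (by positivity)
    linarith
  have step2 : ∑ s ∈ A, 1 / (δ + (⌊(σ * (s - x) - δ) / ρ⌋₊ : ℕ) * ρ) ^ 2 =
      ∑ k ∈ A.image (fun s => ⌊(σ * (s - x) - δ) / ρ⌋₊), 1 / (δ + (k : ℕ) * ρ) ^ 2 := by
    rw [Finset.sum_image]
    exact fun s hs t ht e => inj s hs t ht e
  obtain ⟨n, hn⟩ : ∃ n : ℕ, A.image (fun s => ⌊(σ * (s - x) - δ) / ρ⌋₊) ⊆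
      Finset.range (n + 1) := by
    refine ⟨(A.image (fun s => ⌊(σ * (s - x) - δ) / ρ⌋₊)).sup id, fun k hk => ?_⟩
    rw [Finset.mem_range]
    exact Nat.lt_succ_of_le (Finset.le_sup (f := id) hk)
  have step3 : ∑ k ∈ A.image (fun s => ⌊(σ * (s - x) - δ) / ρ⌋₊), 1 / (δ + (k : ℕ) * ρ) ^ 2 ≤
      ∑ k ∈ Finset.range (n + 1), 1 / (δ + (k : ℕ) * ρ) ^ 2 :=
    Finset.sum_le_sum_of_subset_of_nonneg hn fun k _ _ => by positivity
  have step4 := lu_series hδ hρ n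
  have p3 : 0 ≤ 1 / (ρ * (δ + n * ρ)) := by positivity
  linarith

/-- Tail sums of a separated set. -/
lemma lu_tail2 {δ ρ : ℝ} (hδ : 0 < δ) (hρ : 0 < ρ) {S : Set ℝ} (h : SepR ρ S) (x : ℝ)
    (A : Finset ℝ) (hA : ∀ s ∈ A, s ∈ S ∧ δ ≤ |s - x|) :
    ∑ s ∈ A, 1 / (s - x) ^ 2 ≤ 2 * (1 / δ ^ 2 + 1 / (ρ * δ)) := by
  classical
  rw [← Finset.sum_filter_add_sum_filter_not A (fun s => x ≤ s)]
  have h1 := lu_tail hδ hρ h 1 x (Or.inl rfl) (A.filter fun s => x ≤ s) (fun s hs => by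
    rw [Finset.mem_filter] at hs
    have := (hA s hs.1).2
    rw [abs_of_nonneg (by linarith)] at this
    exact ⟨(hA s hs.1).1, by linarith⟩)
  have h2 := lu_tail hδ hρ h (-1) x (Or.inr rfl) (A.filter fun s => ¬ x ≤ s) (fun s hs => by
    rw [Finset.mem_filter] at hs
    have h3 := hs.2
    push Not at h3
    have := (hA s hs.1).2
    rw [abs_of_neg (by linarith)] at this
    exact ⟨(hA s hs.1).1, by linarith⟩)
  linarith

/-! ## The kernel -/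

/-- The exponential sum. -/
noncomputable def luz (q : ℝ) (N : ℕ) (x : ℝ) : ℂ :=
  ∑ m ∈ Finset.range N, Complex.exp ((2 * Real.pi * m * x / q : ℝ) * Complex.I)

/-- The kernel. -/
noncomputable def luK (q : ℝ) (N : ℕ) (x : ℝ) : ℝ := ‖luz q N x‖ ^ 2 / N ^ 2

lemma luK_nonneg (q : ℝ) (N : ℕ) (x : ℝ) : 0 ≤ luK q N x := by
  unfold luK
  positivity

lemma luK_zero (q : ℝ) {N : ℕ} (hN : 0 < N) : luK q N 0 = 1 := by
  unfold luK luz
  have : (0 : ℝ) < N := by exact_mod_cast hN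
  simp only [mul_zero, zero_div, Complex.ofReal_zero, zero_mul, Complex.exp_zero,
    Finset.sum_const, Finset.card_range, nsmul_eq_mul, mul_one, Complex.norm_natCast]
  field_simp

lemma luK_per {q : ℝ} (hq : 0 < q) (N : ℕ) (x : ℝ) : luK q N (x + q) = luK q N x := by
  unfold luK luz
  congr 3
  refine Finset.sum_congr rfl fun m _ => ?_
  have e : ((2 * Real.pi * m * (x + q) / q : ℝ) : ℂ) * Complex.I =
      ((2 * Real.pi * m * x / q : ℝ) : ℂ) * Complex.I + (m : ℤ) * (2 * Real.pi * Complex.I) := by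
    have : (q : ℂ) ≠ 0 := by exact_mod_cast hq.ne'
    push_cast
    field_simp
  rw [e]
  exact Complex.exp_periodic.int_mul (m : ℤ) _

lemma luK_even (q : ℝ) (N : ℕ) (x : ℝ) : luK q N (-x) = luK q N x := by
  unfold luK
  have e : luz q N (-x) = (starRingEnd ℂ) (luz q N x) := by
    unfold luz
    rw [map_sum]
    refine Finset.sum_congr rfl fun m _ => ?_
    rw [← Complex.exp_conj, map_mul, Complex.conj_ofReal, Complex.conj_I]
    congr 1
    push_cast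
    ring
  rw [e, Complex.norm_conj]

/-- The bound of the kernel. -/
lemma luK_le {q : ℝ} (hq : 0 < q) {N : ℕ} (hN : 0 < N) {x : ℝ} (hx : x ≠ 0) (hx2 : |x| ≤ q / 2) :
    luK q N x ≤ (q / (2 * N)) ^ 2 * (1 / x ^ 2) := by
  have hN' : (0 : ℝ) < N := by exact_mod_cast hN
  have hx0 : 0 < |x| := abs_pos.2 hx
  obtain ⟨w, hw⟩ : ∃ w, w = Complex.exp ((2 * Real.pi * x / q : ℝ) * Complex.I) := ⟨_, rfl⟩
  have e1 : luz q N x = ∑ m ∈ Finset.range N, w ^ m := by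
    unfold luz
    refine Finset.sum_congr rfl fun m _ => ?_
    rw [hw, ← Complex.exp_nat_mul]
    congr 1
    push_cast
    ring
  have hw1 : ‖w‖ = 1 := by rw [hw]; exact Complex.norm_exp_ofReal_mul_I _
  have e2 : luz q N x * (w - 1) = w ^ N - 1 := by
    rw [e1]
    exact geom_sum_mul w N
  have h1 : ‖luz q N x‖ * ‖w - 1‖ ≤ 2 := by
    rw [← norm_mul, e2]
    calc ‖w ^ N - 1‖ ≤ ‖w ^ N‖ + ‖(1 : ℂ)‖ := norm_sub_le _ _
      _ = 2 := by rw [norm_pow, hw1, norm_one]; norm_num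
  have h2 : 4 * |x| / q ≤ ‖w - 1‖ := by
    have e3 : ‖w - 1‖ = ‖2 * Real.sin (2 * Real.pi * x / q / 2)‖ := by
      rw [hw, mul_comm, Complex.norm_exp_I_mul_ofReal_sub_one]
    rw [e3]
    have e4 : 2 * Real.pi * x / q / 2 = Real.pi * x / q := by ring
    rw [e4, norm_mul, Real.norm_eq_abs, Real.norm_eq_abs, abs_of_pos (by norm_num : (0 : ℝ) < 2)]
    have e5 : |Real.sin (Real.pi * x / q)| = Real.sin (Real.pi * |x| / q) := by
      have hle : Real.pi * |x| / q ≤ Real.pi := by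
        rw [div_le_iff₀ hq]
        nlinarith [Real.pi_pos]
      have hge : 0 ≤ Real.pi * |x| / q := by positivity
      rcases le_or_gt 0 x with h | h
      · rw [abs_of_nonneg h] at hle hge ⊢
        exact abs_of_nonneg (Real.sin_nonneg_of_nonneg_of_le_pi hge hle)
      · rw [abs_of_neg h] at hle hge ⊢
        have e6 : Real.pi * x / q = - (Real.pi * (-x) / q) := by ring
        rw [e6, Real.sin_neg, abs_neg]
        exact abs_of_nonneg (Real.sin_nonneg_of_nonneg_of_le_pi hge hle)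
    rw [e5]
    have h3 : 2 / Real.pi * (Real.pi * |x| / q) ≤ Real.sin (Real.pi * |x| / q) := by
      apply Real.mul_le_sin (by positivity)
      rw [div_le_iff₀ hq]
      nlinarith [Real.pi_pos]
    have e7 : 2 / Real.pi * (Real.pi * |x| / q) = 2 * |x| / q := by
      field_simp
    rw [e7] at h3
    calc 4 * |x| / q = 2 * (2 * |x| / q) := by ring
      _ ≤ _ := by linarith
  have h4 : ‖luz q N x‖ * (4 * |x| / q) ≤ 2 :=
    (mul_le_mul_of_nonneg_left h2 (norm_nonneg _)).trans h1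
  have h5 : ‖luz q N x‖ ≤ q / (2 * |x|) := by
    rw [le_div_iff₀ (by positivity)]
    have : ‖luz q N x‖ * (4 * |x| / q) = ‖luz q N x‖ * (2 * |x|) * (2 / q) := by ring
    rw [this] at h4
    have h6 : ‖luz q N x‖ * (2 * |x|) * (2 / q) * (q / 2) ≤ 2 * (q / 2) :=
      mul_le_mul_of_nonneg_right h4 (by positivity)
    have h7 : ‖luz q N x‖ * (2 * |x|) * (2 / q) * (q / 2) = ‖luz q N x‖ * (2 * |x|) := by
      field_simp
    rw [h7] at h6
    linarith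
  unfold luK
  have h8 : ‖luz q N x‖ ^ 2 ≤ (q / (2 * |x|)) ^ 2 := pow_le_pow_left₀ (norm_nonneg _) h5 2
  have e8 : (q / (2 * N)) ^ 2 * (1 / x ^ 2) = (q / (2 * |x|)) ^ 2 / N ^ 2 := by
    rw [div_pow, div_pow, mul_pow, mul_pow, sq_abs]
    field_simp
  rw [e8]
  exact div_le_div_of_nonneg_right h8 (by positivity)

/-! ## The expansion -/

/-- The character. -/
noncomputable def luE (q : ℝ) (j : ℤ) (x : ℝ) : ℂ :=
  Complex.exp ((2 * Real.pi * j * x / q : ℝ) * Complex.I)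

lemma luK_expand (q : ℝ) (N : ℕ) (x : ℝ) :
    (luK q N x : ℂ) = (1 / (N : ℂ) ^ 2) * ∑ m ∈ Finset.range N, ∑ m' ∈ Finset.range N,
      luE q ((m : ℤ) - (m' : ℤ)) x := by
  have e1 : ((‖luz q N x‖ ^ 2 : ℝ) : ℂ) = luz q N x * (starRingEnd ℂ) (luz q N x) := by
    rw [Complex.mul_conj, Complex.normSq_eq_norm_sq]
  unfold luK
  rw [Complex.ofReal_div, e1]
  have e2 : luz q N x * (starRingEnd ℂ) (luz q N x) = ∑ m ∈ Finset.range N,
      ∑ m' ∈ Finset.range N, luE q ((m : ℤ) - (m' : ℤ)) x := by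
    unfold luz
    rw [map_sum, Finset.sum_mul_sum]
    refine Finset.sum_congr rfl fun m _ => Finset.sum_congr rfl fun m' _ => ?_
    rw [← Complex.exp_conj, map_mul, Complex.conj_ofReal, Complex.conj_I, ← Complex.exp_add]
    unfold luE
    congr 1
    push_cast
    ring
  rw [e2]
  push_cast
  ring

lemma luE_sub (q : ℝ) (j : ℤ) (x s : ℝ) :
    luE q j (x - s) = luE q j x * Complex.exp (-(2 * Real.pi * j * s / q : ℝ) * Complex.I) := by
  unfold luE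
  rw [← Complex.exp_add]
  congr 1
  push_cast
  ring

/-- The smoothed counting function. -/
noncomputable def luG (q : ℝ) (N : ℕ) (A : Finset ℝ) (x : ℝ) : ℝ := ∑ s ∈ A, luK q N (s - x)

lemma fc_sum (q : ℝ) (S : Set ℝ) (A : Finset ℝ)
    (hA : ∀ s, s ∈ A ↔ s ∈ S ∧ s ∈ Set.Ico (0 : ℝ) (0 + q)) (k : ℤ) :
    fc q S k = ∑ s ∈ A, Complex.exp (-(2 * Real.pi * k * s / q : ℝ) * Complex.I) := by
  unfold fc
  have e : S ∩ Set.Ico 0 q = (A : Set ℝ) := by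
    ext s
    rw [Finset.mem_coe, hA, zero_add]
    rfl
  rw [e]
  exact finsum_mem_coe_finset _ _

lemma luG_expand (q : ℝ) (N : ℕ) (S : Set ℝ) (A : Finset ℝ)
    (hA : ∀ s, s ∈ A ↔ s ∈ S ∧ s ∈ Set.Ico (0 : ℝ) (0 + q)) (x : ℝ) :
    (luG q N A x : ℂ) = (1 / (N : ℂ) ^ 2) * ∑ m ∈ Finset.range N, ∑ m' ∈ Finset.range N,
      luE q ((m : ℤ) - (m' : ℤ)) x * fc q S ((m : ℤ) - (m' : ℤ)) := by
  unfold luG
  rw [Complex.ofReal_sum]
  have e1 : ∀ s ∈ A, (luK q N (s - x) : ℂ) = (1 / (N : ℂ) ^ 2) * ∑ m ∈ Finset.range N,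
      ∑ m' ∈ Finset.range N, luE q ((m : ℤ) - (m' : ℤ)) x *
        Complex.exp (-(2 * Real.pi * ((m : ℤ) - (m' : ℤ) : ℤ) * s / q : ℝ) * Complex.I) := by
    intro s _
    have : s - x = -(x - s) := by ring
    rw [this, luK_even, luK_expand]
    congr 1
    refine Finset.sum_congr rfl fun m _ => Finset.sum_congr rfl fun m' _ => ?_
    rw [luE_sub]
  rw [Finset.sum_congr rfl e1, ← Finset.mul_sum, Finset.sum_comm]
  congr 1
  refine Finset.sum_congr rfl fun m _ => ?_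
  rw [Finset.sum_comm]
  refine Finset.sum_congr rfl fun m' _ => ?_
  rw [fc_sum q S A hA, Finset.mul_sum]

lemma luE_shift (q : ℝ) (j : ℤ) (x τ : ℝ) :
    ‖luE q j x - luE q j (x + τ)‖ = ‖Complex.exp (((2 * Real.pi * j / q) * τ : ℝ) * Complex.I) - 1‖
      := by
  have e : luE q j (x + τ) = luE q j x *
      Complex.exp (((2 * Real.pi * j / q) * τ : ℝ) * Complex.I) := by
    unfold luE
    rw [← Complex.exp_add]
    congr 1
    push_cast
    ring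
  rw [e]
  have e2 : luE q j x - luE q j x * Complex.exp (((2 * Real.pi * j / q) * τ : ℝ) * Complex.I) =
      -(luE q j x * (Complex.exp (((2 * Real.pi * j / q) * τ : ℝ) * Complex.I) - 1)) := by ring
  rw [e2, norm_neg, norm_mul]
  have : ‖luE q j x‖ = 1 := Complex.norm_exp_ofReal_mul_I _
  rw [this, one_mul]

lemma fc_le (q : ℝ) (S : Set ℝ) (A : Finset ℝ)
    (hA : ∀ s, s ∈ A ↔ s ∈ S ∧ s ∈ Set.Ico (0 : ℝ) (0 + q)) (k : ℤ) :
    ‖fc q S k‖ ≤ A.card := by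
  rw [fc_sum q S A hA]
  refine (norm_sum_le _ _).trans ?_
  have : ∀ s ∈ A, ‖Complex.exp (-(2 * Real.pi * k * s / q : ℝ) * Complex.I)‖ ≤ 1 := by
    intro s _
    have e : (-((2 * Real.pi * k * s / q : ℝ) : ℂ)) * Complex.I =
        ((-(2 * Real.pi * k * s / q) : ℝ) : ℂ) * Complex.I := by push_cast; ring
    rw [e, Complex.norm_exp_ofReal_mul_I]
  refine (Finset.sum_le_sum this).trans ?_
  simp

/-- The difference of the smoothed counting functions moves slowly. -/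
lemma lu_slow {X : Set ℝ} {q : ℝ} (hq : 0 < q) {N : ℕ} (hN : 0 < N) {S S' : Set ℝ}
    (A A' : Finset ℝ) (hA : ∀ s, s ∈ A ↔ s ∈ S ∧ s ∈ Set.Ico (0 : ℝ) (0 + q))
    (hA' : ∀ s, s ∈ A' ↔ s ∈ S' ∧ s ∈ Set.Ico (0 : ℝ) (0 + q))
    (hX : SpR X q S) (hX' : SpR X q S') (Ξ : Finset ℝ) (W : ℝ)
    (hΞ : ∀ ξ, ξ ∈ X → |ξ| ≤ W → ξ ∈ Ξ) (hW : 2 * Real.pi * N / q ≤ W)
    (ε τ : ℝ) (hε : 0 ≤ ε) (hτ : ∀ ξ ∈ Ξ, ‖Complex.exp ((ξ * τ : ℝ) * Complex.I) - 1‖ ≤ ε)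
    (B : ℝ) (hB : (A.card : ℝ) ≤ B) (hB' : (A'.card : ℝ) ≤ B) (x : ℝ) :
    |(luG q N A x - luG q N A' x) - (luG q N A (x + τ) - luG q N A' (x + τ))| ≤
      Ξ.card * (2 * B) * ε / N := by
  classical
  have hN' : (0 : ℝ) < N := by exact_mod_cast hN
  have hB0 : 0 ≤ B := le_trans (Nat.cast_nonneg _) hB
  obtain ⟨c, hc⟩ : ∃ c : ℤ → ℂ, ∀ j, c j = fc q S j - fc q S' j := ⟨_, fun _ => rfl⟩
  have e1 : (((luG q N A x - luG q N A' x) - (luG q N A (x + τ) - luG q N A' (x + τ)) : ℝ) : ℂ) =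
      (1 / (N : ℂ) ^ 2) * ∑ m ∈ Finset.range N, ∑ m' ∈ Finset.range N,
        (luE q ((m : ℤ) - (m' : ℤ)) x - luE q ((m : ℤ) - (m' : ℤ)) (x + τ)) *
          c ((m : ℤ) - (m' : ℤ)) := by
    push_cast
    rw [luG_expand q N S A hA, luG_expand q N S' A' hA', luG_expand q N S A hA,
      luG_expand q N S' A' hA', ← mul_sub, ← mul_sub, ← mul_sub, ← Finset.sum_sub_distrib,
      ← Finset.sum_sub_distrib, ← Finset.sum_sub_distrib]
    congr 1
    refine Finset.sum_congr rfl fun m _ => ?_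
    rw [← Finset.sum_sub_distrib, ← Finset.sum_sub_distrib, ← Finset.sum_sub_distrib]
    refine Finset.sum_congr rfl fun m' _ => ?_
    rw [hc]
    ring
  have hcB : ∀ j, ‖c j‖ ≤ 2 * B := by
    intro j
    rw [hc]
    have h1 := fc_le q S A hA j
    have h2 := fc_le q S' A' hA' j
    have h3 := norm_sub_le (fc q S j) (fc q S' j)
    linarith
  have inner : ∀ m ∈ Finset.range N, ‖∑ m' ∈ Finset.range N,
      (luE q ((m : ℤ) - (m' : ℤ)) x - luE q ((m : ℤ) - (m' : ℤ)) (x + τ)) *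
        c ((m : ℤ) - (m' : ℤ))‖ ≤ Ξ.card * (2 * B) * ε := by
    intro m hm
    rw [Finset.mem_range] at hm
    refine (norm_sum_le _ _).trans ?_
    have h1 : ∀ m' ∈ Finset.range N, ‖(luE q ((m : ℤ) - (m' : ℤ)) x -
        luE q ((m : ℤ) - (m' : ℤ)) (x + τ)) * c ((m : ℤ) - (m' : ℤ))‖ ≤
        if 2 * Real.pi * (((m : ℤ) - (m' : ℤ) : ℤ) : ℝ) / q ∈ Ξ then (2 * B) * ε else 0 := by
      intro m' hm'
      rw [Finset.mem_range] at hm'
      rw [norm_mul, luE_shift]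
      by_cases hcz : c ((m : ℤ) - (m' : ℤ)) = 0
      · rw [hcz, norm_zero, mul_zero]
        split_ifs
        · positivity
        · exact le_rfl
      · have hin : 2 * Real.pi * (((m : ℤ) - (m' : ℤ) : ℤ) : ℝ) / q ∈ X := by
          by_cases hz : fc q S ((m : ℤ) - (m' : ℤ)) = 0
          · refine hX' _ fun hz' => hcz ?_
            rw [hc, hz, hz', sub_zero]
          · exact hX _ hz
        have habs : |2 * Real.pi * (((m : ℤ) - (m' : ℤ) : ℤ) : ℝ) / q| ≤ W := by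
          refine le_trans ?_ hW
          rw [abs_div, abs_of_pos hq, abs_mul, abs_of_pos (by positivity : 0 < 2 * Real.pi)]
          apply div_le_div_of_nonneg_right _ hq.le
          apply mul_le_mul_of_nonneg_left _ (by positivity)
          rw [abs_le]
          push_cast
          have a1 : (m : ℝ) < N := by exact_mod_cast hm
          have a2 : (m' : ℝ) < N := by exact_mod_cast hm'
          have a3 : (0 : ℝ) ≤ m := Nat.cast_nonneg _
          have a4 : (0 : ℝ) ≤ m' := Nat.cast_nonneg _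
          constructor <;> linarith
        have hmem := hΞ _ hin habs
        rw [if_pos hmem]
        have h5 := hτ _ hmem
        calc _ ≤ ε * (2 * B) := mul_le_mul h5 (hcB _) (norm_nonneg _) hε
          _ = 2 * B * ε := by ring
    refine (Finset.sum_le_sum h1).trans ?_
    rw [← Finset.sum_filter, Finset.sum_const, nsmul_eq_mul]
    have h2 : ((Finset.range N).filter fun m' : ℕ =>
        2 * Real.pi * (((m : ℤ) - (m' : ℤ) : ℤ) : ℝ) / q ∈ Ξ).card ≤ Ξ.card := by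
      refine Finset.card_le_card_of_injOn
        (fun m' : ℕ => 2 * Real.pi * (((m : ℤ) - (m' : ℤ) : ℤ) : ℝ) / q) ?_ ?_
      · intro m' hm'
        rw [Finset.mem_coe, Finset.mem_filter] at hm'
        exact hm'.2
      · intro a _ b _ hab
        have h3 : 2 * Real.pi * (((m : ℤ) - (a : ℤ) : ℤ) : ℝ) / q =
            2 * Real.pi * (((m : ℤ) - (b : ℤ) : ℤ) : ℝ) / q := hab
        have hpi : 2 * Real.pi ≠ 0 := by positivity
        rw [div_left_inj' hq.ne'] at h3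
        have h4 := mul_left_cancel₀ hpi h3
        have h5 : ((m : ℤ) - (a : ℤ)) = ((m : ℤ) - (b : ℤ)) := by exact_mod_cast h4
        omega
    have h3 : (((Finset.range N).filter fun m' : ℕ =>
        2 * Real.pi * (((m : ℤ) - (m' : ℤ) : ℤ) : ℝ) / q ∈ Ξ).card : ℝ) ≤ Ξ.card := by
      exact_mod_cast h2
    calc _ ≤ (Ξ.card : ℝ) * (2 * B * ε) := mul_le_mul_of_nonneg_right h3 (by positivity)
      _ = Ξ.card * (2 * B) * ε := by ring
  have h6 : ‖(((luG q N A x - luG q N A' x) -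
      (luG q N A (x + τ) - luG q N A' (x + τ)) : ℝ) : ℂ)‖ ≤ Ξ.card * (2 * B) * ε / N := by
    rw [e1, norm_mul]
    have e2 : ‖(1 / (N : ℂ) ^ 2)‖ = 1 / (N : ℝ) ^ 2 := by
      rw [norm_div, norm_one, norm_pow, Complex.norm_natCast]
    rw [e2]
    have h7 : ‖∑ m ∈ Finset.range N, ∑ m' ∈ Finset.range N,
        (luE q ((m : ℤ) - (m' : ℤ)) x - luE q ((m : ℤ) - (m' : ℤ)) (x + τ)) *
          c ((m : ℤ) - (m' : ℤ))‖ ≤ N * (Ξ.card * (2 * B) * ε) := by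
      refine (norm_sum_le _ _).trans ((Finset.sum_le_sum inner).trans ?_)
      simp
    calc _ ≤ 1 / (N : ℝ) ^ 2 * (N * (Ξ.card * (2 * B) * ε)) :=
          mul_le_mul_of_nonneg_left h7 (by positivity)
      _ = Ξ.card * (2 * B) * ε / N := by field_simp
  rwa [Complex.norm_real, Real.norm_eq_abs] at h6

/-! ## Recurrence -/

lemma lu_bohr (Ξ : Finset ℝ) (ε B : ℝ) (hε : 0 < ε) (hB : 0 < B) : ∃ τ ≥ B, ∀ ξ ∈ Ξ,
    ‖Complex.exp ((ξ * τ : ℝ) * Complex.I) - 1‖ ≤ ε := by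
  have hmem : ∀ k : ℕ, (fun ξ : Ξ => Complex.exp (((ξ : ℝ) * (k * B) : ℝ) * Complex.I)) ∈
      Metric.closedBall (0 : Ξ → ℂ) 1 := by
    intro k
    rw [mem_closedBall_zero_iff]
    refine (pi_norm_le_iff_of_nonneg zero_le_one).2 fun ξ => ?_
    rw [Complex.norm_exp_ofReal_mul_I]
  obtain ⟨a, _, φ, hφ, hlim⟩ := (isCompact_closedBall (0 : Ξ → ℂ) 1).tendsto_subseq hmem
  have hc := hlim.cauchySeq
  obtain ⟨n, hn⟩ := Metric.cauchySeq_iff.1 hc ε hε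
  have h1 := hn n le_rfl (n + 1) (Nat.le_succ n)
  have hlt : φ n < φ (n + 1) := hφ (Nat.lt_succ_self n)
  have hlt' : (φ n : ℝ) + 1 ≤ φ (n + 1) := by exact_mod_cast hlt
  refine ⟨(φ (n + 1) - φ n) * B, by nlinarith, fun ξ hξ => ?_⟩
  have h2 := (dist_le_pi_dist _ _ (⟨ξ, hξ⟩ : Ξ)).trans h1.le
  rw [dist_eq_norm] at h2
  simp only [Function.comp] at h2
  have e : Complex.exp ((ξ * (φ n * B) : ℝ) * Complex.I) -
      Complex.exp ((ξ * (φ (n + 1) * B) : ℝ) * Complex.I) =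
      -(Complex.exp ((ξ * (φ n * B) : ℝ) * Complex.I) *
        (Complex.exp ((ξ * ((φ (n + 1) - φ n) * B) : ℝ) * Complex.I) - 1)) := by
    rw [mul_sub, ← Complex.exp_add]
    have : ((ξ * (φ n * B) : ℝ) : ℂ) * Complex.I +
        ((ξ * ((φ (n + 1) - φ n) * B) : ℝ) : ℂ) * Complex.I =
        ((ξ * (φ (n + 1) * B) : ℝ) : ℂ) * Complex.I := by
      push_cast
      ring
    rw [this]
    ring
  rw [e, norm_neg, norm_mul, Complex.norm_exp_ofReal_mul_I, one_mul] at h2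
  exact h2

/-! ## Main argument -/

/-- Tail of the smoothed counting function in a window. -/
lemma lu_far {δ ρ q : ℝ} (hδ : 0 < δ) (hρ : 0 < ρ) (hq : 0 < q) {N : ℕ} (hN : 0 < N) {M : ℝ}
    (hM : 0 < M) (hMN : M * q ≤ N) {S : Set ℝ} (h : SepR ρ S) (x : ℝ) (A : Finset ℝ)
    (hA : ∀ s ∈ A, s ∈ S ∧ δ ≤ |s - x| ∧ |s - x| ≤ q / 2) :
    ∑ s ∈ A, luK q N (s - x) ≤ 1 / (2 * M ^ 2) * (1 / δ ^ 2 + 1 / (ρ * δ)) := by
  have h1 : ∑ s ∈ A, luK q N (s - x) ≤ ∑ s ∈ A, (1 / (4 * M ^ 2)) * (1 / (s - x) ^ 2) := by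
    refine Finset.sum_le_sum fun s hs => ?_
    obtain ⟨_, h2, h3⟩ := hA s hs
    have hne : s - x ≠ 0 := by
      intro e
      rw [e, abs_zero] at h2
      linarith
    refine (luK_le hq hN hne h3).trans ?_
    apply mul_le_mul_of_nonneg_right _ (by positivity)
    have hN' : (0 : ℝ) < N := by exact_mod_cast hN
    have h4 : q / (2 * N) ≤ 1 / (2 * M) := by
      rw [div_le_div_iff₀ (by positivity) (by positivity)]
      nlinarith
    have h5 : (q / (2 * N)) ^ 2 ≤ (1 / (2 * M)) ^ 2 := pow_le_pow_left₀ (by positivity) h4 2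
    have e : (1 / (2 * M)) ^ 2 = 1 / (4 * M ^ 2) := by
      rw [div_pow]
      ring
    rw [e] at h5
    exact h5
  rw [← Finset.mul_sum] at h1
  have h2 := lu_tail2 hδ hρ h x A fun s hs => ⟨(hA s hs).1, (hA s hs).2.1⟩
  have h3 := mul_le_mul_of_nonneg_left h2 (by positivity : 0 ≤ 1 / (4 * M ^ 2))
  have e : 1 / (4 * M ^ 2) * (2 * (1 / δ ^ 2 + 1 / (ρ * δ))) =
      1 / (2 * M ^ 2) * (1 / δ ^ 2 + 1 / (ρ * δ)) := by
    field_simp
    ring
  rw [e] at h3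
  linarith

lemma lu_core {X : Set ℝ} {ρ κ q M τ L W ε : ℝ} (hρ : 0 < ρ) (hκ : 0 < κ) (hq1 : 1 ≤ q)
    (hM : 0 < M) (hτ : 0 < τ) (hL : 2 * τ ≤ L) (Ξ : Finset ℝ)
    (hΞ : ∀ ξ, ξ ∈ X → |ξ| ≤ W → ξ ∈ Ξ) (hW : 2 * Real.pi * (M + 1) ≤ W) (hε : 0 ≤ ε)
    (hrec : ∀ ξ ∈ Ξ, ‖Complex.exp ((ξ * τ : ℝ) * Complex.I) - 1‖ ≤ ε)
    (b1 : 1 / (2 * M ^ 2) * (1 / κ ^ 2 + 1 / (ρ * κ)) ≤ 1 / 4)
    (b2 : 1 / (2 * M ^ 2) * (1 / τ ^ 2 + 1 / (ρ * τ)) ≤ 1 / 8)
    (b3 : Ξ.card * (2 * (1 / ρ + 1)) * ε / M ≤ 1 / 8)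
    {S S' : Set ℝ} (hS : PerR q S) (hS' : PerR q S') (hr : SepR ρ S) (hr' : SepR ρ S')
    (hX : SpR X q S) (hX' : SpR X q S') {s₀ : ℝ} (hs₀ : s₀ ∈ S)
    (hfar : ∀ s ∈ S', κ ≤ |s - s₀|) (σ : ℝ) (hσ : σ = 1 ∨ σ = -1)
    (hag : ∀ s, 0 < σ * (s - s₀) → σ * (s - s₀) ≤ L → (s ∈ S ↔ s ∈ S')) : False := by
  classical
  have hq : 0 < q := by linarith
  have hσa : |σ| = 1 := by rcases hσ with h | h <;> rw [h] <;> norm_num
  have hσ2 : σ * σ = 1 := by rcases hσ with h | h <;> rw [h] <;> norm_num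
  obtain ⟨N, hNdef⟩ : ∃ N : ℕ, N = ⌈M * q⌉₊ := ⟨_, rfl⟩
  have hMq : 0 < M * q := by positivity
  have hN : 0 < N := by
    rw [hNdef]
    exact Nat.ceil_pos.2 hMq
  have hN' : (0 : ℝ) < N := by exact_mod_cast hN
  have hMN : M * q ≤ N := by
    rw [hNdef]
    exact Nat.le_ceil _
  have hNle : (N : ℝ) ≤ (M + 1) * q := by
    have h1 : (N : ℝ) < M * q + 1 := by
      rw [hNdef]
      exact Nat.ceil_lt_add_one hMq.le
    nlinarith
  -- windows
  have win : ∀ T : Set ℝ, SepR ρ T → ∀ a : ℝ, ∃ A : Finset ℝ,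
      ∀ s, s ∈ A ↔ s ∈ T ∧ s ∈ Set.Ico a (a + q) := by
    intro T hT a
    refine ⟨(lu_fin hρ hT a (a + q)).toFinset, fun s => ?_⟩
    rw [Set.Finite.mem_toFinset]
    rfl
  obtain ⟨A, hA⟩ := win S hr 0
  obtain ⟨A', hA'⟩ := win S' hr' 0
  -- slow variation
  have hcard := lu_card hρ hr hq A hA
  have hcard' := lu_card hρ hr' hq A' hA'
  have hrec' : ∀ ξ ∈ Ξ, ‖Complex.exp ((ξ * (σ * τ) : ℝ) * Complex.I) - 1‖ ≤ ε := by
    intro ξ hξ
    rcases hσ with h | h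
    · rw [h, one_mul]
      exact hrec ξ hξ
    · rw [h]
      have e : Complex.exp ((ξ * (-1 * τ) : ℝ) * Complex.I) - 1 =
          (starRingEnd ℂ) (Complex.exp ((ξ * τ : ℝ) * Complex.I) - 1) := by
        rw [map_sub, map_one, ← Complex.exp_conj, map_mul, Complex.conj_ofReal, Complex.conj_I]
        congr 2
        push_cast
        ring
      rw [e, Complex.norm_conj]
      exact hrec ξ hξ
  have hslow := lu_slow hq hN A A' hA hA' hX hX' Ξ W hΞ (by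
    refine le_trans ?_ hW
    rw [div_le_iff₀ hq]
    have := mul_le_mul_of_nonneg_left hNle (by positivity : 0 ≤ 2 * Real.pi)
    linarith) ε (σ * τ) hε hrec' (q / ρ + 1) hcard hcard' s₀
  have hslow2 : (Ξ.card : ℝ) * (2 * (q / ρ + 1)) * ε / N ≤ 1 / 8 := by
    refine le_trans ?_ b3
    rw [div_le_div_iff₀ hN' hM]
    have h1 : q / ρ + 1 ≤ q * (1 / ρ + 1) := by
      have : q * (1 / ρ + 1) = q / ρ + q := by ring
      linarith
    have h2 : (Ξ.card : ℝ) * (2 * (q / ρ + 1)) * ε * M ≤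
        (Ξ.card : ℝ) * (2 * (q * (1 / ρ + 1))) * ε * M := by gcongr
    have h3 : (Ξ.card : ℝ) * (2 * (q * (1 / ρ + 1))) * ε * M =
        (Ξ.card : ℝ) * (2 * (1 / ρ + 1)) * ε * (M * q) := by ring
    rw [h3] at h2
    refine h2.trans (mul_le_mul_of_nonneg_left hMN (by positivity))
  -- values at `s₀`
  have perK : ∀ x s : ℝ, luK q N (s + q - x) = luK q N (s - x) := by
    intro x s
    have : s + q - x = (s - x) + q := by ring
    rw [this, luK_per hq]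
  have shiftw : ∀ (T : Set ℝ) (hT : PerR q T) (C D : Finset ℝ) (a x : ℝ),
      (∀ s, s ∈ C ↔ s ∈ T ∧ s ∈ Set.Ico (0 : ℝ) (0 + q)) →
      (∀ s, s ∈ D ↔ s ∈ T ∧ s ∈ Set.Ico a (a + q)) →
      luG q N C x = ∑ s ∈ D, luK q N (s - x) := by
    intro T hT C D a x hC hD
    exact lu_win hq hT (perK x) 0 a C D hC hD
  have inw : ∀ x s : ℝ, s ∈ Set.Ico (x - q / 2) (x - q / 2 + q) → |s - x| ≤ q / 2 := by
    intro x s hs
    rw [abs_le]
    constructor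
    · linarith [hs.1]
    · linarith [hs.2]
  have v0 : 3 / 4 ≤ luG q N A s₀ - luG q N A' s₀ := by
    obtain ⟨D, hD⟩ := win S hr (s₀ - q / 2)
    obtain ⟨D', hD'⟩ := win S' hr' (s₀ - q / 2)
    rw [shiftw S hS A D _ s₀ hA hD, shiftw S' hS' A' D' _ s₀ hA' hD']
    have h1 : s₀ ∈ D := (hD s₀).2 ⟨hs₀, ⟨by linarith, by linarith⟩⟩
    have h2 : luK q N (s₀ - s₀) ≤ ∑ s ∈ D, luK q N (s - s₀) :=
      Finset.single_le_sum (f := fun s => luK q N (s - s₀))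
        (fun s _ => luK_nonneg q N _) h1
    rw [sub_self, luK_zero q hN] at h2
    have h3 := lu_far hκ hρ hq hN hM hMN hr' s₀ D' (fun s hs => by
      have := (hD' s).1 hs
      exact ⟨this.1, hfar s this.1, inw _ _ this.2⟩)
    linarith
  have v1 : luG q N A (s₀ + σ * τ) - luG q N A' (s₀ + σ * τ) ≤ 1 / 8 := by
    obtain ⟨x, hx⟩ : ∃ x, x = s₀ + σ * τ := ⟨_, rfl⟩
    rw [← hx]
    obtain ⟨D, hD⟩ := win S hr (x - q / 2)
    obtain ⟨D', hD'⟩ := win S' hr' (x - q / 2)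
    rw [shiftw S hS A D _ x hA hD, shiftw S' hS' A' D' _ x hA' hD']
    rw [← Finset.sum_filter_add_sum_filter_not D (fun s => 0 < σ * (s - s₀) ∧
      σ * (s - s₀) ≤ L), ← Finset.sum_filter_add_sum_filter_not D' (fun s => 0 < σ * (s - s₀) ∧
      σ * (s - s₀) ≤ L)]
    have e1 : D.filter (fun s => 0 < σ * (s - s₀) ∧ σ * (s - s₀) ≤ L) =
        D'.filter (fun s => 0 < σ * (s - s₀) ∧ σ * (s - s₀) ≤ L) := by
      ext s
      rw [Finset.mem_filter, Finset.mem_filter, hD, hD']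
      constructor
      · rintro ⟨⟨a1, a2⟩, a3⟩
        exact ⟨⟨(hag s a3.1 a3.2).1 a1, a2⟩, a3⟩
      · rintro ⟨⟨a1, a2⟩, a3⟩
        exact ⟨⟨(hag s a3.1 a3.2).2 a1, a2⟩, a3⟩
    rw [e1]
    have h3 := lu_far hτ hρ hq hN hM hMN hr x
      (D.filter fun s => ¬ (0 < σ * (s - s₀) ∧ σ * (s - s₀) ≤ L)) (fun s hs => by
      rw [Finset.mem_filter] at hs
      have h4 := (hD s).1 hs.1
      refine ⟨h4.1, ?_, inw _ _ h4.2⟩
      have e2 : |s - x| = |σ * (s - x)| := by rw [abs_mul, hσa, one_mul]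
      have e3 : σ * (s - x) = σ * (s - s₀) - τ := by
        rw [hx]
        linear_combination (-τ) * hσ2
      rw [e2, e3]
      have h5 := hs.2
      rw [not_and_or] at h5
      push Not at h5
      rcases h5 with h5 | h5
      · rw [abs_of_nonpos (by linarith)]
        linarith
      · rw [abs_of_nonneg (by linarith)]
        linarith)
    have h6 : 0 ≤ ∑ s ∈ D'.filter (fun s => ¬ (0 < σ * (s - s₀) ∧ σ * (s - s₀) ≤ L)),
        luK q N (s - x) := Finset.sum_nonneg fun s _ => luK_nonneg q N _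
    linarith
  have h7 := (abs_le.1 hslow).2
  linarith

/-- LU. -/
theorem p_LU : T_LU := by
  intro X hX ρ hρ κ hκ
  -- choice of `M`
  obtain ⟨M, hM1, b1⟩ : ∃ M : ℝ, 1 ≤ M ∧ 1 / (2 * M ^ 2) * (1 / κ ^ 2 + 1 / (ρ * κ)) ≤ 1 / 4 := by
    obtain ⟨c, hc⟩ : ∃ c, c = 1 / κ ^ 2 + 1 / (ρ * κ) := ⟨_, rfl⟩
    have hc0 : 0 ≤ c := by rw [hc]; positivity
    refine ⟨1 + 2 * c, by linarith, ?_⟩
    rw [← hc, one_div, inv_mul_le_iff₀ (by positivity)]
    nlinarith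
  have hM : 0 < M := by linarith
  obtain ⟨W, hW⟩ : ∃ W, W = 2 * Real.pi * (M + 1) := ⟨_, rfl⟩
  obtain ⟨Ξ, hΞ⟩ : ∃ Ξ : Finset ℝ, ∀ ξ, ξ ∈ X → |ξ| ≤ W → ξ ∈ Ξ := by
    refine ⟨(hX W).toFinset, fun ξ h1 h2 => ?_⟩
    rw [Set.Finite.mem_toFinset]
    exact ⟨h1, abs_le.1 h2⟩
  obtain ⟨ε, hε, b3⟩ : ∃ ε > (0 : ℝ), Ξ.card * (2 * (1 / ρ + 1)) * ε / M ≤ 1 / 8 := by
    obtain ⟨c, hc⟩ : ∃ c, c = (Ξ.card : ℝ) * (2 * (1 / ρ + 1)) := ⟨_, rfl⟩
    have hc0 : 0 ≤ c := by rw [hc]; positivity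
    refine ⟨1 / (8 * (c + 1)), by positivity, ?_⟩
    rw [← hc, div_le_iff₀ hM]
    have h1 : c * (1 / (8 * (c + 1))) ≤ 1 / 8 := by
      rw [mul_one_div, div_le_div_iff₀ (by positivity) (by norm_num)]
      linarith
    linarith
  obtain ⟨τ₀, hτ₀, b2⟩ : ∃ τ₀ > (0 : ℝ), ∀ τ ≥ τ₀,
      1 / (2 * M ^ 2) * (1 / τ ^ 2 + 1 / (ρ * τ)) ≤ 1 / 8 := by
    refine ⟨max 1 (8 * (1 + 1 / ρ)), by positivity, fun τ hτ => ?_⟩
    have h1 : 1 ≤ τ := (le_max_left _ _).trans hτ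
    have h2 : 8 * (1 + 1 / ρ) ≤ τ := (le_max_right _ _).trans hτ
    have h3 : 1 / τ ^ 2 + 1 / (ρ * τ) ≤ (1 + 1 / ρ) / τ := by
      have e : (1 + 1 / ρ) / τ = 1 / τ + 1 / (ρ * τ) := by
        field_simp
      rw [e]
      have : 1 / τ ^ 2 ≤ 1 / τ := by
        apply one_div_le_one_div_of_le (by linarith)
        nlinarith
      linarith
    have h4 : (1 + 1 / ρ) / τ ≤ 1 / 8 := by
      rw [div_le_div_iff₀ (by linarith) (by norm_num)]
      linarith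
    have h5 : 1 / (2 * M ^ 2) ≤ 1 := by
      rw [div_le_one (by positivity)]
      nlinarith
    have h6 : 0 ≤ 1 / τ ^ 2 + 1 / (ρ * τ) := by
      have : 0 < τ := by linarith
      positivity
    calc _ ≤ 1 * (1 / τ ^ 2 + 1 / (ρ * τ)) := mul_le_mul_of_nonneg_right h5 h6
      _ ≤ 1 / 8 := by linarith
  obtain ⟨τ, hτ, hrec⟩ := lu_bohr Ξ ε τ₀ hε hτ₀
  have hτp : 0 < τ := by linarith
  refine ⟨max (2 * τ) 1, by positivity, ?_⟩
  intro q hq S S' hS hS' hr hr' hsp hsp' s₀ hs₀ hfar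
  have hq1 : 1 ≤ q := (le_max_right _ _).trans hq
  constructor
  · intro hag
    refine lu_core hρ hκ hq1 hM hτp (le_max_left (2 * τ) 1) Ξ hΞ (by rw [hW]) hε.le hrec b1
      (b2 τ hτ) b3 hS hS' hr hr' hsp hsp' hs₀ hfar (-1) (Or.inr rfl) fun s h1 h2 => ?_
    exact hag s (by linarith) (by linarith)
  · intro hag
    refine lu_core hρ hκ hq1 hM hτp (le_max_left (2 * τ) 1) Ξ hΞ (by rw [hW]) hε.le hrec b1
      (b2 τ hτ) b3 hS hS' hr hr' hsp hsp' hs₀ hfar 1 (Or.inl rfl) fun s h1 h2 => ?_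
    exact hag s (by linarith) (by linarith)

end Pool.Agent.PTG
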