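import Pool.Agent.PTG.Targets
import Pool.Agent.PTL.P_MEAN

/-!
# PTG: existence of an invariant mean on the real line

Iterate a mean of the integers along finitely many directions, then take a limit along an
ultrafilter of the finite sets of directions.
-/

set_option autoImplicit false

namespace Pool.Agent.PTG

open Filter Topology

namespace MeanAux

open Pool.Agent.PTL (IM)

/-- Bounded real function. -/
def Bd (f : ℝ → ℝ) : Prop := ∃ B : ℝ, ∀ x, |f x| ≤ B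

variable (m : IM)

/-- Mean along the step `s`. -/
noncomputable def Ms (s : ℝ) (f : ℝ → ℝ) : ℝ → ℝ := fun x => m.E fun k : ℤ => f (x + k * s)

lemma E_le {g : ℤ → ℝ} {B : ℝ} (hb : ∃ C : ℝ, ∀ s, |g s| ≤ C) (h : ∀ k, g k ≤ B) :
    m.E g ≤ B := by
  obtain ⟨C, hC⟩ := hb
  have h1 : 0 ≤ m.E (fun k => B - g k) := m.pos _ (fun k => sub_nonneg.2 (h k))
    ⟨|B| + C, fun k => by
      have h2 := neg_abs_le (g k)
      have h3 := le_abs_self B
      have h4 := hC k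
      linarith⟩
  have h2 : (fun k => B - g k) = B • (fun _ : ℤ => (1 : ℝ)) - g := by
    funext k
    simp
  rw [h2, map_sub, map_smul, m.one, smul_eq_mul, mul_one] at h1
  linarith

lemma E_abs {g : ℤ → ℝ} {B : ℝ} (h : ∀ k, |g k| ≤ B) : |m.E g| ≤ B := by
  rw [abs_le]
  constructor
  · have h1 : m.E (-g) ≤ B := E_le m ⟨B, fun k => by
      simpa using h k⟩ (fun k => (neg_le_abs (g k)).trans (h k))
    rw [map_neg] at h1
    linarith
  · exact E_le m ⟨B, h⟩ (fun k => (le_abs_self _).trans (h k))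

lemma Ms_abs {s : ℝ} {f : ℝ → ℝ} {B : ℝ} (h : ∀ x, |f x| ≤ B) (x : ℝ) : |Ms m s f x| ≤ B :=
  E_abs m fun _ => h _

lemma Ms_add (s : ℝ) (f g : ℝ → ℝ) : Ms m s (fun x => f x + g x) = fun x => Ms m s f x +
    Ms m s g x := by
  funext x
  exact map_add m.E (fun k : ℤ => f (x + k * s)) (fun k : ℤ => g (x + k * s))

lemma Ms_smul (s c : ℝ) (f : ℝ → ℝ) : Ms m s (fun x => c * f x) = fun x => c * Ms m s f x := by
  funext x
  exact map_smul m.E c (fun k : ℤ => f (x + k * s))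

lemma Ms_shift (s h : ℝ) (f : ℝ → ℝ) : Ms m s (fun x => f (x + h)) =
    fun x => Ms m s f (x + h) := by
  funext x
  unfold Ms
  congr 1
  funext k
  ring_nf

lemma Ms_inv (s : ℝ) (f : ℝ → ℝ) (hf : Bd f) : Ms m s (fun x => f (x + s)) = Ms m s f := by
  funext x
  obtain ⟨B, hB⟩ := hf
  have h1 := m.shift (fun k : ℤ => f (x + k * s)) 1 ⟨B, fun k => hB _⟩
  unfold Ms
  rw [← h1]
  congr 1
  funext k
  push_cast
  ring_nf

lemma Ms_pos (s : ℝ) (f : ℝ → ℝ) (hf : Bd f) (h0 : ∀ x, 0 ≤ f x) (x : ℝ) : 0 ≤ Ms m s f x := by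
  obtain ⟨B, hB⟩ := hf
  exact m.pos _ (fun _ => h0 _) ⟨B, fun k => (le_abs_self _).trans (hB _)⟩

lemma Ms_one (s : ℝ) : Ms m s (fun _ => 1) = fun _ => 1 := by
  funext x
  exact m.one

/-- Iterated means. -/
noncomputable def EL : List ℝ → (ℝ → ℝ) → (ℝ → ℝ)
  | [], f => f
  | s :: L, f => Ms m s (EL L f)

lemma EL_abs (L : List ℝ) {f : ℝ → ℝ} {B : ℝ} (h : ∀ x, |f x| ≤ B) :
    ∀ x, |EL m L f x| ≤ B := by
  induction L with
  | nil => exact h
  | cons s L ih => exact fun x => Ms_abs m ih x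

lemma EL_bd (L : List ℝ) {f : ℝ → ℝ} (h : Bd f) : Bd (EL m L f) := by
  obtain ⟨B, hB⟩ := h
  exact ⟨B, EL_abs m L hB⟩

lemma EL_add (L : List ℝ) (f g : ℝ → ℝ) : EL m L (fun x => f x + g x) = fun x => EL m L f x +
    EL m L g x := by
  induction L with
  | nil => rfl
  | cons s L ih =>
    unfold EL
    rw [ih, Ms_add]

lemma EL_smul (L : List ℝ) (c : ℝ) (f : ℝ → ℝ) : EL m L (fun x => c * f x) =
    fun x => c * EL m L f x := by
  induction L with
  | nil => rfl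
  | cons s L ih =>
    unfold EL
    rw [ih, Ms_smul]

lemma EL_shift (L : List ℝ) (h : ℝ) (f : ℝ → ℝ) : EL m L (fun x => f (x + h)) =
    fun x => EL m L f (x + h) := by
  induction L with
  | nil => rfl
  | cons s L ih =>
    unfold EL
    rw [ih, Ms_shift]

lemma EL_inv (L : List ℝ) (h : ℝ) (hh : h ∈ L) (f : ℝ → ℝ) (hf : Bd f) :
    EL m L (fun x => f (x + h)) = EL m L f := by
  induction L with
  | nil => simp at hh
  | cons s L ih =>
    unfold EL
    rcases List.mem_cons.1 hh with rfl | hL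
    · rw [EL_shift]
      exact Ms_inv m h (EL m L f) (EL_bd m L hf)
    · rw [ih hL]

lemma EL_pos (L : List ℝ) (f : ℝ → ℝ) (hf : Bd f) (h0 : ∀ x, 0 ≤ f x) :
    ∀ x, 0 ≤ EL m L f x := by
  induction L with
  | nil => exact h0
  | cons s L ih => exact Ms_pos m s _ (EL_bd m L hf) ih

lemma EL_one (L : List ℝ) : EL m L (fun _ => 1) = fun _ => 1 := by
  induction L with
  | nil => rfl
  | cons s L ih =>
    unfold EL
    rw [ih, Ms_one]

/-- An ultrafilter on the finite sets of reals. -/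
noncomputable def U : Ultrafilter (Finset ℝ) := Ultrafilter.of atTop

lemma U_le : (U : Filter (Finset ℝ)) ≤ atTop := Ultrafilter.of_le _

/-- The real mean. -/
noncomputable def ER (f : ℝ → ℝ) : ℝ := limUnder (U : Filter (Finset ℝ)) fun F => EL m F.toList f 0

lemma ER_spec {f : ℝ → ℝ} (hf : Bd f) :
    Tendsto (fun F : Finset ℝ => EL m F.toList f 0) (U : Filter (Finset ℝ)) (𝓝 (ER m f)) := by
  obtain ⟨B, hB⟩ := hf
  have h1 : ∀ F : Finset ℝ, EL m F.toList f 0 ∈ Set.Icc (-B) B := fun F =>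
    abs_le.1 (EL_abs m _ hB 0)
  obtain ⟨x, -, hx⟩ := (isCompact_Icc (a := -B) (b := B)).ultrafilter_le_nhds
    (U.map (fun F : Finset ℝ => EL m F.toList f 0)) (by
      rw [Ultrafilter.coe_map, le_principal_iff, mem_map]
      exact Filter.univ_mem' h1)
  exact tendsto_nhds_limUnder ⟨x, hx⟩

lemma ER_eq {f : ℝ → ℝ} (hf : Bd f) {y : ℝ}
    (h : Tendsto (fun F : Finset ℝ => EL m F.toList f 0) (U : Filter (Finset ℝ)) (𝓝 y)) :
    ER m f = y := tendsto_nhds_unique (ER_spec m hf) h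

lemma Bd.add {f g : ℝ → ℝ} (hf : Bd f) (hg : Bd g) : Bd (fun x => f x + g x) := by
  obtain ⟨B, hB⟩ := hf
  obtain ⟨C, hC⟩ := hg
  exact ⟨B + C, fun x => (abs_add_le _ _).trans (add_le_add (hB x) (hC x))⟩

lemma Bd.smul {f : ℝ → ℝ} (c : ℝ) (hf : Bd f) : Bd (fun x => c * f x) := by
  obtain ⟨B, hB⟩ := hf
  exact ⟨|c| * B, fun x => by
    rw [abs_mul]
    exact mul_le_mul_of_nonneg_left (hB x) (abs_nonneg c)⟩

lemma ER_add {f g : ℝ → ℝ} (hf : Bd f) (hg : Bd g) :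
    ER m (fun x => f x + g x) = ER m f + ER m g := by
  refine ER_eq m (hf.add hg) ?_
  refine ((ER_spec m hf).add (ER_spec m hg)).congr fun F => ?_
  rw [EL_add]

lemma ER_smul {f : ℝ → ℝ} (c : ℝ) (hf : Bd f) : ER m (fun x => c * f x) = c * ER m f := by
  refine ER_eq m (hf.smul c) ?_
  refine ((ER_spec m hf).const_mul c).congr fun F => ?_
  rw [EL_smul]

lemma ER_one : ER m (fun _ => 1) = 1 := by
  refine ER_eq m ⟨1, fun x => by simp⟩ ?_
  refine tendsto_const_nhds.congr fun _ => ?_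
  rw [EL_one]

lemma ER_pos {f : ℝ → ℝ} (hf : Bd f) (h0 : ∀ x, 0 ≤ f x) : 0 ≤ ER m f :=
  ge_of_tendsto' (ER_spec m hf) fun F => EL_pos m _ f hf h0 0

lemma ER_shift {f : ℝ → ℝ} (hf : Bd f) (h : ℝ) : ER m (fun x => f (x + h)) = ER m f := by
  have hb : Bd (fun x => f (x + h)) := by
    obtain ⟨B, hB⟩ := hf
    exact ⟨B, fun x => hB _⟩
  refine ER_eq m hb ?_
  refine (ER_spec m hf).congr' ?_
  have h1 : ∀ᶠ F : Finset ℝ in atTop, {h} ≤ F := eventually_ge_atTop {h}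
  filter_upwards [U_le h1] with F hF
  have h2 : h ∈ F.toList := by
    rw [Finset.mem_toList]
    exact hF (Finset.mem_singleton_self h)
  rw [EL_inv m _ h h2 f hf]

lemma ER_le {f : ℝ → ℝ} (hf : Bd f) {B : ℝ} (h : ∀ x, f x ≤ B) : ER m f ≤ B := by
  have h1 : Bd (fun x : ℝ => B * (fun _ : ℝ => (1 : ℝ)) x) := ⟨|B|, fun x => by simp⟩
  have h2 := ER_pos m (h1.add (hf.smul (-1))) (fun x => by
    have := h x
    simp only
    linarith)
  rw [ER_add m h1 (hf.smul (-1)), ER_smul m _ hf] at h2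
  have h3 := ER_smul m (f := fun _ => 1) B ⟨1, fun x => by simp⟩
  rw [h3, ER_one] at h2
  linarith

/-- The complex mean. -/
noncomputable def EC (f : ℝ → ℂ) : ℂ :=
  (ER m (fun x => (f x).re) : ℂ) + (ER m (fun x => (f x).im) : ℂ) * Complex.I

lemma re_bd {f : ℝ → ℂ} (hf : ∃ B : ℝ, ∀ x, ‖f x‖ ≤ B) : Bd (fun x => (f x).re) := by
  obtain ⟨B, hB⟩ := hf
  exact ⟨B, fun x => (Complex.abs_re_le_norm _).trans (hB x)⟩

lemma im_bd {f : ℝ → ℂ} (hf : ∃ B : ℝ, ∀ x, ‖f x‖ ≤ B) : Bd (fun x => (f x).im) := by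
  obtain ⟨B, hB⟩ := hf
  exact ⟨B, fun x => (Complex.abs_im_le_norm _).trans (hB x)⟩

lemma EC_re (f : ℝ → ℂ) : (EC m f).re = ER m (fun x => (f x).re) := by
  simp [EC]

lemma EC_im (f : ℝ → ℂ) : (EC m f).im = ER m (fun x => (f x).im) := by
  simp [EC]

lemma EC_add {f g : ℝ → ℂ} (hf : ∃ B : ℝ, ∀ x, ‖f x‖ ≤ B) (hg : ∃ B : ℝ, ∀ x, ‖g x‖ ≤ B) :
    EC m (fun x => f x + g x) = EC m f + EC m g := by
  apply Complex.ext
  · rw [Complex.add_re, EC_re, EC_re, EC_re, ← ER_add m (re_bd hf) (re_bd hg)]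
    rfl
  · rw [Complex.add_im, EC_im, EC_im, EC_im, ← ER_add m (im_bd hf) (im_bd hg)]
    rfl

lemma EC_smul {f : ℝ → ℂ} (c : ℂ) (hf : ∃ B : ℝ, ∀ x, ‖f x‖ ≤ B) :
    EC m (fun x => c * f x) = c * EC m f := by
  have hr := re_bd hf
  have hi := im_bd hf
  apply Complex.ext
  · rw [Complex.mul_re, EC_re, EC_re, EC_im]
    have h1 := ER_add m (hr.smul c.re) (hi.smul (-c.im))
    rw [ER_smul m _ hr, ER_smul m _ hi] at h1
    have h2 : (fun x => (c * f x).re) = fun x => c.re * (f x).re + -c.im * (f x).im := by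
      funext x
      rw [Complex.mul_re]
      ring
    rw [h2, h1]
    ring
  · rw [Complex.mul_im, EC_im, EC_re, EC_im]
    have h1 := ER_add m (hi.smul c.re) (hr.smul c.im)
    rw [ER_smul m _ hr, ER_smul m _ hi] at h1
    have h2 : (fun x => (c * f x).im) = fun x => c.re * (f x).im + c.im * (f x).re := by
      funext x
      rw [Complex.mul_im]
    rw [h2, h1]

lemma EC_bd (f : ℝ → ℂ) (B : ℝ) (hB : ∀ x, ‖f x‖ ≤ B) : ‖EC m f‖ ≤ B := by
  have hf : ∃ B : ℝ, ∀ x, ‖f x‖ ≤ B := ⟨B, hB⟩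
  have hB0 : 0 ≤ B := (norm_nonneg _).trans (hB 0)
  by_cases h0 : EC m f = 0
  · rw [h0, norm_zero]
    exact hB0
  · have hn : (0 : ℝ) < ‖EC m f‖ := norm_pos_iff.2 h0
    set c : ℂ := (starRingEnd ℂ) (EC m f) / (‖EC m f‖ : ℂ) with hc
    have hcn : ‖c‖ = 1 := by
      rw [hc, norm_div, RCLike.norm_conj, Complex.norm_real, norm_norm]
      exact div_self hn.ne'
    have h1 : c * EC m f = (‖EC m f‖ : ℂ) := by
      rw [hc, div_mul_eq_mul_div, Complex.conj_mul', sq]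
      have : (‖EC m f‖ : ℂ) ≠ 0 := by exact_mod_cast hn.ne'
      field_simp
    have h2 : ‖EC m f‖ = ER m (fun x => (c * f x).re) := by
      rw [← EC_re, EC_smul m c hf, h1, Complex.ofReal_re]
    have h3 : ∀ x, ‖c * f x‖ ≤ B := fun x => by
      rw [norm_mul, hcn, one_mul]
      exact hB x
    rw [h2]
    exact ER_le m (re_bd ⟨B, h3⟩) fun x => (Complex.re_le_norm _).trans (h3 x)

end MeanAux

open MeanAux in
/-- MEAN. -/
theorem p_MEAN : T_MEAN := by
  obtain ⟨m⟩ := Pool.Agent.PTL.p_MEAN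
  refine ⟨⟨EC m, fun f g hf hg => EC_add m hf hg, fun c f hf => EC_smul m c hf,
    fun f B hB => EC_bd m f B hB, ?_, ?_, ?_⟩⟩
  · apply Complex.ext
    · rw [EC_re]
      simpa using ER_one m
    · rw [EC_im]
      have h1 := ER_smul m (f := fun _ => 1) 0 ⟨1, fun x => by simp⟩
      simpa using h1
  · intro f h hf
    apply Complex.ext
    · rw [EC_re, EC_re]
      exact ER_shift m (re_bd hf) h
    · rw [EC_im, EC_im]
      exact ER_shift m (im_bd hf) h
  · rintro f h0 ⟨B, hB⟩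
    rw [EC_re]
    have : Bd f := ⟨B, fun x => by rw [abs_of_nonneg (h0 x)]; exact hB x⟩
    simpa using ER_pos m this h0

end Pool.Agent.PTG
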