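import Pool.Agent.PTG.Targets

/-!
# PTG: SLC, the sliding lemma for class functions

Ideas row 2773 (MP_eac546_co).
-/

set_option autoImplicit false

namespace Pool.Agent.PTG

open Pool.Agent.PTR Filter Topology
open Pool.Agent.PTR.OL (V)

namespace SLC

lemma rdet_smul_right (e v : V) (l : ℝ) : rdet e (l • v) = l * rdet e v := by
  simp only [rdet, Prod.smul_fst, Prod.smul_snd, smul_eq_mul]; ring

/-- A vector on which both forms vanish is zero. -/
lemma eq_of_rdet {e e' u v : V} (h : rdet e e' ≠ 0) (h1 : rdet e u = rdet e v)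
    (h2 : rdet e' u = rdet e' v) : u = v := by
  obtain ⟨a, b⟩ := e
  obtain ⟨a', b'⟩ := e'
  obtain ⟨u1, u2⟩ := u
  obtain ⟨v1, v2⟩ := v
  simp only [rdet] at h h1 h2
  have e1 : (a * b' - b * a') * (u1 - v1) = 0 := by linear_combination a' * h1 - a * h2
  have e2 : (a * b' - b * a') * (u2 - v2) = 0 := by linear_combination b' * h1 - b * h2
  have f1 := (mul_eq_zero.1 e1).resolve_left h
  have f2 := (mul_eq_zero.1 e2).resolve_left h
  exact Prod.ext (sub_eq_zero.1 f1) (sub_eq_zero.1 f2)

/-- Two points of the same height differ by a multiple of `e`. -/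
lemma line_of_rdet {e x y : V} (he : e ≠ 0) (h : rdet e x = rdet e y) :
    ∃ s : ℝ, y = x + s • e := by
  obtain ⟨a, b⟩ := e
  obtain ⟨x1, x2⟩ := x
  obtain ⟨y1, y2⟩ := y
  simp only [rdet] at h
  by_cases ha : a = 0
  · have hb : b ≠ 0 := fun hb => he (by rw [ha, hb]; rfl)
    refine ⟨(y2 - x2) / b, Prod.ext ?_ ?_⟩
    · simp only [Prod.fst_add, Prod.smul_fst, smul_eq_mul]
      subst ha
      have : b * (y1 - x1) = 0 := by linear_combination h
      have := (mul_eq_zero.1 this).resolve_left hb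
      linarith
    · simp only [Prod.snd_add, Prod.smul_snd, smul_eq_mul]
      field_simp
      ring
  · refine ⟨(y1 - x1) / a, Prod.ext ?_ ?_⟩
    · simp only [Prod.fst_add, Prod.smul_fst, smul_eq_mul]
      field_simp
      ring
    · simp only [Prod.snd_add, Prod.smul_snd, smul_eq_mul]
      field_simp
      linear_combination -h

/-- There are points on both sides near every point. -/
lemma both_sides {e : V} (he : e ≠ 0) (p : V) {r : ℝ} (hr : 0 < r) :
    (∃ x, ‖x - p‖ < r ∧ rdet e x < rdet e p) ∧ ∃ x, ‖x - p‖ < r ∧ rdet e p < rdet e x := by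
  obtain ⟨a, b⟩ := e
  have hq : 0 < a * a + b * b := by
    by_contra hc
    have h1 : a * a + b * b ≤ 0 := not_lt.1 hc
    have ha : a = 0 := by nlinarith [mul_self_nonneg a, mul_self_nonneg b]
    have hb : b = 0 := by nlinarith [mul_self_nonneg a, mul_self_nonneg b]
    exact he (by rw [ha, hb]; rfl)
  set m : V := (-b, a) with hm
  have key : ∃ t > (0 : ℝ), ‖t • m‖ < r := by
    have hN : 0 < ‖m‖ + 1 := by positivity
    refine ⟨r / (‖m‖ + 1), by positivity, ?_⟩
    rw [norm_smul, Real.norm_eq_abs, abs_of_pos (by positivity)]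
    rw [div_mul_eq_mul_div, div_lt_iff₀ hN]
    nlinarith [norm_nonneg m]
  obtain ⟨t, ht, htr⟩ := key
  constructor
  · refine ⟨p - t • m, ?_, ?_⟩
    · rw [show p - t • m - p = -(t • m) by abel, norm_neg]; exact htr
    · obtain ⟨p1, p2⟩ := p
      simp only [rdet, hm, Prod.smul_mk, Prod.mk_sub_mk, smul_eq_mul]
      nlinarith
  · refine ⟨p + t • m, ?_, ?_⟩
    · rw [show p + t • m - p = t • m by abel]; exact htr
    · obtain ⟨p1, p2⟩ := p
      simp only [rdet, hm, Prod.smul_mk, Prod.mk_add_mk, smul_eq_mul]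
      nlinarith

/-- In every neighbourhood of `x` there is a point outside `Es cl` with the class of `x`. -/
lemma near {ι : Type} {U : Ultrafilter ℕ} {cl : V → ι} {a : ι → ℕ → V} (h : Cls U cl a)
    (x : V) (r : ℝ) (hr : 0 < r) : ∃ y, ‖y - x‖ < r ∧ y ∉ Es cl ∧ cl y = cl x := by
  obtain ⟨y, s, hs, hy⟩ := h.dns x r hr
  have h0 := hy y (by simpa using hs)
  refine ⟨y, h0.1, es_not.2 ?_, h0.2⟩
  filter_upwards [Metric.ball_mem_nhds y hs] with z hz
  rw [(hy z (by simpa [dist_eq_norm] using hz)).2, h0.2]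

end SLC

open SLC

theorem p_SLC_of (hFULL : T_FULL) (hDIRS : T_DIRS) (hGERM : T_GERM) (hTWO : T_TWO)
    (hCRS : T_CRS) (hDIFF : T_DIFF) : T_SLC := by
  intro ι U cl a h
  by_cases hE : (Es cl).Nonempty
  swap
  · left
    have h0 : IsLocallyConstant cl := by
      rw [IsLocallyConstant.iff_eventually_eq]
      intro x
      exact es_not.1 fun hx => hE ⟨x, hx⟩
    intro x y
    exact h0.apply_eq_of_isPreconnected isPreconnected_univ (Set.mem_univ x) (Set.mem_univ y)
  right
  obtain ⟨e, he, hl⟩ := hCRS ι (Es cl) cl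
    (fun e i j => (∃ x, cl x = i) ∧ (∃ y, cl y = j) ∧
      ∀ᶠ n in (U : Filter ℕ), rdet e (a i n) = rdet e (a j n))
    (es_closed cl)
    (by
      rw [interior_eq_empty_iff_dense_compl]
      intro x
      rw [Metric.mem_closure_iff]
      intro r hr
      obtain ⟨y, h1, h2, -⟩ := near h x r hr
      exact ⟨y, h2, by rw [dist_comm, dist_eq_norm]; exact h1⟩)
    (fun x hx => es_not.1 hx)
    (by
      intro p i hp
      obtain ⟨r, hr, hb⟩ := Metric.eventually_nhds_iff.1 hp
      have key : ∀ x, dist x p < r → cl x = i := by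
        intro x hx
        obtain ⟨y, h1, h2, h3⟩ := near h x (r - dist x p) (by linarith)
        rw [← h3]
        refine hb ?_ h2
        calc dist y p ≤ dist y x + dist x p := dist_triangle _ _ _
          _ < r := by rw [dist_eq_norm y x]; linarith
      refine es_not.2 ?_
      filter_upwards [Metric.ball_mem_nhds p hr] with x hx
      rw [key x hx, key p (by simpa using hr)])
    (hFULL ι U cl a h)
    (hDIRS ι U cl a h)
    (hGERM ι U cl a h)
    (by
      intro e p r i j he hr hi hj
      obtain ⟨⟨x, hx1, hx2⟩, y, hy1, hy2⟩ := both_sides he p hr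
      exact ⟨⟨x, hi x hx1 hx2⟩, ⟨y, hj y hy1 hy2⟩, hTWO ι U cl a h e p r i j he hr hi hj⟩)
    (by
      rintro e e' i j hee ⟨⟨x, rfl⟩, ⟨y, rfl⟩, h1⟩ ⟨-, -, h2⟩
      by_contra hne
      obtain ⟨n, ⟨h3, h4⟩, h5⟩ := ((h1.and h2).and (h.sep x y hne)).exists
      exact h5 (eq_of_rdet hee h3 h4))
    hE
  refine ⟨e, he, hDIFF ι U cl a h e he hl, ?_, ?_⟩
  · intro x y hx _ hxy
    obtain ⟨s, rfl⟩ := line_of_rdet he hxy
    have hout : ∀ t : ℝ, x + t • e ∉ Es cl := by
      intro t ht
      apply hx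
      have := hl _ ht (-t)
      rwa [show x + t • e + -t • e = x by rw [neg_smul]; abel] at this
    have h0 : IsLocallyConstant fun t : ℝ => cl (x + t • e) := by
      rw [IsLocallyConstant.iff_eventually_eq]
      intro t
      have hc : Continuous fun t : ℝ => x + t • e := by fun_prop
      exact hc.continuousAt.eventually (es_not.1 (hout t))
    have := h0.apply_eq_of_isPreconnected isPreconnected_univ (Set.mem_univ (0 : ℝ))
      (Set.mem_univ s)
    simpa using this
  · obtain ⟨p, hp⟩ := hE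
    exact ⟨p, fun s => hl p hp s⟩

end Pool.Agent.PTG
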