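import Pool.Agent.PTG.Targets

/-!
# PTG: SLIDE, the sliding lemma for ultralimits of tilings

Ideas row 2773 (MP_eac546_co).
-/

set_option autoImplicit false

namespace Pool.Agent.PTG

open Pool.Agent.PTR Filter Topology
open Pool.Agent.PTR.OL (V ii dif difs FLC InHull)
open Pool.Agent.PTP (Til TDP Iv wd SF Abv Stp Stk Ds Sm)
open Pool.Agent.PTA (Dir)

/-- SLIDE. -/
theorem p_SLIDE_of (hHO : T_HO) (hTCL : T_TCL) (hSLC : T_SLC) (hSEP : T_SEP) (hULT : T_ULT) :
    T_SLIDE := by
  intro C hC U Tn hTn δ hδ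
  have he0 : ((1, 0) : V) ≠ 0 := by
    intro h
    exact one_ne_zero (congrArg Prod.fst h)
  obtain ⟨W, C', hH⟩ := hHO C hC (1, 0) he0
  have hHo : Ho C W C' := hH.toHo
  obtain ⟨cl, a, hCls, hcl⟩ := hTCL C W C' hC hHo U Tn hTn δ hδ
  have hTil : Til C (Lim U Tn) := (hULT C hC U Tn hTn).1
  -- interior points of the tiles
  have hin : ∀ t ∈ Lim U Tn, ∀ x ∈ interior C,
      cl (t + x) = (δ t : Germ (U : Filter ℕ) V) ∧
        ∀ᶠ n in (U : Filter ℕ), a (cl (t + x)) n = δ t n := by
    intro t ht x hx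
    refine hcl t ht (t + x) ?_
    rw [add_sub_cancel_left]
    exact hHo.int x hx
  have hnE : ∀ t ∈ Lim U Tn, ∀ x, x - t ∈ interior C → x ∉ Es cl := by
    intro t ht x hx
    rw [es_not]
    have h1 : Tendsto (fun y : V => y - t) (𝓝 x) (𝓝 (x - t)) :=
      tendsto_id.sub tendsto_const_nhds
    have h2 := h1.eventually (isOpen_interior.mem_nhds hx)
    filter_upwards [h2] with y hy
    rw [(hcl t ht y (hHo.int _ hy)).1, (hcl t ht x (hHo.int _ hx)).1]
  obtain ⟨x₀, hx₀⟩ := hC.ne
  rcases hSLC _ U cl a hCls with h | ⟨e, he, h1, h2, p, h3⟩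
  · left
    intro t ht t' ht'
    have h1 := h (t + x₀) (t' + x₀)
    rw [(hin t ht x₀ hx₀).1, (hin t' ht' x₀ hx₀).1] at h1
    exact Germ.coe_eq.1 h1
  · right
    refine ⟨e, ⟨he, ?_⟩, ?_, ?_⟩
    · -- the line of discontinuities contains a segment of the boundary of a tile
      obtain ⟨ρ, hρ, hsep⟩ := hSEP C hC
      have hfin := (hsep (Lim U Tn) hTil.2).2
      have hcount : (Lim U Tn).Countable := by
        have h4 : Lim U Tn ⊆ ⋃ n : ℕ, {t | t ∈ Lim U Tn ∧ ‖t‖ ≤ n} := by
          intro t ht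
          obtain ⟨n, hn⟩ := exists_nat_ge ‖t‖
          exact Set.mem_iUnion.2 ⟨n, ht, hn⟩
        exact (Set.countable_iUnion fun n : ℕ => (hfin (n : ℝ)).countable).mono h4
      have : Countable (Lim U Tn) := hcount.to_subtype
      have hclo : ∀ t : Lim U Tn, IsClosed {s : ℝ | p + s • e - (t : V) ∈ frontier C} := by
        intro t
        have hc : Continuous (fun s : ℝ => p + s • e - (t : V)) := by fun_prop
        exact isClosed_frontier.preimage hc
      have hcov : ⋃ t : Lim U Tn, {s : ℝ | p + s • e - (t : V) ∈ frontier C} = Set.univ := by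
        rw [Set.eq_univ_iff_forall]
        intro s
        obtain ⟨t, ht, hs⟩ := hTil.1 (p + s • e)
        refine Set.mem_iUnion.2 ⟨⟨t, ht⟩, ?_⟩
        show p + s • e - t ∈ frontier C
        rw [hC.cpt.isClosed.frontier_eq]
        exact ⟨hs, fun h4 => hnE t ht _ h4 (h3 s)⟩
      obtain ⟨⟨t, ht⟩, s₁, hs₁⟩ := nonempty_interior_of_iUnion_of_closed hclo hcov
      obtain ⟨r, hr, hball⟩ := Metric.isOpen_iff.1 isOpen_interior s₁ hs₁
      refine ⟨p + s₁ • e - t, r, hr, fun s hs hsr => ?_⟩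
      have h4 : s₁ + s ∈ Metric.ball s₁ r := by
        rw [Metric.mem_ball, dist_eq_norm, add_sub_cancel_left, Real.norm_eq_abs, abs_of_pos hs]
        exact hsr
      have h5 := interior_subset (hball h4)
      have h6 : p + (s₁ + s) • e - t ∈ frontier C := h5
      have h7 : p + s₁ • e - t + s • e = p + (s₁ + s) • e - t := by
        rw [add_smul]
        abel
      rw [h7]
      exact h6
    · intro t ht t' ht'
      filter_upwards [h1 (t + x₀) (t' + x₀), (hin t ht x₀ hx₀).2, (hin t' ht' x₀ hx₀).2]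
        with n k1 k2 k3
      rw [← k2, ← k3]
      exact k1
    · intro t ht t' ht' x hx y hy hxy
      have k1 : t + x ∉ Es cl := hnE t ht _ (by rwa [add_sub_cancel_left])
      have k2 : t' + y ∉ Es cl := hnE t' ht' _ (by rwa [add_sub_cancel_left])
      have k3 := h2 _ _ k1 k2 hxy
      rw [(hin t ht x hx).1, (hin t' ht' y hy).1] at k3
      exact Germ.coe_eq.1 k3

end Pool.Agent.PTG
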