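import Pool.Agent.PTG.Targets

/-!
# PTG: the spectrum of the rows of a half plane (SPEC)
-/

set_option autoImplicit false

namespace Pool.Agent.PTG

open Pool.Agent.PTR Filter Topology
open Pool.Agent.PTR.OL (V ii dif difs FLC InHull)
open Pool.Agent.PTP (Til TDP Iv wd SF Abv Stp Stk Ds Sm)
open Pool.Agent.PTA (Dir)

namespace SpecP

lemma E_zero (m : MR) : m.E (fun _ => 0) = 0 := by
  have h := m.smul 0 (fun _ => 0) ⟨0, fun x => by simp⟩
  simpa using h

lemma bd_sum {ι : Type*} (s : Finset ι) (f : ι → ℝ → ℂ)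
    (hb : ∀ i ∈ s, ∃ B : ℝ, ∀ x, ‖f i x‖ ≤ B) : ∃ B : ℝ, ∀ x, ‖∑ i ∈ s, f i x‖ ≤ B := by
  classical
  induction s using Finset.induction_on with
  | empty => exact ⟨0, fun x => by simp⟩
  | insert a s ha ih =>
    obtain ⟨B, hB⟩ := ih fun i hi => hb i (Finset.mem_insert_of_mem hi)
    obtain ⟨B', hB'⟩ := hb a (Finset.mem_insert_self _ _)
    refine ⟨B' + B, fun x => ?_⟩
    rw [Finset.sum_insert ha]
    exact (norm_add_le _ _).trans (add_le_add (hB' x) (hB x))

lemma E_sum (m : MR) {ι : Type*} (s : Finset ι) (f : ι → ℝ → ℂ)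
    (hb : ∀ i ∈ s, ∃ B : ℝ, ∀ x, ‖f i x‖ ≤ B) :
    m.E (fun x => ∑ i ∈ s, f i x) = ∑ i ∈ s, m.E (f i) := by
  classical
  induction s using Finset.induction_on with
  | empty => simpa using E_zero m
  | insert a s ha ih =>
    have h1 := ih fun i hi => hb i (Finset.mem_insert_of_mem hi)
    have h2 := bd_sum s f fun i hi => hb i (Finset.mem_insert_of_mem hi)
    have h3 := hb a (Finset.mem_insert_self _ _)
    have h4 := m.add (f a) (fun x => ∑ i ∈ s, f i x) h3 h2
    rw [Finset.sum_insert ha, ← h1, ← h4]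
    congr 1
    funext x
    rw [Finset.sum_insert ha]

lemma norm_ex (ξ x : ℝ) : ‖Complex.exp (-((ξ : ℂ) * x) * Complex.I)‖ = 1 := by
  have : (-((ξ : ℂ) * x) * Complex.I) = ((-(ξ * x) : ℝ) : ℂ) * Complex.I := by push_cast; ring
  rw [this, Complex.norm_exp_ofReal_mul_I]

lemma E_exp (m : MR) (ξ : ℝ) (hξ : ξ ≠ 0) :
    m.E (fun x : ℝ => Complex.exp (-((ξ : ℂ) * x) * Complex.I)) = 0 := by
  have hb : ∃ B : ℝ, ∀ x : ℝ, ‖Complex.exp (-((ξ : ℂ) * x) * Complex.I)‖ ≤ B :=
    ⟨1, fun x => (norm_ex ξ x).le⟩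
  have h1 := m.shift _ (Real.pi / ξ) hb
  have h2 := m.smul (-1) _ hb
  have h3 : (fun x : ℝ => Complex.exp (-((ξ : ℂ) * ((x + Real.pi / ξ : ℝ) : ℂ)) * Complex.I)) =
      fun x : ℝ => (-1) * Complex.exp (-((ξ : ℂ) * x) * Complex.I) := by
    funext x
    have h4 : (-((ξ : ℂ) * ((x + Real.pi / ξ : ℝ) : ℂ)) * Complex.I) =
        (-((ξ : ℂ) * x) * Complex.I) + -(Real.pi * Complex.I) := by
      have h5 : (ξ : ℂ) ≠ 0 := by exact_mod_cast hξ
      push_cast
      field_simp
      ring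
    rw [h4, Complex.exp_add, Complex.exp_neg, Complex.exp_pi_mul_I]
    ring
  rw [h3, h2] at h1
  have h6 : (2 : ℂ) * m.E (fun x : ℝ => Complex.exp (-((ξ : ℂ) * x) * Complex.I)) = 0 := by
    linear_combination -h1
  simpa using h6

lemma trf_empty (m : MR) (q : ℝ) (z : ℂ) : trf m q ∅ z = 0 := by
  unfold trf prd
  have : (fun x : ℝ => ∑ᶠ k : ℤ, Set.indicator (∅ : Set ℝ) (fun _ => (1 : ℂ)) (x + k * q) *
      Complex.exp (-(z * ((x + k * q : ℝ) : ℂ)) * Complex.I)) = fun _ => 0 := by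
    funext x
    simp
  rw [this, E_zero]

lemma gap_ex (H : Finset ℝ) (y : ℝ) : ∃ g > (0 : ℝ), ∀ y' ∈ H, y < y' → y + g ≤ y' := by
  classical
  by_cases hne : (H.filter fun y' => y < y').Nonempty
  · refine ⟨(H.filter fun y' => y < y').min' hne - y, ?_, fun y' hy' h => ?_⟩
    · have := Finset.min'_mem _ hne
      have h2 := (Finset.mem_filter.1 this).2
      linarith
    · have := Finset.min'_le (H.filter fun y' => y < y') y' (Finset.mem_filter.2 ⟨hy', h⟩)
      linarith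
  · refine ⟨1, one_pos, fun y' hy' h => ?_⟩
    exact absurd ⟨y', Finset.mem_filter.2 ⟨hy', h⟩⟩ hne

lemma zeros_fin (f : ℂ → ℂ) (hf : Differentiable ℂ f) (h0 : f 0 ≠ 0) (M : ℝ) :
    ({ξ : ℝ | f ξ = 0} ∩ Set.Icc (-M) M).Finite := by
  by_contra hinf
  have hinf : ({ξ : ℝ | f ξ = 0} ∩ Set.Icc (-M) M).Infinite := hinf
  obtain ⟨x, -, hx⟩ := hinf.exists_accPt_of_subset_isCompact isCompact_Icc
    (Set.inter_subset_right)
  rw [accPt_iff_frequently] at hx
  have h1 : ∃ᶠ z in 𝓝[≠] (x : ℂ), f z = 0 := by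
    rw [frequently_nhdsWithin_iff]
    have h2 : Tendsto (fun y : ℝ => (y : ℂ)) (𝓝 x) (𝓝 (x : ℂ)) :=
      Complex.continuous_ofReal.tendsto x
    refine h2.frequently (hx.mono fun y hy => ⟨hy.2.1, ?_⟩)
    simpa using hy.1
  have h3 : AnalyticOnNhd ℂ f Set.univ := fun z _ => hf.analyticAt z
  have h4 := h3.eqOn_zero_of_preconnected_of_frequently_eq_zero isPreconnected_univ
    (Set.mem_univ (x : ℂ)) h1
  exact h0 (h4 (Set.mem_univ 0))

lemma rdet_sn (e n : V) (hn : rdet e n = 1) (x y : ℝ) : rdet e (x • e + y • n) = y := by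
  simp only [rdet, Prod.fst_add, Prod.snd_add, Prod.smul_fst, Prod.smul_snd, smul_eq_mul] at hn ⊢
  linear_combination y * hn

lemma coord (e n : V) (hn : rdet e n = 1) (z : V) : (rdet z n) • e + (rdet e z) • n = z := by
  have h : e.1 * n.2 - e.2 * n.1 = 1 := hn
  ext
  · simp only [rdet, Prod.fst_add, Prod.smul_fst, smul_eq_mul]
    linear_combination z.1 * h
  · simp only [rdet, Prod.snd_add, Prod.smul_snd, smul_eq_mul]
    linear_combination z.2 * h

lemma rdet_nn (e n : V) (hn : rdet e n = 1) (x y : ℝ) : rdet (x • e + y • n) n = x := by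
  simp only [rdet, Prod.fst_add, Prod.snd_add, Prod.smul_fst, Prod.smul_snd, smul_eq_mul] at hn ⊢
  linear_combination x * hn

lemma row_int (q : ℝ) (S : Set ℝ) (hS : PerR q S) (k : ℤ) : ∀ s, s + k * q ∈ S ↔ s ∈ S := by
  have h1 : ∀ (k : ℕ) (s : ℝ), s + k * q ∈ S ↔ s ∈ S := by
    intro k
    induction k with
    | zero => intro s; simp
    | succ k ih =>
      intro s
      have : s + ((k + 1 : ℕ) : ℝ) * q = (s + k * q) + q := by push_cast; ring
      rw [this, hS, ih]
  intro s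
  obtain ⟨j, rfl | rfl⟩ := k.eq_nat_or_neg
  · simpa using h1 j s
  · have h2 := h1 j (s + ((-(j : ℤ) : ℤ) : ℝ) * q)
    have h3 : s + ((-(j : ℤ) : ℤ) : ℝ) * q + (j : ℝ) * q = s := by push_cast; ring
    rw [h3] at h2
    exact h2.symm

end SpecP

open SpecP in
/-- The cover equation, transformed. -/
lemma SpecP.main_eq (μ : MR) (e n : V) (hn : rdet e n = 1) (C' T' : Set V) (q : ℝ) (hq : 0 < q)
    (k : ℤ) (hk : k ≠ 0) (h : ℝ) (H : Finset ℝ)
    (hper : ∀ y' ∈ H, PerR q (row e n T' y'))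
    (hne : ∀ y' ∈ H, (row e n T' y').Nonempty)
    (hfin : ∀ y' ∈ H, (row e n T' y' ∩ Set.Ico 0 q).Finite)
    (hcov : ∀ x : ℝ, ∃ t ∈ T', x • e + h • n - t ∈ C' ∧ rdet e t ∈ H)
    (huni : ∀ z : V, ∀ t ∈ T', ∀ t' ∈ T', z - t ∈ C' → z - t' ∈ C' → t = t') :
    ∑ y' ∈ H, fc q (row e n T' y') k *
      trf μ q {x : ℝ | x • e + (h - y') • n ∈ C'} ((2 * Real.pi * k / q : ℝ) : ℂ) = 0 := by
  classical
  set ξ : ℝ := 2 * Real.pi * k / q with hξ
  have hξ0 : ξ ≠ 0 := by
    rw [hξ]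
    have : (k : ℝ) ≠ 0 := by exact_mod_cast hk
    have := Real.pi_ne_zero
    positivity
  set f : ℝ → ℝ → ℂ := fun a x =>
    Set.indicator {x : ℝ | x • e + a • n ∈ C'} (fun _ => (1 : ℂ)) x *
      Complex.exp (-((ξ : ℂ) * x) * Complex.I) with hf
  have hfn : ∀ a x, ‖f a x‖ ≤ 1 := by
    intro a x
    rw [hf]
    simp only [norm_mul, norm_ex, mul_one]
    by_cases hx : x ∈ {x : ℝ | x • e + a • n ∈ C'}
    · rw [Set.indicator_of_mem hx]; simp
    · rw [Set.indicator_of_notMem hx]; simp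
  -- uniqueness of the index
  have huk : ∀ y' ∈ H, ∀ x : ℝ, ∀ j j' : ℤ, f (h - y') (x + j * q) ≠ 0 →
      f (h - y') (x + j' * q) ≠ 0 → j = j' := by
    intro y' hy' x j j' h1 h2
    obtain ⟨s, hs⟩ := hne y' hy'
    have hm : ∀ j : ℤ, f (h - y') (x + j * q) ≠ 0 →
        (x + j * q) • e + (h - y') • n ∈ C' := by
      intro j hj
      by_contra hc
      apply hj
      rw [hf]
      simp only
      rw [Set.indicator_of_notMem (by simpa using hc)]
      simp
    have ht : ∀ j : ℤ, (s - j * q) • e + y' • n ∈ T' := by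
      intro j
      have := (row_int q _ (hper y' hy') (-j) s).2 hs
      have h3 : s + ((-j : ℤ) : ℝ) * q = s - j * q := by push_cast; ring
      rw [h3] at this
      exact this
    have hz : ∀ j : ℤ, (x + s) • e + h • n - ((s - j * q) • e + y' • n) =
        (x + j * q) • e + (h - y') • n := by
      intro j
      module
    have h5 := huni ((x + s) • e + h • n) _ (ht j) _ (ht j')
      (by rw [hz j]; exact hm j h1) (by rw [hz j']; exact hm j' h2)
    have h6 : s - j * q = s - j' * q := by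
      have := congrArg (fun v => rdet v n) h5
      simpa only [rdet_nn e n hn] using this
    have h7 : (j : ℝ) * q = j' * q := by linarith
    have h8 : (j : ℝ) = j' := mul_right_cancel₀ hq.ne' h7
    exact_mod_cast h8
  have hprd : ∀ y' ∈ H, ∀ x : ℝ, ‖prd q (f (h - y')) x‖ ≤ 1 := by
    intro y' hy' x
    unfold prd
    by_cases hex : ∃ j : ℤ, f (h - y') (x + j * q) ≠ 0
    · obtain ⟨j, hj⟩ := hex
      rw [finsum_eq_single (fun k : ℤ => f (h - y') (x + k * q)) j]
      · exact hfn _ _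
      · intro j' hj'
        by_contra hc
        exact hj' (huk y' hy' x j' j hc hj)
    · push Not at hex
      rw [finsum_eq_zero_of_forall_eq_zero hex]
      simp
  -- pointwise identity
  set G : ℝ → ℝ → ℂ := fun y' x => ∑ᶠ s ∈ row e n T' y' ∩ Set.Ico 0 q,
    Complex.exp (-((ξ : ℂ) * s) * Complex.I) * prd q (f (h - y')) (x + (-s)) with hG
  have hGs : ∀ y' (hy' : y' ∈ H), G y' = fun x => ∑ s ∈ (hfin y' hy').toFinset,
      Complex.exp (-((ξ : ℂ) * s) * Complex.I) * prd q (f (h - y')) (x + (-s)) := by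
    intro y' hy'
    funext x
    rw [hG]
    simp only
    rw [finsum_mem_eq_finite_toFinset_sum _ (hfin y' hy')]
  have hexk : ∀ j : ℤ, Complex.exp (-((ξ : ℂ) * ((j * q : ℝ) : ℂ)) * Complex.I) = 1 := by
    intro j
    have h1 : (-((ξ : ℂ) * ((j * q : ℝ) : ℂ)) * Complex.I) =
        ((-(k * j) : ℤ) : ℂ) * (2 * Real.pi * Complex.I) := by
      have h5 : (q : ℂ) ≠ 0 := by exact_mod_cast hq.ne'
      rw [hξ]
      push_cast
      field_simp
    rw [h1, Complex.exp_int_mul_two_pi_mul_I]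
  have hpt : ∀ x : ℝ, ∑ y' ∈ H, G y' x = Complex.exp (-((ξ : ℂ) * x) * Complex.I) := by
    intro x
    obtain ⟨t, htT, htC, htH⟩ := hcov x
    set y₁ := rdet e t with hy₁
    set s₁ := rdet t n with hs₁
    have htc : s₁ • e + y₁ • n = t := coord e n hn t
    have hs₁r : s₁ ∈ row e n T' y₁ := by
      show s₁ • e + y₁ • n ∈ T'
      rw [htc]; exact htT
    set j₁ : ℤ := toIcoDiv hq 0 s₁ with hj₁
    set s₂ := toIcoMod hq 0 s₁ with hs₂
    have hs₂e : s₂ = s₁ - j₁ * q := by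
      rw [hs₂, toIcoMod, hj₁]; simp
    have hs₂m : s₂ ∈ Set.Ico 0 q := by
      have := toIcoMod_mem_Ico hq 0 s₁
      simpa using this
    have hs₂r : s₂ ∈ row e n T' y₁ := by
      have := (row_int q _ (hper y₁ htH) (-j₁) s₁).2 hs₁r
      have h3 : s₁ + ((-j₁ : ℤ) : ℝ) * q = s₂ := by rw [hs₂e]; push_cast; ring
      rw [h3] at this
      exact this
    -- a nonzero term determines everything
    have hkey : ∀ y' ∈ H, ∀ s ∈ row e n T' y', ∀ j : ℤ, f (h - y') (x + (-s) + j * q) ≠ 0 →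
        y' = y₁ ∧ s - j * q = s₁ := by
      intro y' hy' s hs j hj
      have h1 : (x + (-s) + j * q) • e + (h - y') • n ∈ C' := by
        by_contra hc
        apply hj
        rw [hf]
        simp only
        rw [Set.indicator_of_notMem (by simpa using hc)]
        simp
      have h2 : (s - j * q) • e + y' • n ∈ T' := by
        have := (row_int q _ (hper y' hy') (-j) s).2 hs
        have h3 : s + ((-j : ℤ) : ℝ) * q = s - j * q := by push_cast; ring
        rw [h3] at this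
        exact this
      have h4 : x • e + h • n - ((s - j * q) • e + y' • n) =
          (x + (-s) + j * q) • e + (h - y') • n := by module
      have h5 := huni (x • e + h • n) _ h2 _ htT (by rw [h4]; exact h1) htC
      constructor
      · have := congrArg (fun v => rdet e v) h5
        simpa only [rdet_sn e n hn] using this
      · have := congrArg (fun v => rdet v n) h5
        simpa only [rdet_nn e n hn] using this
    have hval : f (h - y₁) (x + (-s₂) + ((-j₁ : ℤ) : ℝ) * q) =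
        Complex.exp (-((ξ : ℂ) * ((x - s₁ : ℝ) : ℂ)) * Complex.I) := by
      have h1 : x + (-s₂) + ((-j₁ : ℤ) : ℝ) * q = x - s₁ := by
        rw [hs₂e]; push_cast; ring
      rw [h1, hf]
      simp only
      rw [Set.indicator_of_mem, one_mul]
      show (x - s₁) • e + (h - y₁) • n ∈ C'
      have h2 : (x - s₁) • e + (h - y₁) • n = x • e + h • n - t := by
        rw [← htc]; module
      rw [h2]; exact htC
    have hsum : prd q (f (h - y₁)) (x + (-s₂)) =
        Complex.exp (-((ξ : ℂ) * ((x - s₁ : ℝ) : ℂ)) * Complex.I) := by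
      unfold prd
      rw [finsum_eq_single (fun j : ℤ => f (h - y₁) (x + (-s₂) + j * q)) (-j₁)]
      · exact hval
      · intro j hj
        by_contra hc
        have h2 := (hkey y₁ htH s₂ hs₂r j hc).2
        rw [hs₂e] at h2
        have h3 : (j : ℝ) * q = ((-j₁ : ℤ) : ℝ) * q := by push_cast; linarith
        have h4 : (j : ℝ) = ((-j₁ : ℤ) : ℝ) := mul_right_cancel₀ hq.ne' h3
        exact hj (by exact_mod_cast h4)
    rw [Finset.sum_eq_single_of_mem y₁ htH]
    · rw [hGs y₁ htH]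
      simp only
      rw [Finset.sum_eq_single_of_mem s₂ ((hfin y₁ htH).mem_toFinset.2 ⟨hs₂r, hs₂m⟩)]
      · rw [hsum, ← Complex.exp_add]
        have h1 := hexk j₁
        have h2 : (-((ξ : ℂ) * s₂) * Complex.I + -((ξ : ℂ) * ((x - s₁ : ℝ) : ℂ)) * Complex.I) =
            -((ξ : ℂ) * x) * Complex.I - (-((ξ : ℂ) * ((j₁ * q : ℝ) : ℂ)) * Complex.I) := by
          rw [hs₂e]; push_cast; ring
        rw [h2, Complex.exp_sub, h1, div_one]
      · intro s hs hne'
        have hs' := (hfin y₁ htH).mem_toFinset.1 hs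
        have h0 : prd q (f (h - y₁)) (x + (-s)) = 0 := by
          unfold prd
          apply finsum_eq_zero_of_forall_eq_zero
          intro j
          by_contra hc
          have h2 := (hkey y₁ htH s hs'.1 j hc).2
          apply hne'
          have h3 : s = s₁ + j * q := by linarith
          have h4 : toIcoMod hq 0 s = s := by
            rw [toIcoMod_eq_self]
            simpa using hs'.2
          rw [← h4, h3, hs₂]
          have : s₁ + (j : ℝ) * q = s₁ + j • q := by simp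
          rw [this, toIcoMod_add_zsmul]
        rw [h0, mul_zero]
    · intro y' hy' hne'
      rw [hGs y' hy']
      simp only
      apply Finset.sum_eq_zero
      intro s hs
      have hs' := (hfin y' hy').mem_toFinset.1 hs
      have h0 : prd q (f (h - y')) (x + (-s)) = 0 := by
        unfold prd
        apply finsum_eq_zero_of_forall_eq_zero
        intro j
        by_contra hc
        exact hne' (hkey y' hy' s hs'.1 j hc).1
      rw [h0, mul_zero]
  -- the mean
  have hbG : ∀ y' ∈ H, ∀ s ∈ (row e n T' y' ∩ Set.Ico 0 q), ∃ B : ℝ, ∀ x,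
      ‖Complex.exp (-((ξ : ℂ) * s) * Complex.I) * prd q (f (h - y')) (x + (-s))‖ ≤ B := by
    intro y' hy' s _
    refine ⟨1, fun x => ?_⟩
    rw [norm_mul, norm_ex, one_mul]
    exact hprd y' hy' _
  have hEG : ∀ y' ∈ H, μ.E (G y') = fc q (row e n T' y') k *
      trf μ q {x : ℝ | x • e + (h - y') • n ∈ C'} (ξ : ℂ) := by
    intro y' hy'
    rw [hGs y' hy', E_sum]
    · have h1 : ∀ s ∈ (hfin y' hy').toFinset,
          μ.E (fun x => Complex.exp (-((ξ : ℂ) * s) * Complex.I) *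
            prd q (f (h - y')) (x + (-s))) =
          Complex.exp (-((ξ : ℂ) * s) * Complex.I) *
            trf μ q {x : ℝ | x • e + (h - y') • n ∈ C'} (ξ : ℂ) := by
        intro s _
        rw [μ.smul _ _ ⟨1, fun x => hprd y' hy' _⟩,
          μ.shift (prd q (f (h - y'))) (-s) ⟨1, hprd y' hy'⟩]
        rfl
      rw [Finset.sum_congr rfl h1, ← Finset.sum_mul]
      congr 1
      unfold fc
      rw [finsum_mem_eq_finite_toFinset_sum _ (hfin y' hy')]
      refine Finset.sum_congr rfl fun s _ => ?_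
      congr 2
      rw [hξ]
      push_cast
      ring
    · intro s hs
      exact hbG y' hy' s ((hfin y' hy').mem_toFinset.1 hs)
  have h1 : μ.E (fun x => ∑ y' ∈ H, G y' x) = 0 := by
    have : (fun x => ∑ y' ∈ H, G y' x) = fun x : ℝ =>
      Complex.exp (-((ξ : ℂ) * x) * Complex.I) := funext hpt
    rw [this, E_exp μ ξ hξ0]
  rw [E_sum] at h1
  · rw [Finset.sum_congr rfl hEG] at h1
    exact h1
  · intro y' hy'
    rw [hGs y' hy']
    exact bd_sum _ _ fun s hs => hbG y' hy' s ((hfin y' hy').mem_toFinset.1 hs)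

namespace SpecP

lemma abs_rdet (u v : V) : |rdet u v| ≤ 2 * ‖u‖ * ‖v‖ := by
  have h1 : |u.1| ≤ ‖u‖ := norm_fst_le u
  have h2 : |u.2| ≤ ‖u‖ := norm_snd_le u
  have h3 : |v.1| ≤ ‖v‖ := norm_fst_le v
  have h4 : |v.2| ≤ ‖v‖ := norm_snd_le v
  have h5 : |u.1 * v.2| ≤ ‖u‖ * ‖v‖ := by
    rw [abs_mul]; exact mul_le_mul h1 h4 (abs_nonneg _) (norm_nonneg _)
  have h6 : |u.2 * v.1| ≤ ‖u‖ * ‖v‖ := by
    rw [abs_mul]; exact mul_le_mul h2 h3 (abs_nonneg _) (norm_nonneg _)
  calc |rdet u v| = |u.1 * v.2 - u.2 * v.1| := rfl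
    _ ≤ |u.1 * v.2| + |u.2 * v.1| := abs_sub _ _
    _ ≤ ‖u‖ * ‖v‖ + ‖u‖ * ‖v‖ := add_le_add h5 h6
    _ = 2 * ‖u‖ * ‖v‖ := by ring

lemma row_ne (e n : V) (hn : rdet e n = 1) (T : Set V) (y : ℝ) :
    (row e n T y).Nonempty ↔ ∃ t ∈ T, rdet e t = y := by
  constructor
  · rintro ⟨s, hs⟩
    exact ⟨_, hs, rdet_sn e n hn s y⟩
  · rintro ⟨t, ht, rfl⟩
    refine ⟨rdet t n, ?_⟩
    show (rdet t n) • e + (rdet e t) • n ∈ T
    rw [coord e n hn t]
    exact ht

lemma fc_empty (q : ℝ) (k : ℤ) : fc q ∅ k = 0 := by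
  simp [fc]

lemma row_fin (e n : V) (hn : rdet e n = 1) (T : Set V)
    (hf : ∀ R : ℝ, {t | t ∈ T ∧ ‖t‖ ≤ R}.Finite) (y q : ℝ) :
    (row e n T y ∩ Set.Ico 0 q).Finite := by
  refine Set.Finite.of_injOn (f := fun s : ℝ => s • e + y • n) (t := {t | t ∈ T ∧
    ‖t‖ ≤ q * ‖e‖ + |y| * ‖n‖}) ?_ ?_ (hf _)
  · rintro s ⟨hs, h0, h1⟩
    refine ⟨hs, (norm_add_le _ _).trans (add_le_add ?_ ?_)⟩
    · rw [norm_smul, Real.norm_eq_abs, abs_of_nonneg h0]
      exact mul_le_mul_of_nonneg_right h1.le (norm_nonneg _)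
    · rw [norm_smul, Real.norm_eq_abs]
  · intro s _ s' _ h
    have := congrArg (fun v => rdet v n) h
    simpa only [rdet_nn e n hn] using this

end SpecP

open SpecP in
theorem p_SPEC_of (hHO : T_HO) (hSEP : T_SEP) (hWD : T_WD) (hMEAN : T_MEAN) (hENT : T_ENT)
    (hTRQ : T_TRQ) : T_SPEC := by
  classical
  intro C hC e n hn T c hT hF hfinH q₀ hq₀
  have he : e ≠ 0 := by
    rintro rfl
    simp [rdet] at hn
  obtain ⟨W, C', hE⟩ := hHO C hC e he
  obtain ⟨μ⟩ := hMEAN
  obtain ⟨lo, hloC, hloC'⟩ := hE.ht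
  obtain ⟨hwpos, -, -, -⟩ := hWD C hC e he
  obtain ⟨ρ, hρ, hsep⟩ := hSEP C hC
  set w := wd C e with hw
  set A : ℝ → Set ℝ := fun s => {x | x • e + s • n ∈ C'} with hA
  have hbdd : ∃ b : ℝ, ∀ s, A s ⊆ Set.Icc (-b) b := by
    obtain ⟨R, hR⟩ := hC.cpt.isBounded.exists_norm_le
    refine ⟨2 * R * ‖n‖, fun s x hx => ?_⟩
    have h1 : ‖x • e + s • n‖ ≤ R := hR _ (hE.sub _ hx)
    have h2 : rdet (x • e + s • n) n = x := rdet_nn e n hn x s
    have h3 := abs_rdet (x • e + s • n) n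
    rw [h2] at h3
    have h4 : 2 * ‖x • e + s • n‖ * ‖n‖ ≤ 2 * R * ‖n‖ := by
      have := norm_nonneg n
      nlinarith
    exact abs_le.1 (h3.trans h4)
  obtain ⟨b, hb⟩ := hbdd
  -- an interval
  have hint : ∃ s₀, ∃ u v : ℝ, u < v ∧ Set.Ioo u v ⊆ A s₀ := by
    obtain ⟨z, hz⟩ := hC.ne
    have hcz := coord e n hn z
    have hct : Continuous fun x : ℝ => x • e + (rdet e z) • n := by fun_prop
    have h1 : ∀ᶠ x in 𝓝 (rdet z n), x • e + (rdet e z) • n ∈ interior C := by
      refine hct.continuousAt.eventually_mem ?_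
      rw [hcz]
      exact isOpen_interior.mem_nhds hz
    obtain ⟨ε, hε, h2⟩ := Metric.eventually_nhds_iff.1 h1
    refine ⟨rdet e z, rdet z n - ε, rdet z n + ε, by linarith, fun x hx => ?_⟩
    refine hE.int _ (h2 ?_)
    rw [Real.dist_eq, abs_lt]
    constructor <;> linarith [hx.1, hx.2]
  obtain ⟨s₀, hs₀⟩ := hint
  have hent := hENT μ q₀ (A s₀) hq₀ ⟨b, hb s₀⟩
  refine ⟨{ξ : ℝ | ∀ s, trf μ q₀ (A s) (ξ : ℂ) = 0} ∪ {0}, ?_, ?_⟩
  · intro M
    refine ((zeros_fin _ hent.1 (hent.2 hs₀) M).union (Set.finite_singleton 0)).subset ?_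
    rintro ξ ⟨h1 | h1, h2⟩
    · exact Or.inl ⟨h1 s₀, h2⟩
    · exact Or.inr h1
  intro y m hm hper k hfc
  by_cases hk : k = 0
  · right
    simp [hk]
  left
  intro s
  set q : ℝ := m * q₀ with hq
  have hmr : (0 : ℝ) < m := by exact_mod_cast hm
  have hqp : 0 < q := mul_pos hmr hq₀
  set ξ : ℝ := 2 * Real.pi * k / q with hξ
  have htrq := hTRQ μ q₀ (A s) m (ξ : ℂ) hq₀ hm ⟨b, hb s⟩
  rw [htrq]
  suffices hmain : ∀ s, trf μ q (A s) (ξ : ℂ) = 0 by
    rw [← hq, hmain s, mul_zero]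
  clear s htrq
  set T' := Abv C e T c with hT'
  have hsub : ∀ t ∈ T', t ∈ T := fun t ht => ht.1
  set H := (hfinH (y + w)).toFinset with hH
  have hHm : ∀ y', y' ∈ H ↔ y' ≤ y + w ∧ ∃ t ∈ T', rdet e t = y' := by
    intro y'
    rw [hH, Set.Finite.mem_toFinset]
    rfl
  have hyH : y ∈ H := by
    rw [hHm]
    refine ⟨by linarith, ?_⟩
    by_contra hc
    apply hfc
    rw [← row_ne e n hn, Set.not_nonempty_iff_eq_empty] at hc
    rw [hc, fc_empty]
  set F := H.filter fun y' => y' ≤ y ∧ fc q (row e n T' y') k ≠ 0 with hFd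
  have hFne : F.Nonempty := ⟨y, Finset.mem_filter.2 ⟨hyH, le_rfl, hfc⟩⟩
  set y₁ := F.min' hFne with hy₁
  have hy₁F : y₁ ∈ F := Finset.min'_mem _ _
  obtain ⟨hy₁H, hy₁y, hy₁fc⟩ := Finset.mem_filter.1 hy₁F
  have hlow : ∀ y' ∈ H, y' < y₁ → fc q (row e n T' y') k = 0 := by
    intro y' hy' hlt
    by_contra hc
    have : y₁ ≤ y' := Finset.min'_le _ _ (Finset.mem_filter.2 ⟨hy', by linarith, hc⟩)
    linarith
  obtain ⟨g, hg, hgap⟩ := gap_ex H y₁
  obtain ⟨t₁, ht₁, ht₁y⟩ := ((hHm y₁).1 hy₁H).2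
  have hEc := hE.te T hT
  have hind : ∀ j : ℕ, ∀ s, s < lo + j * g → trf μ q (A s) (ξ : ℂ) = 0 := by
    intro j
    induction j with
    | zero =>
      intro s hs
      have : A s = ∅ := by
        rw [Set.eq_empty_iff_forall_notMem]
        intro x hx
        have h1 := (hloC _ (hE.sub _ hx)).1
        rw [rdet_sn e n hn] at h1
        simp only [Nat.cast_zero, zero_mul, add_zero] at hs
        linarith
      rw [this, trf_empty]
    | succ j ih =>
      intro s hs
      rcases (A s).eq_empty_or_nonempty with hem | ⟨x₀, hx₀⟩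
      · rw [hem, trf_empty]
      have hslo : s < lo + w := by
        have := hloC' _ hx₀
        rwa [rdet_sn e n hn] at this
      have hch : c ≤ y₁ + s := by
        have := ht₁.2 _ (hE.sub _ hx₀)
        rwa [rdet_add, ht₁y, rdet_sn e n hn] at this
      have hmn := SpecP.main_eq μ e n hn C' T' q hqp k hk (y₁ + s) H
        (fun y' hy' => hper y' ((hHm y').1 hy').1)
        (fun y' hy' => (row_ne e n hn T' y').2 ((hHm y').1 hy').2)
        (fun y' _ => row_fin e n hn T' (fun R => ((hsep T hT.2).2 R).subset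
          fun t ht => ⟨hsub t ht.1, ht.2⟩) y' q)
        (by
          intro x
          obtain ⟨t, ⟨htT, htC⟩, -⟩ := hEc (x • e + (y₁ + s) • n)
          have h1 : t ∈ T' := by
            refine (hE.up T c hT hF _ t htT htC).1 ?_
            rw [rdet_sn e n hn]
            exact hch
          refine ⟨t, h1, htC, ?_⟩
          rw [hHm]
          refine ⟨?_, t, h1, rfl⟩
          have h2 := (hloC _ (hE.sub _ htC)).1
          rw [rdet_sub, rdet_sn e n hn] at h2
          linarith)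
        (by
          intro z t ht t' ht' h1 h2
          exact (hEc z).unique ⟨hsub t ht, h1⟩ ⟨hsub t' ht', h2⟩)
      rw [Finset.sum_eq_single_of_mem y₁ hy₁H] at hmn
      · have h1 : y₁ + s - y₁ = s := by ring
        rw [h1] at hmn
        exact (mul_eq_zero.1 hmn).resolve_left hy₁fc
      · intro y' hy' hne
        rcases lt_or_gt_of_ne hne with hlt | hgt
        · rw [hlow y' hy' hlt, zero_mul]
        · have h1 := hgap y' hy' hgt
          have h2 : y₁ + s - y' < lo + j * g := by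
            push_cast at hs
            linarith
          have h3 := ih _ h2
          rw [hξ] at h3
          rw [h3, mul_zero]
  intro s
  obtain ⟨j, hj⟩ := exists_nat_gt ((s - lo) / g)
  refine hind j s ?_
  rw [div_lt_iff₀ hg] at hj
  linarith

end Pool.Agent.PTG
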