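import Pool.Agent.PTG.Targets
import Pool.Agent.PTR.Rel

/-!
# PTG: SPL, local version of the relation satisfied by a bounded function

Ideas row 2773 (MP_eac546_co); `K N m = 1 + 3 * N! * m`.
-/

set_option autoImplicit false

namespace Pool.Agent.PTG

open Pool.Agent.PTR
open Pool.Agent.PTR.OL (V dif difs dphi dphi_sum difs_nil difs_cons difs_dif difs_shift
  difs_const_mul)

namespace SPL

lemma norm_nsmul_le {k : ℕ} {v : V} {ε : ℝ} (h : ‖v‖ ≤ ε) : ‖k • v‖ ≤ k * ε := by
  rw [← Nat.cast_smul_eq_nsmul ℝ, norm_smul, Real.norm_of_nonneg (Nat.cast_nonneg k)]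
  exact mul_le_mul_of_nonneg_left h (Nat.cast_nonneg k)

lemma pow_loc (p : ℕ) (D : Finset V) (a : V → V) (c : V → ZMod p) (A : ℝ)
    (ha : ∀ v ∈ D, ‖a v‖ ≤ A) (m : ℕ) : ∀ (f : V → ZMod p) (R : ℝ),
    (∀ z, ‖z‖ ≤ R → f z = 0) → ∀ z, ‖z‖ ≤ R - m * A →
      dphi p ((∑ v ∈ D, AddMonoidAlgebra.single (a v) (c v)) ^ m) f z = 0 := by
  induction m with
  | zero =>
    intro f R hf z hz
    rw [pow_zero, map_one]
    exact hf z (by simpa using hz)
  | succ m ih =>
    intro f R hf z hz
    rw [pow_succ', map_mul, Module.End.mul_apply, dphi_sum]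
    refine Finset.sum_eq_zero fun v hv => ?_
    rw [ih f R hf (z - a v), mul_zero]
    have h1 := norm_sub_le z (a v)
    have h2 := ha v hv
    push_cast at hz
    linarith

lemma dil_step_loc (p : ℕ) [Fact p.Prime] (D : Finset V) (a : V → V) (c : V → ZMod p)
    (t : V → ZMod p) (A R : ℝ) (ha : ∀ v ∈ D, ‖a v‖ ≤ A)
    (h : ∀ z, ‖z‖ ≤ R → ∑ v ∈ D, c v * t (z - a v) = 0) (z : V)
    (hz : ‖z‖ ≤ R - ((p - 1 : ℕ) : ℝ) * A) :
    ∑ v ∈ D, c v * t (z - p • a v) = 0 := by
  have : CharP (AddMonoidAlgebra (ZMod p) V) p :=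
    charP_of_injective_algebraMap (algebraMap (ZMod p) (AddMonoidAlgebra (ZMod p) V)).injective p
  set G : AddMonoidAlgebra (ZMod p) V :=
    ∑ v ∈ D, AddMonoidAlgebra.single (a v) (c v) with hG
  have h2 : G ^ p = ∑ v ∈ D, AddMonoidAlgebra.single (p • a v) (c v) := by
    rw [hG, sum_pow_char]
    refine Finset.sum_congr rfl fun v _ => ?_
    rw [AddMonoidAlgebra.single_pow, ZMod.pow_card]
  have h3 : dphi p (G ^ p) t z = 0 := by
    have h5 : G ^ p = G ^ (p - 1) * G := by
      rw [← pow_succ, Nat.sub_add_cancel (Fact.out : p.Prime).one_le]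
    rw [h5, map_mul, Module.End.mul_apply]
    refine pow_loc p D a c A ha (p - 1) (dphi p G t) R (fun z hz => ?_) z hz
    rw [hG, dphi_sum, h z hz]
  have h4 := dphi_sum p D (fun v => p • a v) c t z
  rw [← h2, h3] at h4
  exact h4.symm

lemma dilation_loc (D : Finset V) (c : V → ℤ) (t : V → ℤ) (ht : ∀ z, |t z| ≤ 1) (ε R : ℝ)
    (hε : ∀ v ∈ D, ‖v‖ ≤ ε)
    (h : ∀ z, ‖z‖ ≤ R → ∑ v ∈ D, c v * t (z - v) = 0) (k : ℕ) :
    0 < k → (∀ p : ℕ, p.Prime → p ∣ k → ∑ v ∈ D, |c v| < (p : ℤ)) →
      ∀ z, ‖z‖ ≤ R - ((k : ℝ) - 1) * ε → ∑ v ∈ D, c v * t (z - k • v) = 0 := by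
  induction k using Nat.strong_induction_on with
  | _ k ih =>
    intro hk hp z hz
    rcases Nat.lt_or_ge 1 k with h1 | h1
    · set p := k.minFac with hpdef
      have hpp : p.Prime := Nat.minFac_prime (by omega)
      have : Fact p.Prime := ⟨hpp⟩
      obtain ⟨k', hk'⟩ := Nat.minFac_dvd k
      rw [← hpdef] at hk'
      have hk0 : 0 < k' := by
        rcases Nat.eq_zero_or_pos k' with h0 | h0
        · rw [h0, mul_zero] at hk'; omega
        · exact h0
      have hlt : k' < k := by
        rw [hk']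
        have := hpp.two_le
        nlinarith
      have ih' := ih k' hlt hk0 (fun r hr hrk => hp r hr (hk' ▸ Dvd.dvd.mul_left hrk p))
      have h2 := dil_step_loc p D (fun v => k' • v) (fun v => (c v : ZMod p))
        (fun z => (t z : ZMod p)) (k' * ε) (R - ((k' : ℝ) - 1) * ε)
        (fun v hv => norm_nsmul_le (hε v hv)) (fun z hz => by
          have h3 := congrArg (fun x : ℤ => (x : ZMod p)) (ih' z hz)
          simpa using h3) z (by
            refine hz.trans (le_of_eq ?_)
            have hp1 : ((p - 1 : ℕ) : ℝ) = (p : ℝ) - 1 := by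
              rw [Nat.cast_sub hpp.one_le, Nat.cast_one]
            have hk2 : (k : ℝ) = (p : ℝ) * (k' : ℝ) := by
              rw [← Nat.cast_mul, ← hk']
            rw [hp1, hk2]
            ring)
      have e : ∀ v : V, p • (k' • v) = k • v := by
        intro v
        rw [smul_smul, ← hk']
      simp only [e] at h2
      have h4 : ((∑ v ∈ D, c v * t (z - k • v) : ℤ) : ZMod p) = 0 := by
        push_cast
        exact h2
      have h5 := (ZMod.intCast_zmod_eq_zero_iff_dvd _ p).mp h4
      have bd : |∑ v ∈ D, c v * t (z - k • v)| ≤ ∑ v ∈ D, |c v| := by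
        refine (Finset.abs_sum_le_sum_abs _ _).trans (Finset.sum_le_sum fun v _ => ?_)
        rw [abs_mul]
        exact mul_le_of_le_one_right (abs_nonneg _) (ht _)
      exact Int.eq_zero_of_abs_lt_dvd h5 (bd.trans_lt (hp p hpp (Nat.minFac_dvd k)))
    · have : k = 1 := by omega
      subst this
      simpa using h z (by simpa using hz)

lemma elim_loc (r : ℕ) (v₀ : V) (ε : ℝ) (hv₀ : ‖v₀‖ ≤ ε) (D : List V) :
    (∀ v ∈ D, ‖v‖ ≤ ε) → ∀ (F : V → V → ℤ) (ρ : ℝ),
    (∀ k : ℕ, k ≤ D.length → ∀ z : V, ‖z‖ ≤ ρ → F v₀ (z - (1 + r * k) • v₀) +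
      (D.map fun v => F v (z - (1 + r * k) • v)).sum = 0) →
    ∀ z, ‖z‖ ≤ ρ - (1 + 2 * r * D.length) * ε →
      difs (D.map fun v => r • (v - v₀)) (F v₀) z = 0 := by
  induction D with
  | nil =>
    intro _ F ρ h z hz
    have h1 := h 0 le_rfl (z + v₀) (by
      have := norm_add_le z v₀
      simp only [List.length_nil, Nat.cast_zero, mul_zero, add_zero, one_mul] at hz
      linarith)
    simp only [mul_zero, add_zero, one_smul, add_sub_cancel_right, List.map_nil,
      List.sum_nil] at h1
    exact h1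
  | cons v₁ D ih =>
    intro hD F ρ h z hz
    have hv₁ : ‖v₁‖ ≤ ε := hD v₁ List.mem_cons_self
    have h2 := ih (fun v hv => hD v (List.mem_cons_of_mem _ hv))
      (fun v z => F v (z - r • v) - F v (z - r • v₁)) (ρ - r * ε) (fun k hk z hz => by
      have hr : (0 : ℝ) ≤ r * ε := mul_nonneg (Nat.cast_nonneg r) ((norm_nonneg _).trans hv₁)
      have e1 := h (k + 1) (by simpa using hk) z (by linarith)
      have e2 := h k (by simp only [List.length_cons]; omega) (z - r • v₁) (by
        have h1 := norm_sub_le z (r • v₁)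
        have h2 := norm_nsmul_le (k := r) hv₁
        linarith)
      have a1 : ∀ v : V, z - (1 + r * (k + 1)) • v = z - (1 + r * k) • v - r • v := by
        intro v
        rw [sub_sub, ← add_smul, mul_add, mul_one, add_assoc]
      have a2 : ∀ v : V, z - r • v₁ - (1 + r * k) • v = z - (1 + r * k) • v - r • v₁ := by
        intro v
        rw [sub_right_comm]
      simp only [a1, List.map_cons, List.sum_cons] at e1
      simp only [a2, List.map_cons, List.sum_cons] at e2
      have e3 : ∀ D : List V, (D.map fun v => F v (z - (1 + r * k) • v - r • v) -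
          F v (z - (1 + r * k) • v - r • v₁)).sum =
          (D.map fun v => F v (z - (1 + r * k) • v - r • v)).sum -
          (D.map fun v => F v (z - (1 + r * k) • v - r • v₁)).sum := by
        intro D
        induction D with
        | nil => simp
        | cons a D ih2 => simp only [List.map_cons, List.sum_cons, ih2]; ring
      rw [e3]
      linarith)
    rw [List.map_cons, difs_cons, ← difs_dif]
    have h3 : (fun z => F v₀ (z - r • v₀) - F v₀ (z - r • v₁)) =
        fun z => dif (r • (v₁ - v₀)) (F v₀) (z + (-(r • v₀))) := by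
      funext z
      unfold dif
      rw [← sub_eq_add_neg, sub_sub, ← smul_add, add_sub_cancel]
    rw [h3, difs_shift] at h2
    have h4 := h2 (z + r • v₀) (by
      have h1 := norm_add_le z (r • v₀)
      have h2 := norm_nsmul_le (k := r) hv₀
      simp only [List.length_cons, Nat.cast_add, Nat.cast_one] at hz
      nlinarith)
    simp only [add_neg_cancel_right] at h4
    exact h4

end SPL

open SPL in
/-- SPL. -/
theorem p_SPL : T_SPL := by
  refine ⟨fun N m => 1 + 3 * (N.factorial : ℝ) * m, ?_⟩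
  intro D c t v₀ ε R ht hv hc hε h z hz
  set N : ℕ := (∑ v ∈ D, |c v|).toNat with hN
  have hε0 : 0 ≤ ε := (norm_nonneg _).trans (hε v₀ hv)
  have hlen : ((D.erase v₀).toList).length + 1 = D.card := by
    rw [Finset.length_toList, Finset.card_erase_add_one hv]
  have hlen' : (((D.erase v₀).toList).length : ℝ) = (D.card : ℝ) - 1 := by
    rw [← hlen]; push_cast; ring
  have hcard : (1 : ℝ) ≤ D.card := by
    exact_mod_cast Finset.card_pos.2 ⟨v₀, hv⟩
  have h1 := elim_loc N.factorial v₀ ε (hε v₀ hv) (D.erase v₀).toList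
    (fun v hv' => hε v (Finset.mem_of_mem_erase (Finset.mem_toList.1 hv')))
    (fun v z => c v * t z) (R - (N.factorial : ℝ) * ((D.card : ℝ) - 1) * ε) (fun k hk z hz => by
    have hkr : (k : ℝ) ≤ (D.card : ℝ) - 1 := by
      rw [← hlen']; exact_mod_cast hk
    have h2 := dilation_loc D c t ht ε R hε h (1 + N.factorial * k) (by omega)
      (fun p hp hpk => by
      by_contra hcon
      push Not at hcon
      have h3 : p ≤ N := by
        have h4 : (p : ℤ).toNat ≤ N := Int.toNat_le_toNat hcon
        simpa using h4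
      have h4 : p ∣ N.factorial := (Nat.Prime.dvd_factorial hp).2 h3
      have h5 : p ∣ 1 := (Nat.dvd_add_left (Dvd.dvd.mul_right h4 k)).1 hpk
      exact hp.one_lt.ne' (Nat.dvd_one.1 h5)) z (by
        refine hz.trans ?_
        push_cast
        have h0 : (0 : ℝ) ≤ (N.factorial : ℝ) * ε := mul_nonneg (Nat.cast_nonneg _) hε0
        nlinarith)
    rw [Finset.sum_map_toList, Finset.add_sum_erase D (fun v => c v *
      t (z - (1 + N.factorial * k) • v)) hv]
    exact h2) z (by
      refine hz.trans ?_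
      rw [hlen']
      have h0 : (0 : ℝ) ≤ (N.factorial : ℝ) * ε := mul_nonneg (Nat.cast_nonneg _) hε0
      nlinarith)
  rw [difs_const_mul] at h1
  rcases mul_eq_zero.1 h1 with h3 | h3
  · exact absurd h3 hc
  · exact h3

end Pool.Agent.PTG
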