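import Pool.Agent.PTG.P_G0
import Pool.Agent.PTA.P_STF

/-!
# PTG: STF
-/

set_option autoImplicit false

namespace Pool.Agent.PTG

open Pool.Agent.PTR Filter Topology
open Pool.Agent.PTR.OL (V ii dif difs FLC InHull)
open Pool.Agent.PTP (Til TDP Iv wd SF Abv Stp Stk Ds Sm)
open Pool.Agent.PTA (Dir)

open PTA.STF in
theorem p_STF_of (hSTZ : T_STZ) (hSLIDE : T_SLIDE) : T_STF := by
  intro C hP hI e he h hno T w hT hw
  by_contra hflc
  simp only [FLC, not_forall] at hflc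
  obtain ⟨R, hR⟩ := hflc
  have hinf : Set.Infinite {d : V | ‖d‖ ≤ R ∧ ∃ t ∈ Stk w T, t + d ∈ Stk w T} := hR
  obtain ⟨hwd, -, ⟨x1, hx1, y1, hy1, hxy⟩, -⟩ := p_WD C hP e he.1
  have hxy' : 0 < rdet e x1 - rdet e y1 := by rw [hxy]; exact hwd
  obtain ⟨hStkT, hStkPer, hStkSF⟩ := p_STK C hP e w T h hT hw
  have hT0 := hT
  obtain ⟨hh, -, -, hbd⟩ := hT0
  -- the sequence of differences
  obtain ⟨d, hdinj, hdR, hd⟩ : ∃ d : ℕ → V, Function.Injective d ∧ (∀ n, ‖d n‖ ≤ R) ∧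
      ∀ n, ∃ t ∈ Stk w T, t + d n ∈ Stk w T := by
    refine ⟨fun n => (Set.Infinite.natEmbedding _ hinf n).1, ?_, fun n => ?_, fun n => ?_⟩
    · intro a b hab
      exact (Set.Infinite.natEmbedding _ hinf).injective (Subtype.ext hab)
    · exact (Set.Infinite.natEmbedding _ hinf n).2.1
    · exact (Set.Infinite.natEmbedding _ hinf n).2.2
  have hd2 : ∀ n, ∃ (t : V) (k : ℤ), t ∈ T ∧ t + d n + k • w ∈ T := by
    intro n
    obtain ⟨t, ⟨k, hk⟩, ⟨k', hk'⟩⟩ := hd n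
    refine ⟨t + k • w, k' - k, hk, ?_⟩
    have : t + k • w + d n + (k' - k) • w = t + d n + k' • w := by
      rw [sub_smul]; abel
    rw [this]; exact hk'
  choose t k ht hk using hd2
  obtain ⟨s, hs⟩ : ∃ s : ℕ → ℝ, ∀ n, t n - s n • e =
      (rdet e (t n) / (e.1 ^ 2 + e.2 ^ 2)) • ((-e.2, e.1) : V) :=
    ⟨fun n => (e.1 * (t n).1 + e.2 * (t n).2) / (e.1 ^ 2 + e.2 ^ 2), fun n => dec e (t n) he.1⟩
  obtain ⟨Tn, hTn_def⟩ : ∃ Tn : ℕ → Set V, ∀ n z, z ∈ Tn n ↔ z + s n • e ∈ Stk w T :=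
    ⟨fun n => {z | z + s n • e ∈ Stk w T}, fun n z => Iff.rfl⟩
  have hTn : ∀ n, Til C (Tn n) := by
    intro n
    refine ⟨fun z => ?_, fun a ha b hb z hza hzb => ?_⟩
    · obtain ⟨u, hu, hzu⟩ := hStkT.1 (z + s n • e)
      refine ⟨u - s n • e, (hTn_def n _).2 (by rwa [sub_add_cancel]), ?_⟩
      have : z - (u - s n • e) = z + s n • e - u := by abel
      rw [this]; exact hzu
    · rw [hTn_def] at ha hb
      have h1 : z - a = z + s n • e - (a + s n • e) := by abel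
      have h2 : z - b = z + s n • e - (b + s n • e) := by abel
      rw [h1] at hza
      rw [h2] at hzb
      exact add_right_cancel (hStkT.2 _ ha _ hb _ hza hzb)
  have hse : ∀ (n : ℕ) (z x : V), rdet e (z + s n • e + x) = rdet e (z + x) := by
    intro n z x
    rw [rd_add, rd_add, rd_add, rd_smul, rd_self]; ring
  have hSFn : ∀ n, ∀ j : ℤ, SF C e (Tn n) (j * h) := by
    intro n j u hu
    rw [hTn_def] at hu
    rcases hStkSF j _ hu with h1 | h1
    · left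
      intro x hx
      have := h1 x hx
      rwa [hse] at this
    · right
      intro x hx
      have := h1 x hx
      rwa [hse] at this
  have hTS : ∀ z ∈ T, z ∈ Stk w T := fun z hz => ⟨0, by rwa [zero_smul, add_zero]⟩
  let U : Ultrafilter ℕ := hyperfilter ℕ
  obtain ⟨hLim, δ, hδ⟩ := p_ULT C hP U Tn hTn
  -- bounds
  have hk1 : ∀ n, |(k n : ℝ)| ≤ (h + (|e.1| + |e.2|) * R) / h := by
    intro n
    rw [le_div_iff₀ hh]
    have g1 := hbd _ (ht n) x1 hx1
    have g2 := hbd _ (hk n) x1 hx1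
    rw [rd_add] at g1
    rw [rd_add, rd_add, rd_add, rd_zsmul, hw] at g2
    have g3 := rd_abs e (d n)
    have g4 : (|e.1| + |e.2|) * ‖d n‖ ≤ (|e.1| + |e.2|) * R :=
      mul_le_mul_of_nonneg_left (hdR n) (by positivity)
    have g5 := abs_le.1 (g3.trans g4)
    have g6 : |(k n : ℝ)| * h = |(k n : ℝ) * h| := by rw [abs_mul, abs_of_pos hh]
    rw [g6, abs_le]
    constructor <;> linarith [g1.1, g1.2, g2.1, g2.2, g5.1, g5.2]
  have hrt : ∀ n, |rdet e (t n)| ≤ h + |rdet e x1| := by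
    intro n
    have g1 := hbd _ (ht n) x1 hx1
    rw [rd_add] at g1
    have g2 := abs_le.1 (le_refl |rdet e x1|)
    rw [abs_le]
    constructor <;> linarith [g1.1, g1.2, g2.1, g2.2]
  have hfb : ∀ n, ‖t n - s n • e‖ ≤
      (h + |rdet e x1|) / (e.1 ^ 2 + e.2 ^ 2) * ‖((-e.2, e.1) : V)‖ := by
    intro n
    rw [hs n, norm_smul, Real.norm_eq_abs, abs_div, abs_of_pos (nsq e he.1)]
    refine mul_le_mul_of_nonneg_right ?_ (norm_nonneg _)
    exact div_le_div_of_nonneg_right (hrt n) (nsq e he.1).le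
  obtain ⟨F, hF⟩ : ∃ F : ℝ, ∀ n, ‖t n - s n • e‖ ≤ F := ⟨_, hfb⟩
  obtain ⟨K, hK⟩ : ∃ K : ℝ, ∀ n, |(k n : ℝ)| ≤ K := ⟨_, hk1⟩
  have hgb : ∀ n, ‖t n + d n + k n • w - s n • e‖ ≤ F + R + K * ‖w‖ := by
    intro n
    have g1 : t n + d n + k n • w - s n • e = (t n - s n • e) + d n + k n • w := by abel
    have g2 : ‖(k n • w : V)‖ ≤ K * ‖w‖ := by
      have : (k n • w : V) = (k n : ℝ) • w := by rw [← Int.cast_smul_eq_zsmul ℝ (k n) w]
      rw [this, norm_smul, Real.norm_eq_abs]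
      exact mul_le_mul_of_nonneg_right (hK n) (norm_nonneg _)
    rw [g1]
    refine (norm_add_le _ _).trans (add_le_add ((norm_add_le _ _).trans ?_) g2)
    exact add_le_add (hF n) (hdR n)
  obtain ⟨t0, ht0, hf0⟩ := p_ULB C hP U Tn hTn δ hδ (fun n => t n - s n • e) F
    (Eventually.of_forall fun n => (hTn_def n _).2 (by
      rw [sub_add_cancel]; exact hTS _ (ht n))) (Eventually.of_forall hF)
  obtain ⟨t1, ht1, hf1⟩ := p_ULB C hP U Tn hTn δ hδ (fun n => t n + d n + k n • w - s n • e)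
    (F + R + K * ‖w‖) (Eventually.of_forall fun n => (hTn_def n _).2 (by
      rw [sub_add_cancel]; exact hTS _ (hk n))) (Eventually.of_forall hgb)
  have hb0 : ∀ n, ∀ x ∈ C, 0 ≤ rdet e (t n - s n • e + x) ∧
      rdet e (t n - s n • e + x) ≤ h := by
    intro n x hx
    have g1 := hbd _ (ht n) x hx
    have g2 := hse n (t n - s n • e) x
    rw [sub_add_cancel] at g2
    rwa [← g2]
  have hb1 : ∀ n, ∀ x ∈ C, 0 ≤ rdet e (t n + d n + k n • w - s n • e + x) ∧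
      rdet e (t n + d n + k n • w - s n • e + x) ≤ h := by
    intro n x hx
    have g1 := hbd _ (hk n) x hx
    have g2 := hse n (t n + d n + k n • w - s n • e) x
    rw [sub_add_cancel] at g2
    rwa [← g2]
  have hs0 := lim_strip (hδ t0 ht0).2 hf0 hb0
  have hs1 := lim_strip (hδ t1 ht1).2 hf1 hb1
  -- the displacements of `t0` and `t1` differ
  have hns : ¬ Sm U δ t0 t1 := by
    intro hsm
    have h1 : ∀ᶠ n in (U : Filter ℕ), d n ∈ (fun j : ℤ => t1 - t0 - j • w) ''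
        (Set.Icc (-⌈K⌉) ⌈K⌉) := by
      filter_upwards [hf0, hf1, hsm] with n g0 g1 g2
      refine ⟨k n, ⟨?_, ?_⟩, ?_⟩
      · have g3 := (abs_le.1 (hK n)).1
        have g4 := Int.le_ceil K
        have g5 : ((-⌈K⌉ : ℤ) : ℝ) ≤ (k n : ℝ) := by push_cast; linarith
        exact_mod_cast g5
      · have g3 := (abs_le.1 (hK n)).2
        have g4 := Int.le_ceil K
        have g5 : (k n : ℝ) ≤ ((⌈K⌉ : ℤ) : ℝ) := by linarith
        exact_mod_cast g5
      · rw [← g2] at g1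
        have g3 : d n = (t n + d n + k n • w - s n • e) - (t n - s n • e) - k n • w := by abel
        show t1 - t0 - k n • w = d n
        rw [g3, g1, g0]
        abel
    have h2 : Set.Finite (d ⁻¹' ((fun j : ℤ => t1 - t0 - j • w) '' (Set.Icc (-⌈K⌉) ⌈K⌉))) :=
      Set.Finite.preimage hdinj.injOn ((Set.finite_Icc _ _).image _)
    have h3 : ∀ᶠ n in (U : Filter ℕ), n ∉ d ⁻¹' ((fun j : ℤ => t1 - t0 - j • w) ''
        (Set.Icc (-⌈K⌉) ⌈K⌉)) := by
      have := h2.compl_mem_hyperfilter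
      exact this
    obtain ⟨n, g1, g2⟩ := (h1.and h3).exists
    exact g2 g1
  have hLF : ∀ j : ℤ, SF C e (Lim U Tn) (j * h) :=
    fun j => p_SFL C hP U Tn e (fun _ => (j : ℝ) * h) (j * h) he.1 hTn tendsto_const_nhds
      (Eventually.of_forall fun n => hSFn n j)
  have hL0 : SF C e (Lim U Tn) 0 := by
    have := hLF 0
    simpa using this
  have hL1 : SF C e (Lim U Tn) h := by
    have := hLF 1
    simpa using this
  rcases hSLIDE C hP U Tn hTn δ hδ with hall | ⟨e', he', hSl⟩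
  · exact hns (hall t0 ht0 t1 ht1)
  by_cases hpar : rdet e e' = 0
  · -- parallel
    obtain ⟨κ, hκ⟩ : ∃ κ : ℝ, e' = κ • e := by
      refine ⟨(e.1 * e'.1 + e.2 * e'.2) / (e.1 ^ 2 + e.2 ^ 2), ?_⟩
      have := dec e e' he.1
      rw [hpar, zero_div, zero_smul] at this
      exact sub_eq_zero.1 this
    have hκ0 : κ ≠ 0 := by
      rintro rfl
      rw [zero_smul] at hκ
      exact he'.1 hκ
    have hIe : Iv C e' := hI e' he'
    rcases p_SLF C hP U Tn hTn δ hδ e' he'.1 hIe hSl t0 ht0 t1 ht1 hns with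
      ⟨c, g1, g2, g3⟩ | ⟨c, g1, g2, g3⟩
    · rw [hκ] at g1 g2 g3
      obtain ⟨c', k1, (⟨k2, k3⟩ | ⟨k2, k3⟩)⟩ := flt hκ0 g1 g2 g3
      · exact nofault hh hLim hL0 hL1 hno hx1 hy1 hxy' hs0 hs1 k1 k2 k3
      · exact nofault hh hLim hL0 hL1 hno hx1 hy1 hxy' hs1 hs0 k1 k2 k3
    · rw [hκ] at g1 g2 g3
      obtain ⟨c', k1, (⟨k2, k3⟩ | ⟨k2, k3⟩)⟩ := flt hκ0 g1 g2 g3
      · exact nofault hh hLim hL0 hL1 hno hx1 hy1 hxy' hs1 hs0 k1 k2 k3
      · exact nofault hh hLim hL0 hL1 hno hx1 hy1 hxy' hs0 hs1 k1 k2 k3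
  · exact hns (hSTZ C hP U Tn hTn δ hδ e e' hpar (fun _ => 0) 0 tendsto_const_nhds
      (Eventually.of_forall fun n => by simpa using hSFn n 0) hSl t0 ht0 t1 ht1)

end Pool.Agent.PTG
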