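import Pool.Agent.PTG.P_G0
import Pool.Agent.PTA.P_STZ

/-!
# PTG: STZ
-/

set_option autoImplicit false

namespace Pool.Agent.PTG

open Pool.Agent.PTR Filter Topology
open Pool.Agent.PTR.OL (V ii dif difs FLC InHull)
open Pool.Agent.PTP (Til TDP Iv wd SF Abv Stp Stk Ds Sm)
open Pool.Agent.PTA (Dir)
open G0

lemma sf_neg {C : Set V} {e : V} {T : Set V} {c : ℝ} (h : SF C e T c) : SF C (-e) T (-c) := by
  intro t ht
  rcases h t ht with h1 | h1
  · right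
    intro x hx
    have := h1 x hx
    rw [rneg_l]
    linarith
  · left
    intro x hx
    have := h1 x hx
    rw [rneg_l]
    linarith

/-- interior points of a tile above the line are strictly above -/
lemma abv_lt {C : Set V} {e : V} (he : e ≠ 0) {t : V} {c : ℝ} (h : ∀ x ∈ C, c ≤ rdet e (t + x))
    {x : V} (hx : x ∈ interior C) : c < rdet e (t + x) := by
  have h1 : Tendsto (fun s : ℝ => x + s • (-((-e.2, e.1) : V))) (𝓝 0)
      (𝓝 (x + (0 : ℝ) • (-((-e.2, e.1) : V)))) := by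
    apply Continuous.tendsto
    fun_prop
  rw [zero_smul, add_zero] at h1
  have h2 : ∀ᶠ s in 𝓝[>] (0 : ℝ), x + s • (-((-e.2, e.1) : V)) ∈ interior C :=
    (h1.mono_left nhdsWithin_le_nhds).eventually (isOpen_interior.mem_nhds hx)
  obtain ⟨s, hs, hs0⟩ := (h2.and (eventually_mem_set.2 self_mem_nhdsWithin)).exists
  have hs0' : 0 < s := hs0
  have h4 := h _ (interior_subset hs)
  rw [← add_assoc, rdet_add, rsmul, rneg] at h4
  have h6 : 0 < s * rdet e (-e.2, e.1) := mul_pos hs0' (rperp he)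
  linarith

/-- the height of the displacement of a tile which touches a moving fault from above -/
lemma stz_up {C : Set V} (hC : Bdy C) {U : Ultrafilter ℕ} {Tn : ℕ → Set V} {δ : V → ℕ → V}
    (hδ : Ds U Tn δ) {e : V} (he : e ≠ 0) {cn : ℕ → ℝ} {c : ℝ}
    (hcn : Tendsto cn (U : Filter ℕ) (𝓝 c)) (hF : ∀ᶠ n in (U : Filter ℕ), SF C e (Tn n) (cn n))
    {t y : V} (ht : t ∈ Lim U Tn) (hab : ∀ x ∈ C, c ≤ rdet e (t + x)) (hy : y ∈ C)
    (hyc : rdet e (t + y) = c) : ∀ᶠ n in (U : Filter ℕ), cn n ≤ c + rdet e (δ t n) := by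
  obtain ⟨x, hx⟩ := hC.ne
  have h1 := abv_lt he hab hx
  have h2 : Tendsto (fun n => rdet e (t + δ t n + x)) (U : Filter ℕ) (𝓝 (rdet e (t + x))) := by
    have h3 : Tendsto (fun n => t + δ t n + x) (U : Filter ℕ) (𝓝 (t + 0 + x)) :=
      (tendsto_const_nhds.add (hδ t ht).2).add tendsto_const_nhds
    rw [add_zero] at h3
    exact ((rcont e).tendsto _).comp h3
  have h3 : ∀ᶠ n in (U : Filter ℕ), cn n < rdet e (t + δ t n + x) := hcn.eventually_lt h2 h1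
  filter_upwards [hF, (hδ t ht).1, h3] with n k1 k2 k3
  rcases k1 _ k2 with k4 | k4
  · have := k4 x (interior_subset hx)
    linarith
  · have := k4 y hy
    rw [show t + δ t n + y = t + y + δ t n by abel, rdet_add, hyc] at this
    exact this

/-- `Sm` for the tile of the exact cover at a point of the line. -/
lemma stz_sm {C C' : Set V} {W : Ultrafilter V} (hH : Ho C W C') {U : Ultrafilter ℕ}
    {Tn : ℕ → Set V} {δ : V → ℕ → V} {e' : V} (hS : Sg C U Tn δ e') {t t₂ x₀ : V} {l : ℝ}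
    (ht : t ∈ Lim U Tn) (ht₂ : t₂ ∈ Lim U Tn) (hx₀ : x₀ ∈ interior C)
    (h2 : t + x₀ + l • e' - t₂ ∈ C') : Sm U δ t t₂ := by
  have h3 := (hH.mem _).1 h2
  have h4 : ∀ᶠ w in (W : Filter V), x₀ + w ∈ interior C := by
    refine hH.w0 ?_
    have h5 : Tendsto (fun w : V => x₀ + w) (𝓝 0) (𝓝 (x₀ + 0)) := by
      apply Continuous.tendsto
      fun_prop
    rw [add_zero] at h5
    exact h5.eventually (isOpen_interior.mem_nhds hx₀)
  obtain ⟨w, h5, h6⟩ := (h3.and h4).exists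
  refine hS.2 t ht t₂ ht₂ _ h6 _ h5 ?_
  rw [show t₂ + (t + x₀ + l • e' - t₂ + w) = t + (x₀ + w) + l • e' by abel, rdet_add e' _ (l • e'),
    rsmul, rself]
  ring

theorem stz_height (hHO : T_HO) {C : Set V} (hC : Bdy C) {U : Ultrafilter ℕ} {Tn : ℕ → Set V}
    (hT : ∀ n, Til C (Tn n)) {δ : V → ℕ → V} (hδ : Ds U Tn δ) {e e' : V} (hee : rdet e e' ≠ 0)
    {cn : ℕ → ℝ} {c : ℝ} (hcn : Tendsto cn (U : Filter ℕ) (𝓝 c))
    (hF : ∀ᶠ n in (U : Filter ℕ), SF C e (Tn n) (cn n)) (hS : Sg C U Tn δ e') {t : V}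
    (ht : t ∈ Lim U Tn) : ∀ᶠ n in (U : Filter ℕ), rdet e (δ t n) = cn n - c := by
  have he : e ≠ 0 := by
    rintro rfl
    simp [rdet] at hee
  obtain ⟨hL, -⟩ := p_ULT C hC U Tn hT
  have hLF : SF C e (Lim U Tn) c := p_SFL C hC U Tn e cn c he hT hcn hF
  obtain ⟨x₀, hx₀⟩ := hC.ne
  set l : ℝ := (c - rdet e (t + x₀)) / rdet e e' with hl
  have hy : rdet e (t + x₀ + l • e') = c := by
    rw [rdet_add, rsmul, hl, div_mul_cancel₀ _ hee]
    ring
  obtain ⟨W, C', hH⟩ := hHO C hC e he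
  obtain ⟨W₁, C₁, hH₁⟩ := hHO C hC (-e) (neg_ne_zero.2 he)
  obtain ⟨t₂, ⟨ht₂, hyt₂⟩, -⟩ := hH.te _ hL (t + x₀ + l • e')
  obtain ⟨t₃, ⟨ht₃, hyt₃⟩, -⟩ := hH₁.te _ hL (t + x₀ + l • e')
  have a2 : t₂ ∈ Abv C e (Lim U Tn) c :=
    (hH.up _ c hL hLF _ t₂ ht₂ hyt₂).1 hy.ge
  have a3 : t₃ ∈ Abv C (-e) (Lim U Tn) (-c) :=
    (hH₁.up _ (-c) hL (sf_neg hLF) _ t₃ ht₃ hyt₃).1 (by rw [rneg_l, hy])
  have s2 := stz_sm hH.toHo hS ht ht₂ hx₀ hyt₂
  have s3 := stz_sm hH₁.toHo hS ht ht₃ hx₀ hyt₃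
  have u2 := stz_up hC hδ he hcn hF ht₂ a2.2 (hH.sub _ hyt₂)
    (by rw [show t₂ + (t + x₀ + l • e' - t₂) = t + x₀ + l • e' by abel, hy])
  have u3 := stz_up hC hδ (neg_ne_zero.2 he) hcn.neg (hF.mono fun n hn => sf_neg hn) ht₃ a3.2
    (hH₁.sub _ hyt₃)
    (by rw [show t₃ + (t + x₀ + l • e' - t₃) = t + x₀ + l • e' by abel, rneg_l, hy])
  filter_upwards [s2, s3, u2, u3] with n k1 k2 k3 k4
  rw [← k1] at k3
  rw [← k2, rneg_l] at k4
  linarith

/-- STZ. -/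
theorem p_STZ_of (hHO : T_HO) : T_STZ := by
  intro C hC U Tn hT δ hδ e e' hee cn c hcn hF hS t ht t' ht'
  have z1 := stz_height hHO hC hT hδ hee hcn hF hS ht
  have z2 := stz_height hHO hC hT hδ hee hcn hF hS ht'
  filter_upwards [z1, z2, hS.1 t ht t' ht'] with m b1 b2 b3
  exact PTA.stz_eq e e' _ _ hee (by rw [b1, b2]) b3

end Pool.Agent.PTG
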