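import Pool.Agent.PTG.Targets

/-!
# TCH: touching disc

A function which vanishes in an open disc and satisfies a difference relation with small vectors
transversal to the circle at the boundary point `p` vanishes near `p`.
-/

set_option autoImplicit false

namespace Pool.Agent.PTG

open Pool.Agent.PTR Filter Topology
open Pool.Agent.PTR.OL (V ii dif difs FLC InHull difs_nil difs_cons)

namespace TCH

lemma abs_dt (u v : V) : |dt u v| ≤ 2 * ‖u‖ * ‖v‖ := by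
  have h1 : |u.1| ≤ ‖u‖ := norm_fst_le u
  have h2 : |u.2| ≤ ‖u‖ := norm_snd_le u
  have h3 : |v.1| ≤ ‖v‖ := norm_fst_le v
  have h4 : |v.2| ≤ ‖v‖ := norm_snd_le v
  unfold dt
  calc |u.1 * v.1 + u.2 * v.2| ≤ |u.1 * v.1| + |u.2 * v.2| := abs_add_le _ _
    _ = |u.1| * |v.1| + |u.2| * |v.2| := by rw [abs_mul, abs_mul]
    _ ≤ ‖u‖ * ‖v‖ + ‖u‖ * ‖v‖ :=
        add_le_add (mul_le_mul h1 h3 (abs_nonneg _) (norm_nonneg _))
          (mul_le_mul h2 h4 (abs_nonneg _) (norm_nonneg _))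
    _ = 2 * ‖u‖ * ‖v‖ := by ring

lemma qd_le (u : V) : qd u ≤ 2 * ‖u‖ * ‖u‖ := (le_abs_self _).trans (abs_dt u u)

lemma qd_sub (u w : V) : qd (u - w) = qd u - 2 * dt u w + qd w := by
  simp only [qd, dt, Prod.fst_sub, Prod.snd_sub]
  ring

lemma dt_sub (x p c w : V) : dt (x - c) w = dt (p - c) w + dt (x - p) w := by
  simp only [dt, Prod.fst_sub, Prod.snd_sub]
  ring

lemma dt_neg (u w : V) : dt u (-w) = -dt u w := by
  simp only [dt, Prod.fst_neg, Prod.snd_neg]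
  ring

lemma step {c p : V} {κ d C : ℝ} {w : V} {f : V → ℤ}
    (hw : κ * ‖w‖ ≤ dt (p - c) w) (hd : d ≤ κ / 4) (hw1 : ‖w‖ ≤ κ / 4)
    (hrel : ∀ x, ‖x - p‖ ≤ d → f x = f (x - w))
    (hdeep : ∀ y, ‖y - p‖ ≤ d → qd (y - c) < qd (p - c) - C → f y = 0) (k : ℕ) :
    ∀ x, ‖x - p‖ + k * ‖w‖ ≤ d → qd (x - c) < qd (p - c) - C + k * (κ / 2 * ‖w‖) →
      f x = 0 := by
  induction k with
  | zero =>
    intro x h1 h2
    exact hdeep x (by simpa using h1) (by simpa using h2)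
  | succ k ih =>
    intro x h1 h2
    push_cast at h1 h2
    have hn := norm_nonneg w
    have hk : 0 ≤ (k : ℝ) * ‖w‖ := by positivity
    have h3 : ‖x - p‖ ≤ d := by nlinarith
    rw [hrel x h3]
    refine ih (x - w) ?_ ?_
    · have h4 : ‖x - w - p‖ ≤ ‖x - p‖ + ‖w‖ := by
        have e : x - w - p = (x - p) - w := by abel
        rw [e]
        exact norm_sub_le _ _
      linarith
    · have e : x - w - c = (x - c) - w := by abel
      rw [e, qd_sub, dt_sub x p c w]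
      have h6 := abs_le.1 (abs_dt (x - p) w)
      have h7 := qd_le w
      have h8 : 2 * ‖x - p‖ * ‖w‖ ≤ κ / 2 * ‖w‖ :=
        mul_le_mul_of_nonneg_right (by linarith) hn
      have h9 : 2 * ‖w‖ * ‖w‖ ≤ κ / 2 * ‖w‖ :=
        mul_le_mul_of_nonneg_right (by linarith) hn
      nlinarith [h6.1]

lemma big {c p : V} {κ d d' E C : ℝ} {w : V} {f : V → ℤ} (hκ : 0 < κ) (hw0 : w ≠ 0)
    (hw : κ * ‖w‖ ≤ dt (p - c) w) (hd : d ≤ κ / 4) (hw1 : ‖w‖ ≤ κ / 4)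
    (hrel : ∀ x, ‖x - p‖ ≤ d → f x = f (x - w))
    (hdeep : ∀ y, ‖y - p‖ ≤ d → qd (y - c) < qd (p - c) - C → f y = 0)
    (hE : ∀ x, ‖x - p‖ ≤ d' → qd (x - c) ≤ qd (p - c) + E) (hEC : 0 ≤ E + C)
    (hs : d' + (E + C) * (2 / κ) + ‖w‖ ≤ d) (x : V) (hx : ‖x - p‖ ≤ d') : f x = 0 := by
  have hn : 0 < ‖w‖ := norm_pos_iff.2 hw0
  have ha : 0 < κ / 2 * ‖w‖ := by positivity
  have h1 : (E + C) / (κ / 2 * ‖w‖) < (⌊(E + C) / (κ / 2 * ‖w‖)⌋₊ + 1 : ℕ) := by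
    push_cast
    exact Nat.lt_floor_add_one _
  have h2 : ((⌊(E + C) / (κ / 2 * ‖w‖)⌋₊ + 1 : ℕ) : ℝ) ≤ (E + C) / (κ / 2 * ‖w‖) + 1 := by
    push_cast
    linarith [Nat.floor_le (div_nonneg hEC ha.le)]
  refine step hw hd hw1 hrel hdeep (⌊(E + C) / (κ / 2 * ‖w‖)⌋₊ + 1) x ?_ ?_
  · have h3 : ((⌊(E + C) / (κ / 2 * ‖w‖)⌋₊ + 1 : ℕ) : ℝ) * ‖w‖ ≤
        (E + C) * (2 / κ) + ‖w‖ := by
      calc ((⌊(E + C) / (κ / 2 * ‖w‖)⌋₊ + 1 : ℕ) : ℝ) * ‖w‖
          ≤ ((E + C) / (κ / 2 * ‖w‖) + 1) * ‖w‖ := mul_le_mul_of_nonneg_right h2 hn.le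
        _ = (E + C) * (2 / κ) + ‖w‖ := by
          field_simp
    linarith
  · have h4 := (div_lt_iff₀ ha).1 h1
    have h5 := hE x hx
    linarith

lemma both {c p : V} {κ d d' E C : ℝ} {w : V} {f : V → ℤ} (hκ : 0 < κ) (hw0 : w ≠ 0)
    (hw : κ * ‖w‖ ≤ |dt (p - c) w|) (hd : d ≤ κ / 4) (hw1 : ‖w‖ ≤ κ / 4)
    (hrel : ∀ x, ‖x - p‖ ≤ d → f x = f (x - w))
    (hdeep : ∀ y, ‖y - p‖ ≤ d → qd (y - c) < qd (p - c) - C → f y = 0)
    (hE : ∀ x, ‖x - p‖ ≤ d' → qd (x - c) ≤ qd (p - c) + E) (hEC : 0 ≤ E + C)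
    (hs : d' + (E + C) * (2 / κ) + 2 * ‖w‖ ≤ d) (x : V) (hx : ‖x - p‖ ≤ d') : f x = 0 := by
  have hn : 0 < ‖w‖ := norm_pos_iff.2 hw0
  rcases le_total 0 (dt (p - c) w) with h | h
  · rw [abs_of_nonneg h] at hw
    exact big hκ hw0 hw hd hw1 hrel hdeep hE hEC (by linarith) x hx
  · rw [abs_of_nonpos h] at hw
    refine big (d := d - ‖w‖) (w := -w) (C := C) (E := E) (d' := d') hκ (neg_ne_zero.2 hw0)
      (by rw [norm_neg, dt_neg]; exact hw) (by linarith) (by rw [norm_neg]; exact hw1)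
      (fun y hy => ?_) (fun y hy h2 => hdeep y (by linarith) h2) hE hEC
      (by rw [norm_neg]; linarith) x hx
    have h3 := hrel (y + w) (by
      have e : y + w - p = (y - p) + w := by abel
      rw [e]
      exact (norm_add_le _ _).trans (by linarith))
    rw [add_sub_cancel_right] at h3
    rw [sub_neg_eq_add, h3]

lemma deep {c p : V} {δ : ℝ} {h : V → ℤ} (hδ : δ ≤ 1)
    (h0 : ∀ x, qd (x - c) < qd (p - c) → h x = 0) (L : List V) :
    (∀ w ∈ L, ‖w‖ ≤ δ) → ∀ y, ‖y - p‖ + L.length * δ ≤ 2 →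
    qd (y - c) + L.length * ((4 * (‖p - c‖ + 2) + 2) * δ) < qd (p - c) →
    difs L h y = 0 := by
  induction L with
  | nil =>
    intro _ y _ h2
    rw [difs_nil]
    exact h0 y (by simpa using h2)
  | cons w L ih =>
    intro hL y h1 h2
    rw [List.length_cons] at h1 h2
    push_cast at h1 h2
    have hw : ‖w‖ ≤ δ := hL w List.mem_cons_self
    have hn := norm_nonneg w
    have hδ0 : 0 ≤ δ := hn.trans hw
    have hP := norm_nonneg (p - c)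
    have hB : 0 ≤ (4 * (‖p - c‖ + 2) + 2) * δ := by positivity
    have hlen : (0 : ℝ) ≤ (L.length : ℝ) * δ := by positivity
    rw [difs_cons]
    change difs L h y - difs L h (y - w) = 0
    rw [ih (fun v hv => hL v (List.mem_cons_of_mem _ hv)) y (by nlinarith) (by nlinarith),
      ih (fun v hv => hL v (List.mem_cons_of_mem _ hv)) (y - w) ?_ ?_, sub_zero]
    · have h4 : ‖y - w - p‖ ≤ ‖y - p‖ + ‖w‖ := by
        have e : y - w - p = (y - p) - w := by abel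
        rw [e]
        exact norm_sub_le _ _
      linarith
    · have e : y - w - c = (y - c) - w := by abel
      rw [e, qd_sub]
      have h5 : ‖y - c‖ ≤ ‖p - c‖ + 2 := by
        have e : y - c = (y - p) + (p - c) := by abel
        rw [e]
        exact (norm_add_le _ _).trans (by linarith)
      have h6 := abs_le.1 (abs_dt (y - c) w)
      have h7 := qd_le w
      have h8 : 2 * ‖y - c‖ * ‖w‖ ≤ 2 * (‖p - c‖ + 2) * δ :=
        mul_le_mul (by linarith) hw hn (by positivity)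
      have h9 : 2 * ‖w‖ * ‖w‖ ≤ 2 * δ := by nlinarith
      linarith [h6.1]

lemma qd_near {c p x : V} {d : ℝ} (hd : d ≤ 1) (hx : ‖x - p‖ ≤ d) :
    qd (x - c) ≤ qd (p - c) + (4 * ‖p - c‖ + 2) * d := by
  have e : x - c = (p - c) - (p - x) := by abel
  rw [e, qd_sub]
  have h0 : ‖p - x‖ ≤ d := by rw [norm_sub_rev]; exact hx
  have hn := norm_nonneg (p - x)
  have hP := norm_nonneg (p - c)
  have h6 := abs_le.1 (abs_dt (p - c) (p - x))
  have h7 := qd_le (p - x)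
  have h8 : 2 * ‖p - c‖ * ‖p - x‖ ≤ 2 * ‖p - c‖ * d :=
    mul_le_mul_of_nonneg_left h0 (by positivity)
  have h9 : 2 * ‖p - x‖ * ‖p - x‖ ≤ 2 * d := by nlinarith
  linarith [h6.1]

lemma main {c p : V} {κ δ d₀ q : ℝ} {m : ℕ} {h : V → ℤ} (hκ : 0 < κ) (hδ : δ ≤ 1)
    (hδ0 : 0 < δ) (hδκ : δ ≤ κ / 4) (hmδ : m * δ ≤ 1) (hd1 : d₀ ≤ 1) (hdκ : d₀ ≤ κ / 4)
    (hd0 : 0 < d₀) (hq0 : 0 < q) (hq1 : q ≤ 1)
    (hq : q * (1 + (4 * ‖p - c‖ + 2) * (2 / κ)) ≤ 1 / 2)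
    (hs : (m * ((4 * (‖p - c‖ + 2) + 2) * δ)) * (2 / κ) + 2 * δ ≤ d₀ * q ^ m / 2)
    (h0 : ∀ x, qd (x - c) < qd (p - c) → h x = 0) (L : List V) :
    (∀ w ∈ L, w ≠ 0 ∧ ‖w‖ ≤ δ ∧ κ * ‖w‖ ≤ |dt (p - c) w|) → ∀ j : ℕ, j + L.length ≤ m →
    (∀ x, ‖x - p‖ ≤ d₀ * q ^ j → difs L h x = 0) →
    ∀ x, ‖x - p‖ ≤ d₀ * q ^ (j + L.length) → h x = 0 := by
  induction L with
  | nil =>
    intro _ j _ hr x hx
    have h1 := hr x (by simpa using hx)
    rwa [difs_nil] at h1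
  | cons w L ih =>
    intro hL j hj hr x hx
    rw [List.length_cons] at hj hx
    obtain ⟨hw0, hw1, hw2⟩ := hL w List.mem_cons_self
    have hP := norm_nonneg (p - c)
    refine ih (fun v hv => hL v (List.mem_cons_of_mem _ hv)) (j + 1) (by omega) ?_ x
      (by rw [show j + 1 + L.length = j + (L.length + 1) by omega]; exact hx)
    have hqj : q ^ m ≤ q ^ j := pow_le_pow_of_le_one hq0.le hq1 (by omega)
    have hqj1 : q ^ j ≤ 1 := pow_le_one₀ hq0.le hq1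
    have hqj0 : 0 < q ^ j := pow_pos hq0 j
    have hdj : d₀ * q ^ j ≤ d₀ := by nlinarith
    have hdj1 : d₀ * q ^ (j + 1) ≤ 1 := by
      rw [pow_succ]
      have : d₀ * (q ^ j * q) ≤ d₀ * 1 := mul_le_mul_of_nonneg_left (by nlinarith) hd0.le
      linarith
    have hdjp : 0 < d₀ * q ^ (j + 1) := mul_pos hd0 (pow_pos hq0 _)
    have hC0 : 0 ≤ m * ((4 * (‖p - c‖ + 2) + 2) * δ) := by positivity
    have hlen : (L.length : ℝ) ≤ m := by exact_mod_cast (by omega : L.length ≤ m)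
    refine both (d := d₀ * q ^ j) (d' := d₀ * q ^ (j + 1))
      (E := (4 * ‖p - c‖ + 2) * (d₀ * q ^ (j + 1)))
      (C := m * ((4 * (‖p - c‖ + 2) + 2) * δ)) (f := difs L h) hκ hw0 hw2
      (hdj.trans hdκ) (hw1.trans hδκ) (fun y hy => ?_) (fun y hy h2 => ?_)
      (fun y hy => qd_near hdj1 hy) (by positivity) ?_
    · have h3 := hr y hy
      rw [difs_cons] at h3
      exact sub_eq_zero.1 h3
    · refine deep hδ h0 L (fun v hv => (hL v (List.mem_cons_of_mem _ hv)).2.1) y ?_ ?_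
      · have : (L.length : ℝ) * δ ≤ m * δ := mul_le_mul_of_nonneg_right hlen hδ0.le
        linarith
      · have : (L.length : ℝ) * ((4 * (‖p - c‖ + 2) + 2) * δ) ≤
            m * ((4 * (‖p - c‖ + 2) + 2) * δ) :=
          mul_le_mul_of_nonneg_right hlen (by positivity)
        linarith
    · have h4 : d₀ * q ^ m / 2 ≤ d₀ * q ^ j / 2 := by nlinarith
      have h5 : d₀ * q ^ (j + 1) * (1 + (4 * ‖p - c‖ + 2) * (2 / κ)) ≤ d₀ * q ^ j * (1 / 2) := by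
        rw [pow_succ]
        have : d₀ * q ^ j * (q * (1 + (4 * ‖p - c‖ + 2) * (2 / κ))) ≤ d₀ * q ^ j * (1 / 2) :=
          mul_le_mul_of_nonneg_left hq (by positivity)
        linarith
      have h6 : d₀ * q ^ (j + 1) + ((4 * ‖p - c‖ + 2) * (d₀ * q ^ (j + 1)) +
          m * ((4 * (‖p - c‖ + 2) + 2) * δ)) * (2 / κ) + 2 * δ =
          d₀ * q ^ (j + 1) * (1 + (4 * ‖p - c‖ + 2) * (2 / κ)) +
          ((m * ((4 * (‖p - c‖ + 2) + 2) * δ)) * (2 / κ) + 2 * δ) := by ring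
      linarith

end TCH

theorem p_TCH : T_TCH := by
  intro c p κ δ₁ m hκ hδ₁ _
  have hP := norm_nonneg (p - c)
  obtain ⟨A, hA⟩ : ∃ A : ℝ, A = 1 + (4 * ‖p - c‖ + 2) * (2 / κ) := ⟨_, rfl⟩
  have hA1 : 1 ≤ A := by
    rw [hA]
    have : 0 ≤ (4 * ‖p - c‖ + 2) * (2 / κ) := by positivity
    linarith
  obtain ⟨q, hq⟩ : ∃ q : ℝ, q = 1 / (2 * A) := ⟨_, rfl⟩
  have hq0 : 0 < q := by rw [hq]; positivity
  have hq1 : q ≤ 1 := by
    rw [hq, div_le_one (by positivity)]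
    linarith
  obtain ⟨d₀, hd⟩ : ∃ d₀ : ℝ, d₀ = min (min 1 (κ / 4)) δ₁ := ⟨_, rfl⟩
  have hd0 : 0 < d₀ := by rw [hd]; positivity
  have hd1 : d₀ ≤ 1 := by rw [hd]; exact (min_le_left _ _).trans (min_le_left _ _)
  have hdκ : d₀ ≤ κ / 4 := by rw [hd]; exact (min_le_left _ _).trans (min_le_right _ _)
  have hdδ : d₀ ≤ δ₁ := by rw [hd]; exact min_le_right _ _
  obtain ⟨K, hK⟩ : ∃ K : ℝ, K = (m * (4 * (‖p - c‖ + 2) + 2)) * (2 / κ) + 2 := ⟨_, rfl⟩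
  have hK0 : 0 < K := by rw [hK]; positivity
  obtain ⟨δ, hδ⟩ : ∃ δ : ℝ, δ = min (min 1 (κ / 4)) (min (1 / (m + 1)) (d₀ * q ^ m / 2 / K)) :=
    ⟨_, rfl⟩
  have hδ0 : 0 < δ := by rw [hδ]; positivity
  have hδ1 : δ ≤ 1 := by rw [hδ]; exact (min_le_left _ _).trans (min_le_left _ _)
  have hδκ : δ ≤ κ / 4 := by rw [hδ]; exact (min_le_left _ _).trans (min_le_right _ _)
  have hδm : δ ≤ 1 / (m + 1) := by rw [hδ]; exact (min_le_right _ _).trans (min_le_left _ _)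
  have hδK : δ ≤ d₀ * q ^ m / 2 / K := by
    rw [hδ]
    exact (min_le_right _ _).trans (min_le_right _ _)
  have hmδ : m * δ ≤ 1 := by
    have h1 : (0 : ℝ) < m + 1 := by positivity
    have h2 := (le_div_iff₀ h1).1 hδm
    nlinarith
  refine ⟨δ, hδ0, fun L hLm hL h h0 hr => ?_⟩
  have hfin := TCH.main (c := c) (p := p) (κ := κ) (δ := δ) (d₀ := d₀) (q := q) (m := m) (h := h)
    hκ hδ1 hδ0 hδκ hmδ hd1 hdκ hd0 hq0 hq1
    (by
      rw [← hA, hq]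
      apply le_of_eq
      field_simp)
    (by
      have h2 := (le_div_iff₀ hK0).1 hδK
      have h3 : (m * ((4 * (‖p - c‖ + 2) + 2) * δ)) * (2 / κ) + 2 * δ = δ * K := by
        rw [hK]
        ring
      rw [h3]
      exact h2)
    h0 L (fun w hw => ⟨(hL w hw).1, (hL w hw).2.1.le, (hL w hw).2.2⟩) 0 (by omega)
    (fun x hx => hr x (by
      rw [pow_zero, mul_one] at hx
      exact hx.trans hdδ))
  rw [Metric.eventually_nhds_iff]
  refine ⟨d₀ * q ^ (0 + L.length), by positivity, fun x hx => hfin x ?_⟩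
  rw [dist_eq_norm] at hx
  exact hx.le

end Pool.Agent.PTG
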