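import Pool.Agent.PTG.Targets

/-!
# PTG: the class function of an ultralimit of tilings (TCL)
-/

set_option autoImplicit false

namespace Pool.Agent.PTG

open Pool.Agent.PTR Filter Topology
open Pool.Agent.PTR.OL (V ii dif difs FLC InHull)
open Pool.Agent.PTP (Til TDP Iv wd SF Abv Stp Stk Ds Sm)
open Pool.Agent.PTA (Dir)

/-- The representative of the germ of `f` is eventually equal to `f`. -/
lemma TCL_out {U : Ultrafilter ℕ} (f : ℕ → V) :
    ∀ᶠ n in (U : Filter ℕ), Quotient.out (f : Germ (U : Filter ℕ) V) n = f n := by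
  have h : ((Quotient.out (f : Germ (U : Filter ℕ) V) : ℕ → V) : Germ (U : Filter ℕ) V) =
      (f : Germ (U : Filter ℕ) V) := Quotient.out_eq _
  exact Germ.coe_eq.1 h

theorem p_TCL_of (hSEP : T_SEP) (hULT : T_ULT) (hULB : T_ULB) : T_TCL := by
  intro C W C' hC hW U Tn hT δ hδ
  obtain ⟨hTil, -⟩ := hULT C hC U Tn hT
  have hE : ECov C' (Lim U Tn) := hW.te _ hTil
  obtain ⟨ρ, hρ, hsep⟩ := hSEP C hC
  obtain ⟨-, hfin⟩ := hsep (Lim U Tn) hTil.2
  obtain ⟨K, hK⟩ := hC.cpt.isBounded.exists_norm_le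
  have hex : ∀ x : V, ∃ t, (t ∈ Lim U Tn ∧ x - t ∈ C') ∧
      ∀ t', t' ∈ Lim U Tn ∧ x - t' ∈ C' → t' = t := fun x => hE x
  choose tt htt huni using hex
  have httn : ∀ x : V, ‖tt x‖ ≤ ‖x‖ + K := by
    intro x
    have h1 : tt x = x - (x - tt x) := by abel
    rw [h1]
    exact (norm_sub_le _ _).trans (add_le_add le_rfl (hK _ (hW.sub _ (htt x).2)))
  -- the main eventual facts
  have hA : ∀ R : ℝ, ∀ᶠ n in (U : Filter ℕ), ∀ t ∈ Lim U Tn, ‖t‖ ≤ R →
      t + δ t n ∈ Tn n ∧ ‖δ t n‖ < 1 ∧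
        Quotient.out (δ t : Germ (U : Filter ℕ) V) n = δ t n := by
    intro R
    have h1 : ∀ t ∈ {t | t ∈ Lim U Tn ∧ ‖t‖ ≤ R}, ∀ᶠ n in (U : Filter ℕ),
        t + δ t n ∈ Tn n ∧ ‖δ t n‖ < 1 ∧
          Quotient.out (δ t : Germ (U : Filter ℕ) V) n = δ t n := by
      intro t ht
      have h2 : ∀ᶠ n in (U : Filter ℕ), ‖δ t n‖ < 1 := by
        have h3 : Tendsto (fun n => ‖δ t n‖) (U : Filter ℕ) (𝓝 0) := by
          have := (hδ t ht.1).2.norm
          rwa [norm_zero] at this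
        exact h3.eventually (gt_mem_nhds one_pos)
      exact (hδ t ht.1).1.and (h2.and (TCL_out _))
    have h4 := (Filter.eventually_all_finite (hfin R)).2 h1
    filter_upwards [h4] with n hn t ht htR
    exact hn t ⟨ht, htR⟩
  have hD : ∀ R : ℝ, ∀ᶠ n in (U : Filter ℕ), ∀ t ∈ Lim U Tn, ‖t‖ ≤ R →
      ∀ t' ∈ Lim U Tn, ‖t'‖ ≤ R → t + δ t n = t' + δ t' n → t = t' := by
    intro R
    have h1 : ∀ t ∈ {t | t ∈ Lim U Tn ∧ ‖t‖ ≤ R}, ∀ᶠ n in (U : Filter ℕ),
        ∀ t' ∈ {t | t ∈ Lim U Tn ∧ ‖t‖ ≤ R}, t + δ t n = t' + δ t' n → t = t' := by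
      intro t ht
      refine (Filter.eventually_all_finite (hfin R)).2 fun t' ht' => ?_
      by_cases hne : t = t'
      · exact Eventually.of_forall fun n _ => hne
      · have h2 : Tendsto (fun n => (t + δ t n) - (t' + δ t' n)) (U : Filter ℕ)
            (𝓝 (t - t')) := by
          have h3 := ((tendsto_const_nhds (x := t)).add (hδ t ht.1).2).sub
            ((tendsto_const_nhds (x := t')).add (hδ t' ht'.1).2)
          rwa [add_zero, add_zero] at h3
        have h4 := h2.eventually_ne (sub_ne_zero.2 hne)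
        filter_upwards [h4] with n hn heq
        exact absurd (sub_eq_zero.2 heq) hn
    have h4 := (Filter.eventually_all_finite (hfin R)).2 h1
    filter_upwards [h4] with n hn t ht htR t' ht' htR'
    exact hn t ⟨ht, htR⟩ t' ⟨ht', htR'⟩
  have hB : ∀ R : ℝ, ∀ᶠ n in (U : Filter ℕ), ∀ s ∈ Tn n, ‖s‖ ≤ R →
      ∃ t ∈ Lim U Tn, ‖t‖ ≤ R + 1 ∧ s = t + δ t n := by
    intro R
    by_contra hcon
    have hcon' : ∀ᶠ n in (U : Filter ℕ), ¬ ∀ s ∈ Tn n, ‖s‖ ≤ R →
        ∃ t ∈ Lim U Tn, ‖t‖ ≤ R + 1 ∧ s = t + δ t n := Ultrafilter.eventually_not.2 hcon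
    have hch : ∀ n : ℕ, ∃ s : V, (¬ ∀ s ∈ Tn n, ‖s‖ ≤ R →
        ∃ t ∈ Lim U Tn, ‖t‖ ≤ R + 1 ∧ s = t + δ t n) →
        s ∈ Tn n ∧ ‖s‖ ≤ R ∧ ¬ ∃ t ∈ Lim U Tn, ‖t‖ ≤ R + 1 ∧ s = t + δ t n := by
      intro n
      by_cases h : ∀ s ∈ Tn n, ‖s‖ ≤ R → ∃ t ∈ Lim U Tn, ‖t‖ ≤ R + 1 ∧ s = t + δ t n
      · exact ⟨0, fun h' => absurd h h'⟩
      · have h' := h
        push Not at h'
        obtain ⟨s, h1, h2, h3⟩ := h'
        refine ⟨s, fun _ => ⟨h1, h2, ?_⟩⟩
        rintro ⟨t, h4, h5, h6⟩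
        exact h3 t h4 h5 h6
    choose f hf using hch
    have hf' : ∀ᶠ n in (U : Filter ℕ), f n ∈ Tn n ∧ ‖f n‖ ≤ R ∧
        ¬ ∃ t ∈ Lim U Tn, ‖t‖ ≤ R + 1 ∧ f n = t + δ t n := by
      filter_upwards [hcon'] with n hn
      exact hf n hn
    obtain ⟨t, ht, htf⟩ := hULB C hC U Tn hT δ hδ f R (hf'.mono fun n h => h.1)
      (hf'.mono fun n h => h.2.1)
    have h3 : Tendsto (fun n => ‖δ t n‖) (U : Filter ℕ) (𝓝 0) := by
      have := (hδ t ht).2.norm
      rwa [norm_zero] at this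
    have h2 : ∀ᶠ n in (U : Filter ℕ), ‖δ t n‖ < 1 := h3.eventually (gt_mem_nhds one_pos)
    obtain ⟨n, ⟨h4, h5⟩, h6, h7⟩ := ((htf.and h2).and hf').exists
    refine h7.2 ⟨t, ht, ?_, h4⟩
    have h8 : t = f n - δ t n := by rw [h4]; abel
    rw [h8]
    exact (norm_sub_le _ _).trans (add_le_add h7.1 h5.le)
  -- the class function
  refine ⟨fun x => (δ (tt x) : Germ (U : Filter ℕ) V), fun g => Quotient.out g, ?_, ?_⟩
  · have hcl : ∀ t ∈ Lim U Tn, ∀ x, x - t ∈ C' → tt x = t := fun t ht x hx =>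
      (huni x t ⟨ht, hx⟩).symm
    refine ⟨fun x => ?_, fun x y hxy => ?_, fun R => ?_, fun R => ?_, ?_⟩
    · refine (hδ (tt x) (htt x).1).2.congr' ?_
      filter_upwards [TCL_out (U := U) (δ (tt x))] with n hn
      exact hn.symm
    · have h1 : ¬ ∀ᶠ n in (U : Filter ℕ), δ (tt x) n = δ (tt y) n := by
        intro h
        exact hxy (Germ.coe_eq.2 h)
      filter_upwards [Ultrafilter.eventually_not.2 h1, TCL_out (U := U) (δ (tt x)),
        TCL_out (U := U) (δ (tt y))] with n h2 h3 h4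
      rw [h3, h4]
      exact h2
    · refine ((hfin (R + K)).image fun t => (δ t : Germ (U : Filter ℕ) V)).subset ?_
      rintro i ⟨x, hx, rfl⟩
      exact ⟨tt x, ⟨(htt x).1, (httn x).trans (by linarith)⟩, rfl⟩
    · filter_upwards [hA (R + K + 2), hD (R + K + 2), hB (R + K)] with n h1 h2 h3 x hx
      obtain ⟨s, ⟨hs1, hs2⟩, hs3⟩ := hW.te _ (hT n) x
      have hsn : ‖s‖ ≤ R + K := by
        have h4 : s = x - (x - s) := by abel
        rw [h4]
        exact (norm_sub_le _ _).trans (add_le_add hx (hK _ (hW.sub _ hs2)))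
      obtain ⟨t, ht, htR, hst⟩ := h3 s hs1 hsn
      obtain ⟨h5, h6, h7⟩ := h1 t ht (by linarith)
      have h8 : tt (x - δ t n) = t := by
        refine hcl t ht _ ?_
        have : x - δ t n - t = x - s := by rw [hst]; abel
        rw [this]
        exact hs2
      refine ⟨(δ t : Germ (U : Filter ℕ) V), ⟨⟨x - δ t n, ?_, ?_⟩, ?_⟩, ?_⟩
      · exact (norm_sub_le _ _).trans (by linarith)
      · simp only [h8]
      · simp only [h7, h8]
      · rintro j ⟨⟨y, hy, rfl⟩, hj⟩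
        obtain ⟨g5, g6, g7⟩ := h1 (tt y) (htt y).1 ((httn y).trans (by linarith))
        simp only [g7] at hj
        have hn1 : ‖x - δ (tt y) n‖ ≤ R + 1 := (norm_sub_le _ _).trans (by linarith)
        set t' := tt (x - δ (tt y) n) with ht'
        have hn2 : ‖t'‖ ≤ R + K + 2 := by
          have := httn (x - δ (tt y) n)
          rw [← ht'] at this
          linarith
        have ht'L : t' ∈ Lim U Tn := (htt _).1
        obtain ⟨k5, k6, k7⟩ := h1 t' ht'L hn2
        have hδe : δ (tt y) n = δ t' n := by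
          rw [← g7, ← k7, hj]
        have hmem : x - (t' + δ t' n) ∈ C' := by
          have h9 := (htt (x - δ (tt y) n)).2
          rw [← ht', hδe] at h9
          have : x - (t' + δ t' n) = x - δ t' n - t' := by abel
          rw [this]
          exact h9
        have h10 : t' + δ t' n = s := hs3 _ ⟨k5, hmem⟩
        have h11 : t' = t := h2 t' ht'L hn2 t ht (by linarith) (by rw [h10, hst])
        rw [← h11]
        exact hj.symm
    · refine ⟨W, hW.w0, fun x => ?_⟩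
      have h1 := (hW.mem _).1 (htt x).2
      filter_upwards [h1] with w hw
      have h2 : x - tt x + w = x + w - tt x := by abel
      rw [h2] at hw
      have h3 : tt (x + w) = tt x := hcl _ (htt x).1 _ (hW.int _ hw)
      refine ⟨by simp only [h3], ?_⟩
      have h4 : ∀ᶠ y in 𝓝 (x + w), y - tt x ∈ interior C := by
        have h5 : Tendsto (fun y : V => y - tt x) (𝓝 (x + w)) (𝓝 (x + w - tt x)) :=
          tendsto_id.sub tendsto_const_nhds
        exact h5.eventually (isOpen_interior.mem_nhds hw)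
      filter_upwards [h4] with y hy
      have h6 : tt y = tt x := hcl _ (htt x).1 _ (hW.int _ hy)
      simp only [h6, h3]
  · intro t ht x hx
    have h1 : tt x = t := (huni x t ⟨ht, hx⟩).symm
    simp only [h1]
    exact ⟨trivial, TCL_out _⟩

end Pool.Agent.PTG
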