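import Pool.Agent.PTG.Targets

/-!
# PTG: change of the period in the transform (T_TRQ)
-/

set_option autoImplicit false

namespace Pool.Agent.PTG

namespace TRQ

open Finset

/-- Finite support of the sequence of translates. -/
theorem supp_sub (q b : ℝ) (hq : 0 < q) (f : ℝ → ℂ) (hf : ∀ x, x ∉ Set.Icc (-b) b → f x = 0)
    (x : ℝ) : (Function.support fun j : ℤ => f (x + j * q)) ⊆
      ((Finset.Icc ⌈(-b - x) / q⌉ ⌊(b - x) / q⌋ : Finset ℤ) : Set ℤ) := by
  intro j hj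
  have h1 : x + j * q ∈ Set.Icc (-b) b := by
    by_contra h
    exact hj (hf _ h)
  rw [Finset.mem_coe, Finset.mem_Icc]
  constructor
  · rw [Int.ceil_le, div_le_iff₀ hq]
    linarith [h1.1]
  · rw [Int.le_floor, le_div_iff₀ hq]
    linarith [h1.2]

theorem supp_fin (q b : ℝ) (hq : 0 < q) (f : ℝ → ℂ) (hf : ∀ x, x ∉ Set.Icc (-b) b → f x = 0)
    (x : ℝ) : (Function.support fun j : ℤ => f (x + j * q)).Finite :=
  (Finset.finite_toSet _).subset (supp_sub q b hq f hf x)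

/-- The sum over the translates is bounded. -/
theorem prd_bdd (q b M : ℝ) (hq : 0 < q) (f : ℝ → ℂ)
    (hf : ∀ x, x ∉ Set.Icc (-b) b → f x = 0) (hM : ∀ x, ‖f x‖ ≤ M) :
    ∃ B : ℝ, ∀ x, ‖prd q f x‖ ≤ B := by
  have hM0 : 0 ≤ M := (norm_nonneg _).trans (hM 0)
  refine ⟨(⌈2 * b / q⌉₊ + 1 : ℕ) * M, fun x => ?_⟩
  have h1 : prd q f x =
      ∑ j ∈ Finset.Icc ⌈(-b - x) / q⌉ ⌊(b - x) / q⌋, f (x + j * q) :=
    finsum_eq_sum_of_support_subset _ (supp_sub q b hq f hf x)
  rw [h1]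
  refine (norm_sum_le _ _).trans ?_
  refine (Finset.sum_le_card_nsmul _ _ M fun j _ => hM _).trans ?_
  rw [nsmul_eq_mul]
  refine mul_le_mul_of_nonneg_right ?_ hM0
  have h2 : (Finset.Icc ⌈(-b - x) / q⌉ ⌊(b - x) / q⌋).card ≤ ⌈2 * b / q⌉₊ + 1 := by
    rw [Int.card_Icc, Int.toNat_le]
    have h3 : ((⌊(b - x) / q⌋ + 1 - ⌈(-b - x) / q⌉ : ℤ) : ℝ) ≤
        (((⌈2 * b / q⌉₊ + 1 : ℕ) : ℤ) : ℝ) := by
      push_cast
      have h4 := Int.floor_le ((b - x) / q)
      have h5 := Int.le_ceil ((-b - x) / q)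
      have h6 := Nat.le_ceil (2 * b / q)
      have h7 : (b - x) / q - (-b - x) / q = 2 * b / q := by
        rw [← sub_div]
        congr 1
        ring
      linarith
    exact_mod_cast h3
  exact_mod_cast h2

/-- Splitting the sum over the translates. -/
theorem prd_split (q b : ℝ) (hq : 0 < q) (f : ℝ → ℂ)
    (hf : ∀ x, x ∉ Set.Icc (-b) b → f x = 0) (k : ℕ) (hk : 0 < k) (x : ℝ) :
    prd q f x = ∑ r ∈ Finset.range k, prd (k * q) f (x + r * q) := by
  haveI : NeZero k := ⟨hk.ne'⟩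
  let e : Fin k × ℤ ≃ ℤ := (Equiv.prodComm _ _).trans (Int.divModEquiv k).symm
  have he : ∀ p : Fin k × ℤ, e p = p.2 * k + (p.1 : ℕ) := fun p => rfl
  have h1 : prd q f x = ∑ᶠ p : Fin k × ℤ, f (x + (e p : ℤ) * q) := by
    unfold prd
    exact (finsum_comp_equiv e (f := fun j : ℤ => f (x + j * q))).symm
  have hfin : (Function.support fun p : Fin k × ℤ => f (x + (e p : ℤ) * q)).Finite := by
    have h2 := supp_fin q b hq f hf x
    have h3 : (Function.support fun p : Fin k × ℤ => f (x + (e p : ℤ) * q)) =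
        e ⁻¹' (Function.support fun j : ℤ => f (x + j * q)) := rfl
    rw [h3]
    exact h2.preimage (e.injective.injOn)
  rw [h1, finsum_curry _ hfin, finsum_eq_sum_of_fintype, Finset.sum_range]
  refine Finset.sum_congr rfl fun r _ => ?_
  unfold prd
  refine finsum_congr fun a => ?_
  rw [he]
  congr 1
  push_cast
  ring

theorem sum_bdd (g : ℝ → ℂ) (B q : ℝ) (hB : ∀ x, ‖g x‖ ≤ B) (n : ℕ) (x : ℝ) :
    ‖∑ r ∈ Finset.range n, g (x + r * q)‖ ≤ n * B := by
  refine (norm_sum_le _ _).trans ?_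
  refine (Finset.sum_le_card_nsmul _ _ B fun j _ => hB _).trans ?_
  rw [nsmul_eq_mul, Finset.card_range]

theorem mean_sum (m : MR) (g : ℝ → ℂ) (B q : ℝ) (hB : ∀ x, ‖g x‖ ≤ B) (n : ℕ) :
    m.E (fun x => ∑ r ∈ Finset.range n, g (x + r * q)) = n * m.E g := by
  induction n with
  | zero =>
    have h1 : ‖m.E (fun x => ∑ r ∈ Finset.range 0, g (x + r * q))‖ ≤ 0 := by
      refine m.bd _ 0 fun x => ?_
      simp
    have h2 := norm_le_zero_iff.1 h1
    rw [h2]
    simp
  | succ n ih =>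
    have h1 : (fun x => ∑ r ∈ Finset.range (n + 1), g (x + r * q)) =
        fun x => (fun y => ∑ r ∈ Finset.range n, g (y + r * q)) x +
          (fun y => g (y + n * q)) x := by
      ext x
      rw [Finset.sum_range_succ]
    rw [h1, m.add _ _ ⟨n * B, fun x => sum_bdd g B q hB n x⟩ ⟨B, fun x => hB _⟩, ih,
      m.shift g (n * q) ⟨B, hB⟩]
    push_cast
    ring

end TRQ

/-- Change of the period. -/
theorem p_TRQ : T_TRQ := by
  intro m q A k z hq hk hA
  obtain ⟨b, hb⟩ := hA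
  set f : ℝ → ℂ := fun x =>
    Set.indicator A (fun _ => (1 : ℂ)) x * Complex.exp (-(z * x) * Complex.I) with hf
  have hf0 : ∀ x, x ∉ Set.Icc (-b) b → f x = 0 := by
    intro x hx
    have h1 : x ∉ A := fun h => hx (hb h)
    simp [hf, h1]
  have hM : ∀ x, ‖f x‖ ≤ Real.exp (‖z‖ * |b|) := by
    intro x
    by_cases hx : x ∈ A
    · have h1 : ‖f x‖ = ‖Complex.exp (-(z * x) * Complex.I)‖ := by
        simp [hf, hx]
      rw [h1]
      refine (Complex.norm_exp_le_exp_norm _).trans (Real.exp_le_exp.2 ?_)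
      rw [norm_mul, norm_neg, norm_mul, Complex.norm_I, mul_one, Complex.norm_real,
        Real.norm_eq_abs]
      refine mul_le_mul_of_nonneg_left ?_ (norm_nonneg _)
      have h2 := hb hx
      exact (abs_le.2 h2).trans (le_abs_self b)
    · have h1 : f x = 0 := by simp [hf, hx]
      rw [h1, norm_zero]
      positivity
  have hkq : 0 < (k : ℝ) * q := mul_pos (by exact_mod_cast hk) hq
  obtain ⟨B, hB⟩ := TRQ.prd_bdd (k * q) b _ hkq f hf0 hM
  have h1 : trf m q A z = m.E (prd q f) := rfl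
  have h2 : trf m (k * q) A z = m.E (prd (k * q) f) := rfl
  rw [h1, h2, ← TRQ.mean_sum m (prd (k * q) f) B q hB k]
  congr 1
  ext x
  exact TRQ.prd_split q b hq f hf0 k hk x

end Pool.Agent.PTG
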