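import Pool.Agent.PTG.Targets

/-!
# PTG: job TWO
-/

set_option autoImplicit false

namespace Pool.Agent.PTG

open Pool.Agent.PTR Filter Topology
open Pool.Agent.PTR.OL (V ii dif difs FLC InHull)

private lemma two_n (e : V) (he : e ≠ 0) : ∃ m : V, rdet e m = 1 := by
  have h : e.1 * e.1 + e.2 * e.2 ≠ 0 := by
    intro h
    apply he
    have h1 : e.1 = 0 := by nlinarith [mul_self_nonneg e.1, mul_self_nonneg e.2]
    have h2 : e.2 = 0 := by nlinarith [mul_self_nonneg e.1, mul_self_nonneg e.2]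
    exact Prod.ext h1 h2
  refine ⟨(-e.2 / (e.1 * e.1 + e.2 * e.2), e.1 / (e.1 * e.1 + e.2 * e.2)), ?_⟩
  have h3 : e.1 * (e.1 / (e.1 * e.1 + e.2 * e.2)) - e.2 * (-e.2 / (e.1 * e.1 + e.2 * e.2)) =
      (e.1 * e.1 + e.2 * e.2) / (e.1 * e.1 + e.2 * e.2) := by ring
  simp only [rdet]
  rw [h3, div_self h]

private lemma two_smul (e m : V) (s : ℝ) : rdet e (s • m) = s * rdet e m := by
  simp only [rdet, Prod.smul_fst, Prod.smul_snd, smul_eq_mul]; ring

private lemma two_cont (e : V) : Continuous (rdet e) := by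
  unfold rdet
  fun_prop

theorem p_TWO : T_TWO := by
  intro ι U cl a h e p r i j he hr hi hj
  by_cases hij : i = j
  · subst hij
    exact Eventually.of_forall fun n => rfl
  obtain ⟨m, hm⟩ := two_n e he
  have hm0 : (0 : ℝ) < ‖m‖ + 1 := by positivity
  -- the classes `i` and `j` occur near `p`
  set R : ℝ := ‖p‖ + r with hR
  have hocc : ∀ s : ℝ, |s| * (‖m‖ + 1) < r → ‖(p + s • m) - p‖ < r ∧ ‖p + s • m‖ ≤ R := by
    intro s hs
    have h1 : ‖s • m‖ < r := by
      rw [norm_smul, Real.norm_eq_abs]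
      nlinarith [abs_nonneg s, norm_nonneg m]
    refine ⟨by simpa using h1, ?_⟩
    calc ‖p + s • m‖ ≤ ‖p‖ + ‖s • m‖ := norm_add_le _ _
      _ ≤ R := by rw [hR]; linarith
  have hht : ∀ s : ℝ, rdet e (p + s • m) = rdet e p + s := by
    intro s
    rw [rdet_add, two_smul, hm, mul_one]
  set s₀ : ℝ := r / (2 * (‖m‖ + 1)) with hs₀
  have hs₀p : 0 < s₀ := by positivity
  have hs₀r : |s₀| * (‖m‖ + 1) < r := by
    rw [abs_of_pos hs₀p, hs₀]
    have : r / (2 * (‖m‖ + 1)) * (‖m‖ + 1) = r / 2 := by field_simp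
    rw [this]; linarith
  have hs₀r' : |(-s₀)| * (‖m‖ + 1) < r := by rwa [abs_neg]
  have hci : cl (p + (-s₀) • m) = i := by
    refine hi _ (hocc _ hs₀r').1 ?_
    rw [hht]; linarith
  have hcj : cl (p + s₀ • m) = j := by
    refine hj _ (hocc _ hs₀r).1 ?_
    rw [hht]; linarith
  have hli : Tendsto (a i) (U : Filter ℕ) (𝓝 0) := by
    have := h.lim (p + (-s₀) • m)
    rwa [hci] at this
  have hlj : Tendsto (a j) (U : Filter ℕ) (𝓝 0) := by
    have := h.lim (p + s₀ • m)
    rwa [hcj] at this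
  have hoi : ∃ y, ‖y‖ ≤ R + 1 ∧ cl y = i :=
    ⟨_, (hocc _ hs₀r').2.trans (by linarith), hci⟩
  have hoj : ∃ y, ‖y‖ ≤ R + 1 ∧ cl y = j :=
    ⟨_, (hocc _ hs₀r).2.trans (by linarith), hcj⟩
  -- heights tend to `0`
  have hdet : ∀ k : ι, Tendsto (a k) (U : Filter ℕ) (𝓝 0) →
      Tendsto (fun n => rdet e (a k n)) (U : Filter ℕ) (𝓝 0) := by
    intro k hk
    have h1 := ((two_cont e).tendsto 0).comp hk
    have h2 : rdet e 0 = 0 := by simp [rdet]
    rw [h2] at h1
    exact h1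
  set δ : ℝ := r / 2 / (‖m‖ + 1) with hδ
  have hδp : 0 < δ := by positivity
  have hδr : δ * (‖m‖ + 1) = r / 2 := by rw [hδ]; field_simp
  have hsi : ∀ᶠ n in (U : Filter ℕ), |rdet e (a i n)| < δ := by
    have := (hdet i hli).eventually (Metric.ball_mem_nhds (0 : ℝ) hδp)
    filter_upwards [this] with n hn
    simpa [Real.dist_eq] using hn
  have hsj : ∀ᶠ n in (U : Filter ℕ), |rdet e (a j n)| < δ := by
    have := (hdet j hlj).eventually (Metric.ball_mem_nhds (0 : ℝ) hδp)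
    filter_upwards [this] with n hn
    simpa [Real.dist_eq] using hn
  -- the displacements of the finitely many classes are small
  have hfin := h.fin (R + 1)
  have hall : ∀ᶠ n in (U : Filter ℕ), ∀ k ∈ {k | ∃ x, ‖x‖ ≤ R + 1 ∧ cl x = k},
      ‖a k n‖ < r / 2 := by
    rw [Filter.eventually_all_finite hfin]
    rintro k ⟨x, -, hx⟩
    have h1 := h.lim x
    rw [hx] at h1
    have h2 := h1.eventually (Metric.ball_mem_nhds (0 : V) (half_pos hr))
    filter_upwards [h2] with n hn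
    simpa using hn
  have hcov := h.cov R
  -- points near `p`
  have hnear : ∀ (s : ℝ) (v : V), |s| < δ → ‖v‖ < r / 2 → ‖(p + s • m - v) - p‖ < r := by
    intro s v hs hv
    have h1 : ‖s • m‖ ≤ r / 2 := by
      rw [norm_smul, Real.norm_eq_abs]
      have h2 : |s| * ‖m‖ ≤ δ * (‖m‖ + 1) := by
        nlinarith [abs_nonneg s, norm_nonneg m]
      linarith
    have h3 : (p + s • m - v) - p = s • m - v := by abel
    rw [h3]
    calc ‖s • m - v‖ ≤ ‖s • m‖ + ‖v‖ := norm_sub_le _ _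
      _ < r := by linarith
  have hRs : ∀ s : ℝ, |s| < δ → ‖p + s • m‖ ≤ R := by
    intro s hs
    refine (hocc s ?_).2
    have : |s| * (‖m‖ + 1) < δ * (‖m‖ + 1) := by
      exact mul_lt_mul_of_pos_right hs hm0
    linarith
  have hlow : ∀ (s : ℝ) (v : V), |s| < δ → ‖v‖ < r / 2 → s < rdet e v →
      cl (p + s • m - v) = i := by
    intro s v hs hv hsv
    refine hi _ (hnear s v hs hv) ?_
    rw [rdet_sub, hht]; linarith
  have hupp : ∀ (s : ℝ) (v : V), |s| < δ → ‖v‖ < r / 2 → rdet e v < s →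
      cl (p + s • m - v) = j := by
    intro s v hs hv hsv
    refine hj _ (hnear s v hs hv) ?_
    rw [rdet_sub, hht]; linarith
  filter_upwards [hsi, hsj, hall, hcov] with n hn1 hn2 hn3 hn4
  rcases lt_trichotomy (rdet e (a i n)) (rdet e (a j n)) with hlt | heq | hgt
  · exfalso
    -- a height strictly between, avoiding finitely many values
    have hF : ((fun k => rdet e (a k n)) '' {k | ∃ x, ‖x‖ ≤ R + 1 ∧ cl x = k}).Finite :=
      hfin.image _
    obtain ⟨s, hs, hsF⟩ := (Set.Ioo_infinite hlt).exists_notMem_finite hF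
    have hsδ : |s| < δ := by
      rw [abs_lt] at hn1 hn2 ⊢
      exact ⟨by linarith [hs.1], by linarith [hs.2]⟩
    obtain ⟨k, ⟨hk1, hk2⟩, -⟩ := hn4 (p + s • m) (hRs s hsδ)
    have hk3 := hn3 k hk1
    have hne : rdet e (a k n) ≠ s := fun hh => hsF ⟨k, hk1, hh⟩
    rcases lt_or_gt_of_ne hne with h1 | h1
    · have h2 := hupp s (a k n) hsδ hk3 h1
      rw [hk2] at h2
      rw [h2] at h1
      linarith [hs.2]
    · have h2 := hlow s (a k n) hsδ hk3 h1
      rw [hk2] at h2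
      rw [h2] at h1
      linarith [hs.1]
  · exact heq
  · exfalso
    set s : ℝ := (rdet e (a i n) + rdet e (a j n)) / 2 with hs
    have hsδ : |s| < δ := by
      rw [abs_lt] at hn1 hn2 ⊢
      exact ⟨by linarith [hn1.1, hn2.1], by linarith [hn1.2, hn2.2]⟩
    obtain ⟨k, -, hk⟩ := hn4 (p + s • m) (hRs s hsδ)
    have h1 := hk i ⟨hoi, hlow s (a i n) hsδ (hn3 i hoi) (by linarith)⟩
    have h2 := hk j ⟨hoj, hupp s (a j n) hsδ (hn3 j hoj) (by linarith)⟩
    exact hij (h1.trans h2.symm)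

end Pool.Agent.PTG
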