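import Pool.Agent.PTG.P_A0
import Pool.Agent.PTG.P_A1
import Pool.Agent.PTG.P_ANN
import Pool.Agent.PTG.P_CRS
import Pool.Agent.PTG.P_DET
import Pool.Agent.PTG.P_DIFF
import Pool.Agent.PTG.P_ENT
import Pool.Agent.PTG.P_FULL
import Pool.Agent.PTG.P_G0
import Pool.Agent.PTG.P_GAP
import Pool.Agent.PTG.P_GERM
import Pool.Agent.PTG.P_HB
import Pool.Agent.PTG.P_HG
import Pool.Agent.PTG.P_HH
import Pool.Agent.PTG.P_HO
import Pool.Agent.PTG.P_HP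
import Pool.Agent.PTG.P_HQ
import Pool.Agent.PTG.P_HW
import Pool.Agent.PTG.P_LU
import Pool.Agent.PTG.P_MEAN
import Pool.Agent.PTG.P_SLC
import Pool.Agent.PTG.P_SLIDE
import Pool.Agent.PTG.P_SPEC
import Pool.Agent.PTG.P_SPL
import Pool.Agent.PTG.P_STF
import Pool.Agent.PTG.P_STZ
import Pool.Agent.PTG.P_TCH
import Pool.Agent.PTG.P_TCL
import Pool.Agent.PTG.P_TRQ
import Pool.Agent.PTG.P_TWO

/-!
# PTG: assembly of Theorem R9
-/

set_option autoImplicit false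

namespace Pool.Agent.PTG

theorem p_TCL : T_TCL := p_TCL_of p_SEP p_ULT p_ULB

theorem p_STZ : T_STZ := p_STZ_of p_HO

theorem p_HG : T_HG := p_HG_of p_HO

/-- Theorem R9. -/
theorem p_R9 : T_R9 := by
  have hANN : T_ANN := p_ANN_of p_SPL
  have hSLC : T_SLC := p_SLC_of (p_FULL_of hANN p_DET p_TCH) (p_DIRS_of hANN p_TCH)
    (p_GERM_of hANN p_DET) p_TWO p_CRS (p_DIFF_of hANN p_DET)
  have hSLIDE : T_SLIDE := p_SLIDE_of p_HO p_TCL hSLC p_SEP p_ULT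
  have hHB : T_HB := p_HB_of p_ULT p_ULB p_SFL hSLIDE p_SLF p_STZ
  have hHH : T_HH := p_HH_of p_HO p_WD hHB p_SEP
  have hHQ : T_HQ := p_HQ_of p_HO p_WD p_SEP hHB hHH
  have hSPEC : T_SPEC := p_SPEC_of p_HO p_SEP p_WD p_MEAN p_ENT p_TRQ
  have hGAP : T_GAP := p_GAP_of p_SEP hHH hHQ hSPEC p_LU
  have hRDT : T_RDT := p_RDT_of p_SEP hHH hHQ hSPEC p_LU hGAP
  have hHW : T_HW := p_HW_of p_ULT p_ULB p_SFL hSLIDE p_SLF hHB hGAP
  exact p_R9_of (p_A0_of hSLIDE) (p_A1_of (p_STF_of p_STZ hSLIDE)) hHW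
    (p_HP_of p_WD p_SEP p_FC hHH hHW hGAP hRDT) p_HG

end Pool.Agent.PTG
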