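import Pool.Agent.PTG.Targets

/-!
# PTG: no crossings (CRS), first part: the lines, minimal crossing points
-/

set_option autoImplicit false

namespace Pool.Agent.PTG

open Pool.Agent.PTR Filter Topology
open Pool.Agent.PTR.OL (V ii dif difs FLC InHull)

namespace CRS

/-- The points whose line in the direction `e` is contained in `E`. -/
def Ln (E : Set V) (e : V) : Set V := {p | ∀ s : ℝ, p + s • e ∈ E}

lemma Ln_closed {E : Set V} (hE : IsClosed E) (e : V) : IsClosed (Ln E e) := by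
  have h : Ln E e = ⋂ s : ℝ, (fun p : V => p + s • e) ⁻¹' E := by
    ext p
    simp [Ln]
  rw [h]
  exact isClosed_iInter fun s => hE.preimage (by fun_prop)

lemma Ln_sub {E : Set V} {e p : V} (h : p ∈ Ln E e) : p ∈ E := by
  have := h 0
  rwa [zero_smul, add_zero] at this

lemma Ln_add {E : Set V} {e p : V} (h : p ∈ Ln E e) (s : ℝ) : p + s • e ∈ Ln E e := by
  intro t
  rw [add_assoc, ← add_smul]
  exact h (s + t)

lemma Ln_smul {E : Set V} {e p : V} {c : ℝ} (hc : c ≠ 0) : p ∈ Ln E (c • e) ↔ p ∈ Ln E e := by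
  constructor
  · intro h s
    have := h (s / c)
    rwa [smul_smul, div_mul_cancel₀ _ hc] at this
  · intro h s
    rw [smul_smul]
    exact h (s * c)

lemma rd_add (e x y : V) : rdet e (x + y) = rdet e x + rdet e y := by
  simp only [rdet, Prod.fst_add, Prod.snd_add]; ring

lemma rd_sub (e x y : V) : rdet e (x - y) = rdet e x - rdet e y := by
  simp only [rdet, Prod.fst_sub, Prod.snd_sub]; ring

lemma rd_smul (e x : V) (s : ℝ) : rdet e (s • x) = s * rdet e x := by
  simp only [rdet, Prod.smul_fst, Prod.smul_snd, smul_eq_mul]; ring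

lemma rd_smul_left (e x : V) (s : ℝ) : rdet (s • e) x = s * rdet e x := by
  simp only [rdet, Prod.smul_fst, Prod.smul_snd, smul_eq_mul]; ring

lemma rd_self (e : V) : rdet e e = 0 := by simp only [rdet]; ring

lemma rd_swap (e d : V) : rdet d e = - rdet e d := by simp only [rdet]; ring

lemma rd_neg_left (e x : V) : rdet (-e) x = - rdet e x := by
  simp only [rdet, Prod.fst_neg, Prod.snd_neg]; ring

lemma par_smul {e d : V} (he : e ≠ 0) (h : rdet e d = 0) : ∃ c : ℝ, d = c • e := by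
  simp only [rdet] at h
  rcases eq_or_ne e.1 0 with h1 | h1
  · have h2 : e.2 ≠ 0 := fun h2 => he (Prod.ext h1 h2)
    refine ⟨d.2 / e.2, Prod.ext ?_ ?_⟩
    · rw [Prod.smul_fst, smul_eq_mul, h1, mul_zero]
      rw [h1, zero_mul, zero_sub, neg_eq_zero] at h
      rcases mul_eq_zero.1 h with h3 | h3
      · exact absurd h3 h2
      · exact h3
    · rw [Prod.smul_snd, smul_eq_mul, div_mul_cancel₀ _ h2]
  · refine ⟨d.1 / e.1, Prod.ext ?_ ?_⟩
    · rw [Prod.smul_fst, smul_eq_mul, div_mul_cancel₀ _ h1]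
    · rw [Prod.smul_snd, smul_eq_mul]
      field_simp
      linarith

lemma par_ne {e d : V} (he : e ≠ 0) (hd : d ≠ 0) (h : rdet e d = 0) :
    ∃ c : ℝ, c ≠ 0 ∧ d = c • e := by
  obtain ⟨c, hc⟩ := par_smul he h
  refine ⟨c, ?_, hc⟩
  rintro rfl
  rw [zero_smul] at hc
  exact hd hc

lemma Ln_par {E : Set V} {e d p : V} (he : e ≠ 0) (hd : d ≠ 0) (h : rdet e d = 0)
    (hp : p ∈ Ln E e) : p ∈ Ln E d := by
  obtain ⟨c, hc, rfl⟩ := par_ne he hd h
  exact (Ln_smul hc).2 hp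

lemma same_ht {e x y : V} (he : e ≠ 0) (h : rdet e x = rdet e y) : ∃ s : ℝ, y = x + s • e := by
  obtain ⟨s, hs⟩ := par_smul (d := y - x) he (by rw [rd_sub, h, sub_self])
  exact ⟨s, by rw [← hs]; abel⟩

/-- Coordinates. -/
lemma coord {e d : V} (h : rdet e d ≠ 0) (v : V) :
    v = (rdet v d / rdet e d) • e + (rdet e v / rdet e d) • d := by
  have k1 : rdet v d * e.1 + rdet e v * d.1 = v.1 * rdet e d := by simp only [rdet]; ring
  have k2 : rdet v d * e.2 + rdet e v * d.2 = v.2 * rdet e d := by simp only [rdet]; ring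
  apply Prod.ext
  · rw [Prod.fst_add, Prod.smul_fst, Prod.smul_fst, smul_eq_mul, smul_eq_mul,
      div_mul_eq_mul_div, div_mul_eq_mul_div, ← add_div, k1, mul_div_assoc, div_self h, mul_one]
  · rw [Prod.snd_add, Prod.smul_snd, Prod.smul_snd, smul_eq_mul, smul_eq_mul,
      div_mul_eq_mul_div, div_mul_eq_mul_div, ← add_div, k2, mul_div_assoc, div_self h, mul_one]

lemma qd_ge (u : V) : ‖u‖ ^ 2 ≤ qd u := by
  have h : ‖u‖ = max |u.1| |u.2| := by
    rw [Prod.norm_def, Real.norm_eq_abs, Real.norm_eq_abs]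
  unfold qd dt
  rw [h]
  rcases max_choice |u.1| |u.2| with h1 | h1
  · rw [h1, sq_abs]; nlinarith [mul_self_nonneg u.2]
  · rw [h1, sq_abs]; nlinarith [mul_self_nonneg u.1]

lemma qd_le (u : V) : qd u ≤ 2 * ‖u‖ ^ 2 := by
  have h : ‖u‖ = max |u.1| |u.2| := by
    rw [Prod.norm_def, Real.norm_eq_abs, Real.norm_eq_abs]
  have h1 : |u.1| ≤ ‖u‖ := by rw [h]; exact le_max_left _ _
  have h2 : |u.2| ≤ ‖u‖ := by rw [h]; exact le_max_right _ _
  unfold qd dt
  have h3 : u.1 * u.1 ≤ ‖u‖ ^ 2 := by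
    rw [← abs_mul_abs_self, sq]
    exact mul_self_le_mul_self (abs_nonneg _) h1
  have h4 : u.2 * u.2 ≤ ‖u‖ ^ 2 := by
    rw [← abs_mul_abs_self, sq]
    exact mul_self_le_mul_self (abs_nonneg _) h2
  linarith

lemma qd_cont : Continuous qd := by
  unfold qd dt
  fun_prop

lemma exists_nrst {E : Set V} (hE : IsClosed E) (hne : E.Nonempty) {x : V} (hx : x ∉ E) :
    ∃ p, Nrst E x p := by
  obtain ⟨y₀, hy₀⟩ := hne
  set K : Set V := E ∩ {y | qd (y - x) ≤ qd (y₀ - x)} with hK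
  have hKc : IsCompact K := by
    refine Metric.isCompact_of_isClosed_isBounded ?_ ?_
    · refine hE.inter (isClosed_le ?_ continuous_const)
      exact qd_cont.comp (continuous_id.sub continuous_const)
    · rw [isBounded_iff_forall_norm_le]
      refine ⟨‖x‖ + (qd (y₀ - x) + 1), fun y hy => ?_⟩
      have h1 := qd_ge (y - x)
      have h2 : qd (y - x) ≤ qd (y₀ - x) := hy.2
      have h3 : ‖y - x‖ ≤ qd (y₀ - x) + 1 := by
        have h0 : 0 ≤ qd (y₀ - x) := (sq_nonneg _).trans (qd_ge _)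
        nlinarith [norm_nonneg (y - x)]
      calc ‖y‖ = ‖x + (y - x)‖ := by congr 1; abel
        _ ≤ ‖x‖ + ‖y - x‖ := norm_add_le _ _
        _ ≤ ‖x‖ + (qd (y₀ - x) + 1) := by gcongr
  obtain ⟨p, hp, hmin⟩ := hKc.exists_isMinOn ⟨y₀, hy₀, le_refl (qd (y₀ - x))⟩
    ((qd_cont.comp (continuous_id.sub continuous_const)).continuousOn (s := K)
      (f := fun y : V => qd (y - x)))
  refine ⟨p, hx, hp.1, fun y hy => ?_⟩
  rcases le_total (qd (y - x)) (qd (y₀ - x)) with h | h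
  · exact hmin ⟨hy, h⟩
  · exact (show qd (p - x) ≤ qd (y₀ - x) from hp.2).trans h

/-! ## The cover by lines -/

lemma cover {E : Set V} (hE : IsClosed E) (hint : interior E = ∅)
    (hfull : ∀ x p, Nrst E x p → ∀ e : V, dt e (p - x) = 0 → ∀ s : ℝ, p + s • e ∈ E)
    (hdirs : ∀ R : ℝ, ∃ D : Finset V, ∀ x p, Nrst E x p → ‖p‖ ≤ R →
      ∃ d ∈ D, d ≠ 0 ∧ dt d (p - x) = 0) (R : ℝ) :
    ∃ D : Finset V, (∀ d ∈ D, d ≠ 0) ∧ ∀ p ∈ E, ‖p‖ ≤ R → ∃ d ∈ D, p ∈ Ln E d := by
  classical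
  obtain ⟨D, hD⟩ := hdirs (R + 1)
  refine ⟨D.filter (fun d => d ≠ 0), fun d hd => (Finset.mem_filter.1 hd).2, fun p hp hpR => ?_⟩
  set A : Set V := ⋃ d ∈ D.filter (fun d => d ≠ 0), Ln E d with hA
  have hAc : IsClosed A := by
    rw [hA]
    exact Set.Finite.isClosed_biUnion (Finset.finite_toSet _) fun d _ => Ln_closed hE d
  have hpA : p ∈ closure A := by
    rw [Metric.mem_closure_iff]
    intro ε hε
    set η : ℝ := min ε 1 / 4 with hη
    have hη0 : 0 < η := by
      rw [hη]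
      have := lt_min hε one_pos
      linarith
    have hdense : Dense Eᶜ := interior_eq_empty_iff_dense_compl.1 hint
    obtain ⟨x, hx, hxE⟩ := hdense.exists_dist_lt p hη0
    obtain ⟨q, hq⟩ := exists_nrst hE ⟨p, hp⟩ hx
    rw [dist_eq_norm] at hxE
    have h1 : qd (q - x) ≤ 2 * η ^ 2 := by
      refine (hq.2.2 p hp).trans ((qd_le _).trans ?_)
      have h2 := norm_nonneg (p - x)
      nlinarith
    have h2 : ‖q - x‖ < 2 * η := by
      have h3 := qd_ge (q - x)
      by_contra hcon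
      push Not at hcon
      nlinarith
    have h4 : ‖q - p‖ < 3 * η := by
      have h5 : ‖q - p‖ ≤ ‖q - x‖ + ‖p - x‖ := by
        rw [show q - p = (q - x) - (p - x) by abel]
        exact norm_sub_le _ _
      linarith
    have h6 : 4 * η = min ε 1 := by rw [hη]; ring
    have h7 : ‖q‖ ≤ R + 1 := by
      have h8 : ‖q‖ ≤ ‖p‖ + ‖q - p‖ := by
        calc ‖q‖ = ‖p + (q - p)‖ := by congr 1; abel
          _ ≤ _ := norm_add_le _ _
      have := min_le_right ε 1
      linarith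
    obtain ⟨d, hd, hd0, hdt⟩ := hD x q hq h7
    refine ⟨q, ?_, ?_⟩
    · rw [hA]
      simp only [Set.mem_iUnion]
      exact ⟨d, Finset.mem_filter.2 ⟨hd, hd0⟩, hfull x q hq d hdt⟩
    · rw [dist_comm, dist_eq_norm]
      have := min_le_left ε 1
      linarith
  rw [hAc.closure_eq] at hpA
  rw [hA] at hpA
  simp only [Set.mem_iUnion] at hpA
  obtain ⟨d, hd, hpd⟩ := hpA
  exact ⟨d, hd, hpd⟩

/-- A set of points of a line on lines in another direction has empty interior. -/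
lemma no_strip {E : Set V} (hint : interior E = ∅) {e d p : V} (h : rdet e d ≠ 0) {u v : ℝ}
    (huv : u < v) (hs : ∀ s, u < s → s < v → p + s • e ∈ Ln E d) : False := by
  have h1 : p + ((u + v) / 2) • e ∈ interior E := by
    rw [mem_interior_iff_mem_nhds]
    have hc : Continuous fun z : V => rdet (z - p) d / rdet e d := by
      unfold rdet
      fun_prop
    have h2 : Tendsto (fun z : V => rdet (z - p) d / rdet e d) (𝓝 (p + ((u + v) / 2) • e))
        (𝓝 ((u + v) / 2)) := by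
      have h3 := hc.tendsto (p + ((u + v) / 2) • e)
      have h4 : rdet (p + ((u + v) / 2) • e - p) d / rdet e d = (u + v) / 2 := by
        rw [add_sub_cancel_left, rd_smul_left, mul_div_assoc, div_self h, mul_one]
      rwa [h4] at h3
    have h5 : ∀ᶠ z in 𝓝 (p + ((u + v) / 2) • e), u < rdet (z - p) d / rdet e d ∧
        rdet (z - p) d / rdet e d < v :=
      h2.eventually ((Ioo_mem_nhds (by linarith) (by linarith)))
    filter_upwards [h5] with z hz
    have h6 := hs _ hz.1 hz.2 (rdet e (z - p) / rdet e d)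
    rw [add_assoc, ← coord h (z - p)] at h6
    rwa [add_sub_cancel] at h6
  rw [hint] at h1
  exact h1

lemma dir_mem {E : Set V} (hE : IsClosed E) (hint : interior E = ∅) {R : ℝ} {D : Finset V}
    (hD : ∀ p ∈ E, ‖p‖ ≤ R → ∃ d ∈ D, p ∈ Ln E d) {e p : V} (hp : p ∈ Ln E e)
    (hpR : ‖p‖ < R) : ∃ d ∈ D, rdet e d = 0 := by
  classical
  by_contra hcon
  push Not at hcon
  have hc : Continuous fun s : ℝ => p + s • e := by fun_prop
  have ho : ∀ d ∈ (D : Set V), IsOpen {s : ℝ | p + s • e ∈ Ln E d}ᶜ := fun d _ =>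
    ((Ln_closed hE d).preimage hc).isOpen_compl
  have hd : ∀ d ∈ (D : Set V), Dense {s : ℝ | p + s • e ∈ Ln E d}ᶜ := by
    intro d hd
    rw [← interior_eq_empty_iff_dense_compl, Set.eq_empty_iff_forall_notMem]
    intro s hs
    obtain ⟨ε, hε, hball⟩ := Metric.isOpen_iff.1 isOpen_interior s hs
    refine no_strip (p := p) hint (hcon d hd) (show s - ε < s + ε by linarith) fun t h1 h2 => ?_
    have h3 : t ∈ Metric.ball s ε := by
      rw [Metric.mem_ball, Real.dist_eq, abs_lt]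
      constructor <;> linarith
    exact interior_subset (s := {s : ℝ | p + s • e ∈ Ln E d}) (hball h3)
  have hdense := dense_biInter_of_isOpen ho (Finset.countable_toSet D) hd
  have hopen : IsOpen {s : ℝ | ‖p + s • e‖ < R} := isOpen_lt hc.norm continuous_const
  obtain ⟨s, hs1, hs2⟩ := hdense.inter_open_nonempty _ hopen ⟨0, by
    show ‖p + (0 : ℝ) • e‖ < R
    rwa [zero_smul, add_zero]⟩
  obtain ⟨d, hd, hpd⟩ := hD _ (hp s) (le_of_lt hs1)
  simp only [Set.mem_iInter] at hs2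
  exact hs2 d hd hpd

/-! ## Normalised directions -/

/-- Normal form of a direction. -/
noncomputable def nm (d : V) : V := by
  classical exact if d.1 = 0 then (0, 1) else (1, d.2 / d.1)

lemma nm_ne (d : V) : nm d ≠ 0 := by
  unfold nm
  split_ifs
  · intro h
    have := congrArg Prod.snd h
    simp at this
  · intro h
    have := congrArg Prod.fst h
    simp at this

lemma nm_par (d : V) : rdet d (nm d) = 0 := by
  unfold nm
  split_ifs with h
  · simp only [rdet]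
    rw [h]
    ring
  · simp only [rdet]
    field_simp
    ring

lemma nm_inj {d d' : V} (h : rdet (nm d) (nm d') = 0) : nm d = nm d' := by
  unfold nm at *
  split_ifs at * with h1 h2 h2
  · rfl
  · simp only [rdet] at h
    norm_num at h
  · simp only [rdet] at h
    norm_num at h
  · simp only [rdet] at h
    have : d'.2 / d'.1 = d.2 / d.1 := by linarith
    rw [this]

/-- The data near a crossing point with the smallest number of directions: `D` = the directions of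
the lines through `x`, `δ` = radius. -/
structure Xd (E : Set V) (x : V) (D : Finset V) (δ : ℝ) : Prop where
  pos : 0 < δ
  ne : ∀ d ∈ D, d ≠ 0
  ln : ∀ d ∈ D, x ∈ Ln E d
  np : ∀ d ∈ D, ∀ d' ∈ D, rdet d d' = 0 → d = d'
  two : 2 ≤ D.card
  cov : ∀ p ∈ E, ‖p - x‖ < δ → ∃ d ∈ D, p ∈ Ln E d
  all : ∀ p, ‖p - x‖ < δ → ∀ d ∈ D, ∀ d' ∈ D, d ≠ d' → p ∈ Ln E d → p ∈ Ln E d' →
    ∀ d'' ∈ D, p ∈ Ln E d''

lemma exists_xd {E : Set V} (hE : IsClosed E) (hint : interior E = ∅)
    (hfull : ∀ x p, Nrst E x p → ∀ e : V, dt e (p - x) = 0 → ∀ s : ℝ, p + s • e ∈ E)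
    (hdirs : ∀ R : ℝ, ∃ D : Finset V, ∀ x p, Nrst E x p → ‖p‖ ≤ R →
      ∃ d ∈ D, d ≠ 0 ∧ dt d (p - x) = 0) {e e' c : V} (he : rdet e e' ≠ 0)
    (h1 : c ∈ Ln E e) (h2 : c ∈ Ln E e') : ∃ x D δ, Xd E x D δ := by
  classical
  obtain ⟨D₀, hD₀, hcov₀⟩ := cover hE hint hfull hdirs (‖c‖ + 1)
  set R : ℝ := ‖c‖ + 1 with hR
  set D : Finset V := D₀.image nm with hDdef
  have hDne : ∀ d ∈ D, d ≠ 0 := by
    intro d hd
    obtain ⟨d₀, -, rfl⟩ := Finset.mem_image.1 hd
    exact nm_ne d₀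
  have hDnp : ∀ d ∈ D, ∀ d' ∈ D, rdet d d' = 0 → d = d' := by
    intro d hd d' hd' h
    obtain ⟨d₀, -, rfl⟩ := Finset.mem_image.1 hd
    obtain ⟨d₁, -, rfl⟩ := Finset.mem_image.1 hd'
    exact nm_inj h
  have hcov : ∀ p ∈ E, ‖p‖ ≤ R → ∃ d ∈ D, p ∈ Ln E d := by
    intro p hp hpR
    obtain ⟨d, hd, hpd⟩ := hcov₀ p hp hpR
    exact ⟨nm d, Finset.mem_image_of_mem _ hd, Ln_par (hD₀ d hd) (nm_ne d) (nm_par d) hpd⟩
  have hdir : ∀ (f p : V), f ≠ 0 → p ∈ Ln E f → ‖p‖ < R → ∃ d ∈ D, rdet f d = 0 ∧ p ∈ Ln E d := by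
    intro f p hf hp hpR
    obtain ⟨d, hd, hfd⟩ := dir_mem hE hint hcov hp hpR
    exact ⟨d, hd, hfd, Ln_par hf (hDne d hd) hfd hp⟩
  set Dp : V → Finset V := fun p => D.filter fun d => p ∈ Ln E d with hDp
  have hmem : ∀ p d, d ∈ Dp p ↔ d ∈ D ∧ p ∈ Ln E d := fun p d => Finset.mem_filter
  have he0 : e ≠ 0 := by
    rintro rfl
    exact he (by simp [rdet])
  have he0' : e' ≠ 0 := by
    rintro rfl
    exact he (by simp [rdet])
  have hc2 : 2 ≤ (Dp c).card := by
    have hcR : ‖c‖ < R := by rw [hR]; linarith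
    obtain ⟨d, hd, hed, hcd⟩ := hdir e c he0 h1 hcR
    obtain ⟨d', hd', hed', hcd'⟩ := hdir e' c he0' h2 hcR
    have hne : d ≠ d' := by
      rintro rfl
      obtain ⟨k, hk⟩ := par_smul he0 hed
      obtain ⟨k', hk'⟩ := par_smul he0' hed'
      have hk0 : k ≠ 0 := by
        rintro rfl
        rw [zero_smul] at hk
        exact hDne d hd hk
      have hk0' : k' ≠ 0 := by
        rintro rfl
        rw [zero_smul] at hk'
        exact hDne d hd hk'
      have h3 : k * (k' * rdet e e') = 0 := by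
        rw [← rd_smul, ← rd_smul_left, ← hk, ← hk', rd_self]
      rcases mul_eq_zero.1 h3 with h4 | h4
      · exact hk0 h4
      · rcases mul_eq_zero.1 h4 with h5 | h5
        · exact hk0' h5
        · exact he h5
    exact Finset.one_lt_card.2 ⟨d, (hmem c d).2 ⟨hd, hcd⟩, d', (hmem c d').2 ⟨hd', hcd'⟩, hne⟩
  have hex : ∃ m : ℕ, ∃ p, ‖p‖ < R ∧ 2 ≤ (Dp p).card ∧ (Dp p).card = m :=
    ⟨_, c, by rw [hR]; linarith, hc2, rfl⟩
  obtain ⟨x, hxR, hx2, hxm⟩ := Nat.find_spec hex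
  have hmin : ∀ p, ‖p‖ < R → 2 ≤ (Dp p).card → (Dp x).card ≤ (Dp p).card := by
    intro p hp h2p
    rw [hxm]
    exact Nat.find_min' hex ⟨p, hp, h2p, rfl⟩
  have hev : ∀ᶠ p in 𝓝 x, ‖p‖ < R ∧ ∀ d ∈ D, p ∈ Ln E d → x ∈ Ln E d := by
    refine Filter.Eventually.and ?_ ?_
    · exact (isOpen_lt continuous_norm continuous_const).mem_nhds hxR
    · rw [Filter.eventually_all_finset]
      intro d _
      by_cases hxd : x ∈ Ln E d
      · exact Filter.Eventually.of_forall fun p _ => hxd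
      · filter_upwards [(Ln_closed hE d).isOpen_compl.mem_nhds hxd] with p hp hp'
        exact absurd hp' hp
  obtain ⟨δ, hδ, hball⟩ := Metric.eventually_nhds_iff.1 hev
  have hsub : ∀ p, ‖p - x‖ < δ → ‖p‖ < R ∧ Dp p ⊆ Dp x := by
    intro p hp
    have h3 := hball (show dist p x < δ by rwa [dist_eq_norm])
    refine ⟨h3.1, fun d hd => ?_⟩
    obtain ⟨h4, h5⟩ := (hmem p d).1 hd
    exact (hmem x d).2 ⟨h4, h3.2 d h4 h5⟩
  refine ⟨x, Dp x, δ, hδ, fun d hd => hDne d ((hmem x d).1 hd).1,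
    fun d hd => ((hmem x d).1 hd).2, fun d hd d' hd' => hDnp d ((hmem x d).1 hd).1 d'
      ((hmem x d').1 hd').1, hx2, ?_, ?_⟩
  · intro p hp hpx
    obtain ⟨h3, h4⟩ := hsub p hpx
    obtain ⟨d, hd, hpd⟩ := hcov p hp h3.le
    exact ⟨d, h4 ((hmem p d).2 ⟨hd, hpd⟩), hpd⟩
  · intro p hpx d hd d' hd' hne hpd hpd' d'' hd''
    obtain ⟨h3, h4⟩ := hsub p hpx
    have h5 : 2 ≤ (Dp p).card := Finset.one_lt_card.2 ⟨d, (hmem p d).2 ⟨((hmem x d).1 hd).1, hpd⟩,
      d', (hmem p d').2 ⟨((hmem x d').1 hd').1, hpd'⟩, hne⟩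
    have h6 : Dp p = Dp x := Finset.eq_of_subset_of_card_le h4 (hmin p h3 h5)
    rw [← h6] at hd''
    exact ((hmem p d'').1 hd'').2

/-- Points on only one line are simple. -/
lemma Xd.smp {E : Set V} (hE : IsClosed E) {x : V} {D : Finset V} {δ : ℝ} (h : Xd E x D δ)
    {p d : V} (hp : ‖p - x‖ < δ) (hd : d ∈ D) (hno : ∀ d' ∈ D, d' ≠ d → p ∉ Ln E d') :
    Smp E d p := by
  classical
  have hev : ∀ᶠ q in 𝓝 p, ‖q - x‖ < δ ∧ ∀ d' ∈ D, d' ≠ d → q ∉ Ln E d' := by
    refine Filter.Eventually.and ?_ ?_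
    · have hc : Continuous fun q : V => ‖q - x‖ := by fun_prop
      exact (isOpen_lt hc continuous_const).mem_nhds hp
    · rw [Filter.eventually_all_finset]
      intro d' hd'
      by_cases hne : d' = d
      · exact Filter.Eventually.of_forall fun q h' => absurd hne h'
      · filter_upwards [(Ln_closed hE d').isOpen_compl.mem_nhds (hno d' hd' hne)] with q hq _
        exact hq
  obtain ⟨r, hr, hball⟩ := Metric.eventually_nhds_iff.1 hev
  have key : ∀ q, ‖q - p‖ < r → (q ∈ E ↔ q ∈ Ln E d) := by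
    intro q hq
    obtain ⟨h1, h2⟩ := hball (show dist q p < r by rwa [dist_eq_norm])
    refine ⟨fun hqE => ?_, Ln_sub⟩
    obtain ⟨d', hd', hqd⟩ := h.cov q hqE h1
    by_cases hne : d' = d
    · rwa [hne] at hqd
    · exact absurd hqd (h2 d' hd' hne)
  refine ⟨r, hr, fun u v hu hv huv => ?_⟩
  rw [key u hu, key v hv]
  have aux : ∀ a b : V, rdet d a = rdet d b → a ∈ Ln E d → b ∈ Ln E d := by
    intro a b hab ha
    obtain ⟨s, rfl⟩ := same_ht (h.ne d hd) hab
    exact Ln_add ha s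
  exact ⟨aux u v huv, aux v u huv.symm⟩

end CRS

end Pool.Agent.PTG
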