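import Pool.Agent.PTG.CRSa

/-!
# PTG: no crossings (CRS), second part: at least three directions at a minimal crossing point
-/

set_option autoImplicit false

namespace Pool.Agent.PTG

open Pool.Agent.PTR Filter Topology
open Pool.Agent.PTR.OL (V ii dif difs FLC InHull)

namespace CRS

/-- A closed set of real numbers which is a local subgroup at `0` is discrete or everything. -/
lemma loc_sub {Z : Set ℝ} (hZ : IsClosed Z) {μ : ℝ} (h0 : (0 : ℝ) ∈ Z)
    (hsub : ∀ a ∈ Z, ∀ b ∈ Z, |a| < μ → |b| < μ → |a - b| < μ → a - b ∈ Z) (hμ : 0 < μ) :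
    (∃ ε > 0, ∀ a ∈ Z, |a| < ε → a = 0) ∨ ∀ t, 0 < t → t < μ → t ∈ Z := by
  by_cases hd : ∃ ε > 0, ∀ a ∈ Z, |a| < ε → a = 0
  · exact Or.inl hd
  refine Or.inr fun t ht htμ => ?_
  push Not at hd
  have hneg : ∀ a ∈ Z, |a| < μ → -a ∈ Z := by
    intro a ha h1
    have := hsub 0 h0 a ha (by rwa [abs_zero]) h1 (by rwa [zero_sub, abs_neg])
    rwa [zero_sub] at this
  have hpos : ∀ ε > 0, ∃ z ∈ Z, 0 < z ∧ z < ε ∧ z < μ := by
    intro ε hε
    obtain ⟨a, ha, h1, h2⟩ := hd (min ε μ) (lt_min hε hμ)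
    have h3 := lt_of_lt_of_le h1 (min_le_left _ _)
    have h4 := lt_of_lt_of_le h1 (min_le_right _ _)
    rcases lt_or_gt_of_ne h2 with h5 | h5
    · rw [abs_of_neg h5] at h3 h4
      exact ⟨-a, hneg a ha (by rwa [abs_of_neg h5]), by linarith, h3, h4⟩
    · rw [abs_of_pos h5] at h3 h4
      exact ⟨a, ha, h5, h3, h4⟩
  rw [← hZ.closure_eq, Metric.mem_closure_iff]
  intro η hη
  obtain ⟨z, hz, hz0, hzη, hzμ⟩ := hpos η hη
  have hmul : ∀ n : ℕ, (n : ℝ) * z < μ → (n : ℝ) * z ∈ Z := by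
    intro n
    induction n with
    | zero => intro _; simpa using h0
    | succ n ih =>
      intro h1
      push_cast at h1 ⊢
      have hn0 : 0 ≤ (n : ℝ) * z := by positivity
      have h2 : (n : ℝ) * z < μ := by nlinarith
      have h3 := ih h2
      have h4 := hneg z hz (by rwa [abs_of_pos hz0])
      have h5 := hsub _ h3 _ h4 (by rwa [abs_of_nonneg hn0])
        (by rwa [abs_neg, abs_of_pos hz0]) (by
          rw [abs_of_nonneg (by linarith)]
          nlinarith)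
      have h6 : (n : ℝ) * z - -z = ((n : ℝ) + 1) * z := by ring
      rwa [h6] at h5
  have h1 : (⌊t / z⌋₊ : ℝ) ≤ t / z := Nat.floor_le (by positivity)
  have h2 : t / z < ⌊t / z⌋₊ + 1 := Nat.lt_floor_add_one _
  have h3 : (⌊t / z⌋₊ : ℝ) * z ≤ t := by rwa [le_div_iff₀ hz0] at h1
  have h4 : t < (⌊t / z⌋₊ + 1) * z := by rwa [div_lt_iff₀ hz0] at h2
  refine ⟨_, hmul ⌊t / z⌋₊ (by linarith), ?_⟩
  rw [Real.dist_eq, abs_of_nonneg (by linarith)]
  nlinarith

theorem isol {E : Set V} (hE : IsClosed E) (hint : interior E = ∅) {x : V} {D : Finset V}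
    {δ : ℝ} (h : Xd E x D δ) (h3 : 3 ≤ D.card) :
    ∃ r > 0, ∀ p ∈ E, ‖p - x‖ < r → ∃ d ∈ D, ∃ s : ℝ, p = x + s • d := by
  classical
  obtain ⟨d1, hd1, d2, hd2, d3, hd3, h12, h13, h23⟩ := Finset.two_lt_card.1 h3
  have hr12 : rdet d1 d2 ≠ 0 := fun h0 => h12 (h.np d1 hd1 d2 hd2 h0)
  have hr13 : rdet d1 d3 ≠ 0 := fun h0 => h13 (h.np d1 hd1 d3 hd3 h0)
  have hr32 : rdet d3 d2 ≠ 0 := fun h0 => h23 (h.np d3 hd3 d2 hd2 h0).symm
  set a : ℝ := rdet d3 d2 / rdet d1 d2 with ha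
  set b : ℝ := rdet d1 d3 / rdet d1 d2 with hb
  have ha0 : a ≠ 0 := div_ne_zero hr32 hr12
  have hb0 : b ≠ 0 := div_ne_zero hr13 hr12
  have hd3e : d3 = a • d1 + b • d2 := coord hr12 d3
  set e1 : V := a • d1 with he1
  set e2 : V := b • d2 with he2
  have hre : rdet e1 e2 ≠ 0 := by
    rw [he1, he2, rd_smul_left, rd_smul]
    exact mul_ne_zero ha0 (mul_ne_zero hb0 hr12)
  have hL1 : ∀ p, p ∈ Ln E e1 ↔ p ∈ Ln E d1 := fun p => Ln_smul ha0
  have hL2 : ∀ p, p ∈ Ln E e2 ↔ p ∈ Ln E d2 := fun p => Ln_smul hb0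
  -- the radius
  obtain ⟨μ, hμ, hμδ⟩ : ∃ μ > 0, ∀ α β : ℝ, |α| < μ → |β| < μ → ‖α • e1 + β • e2‖ < δ := by
    have hs : 0 < ‖e1‖ + ‖e2‖ + 1 := by positivity
    refine ⟨δ / (‖e1‖ + ‖e2‖ + 1), div_pos h.pos hs, fun α β hα hβ => ?_⟩
    have h4 : ‖α • e1 + β • e2‖ ≤ |α| * ‖e1‖ + |β| * ‖e2‖ := by
      refine (norm_add_le _ _).trans ?_
      rw [norm_smul α e1, norm_smul β e2, Real.norm_eq_abs, Real.norm_eq_abs]
    have h5 : |α| * ‖e1‖ + |β| * ‖e2‖ ≤ δ / (‖e1‖ + ‖e2‖ + 1) * (‖e1‖ + ‖e2‖) := by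
      have := mul_le_mul_of_nonneg_right hα.le (norm_nonneg e1)
      have := mul_le_mul_of_nonneg_right hβ.le (norm_nonneg e2)
      nlinarith
    have h6 : δ / (‖e1‖ + ‖e2‖ + 1) * (‖e1‖ + ‖e2‖) < δ := by
      rw [div_mul_eq_mul_div, div_lt_iff₀ hs]
      nlinarith [h.pos]
    linarith
  -- the three families of lines
  have mZ : ∀ α β : ℝ, x + (α • e1 + β • e2) ∈ Ln E d2 ↔ x + α • e1 ∈ Ln E d2 := by
    intro α β
    constructor
    · intro h4
      have h5 := Ln_add h4 (-(β * b))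
      have h6 : x + (α • e1 + β • e2) + (-(β * b)) • d2 = x + α • e1 := by
        rw [he2, smul_smul β b d2, neg_smul]; abel
      rwa [h6] at h5
    · intro h4
      have h5 := Ln_add h4 (β * b)
      have h6 : x + α • e1 + (β * b) • d2 = x + (α • e1 + β • e2) := by
        rw [he2, smul_smul β b d2]; abel
      rwa [h6] at h5
  have mY : ∀ α β : ℝ, x + (α • e1 + β • e2) ∈ Ln E d1 ↔ x + β • e2 ∈ Ln E d1 := by
    intro α β
    constructor
    · intro h4
      have h5 := Ln_add h4 (-(α * a))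
      have h6 : x + (α • e1 + β • e2) + (-(α * a)) • d1 = x + β • e2 := by
        rw [he1, smul_smul α a d1, neg_smul]; abel
      rwa [h6] at h5
    · intro h4
      have h5 := Ln_add h4 (α * a)
      have h6 : x + β • e2 + (α * a) • d1 = x + (α • e1 + β • e2) := by
        rw [he1, smul_smul α a d1]; abel
      rwa [h6] at h5
  have mW : ∀ α β : ℝ, x + (α • e1 + β • e2) ∈ Ln E d3 ↔ x + (α - β) • e1 ∈ Ln E d3 := by
    intro α β
    constructor
    · intro h4
      have h5 := Ln_add h4 (-β)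
      have h6 : x + (α • e1 + β • e2) + (-β) • d3 = x + (α - β) • e1 := by
        rw [hd3e, smul_add, neg_smul, neg_smul, sub_smul]; abel
      rwa [h6] at h5
    · intro h4
      have h5 := Ln_add h4 β
      have h6 : x + (α - β) • e1 + β • d3 = x + (α • e1 + β • e2) := by
        rw [hd3e, smul_add, sub_smul]; abel
      rwa [h6] at h5
  set Z : Set ℝ := {α | x + α • e1 ∈ Ln E d2} with hZdef
  set Y : Set ℝ := {β | x + β • e2 ∈ Ln E d1} with hYdef
  set W : Set ℝ := {γ | x + γ • e1 ∈ Ln E d3} with hWdef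
  have hnear : ∀ α β : ℝ, |α| < μ → |β| < μ → ‖x + (α • e1 + β • e2) - x‖ < δ := by
    intro α β hα hβ
    rw [add_sub_cancel_left]
    exact hμδ α β hα hβ
  have F1 : ∀ α β : ℝ, |α| < μ → |β| < μ → α ∈ Z → β ∈ Y → α - β ∈ W := by
    intro α β hα hβ h4 h5
    exact (mW α β).1 (h.all _ (hnear α β hα hβ) d2 hd2 d1 hd1 h12.symm ((mZ α β).2 h4)
      ((mY α β).2 h5) d3 hd3)
  have F2 : ∀ α β : ℝ, |α| < μ → |β| < μ → α ∈ Z → α - β ∈ W → β ∈ Y := by
    intro α β hα hβ h4 h5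
    exact (mY α β).1 (h.all _ (hnear α β hα hβ) d2 hd2 d3 hd3 h23 ((mZ α β).2 h4)
      ((mW α β).2 h5) d1 hd1)
  have F3 : ∀ α β : ℝ, |α| < μ → |β| < μ → β ∈ Y → α - β ∈ W → α ∈ Z := by
    intro α β hα hβ h4 h5
    exact (mZ α β).1 (h.all _ (hnear α β hα hβ) d1 hd1 d3 hd3 h13 ((mY α β).2 h4)
      ((mW α β).2 h5) d2 hd2)
  have hZ0 : (0 : ℝ) ∈ Z := by
    show x + (0 : ℝ) • e1 ∈ Ln E d2
    rw [zero_smul, add_zero]
    exact h.ln d2 hd2
  have hY0 : (0 : ℝ) ∈ Y := by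
    show x + (0 : ℝ) • e2 ∈ Ln E d1
    rw [zero_smul, add_zero]
    exact h.ln d1 hd1
  have hμ0 : |(0 : ℝ)| < μ := by rwa [abs_zero]
  have hZW : ∀ α, |α| < μ → α ∈ Z → α ∈ W := by
    intro α hα h4
    have := F1 α 0 hα hμ0 h4 hY0
    rwa [sub_zero] at this
  have hYZ : ∀ β, |β| < μ → β ∈ Y → -β ∈ Z := by
    intro β hβ h4
    have h5 := F1 0 β hμ0 hβ hZ0 h4
    rw [zero_sub] at h5
    exact F3 (-β) 0 (by rwa [abs_neg]) hμ0 hY0 (by rwa [sub_zero])
  have hsub : ∀ α ∈ Z, ∀ β ∈ Z, |α| < μ → |β| < μ → |α - β| < μ → α - β ∈ Z := by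
    intro α h4 β h5 hα hβ hαβ
    have h6 : β - α ∈ Y := by
      refine F2 β (β - α) hβ (by rwa [abs_sub_comm]) h5 ?_
      have : β - (β - α) = α := by ring
      rw [this]
      exact hZW α hα h4
    have h7 := hYZ (β - α) (by rwa [abs_sub_comm]) h6
    rwa [neg_sub] at h7
  have hZc : IsClosed Z := (Ln_closed hE d2).preimage (by fun_prop)
  rcases loc_sub hZc hZ0 hsub hμ with ⟨ε, hε, hZε⟩ | hall
  · -- the discrete case
    have hYε : ∀ β, |β| < min ε μ → β ∈ Y → β = 0 := by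
      intro β hβ h4
      have h5 := hYZ β (lt_of_lt_of_le hβ (min_le_right _ _)) h4
      have h6 := hZε _ h5 (by rw [abs_neg]; exact lt_of_lt_of_le hβ (min_le_left _ _))
      linarith
    -- coordinates of the points near `x`
    have hc1 : Continuous fun p : V => rdet e1 (p - x) / rdet e1 e2 := by
      unfold rdet
      fun_prop
    have hev1 : ∀ᶠ p in 𝓝 x, |rdet e1 (p - x) / rdet e1 e2| < min ε μ := by
      have h4 := hc1.tendsto x
      have h5 : rdet e1 (x - x) / rdet e1 e2 = 0 := by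
        rw [sub_self]
        simp [rdet]
      rw [h5] at h4
      have h6 := h4.abs
      rw [abs_zero] at h6
      exact h6.eventually (gt_mem_nhds (lt_min hε hμ))
    have hev2 : ∀ᶠ p in 𝓝 x, ∀ d ∈ D, |rdet (p - x) d / rdet e1 d| < min ε μ := by
      rw [Filter.eventually_all_finset]
      intro d _
      have hc2 : Continuous fun p : V => rdet (p - x) d / rdet e1 d := by
        unfold rdet
        fun_prop
      have h4 := hc2.tendsto x
      have h5 : rdet (x - x) d / rdet e1 d = 0 := by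
        rw [sub_self]
        simp [rdet]
      rw [h5] at h4
      have h6 := h4.abs
      rw [abs_zero] at h6
      exact h6.eventually (gt_mem_nhds (lt_min hε hμ))
    obtain ⟨r, hr, hball⟩ := Metric.eventually_nhds_iff.1 (hev1.and hev2)
    refine ⟨min r δ, lt_min hr h.pos, fun p hp hpx => ?_⟩
    obtain ⟨g1, g2⟩ := hball (show dist p x < r by
      rw [dist_eq_norm]; exact lt_of_lt_of_le hpx (min_le_left _ _))
    obtain ⟨d, hd, hpd⟩ := h.cov p hp (lt_of_lt_of_le hpx (min_le_right _ _))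
    refine ⟨d, hd, ?_⟩
    by_cases hdd : d = d1
    · subst hdd
      have h4 := coord hre (p - x)
      have h5 : rdet e1 (p - x) / rdet e1 e2 ∈ Y := by
        rw [hYdef]
        refine (mY (rdet (p - x) e2 / rdet e1 e2) _).1 ?_
        rw [← h4, add_sub_cancel]
        exact hpd
      have h6 := hYε _ g1 h5
      rw [h6, zero_smul, add_zero, he1, smul_smul] at h4
      exact ⟨_, by rw [← h4]; abel⟩
    · have hrd : rdet e1 d ≠ 0 := by
        rw [he1, rd_smul_left]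
        exact mul_ne_zero ha0 fun h0 => hdd (h.np d1 hd1 d hd h0).symm
      have h4 := coord hrd (p - x)
      set A : ℝ := rdet (p - x) d / rdet e1 d with hA
      set B : ℝ := rdet e1 (p - x) / rdet e1 d with hB
      have hAlt : |A| < min ε μ := g2 d hd
      have hAμ : |A| < μ := lt_of_lt_of_le hAlt (min_le_right _ _)
      have h5 : x + A • e1 ∈ Ln E d := by
        have h6 := Ln_add hpd (-B)
        have h7 : p + (-B) • d = x + A • e1 := by
          have h8 : p = x + (A • e1 + B • d) := by rw [← h4]; abel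
          rw [h8, neg_smul]
          abel
        rwa [h7] at h6
      have h6 : x + A • e1 ∈ Ln E d1 := by
        rw [he1, smul_smul]
        exact Ln_add (h.ln d1 hd1) _
      have h7 : ‖x + A • e1 - x‖ < δ := by
        have := hnear A 0 hAμ hμ0
        rwa [zero_smul, add_zero] at this
      have h8 : A ∈ Z := h.all _ h7 d hd d1 hd1 hdd h5 h6 d2 hd2
      have h9 : A = 0 := hZε A h8 (lt_of_lt_of_le hAlt (min_le_left _ _))
      rw [h9, zero_smul, zero_add] at h4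
      exact ⟨B, by rw [← h4]; abel⟩
  · exact absurd (no_strip (p := x) (e := e1) (d := d2) hint (by
      rw [he1, rd_smul_left]
      exact mul_ne_zero ha0 hr12) hμ fun s h4 h5 => hall s h4 h5) (fun h => h)

end CRS

end Pool.Agent.PTG
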