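import Pool.Agent.PTG.CRSa

/-!
# PTG: no crossings (CRS): two directions; isolated crossing points
-/

set_option autoImplicit false

namespace Pool.Agent.PTG

open Pool.Agent.PTR Filter Topology
open Pool.Agent.PTR.OL (V ii dif difs FLC InHull)

namespace CRS

/-- A locally constant function is constant on preconnected sets. -/
lemma const_on {ι : Type} {E : Set V} {cl : V → ι}
    (hloc : ∀ x, x ∉ E → ∀ᶠ y in 𝓝 x, cl y = cl x) {S : Set V} (hS : IsPreconnected S)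
    (hSE : ∀ x ∈ S, x ∉ E) {x y : V} (hx : x ∈ S) (hy : y ∈ S) : cl x = cl y := by
  by_contra hne
  set u : Set V := {z | ∀ᶠ w in 𝓝 z, cl w = cl x} with hu
  set v : Set V := {z | ∀ᶠ w in 𝓝 z, cl w ≠ cl x} with hv
  have huo : IsOpen u := isOpen_iff_mem_nhds.2 fun z hz => eventually_eventually_nhds.2 hz
  have hvo : IsOpen v := isOpen_iff_mem_nhds.2 fun z hz => eventually_eventually_nhds.2 hz
  have hcov : S ⊆ u ∪ v := by
    intro z hz
    by_cases h : cl z = cl x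
    · left
      filter_upwards [hloc z (hSE z hz)] with w hw
      rw [hw, h]
    · right
      filter_upwards [hloc z (hSE z hz)] with w hw
      rwa [hw]
  have hux : (S ∩ u).Nonempty := ⟨x, hx, hloc x (hSE x hx)⟩
  have hvy : (S ∩ v).Nonempty := by
    refine ⟨y, hy, ?_⟩
    filter_upwards [hloc y (hSE y hy)] with w hw
    rw [hw]
    exact fun h => hne h.symm
  obtain ⟨z, -, hzu, hzv⟩ := hS u v huo hvo hcov hux hvy
  have h1 : cl z = cl x := (show ∀ᶠ w in 𝓝 z, cl w = cl x from hzu).self_of_nhds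
  have h2 : cl z ≠ cl x := (show ∀ᶠ w in 𝓝 z, cl w ≠ cl x from hzv).self_of_nhds
  exact h2 h1

lemma line_move {E : Set V} {e x f : V} {a b : ℝ} :
    x + a • e + b • f ∈ Ln E e ↔ x + b • f ∈ Ln E e := by
  constructor
  · intro h
    have h1 := Ln_add h (-a)
    have h2 : x + a • e + b • f + (-a) • e = x + b • f := by
      rw [neg_smul]; abel
    rwa [h2] at h1
  · intro h
    have h1 := Ln_add h a
    have h2 : x + b • f + a • e = x + a • e + b • f := by abel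
    rwa [h2] at h1

lemma line_move' {E : Set V} {e x f : V} {a b : ℝ} :
    x + a • e + b • f ∈ Ln E f ↔ x + a • e ∈ Ln E f := by
  constructor
  · intro h
    have h1 := Ln_add h (-b)
    have h2 : x + a • e + b • f + (-b) • f = x + a • e := by
      rw [neg_smul]; abel
    rwa [h2] at h1
  · intro h
    exact Ln_add h b

lemma small {d₁ d₂ x : V} {η δ a b : ℝ} (hη : η * (‖d₁‖ + ‖d₂‖ + 1) ≤ δ) (hη0 : 0 < η)
    (ha : |a| < η) (hb : |b| < η) : ‖x + a • d₁ + b • d₂ - x‖ < δ := by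
  have h1 : x + a • d₁ + b • d₂ - x = a • d₁ + b • d₂ := by abel
  rw [h1]
  refine lt_of_lt_of_le ?_ hη
  have h2 : ‖a • d₁ + b • d₂‖ ≤ |a| * ‖d₁‖ + |b| * ‖d₂‖ := by
    refine (norm_add_le _ _).trans ?_
    rw [norm_smul, norm_smul, Real.norm_eq_abs, Real.norm_eq_abs]
  have h3 : |a| * ‖d₁‖ ≤ η * ‖d₁‖ := by gcongr
  have h4 : |b| * ‖d₂‖ ≤ η * ‖d₂‖ := by gcongr
  linarith [h2, h3, h4]

/-- Two directions. -/
theorem case2 {ι : Type} {E : Set V} {cl : V → ι} (hE : IsClosed E) (hint : interior E = ∅)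
    (hloc : ∀ x, x ∉ E → ∀ᶠ y in 𝓝 x, cl y = cl x)
    (hreg : ∀ p i, (∀ᶠ x in 𝓝 p, x ∉ E → cl x = i) → p ∉ E)
    (hgerm : ∀ e p p' : V, e ≠ 0 → p ∈ E → rdet e p = rdet e p' → Smp E e p → Smp E e p' →
      ∃ r > (0 : ℝ), ∀ x y, ‖x - p‖ < r → ‖y - p'‖ < r → rdet e x = rdet e y →
        x ∉ E → y ∉ E → cl x = cl y)
    {x : V} {D : Finset V} {δ : ℝ} (h : Xd E x D δ) (hcard : D.card = 2) : False := by
  classical
  obtain ⟨d₁, d₂, hne, hD⟩ := Finset.card_eq_two.1 hcard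
  have hd1 : d₁ ∈ D := by rw [hD]; simp
  have hd2 : d₂ ∈ D := by rw [hD]; simp
  have hcase : ∀ d ∈ D, d = d₁ ∨ d = d₂ := by
    intro d hd
    rw [hD] at hd
    simpa using hd
  have hΔ : rdet d₁ d₂ ≠ 0 := fun h0 => hne (h.np d₁ hd1 d₂ hd2 h0)
  have hΔ' : rdet d₂ d₁ ≠ 0 := by rw [rd_swap]; exact neg_ne_zero.2 hΔ
  set P : ℝ → ℝ → V := fun a b => x + a • d₁ + b • d₂ with hP
  set F1 : Set ℝ := {b | x + b • d₂ ∈ Ln E d₁} with hF1
  set F2 : Set ℝ := {a | x + a • d₁ ∈ Ln E d₂} with hF2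
  have hF1c : IsClosed F1 := (Ln_closed hE d₁).preimage (by fun_prop)
  have hF2c : IsClosed F2 := (Ln_closed hE d₂).preimage (by fun_prop)
  have h1iff : ∀ a b, P a b ∈ Ln E d₁ ↔ b ∈ F1 := fun a b => line_move
  have h2iff : ∀ a b, P a b ∈ Ln E d₂ ↔ a ∈ F2 := fun a b => line_move'
  have h0F1 : (0 : ℝ) ∈ F1 := by
    rw [← h1iff 0 0]
    simpa [hP] using h.ln d₁ hd1
  have h0F2 : (0 : ℝ) ∈ F2 := by
    rw [← h2iff 0 0]
    simpa [hP] using h.ln d₂ hd2
  set η : ℝ := δ / (‖d₁‖ + ‖d₂‖ + 1) with hη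
  have hden : 0 < ‖d₁‖ + ‖d₂‖ + 1 := by positivity
  have hη0 : 0 < η := div_pos h.pos hden
  have hηδ : η * (‖d₁‖ + ‖d₂‖ + 1) ≤ δ := by rw [hη, div_mul_cancel₀ _ hden.ne']
  have hsm : ∀ a b, |a| < η → |b| < η → ‖P a b - x‖ < δ := fun a b ha hb =>
    small hηδ hη0 ha hb
  have hPE : ∀ a b, |a| < η → |b| < η → P a b ∈ E → b ∈ F1 ∨ a ∈ F2 := by
    intro a b ha hb hab
    obtain ⟨d, hd, hpd⟩ := h.cov _ hab (hsm a b ha hb)
    rcases hcase d hd with rfl | rfl
    · exact Or.inl ((h1iff a b).1 hpd)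
    · exact Or.inr ((h2iff a b).1 hpd)
  have hPc : Continuous fun q : ℝ × ℝ => P q.1 q.2 := by
    simp only [hP]
    fun_prop
  have hPa : ∀ b, Continuous fun a => P a b := fun b => by
    simp only [hP]
    fun_prop
  -- the main claim
  have claim : ∀ b b', |b| < η → |b'| < η → b ∉ F1 → b' ∉ F1 → ∀ a, |a| < η → a ∉ F2 →
      cl (P a b) = cl (P a b') := by
    intro b b' hb hb' hbF hbF'
    set u : Set ℝ := {α | ∀ᶠ a in 𝓝 α, a ∉ F2 → cl (P a b) = cl (P a b')} with hu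
    set v : Set ℝ := {α | ∀ᶠ a in 𝓝 α, a ∉ F2 ∧ cl (P a b) ≠ cl (P a b')} with hv
    have huo : IsOpen u := isOpen_iff_mem_nhds.2 fun z hz => eventually_eventually_nhds.2 hz
    have hvo : IsOpen v := isOpen_iff_mem_nhds.2 fun z hz => eventually_eventually_nhds.2 hz
    have hF : ∀ α, |α| < η → α ∈ F2 → α ∈ u := by
      intro α hα hαF
      have hs : ∀ c, |c| < η → c ∉ F1 → Smp E d₂ (P α c) := by
        intro c hc hcF
        refine h.smp hE (hsm α c hα hc) hd2 fun d' hd' hne' hln => ?_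
        rcases hcase d' hd' with rfl | rfl
        · exact hcF ((h1iff α c).1 hln)
        · exact hne' rfl
      obtain ⟨r, hr, hgr⟩ := hgerm d₂ (P α b) (P α b') (h.ne d₂ hd2)
        (Ln_sub ((h2iff α b).2 hαF)) (by
          simp only [hP, rd_add, rd_smul, rd_self]; ring) (hs b hb hbF) (hs b' hb' hbF')
      have e1 : ∀ᶠ a in 𝓝 α, ‖P a b - P α b‖ < r := by
        have hc : Continuous fun a => ‖P a b - P α b‖ := ((hPa b).sub continuous_const).norm
        exact (isOpen_lt hc continuous_const).mem_nhds (by simpa using hr)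
      have e2 : ∀ᶠ a in 𝓝 α, ‖P a b' - P α b'‖ < r := by
        have hc : Continuous fun a => ‖P a b' - P α b'‖ := ((hPa b').sub continuous_const).norm
        exact (isOpen_lt hc continuous_const).mem_nhds (by simpa using hr)
      have e3 : ∀ᶠ a in 𝓝 α, |a| < η :=
        (isOpen_lt continuous_abs continuous_const).mem_nhds hα
      show ∀ᶠ a in 𝓝 α, a ∉ F2 → cl (P a b) = cl (P a b')
      filter_upwards [e1, e2, e3] with a h1 h2 h3 haF
      refine hgr _ _ h1 h2 ?_ ?_ ?_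
      · simp only [hP, rd_add, rd_smul, rd_self]; ring
      · intro hcon
        rcases hPE a b h3 hb hcon with h4 | h4
        · exact hbF h4
        · exact haF h4
      · intro hcon
        rcases hPE a b' h3 hb' hcon with h4 | h4
        · exact hbF' h4
        · exact haF h4
    have hN : ∀ α, |α| < η → α ∉ F2 → (∀ᶠ a in 𝓝 α, a ∉ F2 ∧ cl (P a b) = cl (P α b) ∧
        cl (P a b') = cl (P α b')) := by
      intro α hα hαF
      have g : ∀ c, |c| < η → c ∉ F1 → ∀ᶠ a in 𝓝 α, cl (P a c) = cl (P α c) := by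
        intro c hc hcF
        have hnE : P α c ∉ E := by
          intro hcon
          rcases hPE α c hα hc hcon with h4 | h4
          · exact hcF h4
          · exact hαF h4
        exact ((hPa c).tendsto α).eventually (hloc _ hnE)
      filter_upwards [hF2c.isOpen_compl.mem_nhds hαF, g b hb hbF, g b' hb' hbF'] with a h1 h2 h3
      exact ⟨h1, h2, h3⟩
    have hcov : Set.Ioo (-η) η ⊆ u ∪ v := by
      intro α hα
      have hα' : |α| < η := abs_lt.2 hα
      by_cases hαF : α ∈ F2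
      · exact Or.inl (hF α hα' hαF)
      · by_cases heq : cl (P α b) = cl (P α b')
        · left
          show ∀ᶠ a in 𝓝 α, a ∉ F2 → cl (P a b) = cl (P a b')
          filter_upwards [hN α hα' hαF] with a ha _
          rw [ha.2.1, ha.2.2, heq]
        · right
          show ∀ᶠ a in 𝓝 α, a ∉ F2 ∧ cl (P a b) ≠ cl (P a b')
          filter_upwards [hN α hα' hαF] with a ha
          refine ⟨ha.1, ?_⟩
          rwa [ha.2.1, ha.2.2]
    intro a ha haF
    by_contra hcon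
    have h0 : (Set.Ioo (-η) η ∩ u).Nonempty :=
      ⟨0, ⟨by linarith, hη0⟩, hF 0 (by rwa [abs_zero]) h0F2⟩
    have h1 : (Set.Ioo (-η) η ∩ v).Nonempty := by
      refine ⟨a, abs_lt.1 ha, ?_⟩
      show ∀ᶠ a' in 𝓝 a, a' ∉ F2 ∧ cl (P a' b) ≠ cl (P a' b')
      filter_upwards [hN a ha haF] with a' ha'
      refine ⟨ha'.1, ?_⟩
      rwa [ha'.2.1, ha'.2.2]
    obtain ⟨z, -, hzu, hzv⟩ := isPreconnected_Ioo u v huo hvo hcov h0 h1
    have k1 := (show ∀ᶠ a in 𝓝 z, a ∉ F2 → cl (P a b) = cl (P a b') from hzu).self_of_nhds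
    have k2 := (show ∀ᶠ a in 𝓝 z, a ∉ F2 ∧ cl (P a b) ≠ cl (P a b') from hzv).self_of_nhds
    exact k2.2 (k1 k2.1)
  -- generic coordinates
  have hex2 : ∃ a, |a| < η ∧ a ∉ F2 := by
    by_contra hcon
    push Not at hcon
    refine no_strip (p := x) hint hΔ (show -η < η by linarith) fun s h1 h2 => ?_
    exact hcon s (abs_lt.2 ⟨h1, h2⟩)
  have hex1 : ∃ b, |b| < η ∧ b ∉ F1 := by
    by_contra hcon
    push Not at hcon
    refine no_strip (p := x) hint hΔ' (show -η < η by linarith) fun s h1 h2 => ?_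
    exact hcon s (abs_lt.2 ⟨h1, h2⟩)
  obtain ⟨a₀, ha₀, ha₀F⟩ := hex2
  obtain ⟨b₀, hb₀, hb₀F⟩ := hex1
  have hp1 : P a₀ 0 ∈ E := Ln_sub ((h1iff a₀ 0).2 h0F1)
  refine hreg (P a₀ 0) (cl (P a₀ b₀)) ?_ hp1
  -- coordinates of a point
  set ca : V → ℝ := fun q => rdet (q - x) d₂ / rdet d₁ d₂ with hca
  set cb : V → ℝ := fun q => rdet d₁ (q - x) / rdet d₁ d₂ with hcb
  have hcac : Continuous ca := by
    simp only [hca]; unfold rdet; fun_prop
  have hcbc : Continuous cb := by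
    simp only [hcb]; unfold rdet; fun_prop
  have hq : ∀ q, q = P (ca q) (cb q) := by
    intro q
    have h3 := coord hΔ (q - x)
    simp only [hP, hca, hcb]
    rw [add_assoc, ← h3]
    abel
  have hca0 : ca (P a₀ 0) = a₀ := by
    simp only [hca, hP]
    rw [zero_smul, add_zero, add_sub_cancel_left, rd_smul_left, mul_div_assoc, div_self hΔ,
      mul_one]
  have hcb0 : cb (P a₀ 0) = 0 := by
    simp only [hcb, hP]
    rw [zero_smul, add_zero, add_sub_cancel_left, rd_smul, rd_self, mul_zero, zero_div]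
  have e1 : ∀ᶠ q in 𝓝 (P a₀ 0), |ca q| < η := by
    refine (isOpen_lt (hcac.abs) continuous_const).mem_nhds ?_
    show |ca (P a₀ 0)| < η
    rwa [hca0]
  have e2 : ∀ᶠ q in 𝓝 (P a₀ 0), |cb q| < η := by
    refine (isOpen_lt (hcbc.abs) continuous_const).mem_nhds ?_
    show |cb (P a₀ 0)| < η
    rwa [hcb0, abs_zero]
  have hnE : P a₀ b₀ ∉ E := by
    intro hcon
    rcases hPE a₀ b₀ ha₀ hb₀ hcon with h4 | h4
    · exact hb₀F h4
    · exact ha₀F h4
  have e3 : ∀ᶠ q in 𝓝 (P a₀ 0), ca q ∉ F2 ∧ cl (P (ca q) b₀) = cl (P a₀ b₀) := by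
    have h5 : ∀ᶠ a in 𝓝 a₀, a ∉ F2 ∧ cl (P a b₀) = cl (P a₀ b₀) := by
      filter_upwards [hF2c.isOpen_compl.mem_nhds ha₀F,
        ((hPa b₀).tendsto a₀).eventually (hloc _ hnE)] with a h6 h7
      exact ⟨h6, h7⟩
    have h6 : Tendsto ca (𝓝 (P a₀ 0)) (𝓝 a₀) := by
      have := hcac.tendsto (P a₀ 0)
      rwa [hca0] at this
    exact h6.eventually h5
  filter_upwards [e1, e2, e3] with q h1 h2 h3 hqE
  have h4 : cb q ∉ F1 := by
    intro hcon
    apply hqE
    rw [hq q]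
    exact Ln_sub ((h1iff _ _).2 hcon)
  rw [hq q, claim (cb q) b₀ h2 hb₀ h4 hb₀F (ca q) h1 h3.1, h3.2]

end CRS

end Pool.Agent.PTG
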