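import Pool.Agent.PTA.Defs

/-!
# PTG: definitions

Arbitrary bodies (compact sets which are the closure of their interior), no condition on the
boundary.  See ideas row 2773 (MP_eac546_co).
-/

set_option autoImplicit false

namespace Pool.Agent.PTG

open Pool.Agent.PTR Filter Topology
open Pool.Agent.PTR.OL (V ii dif difs FLC InHull)
open Pool.Agent.PTP (Til TDP Iv wd SF Abv Stp Stk Ds Sm)
open Pool.Agent.PTA (Dir)

/-- A body with an interior point. -/
structure Bdy (C : Set V) : Prop where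
  cpt : IsCompact C
  ne : (interior C).Nonempty
  cl : closure (interior C) = C

/-- `C'` is a version of `C` which covers exactly: for every tiling by `C` every point is in exactly
one tile. `W` is an ultrafilter converging to `0`. -/
structure Ho (C : Set V) (W : Ultrafilter V) (C' : Set V) : Prop where
  w0 : (W : Filter V) ≤ 𝓝 0
  mem : ∀ z, z ∈ C' ↔ ∀ᶠ w in (W : Filter V), z + w ∈ interior C
  sub : ∀ z ∈ C', z ∈ C
  int : ∀ z ∈ interior C, z ∈ C'
  te : ∀ T, Til C T → ECov C' T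
  et : ∀ T, ECov C' T → Til C T

/-- The same, adapted to the direction `e`: the germs are above the line. -/
structure HoE (C : Set V) (W : Ultrafilter V) (e : V) (C' : Set V) : Prop
    extends Ho C W C' where
  ht : ∃ lo : ℝ, (∀ x ∈ C, lo ≤ rdet e x ∧ rdet e x ≤ lo + wd C e) ∧
    ∀ x ∈ C', rdet e x < lo + wd C e
  up : ∀ T c, Til C T → SF C e T c → ∀ z t, t ∈ T → z - t ∈ C' →
    (c ≤ rdet e z ↔ t ∈ Abv C e T c)

/-- `e` is a slide direction. -/
def Sg (C : Set V) (U : Ultrafilter ℕ) (Tn : ℕ → Set V) (δ : V → ℕ → V) (e : V) : Prop :=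
  (∀ t ∈ Lim U Tn, ∀ t' ∈ Lim U Tn,
    ∀ᶠ n in (U : Filter ℕ), rdet e (δ t n) = rdet e (δ t' n)) ∧
  ∀ t ∈ Lim U Tn, ∀ t' ∈ Lim U Tn, ∀ x ∈ interior C, ∀ y ∈ interior C,
    rdet e (t + x) = rdet e (t' + y) → Sm U δ t t'

/-! ## Class functions -/

/-- Euclidean scalar product and square of the norm. -/
def dt (u v : V) : ℝ := u.1 * v.1 + u.2 * v.2

def qd (u : V) : ℝ := dt u u

/-- A class function `cl` with displacements `a`: for `U`-almost all `n` the displaced classes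
cover the ball of radius `R` exactly (only the classes which occur in the ball of radius `R + 1` are
considered); `gen`: the value at `x` is the value at generic points near `x`. -/
structure Cls {ι : Type} (U : Ultrafilter ℕ) (cl : V → ι) (a : ι → ℕ → V) : Prop where
  lim : ∀ x, Tendsto (a (cl x)) (U : Filter ℕ) (𝓝 0)
  sep : ∀ x y, cl x ≠ cl y → ∀ᶠ n in (U : Filter ℕ), a (cl x) n ≠ a (cl y) n
  fin : ∀ R : ℝ, {i | ∃ x, ‖x‖ ≤ R ∧ cl x = i}.Finite
  cov : ∀ R : ℝ, ∀ᶠ n in (U : Filter ℕ), ∀ x, ‖x‖ ≤ R →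
    ∃! i, (∃ y, ‖y‖ ≤ R + 1 ∧ cl y = i) ∧ cl (x - a i n) = i
  gen : ∃ W : Ultrafilter V, (W : Filter V) ≤ 𝓝 0 ∧ ∀ x, ∀ᶠ w in (W : Filter V),
    cl (x + w) = cl x ∧ ∀ᶠ y in 𝓝 (x + w), cl y = cl (x + w)

/-- The set where `cl` is not locally constant. -/
def Es {ι : Type} (cl : V → ι) : Set V := {x | ¬ ∀ᶠ y in 𝓝 x, cl y = cl x}

lemma es_not {ι : Type} {cl : V → ι} {x : V} : x ∉ Es cl ↔ ∀ᶠ y in 𝓝 x, cl y = cl x := by
  simp [Es]

lemma es_closed {ι : Type} (cl : V → ι) : IsClosed (Es cl) := by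
  rw [← isOpen_compl_iff, isOpen_iff_mem_nhds]
  intro x hx
  have h1 : ∀ᶠ y in 𝓝 x, cl y = cl x := es_not.1 hx
  filter_upwards [eventually_eventually_nhds.2 h1, h1] with y hy hy'
  exact es_not.2 (hy.mono fun z hz => hz.trans hy'.symm)

/-- In every neighbourhood of `x` there is a ball on which `cl` has the value `cl x`. -/
lemma Cls.dns {ι : Type} {U : Ultrafilter ℕ} {cl : V → ι} {a : ι → ℕ → V} (h : Cls U cl a)
    (x : V) (r : ℝ) (hr : 0 < r) :
    ∃ y, ∃ s > (0 : ℝ), ∀ z, ‖z - y‖ < s → ‖z - x‖ < r ∧ cl z = cl x := by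
  obtain ⟨W, hW, hg⟩ := h.gen
  have h1 : ∀ᶠ w in (W : Filter V), ‖w‖ < r / 2 := by
    refine hW ?_
    have := Metric.ball_mem_nhds (0 : V) (half_pos hr)
    filter_upwards [this] with w hw
    simpa using hw
  obtain ⟨w, ⟨h2, h3⟩, h4⟩ := ((hg x).and h1).exists
  obtain ⟨s, hs, h5⟩ := Metric.eventually_nhds_iff.1 h3
  refine ⟨x + w, min s (r / 2), lt_min hs (half_pos hr), fun z hz => ⟨?_, ?_⟩⟩
  · calc ‖z - x‖ = ‖(z - (x + w)) + w‖ := by congr 1; abel
      _ ≤ ‖z - (x + w)‖ + ‖w‖ := norm_add_le _ _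
      _ < r / 2 + r / 2 := add_lt_add (lt_of_lt_of_le hz (min_le_right _ _)) h4
      _ = r := by ring
  · rw [h5 (by rw [dist_eq_norm]; exact lt_of_lt_of_le hz (min_le_left _ _)), h2]

/-- `p` is a nearest point of `E` for `x`. -/
def Nrst (E : Set V) (x p : V) : Prop := x ∉ E ∧ p ∈ E ∧ ∀ y ∈ E, qd (p - x) ≤ qd (y - x)

/-- Near `p` the set `E` consists of segments parallel to `e`. -/
def Smp (E : Set V) (e p : V) : Prop :=
  ∃ r > (0 : ℝ), ∀ x y, ‖x - p‖ < r → ‖y - p‖ < r → rdet e x = rdet e y → (x ∈ E ↔ y ∈ E)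

/-! ## Rows -/

/-- The row of `T` at the height `y` (direction `e`), as a set of real numbers. The point of
height `y` on the normal line is `y • n` with `rdet e n = 1`. -/
def row (e n : V) (T : Set V) (y : ℝ) : Set ℝ := {s | s • e + y • n ∈ T}

/-- Fourier coefficient of a `q`-periodic locally finite set of real numbers. -/
noncomputable def fc (q : ℝ) (S : Set ℝ) (k : ℤ) : ℂ :=
  ∑ᶠ s ∈ S ∩ Set.Ico 0 q, Complex.exp (-(2 * Real.pi * k * s / q : ℝ) * Complex.I)

/-- A periodic set of real numbers. -/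
def PerR (q : ℝ) (S : Set ℝ) : Prop := ∀ s, s + q ∈ S ↔ s ∈ S

/-- Separated set of real numbers. -/
def SepR (ρ : ℝ) (S : Set ℝ) : Prop := ∀ s ∈ S, ∀ s' ∈ S, s ≠ s' → ρ ≤ |s - s'|

/-- The frequencies of `S` are in `X`. -/
def SpR (X : Set ℝ) (q : ℝ) (S : Set ℝ) : Prop :=
  ∀ k : ℤ, fc q S k ≠ 0 → 2 * Real.pi * k / q ∈ X

/-- Locally finite set of real numbers. -/
def LF (X : Set ℝ) : Prop := ∀ M : ℝ, (X ∩ Set.Icc (-M) M).Finite

end Pool.Agent.PTG
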