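import Pool.Agent.PTG.P_G0

/-!
# PTG: A0
-/

set_option autoImplicit false

namespace Pool.Agent.PTG

open Pool.Agent.PTR Filter Topology
open Pool.Agent.PTR.OL (V ii dif difs FLC InHull)
open Pool.Agent.PTP (Til TDP Iv wd SF Abv Stp Stk Ds Sm)
open Pool.Agent.PTA (Dir)

/-- Translates of tilings. -/
lemma til_shift {C T : Set V} (hT : Til C T) (s : V) : Til C {z | z + s ∈ T} := by
  constructor
  · intro z
    obtain ⟨t, ht, htC⟩ := hT.1 (z + s)
    refine ⟨t - s, ?_, ?_⟩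
    · simp only [Set.mem_ofPred_eq, sub_add_cancel]; exact ht
    · rw [show z - (t - s) = z + s - t by abel]; exact htC
  · intro t ht t' ht' z h1 h2
    have := hT.2 (t + s) ht (t' + s) ht' (z + s) (by rw [add_sub_add_right_eq_sub]; exact h1)
      (by rw [add_sub_add_right_eq_sub]; exact h2)
    exact add_right_cancel this

/-- Two bounded sequences of tiles with infinitely many differences have limits with different
displacements. -/
lemma lim_pair {C : Set V} (hP : Bdy C) {Tn : ℕ → Set V}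
    (hT : ∀ n, Til C (Tn n)) {δ : V → ℕ → V} (hδ : Ds (hyperfilter ℕ) Tn δ)
    (f g : ℕ → V) (R : ℝ) (hf : ∀ n, f n ∈ Tn n) (hg : ∀ n, g n ∈ Tn n) (hfR : ∀ n, ‖f n‖ ≤ R)
    (hgR : ∀ n, ‖g n‖ ≤ R) (hinj : Function.Injective (fun n => g n - f n)) :
    ∃ t0 ∈ Lim (hyperfilter ℕ) Tn, ∃ t1 ∈ Lim (hyperfilter ℕ) Tn,
      (∀ᶠ n in (hyperfilter ℕ : Filter ℕ), f n = t0 + δ t0 n) ∧
      (∀ᶠ n in (hyperfilter ℕ : Filter ℕ), g n = t1 + δ t1 n) ∧
      ¬ Sm (hyperfilter ℕ) δ t0 t1 := by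
  obtain ⟨t0, ht0, h0⟩ := p_ULB C hP _ Tn hT δ hδ f R (Eventually.of_forall hf)
    (Eventually.of_forall hfR)
  obtain ⟨t1, ht1, h1⟩ := p_ULB C hP _ Tn hT δ hδ g R (Eventually.of_forall hg)
    (Eventually.of_forall hgR)
  refine ⟨t0, ht0, t1, ht1, h0, h1, fun hsm => ?_⟩
  have h2 : ∀ᶠ n in (hyperfilter ℕ : Filter ℕ), g n - f n = t1 - t0 := by
    filter_upwards [h0, h1, hsm] with n k0 k1 k2
    rw [k0, k1, k2]
    abel
  have h3 : {n | g n - f n = t1 - t0}.Subsingleton := fun n hn m hm =>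
    hinj (show g n - f n = g m - f m by rw [hn.out, hm.out])
  exact absurd h2 (notMem_hyperfilter_of_finite h3.finite)

theorem p_A0_of (hSL : T_SLIDE) : T_A0 := by
  intro C hP hI T hT hF
  simp only [FLC, not_forall] at hF
  obtain ⟨R, hR⟩ := hF
  set S : Set V := {d : V | ‖d‖ ≤ R ∧ ∃ t ∈ T, t + d ∈ T} with hS
  have hSi : S.Infinite := hR
  set d : ℕ → V := fun n => hSi.natEmbedding S n with hd
  have hdS : ∀ n, d n ∈ S := fun n => (hSi.natEmbedding S n).2
  have hdi : Function.Injective d := fun n m h =>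
    (hSi.natEmbedding S).injective (Subtype.ext h)
  choose t ht htd using fun n => (hdS n).2
  set Tn : ℕ → Set V := fun n => {z | z + t n ∈ T} with hTn
  have hTil : ∀ n, Til C (Tn n) := fun n => til_shift hT (t n)
  obtain ⟨hL, δ, hδ⟩ := p_ULT C hP (hyperfilter ℕ) Tn hTil
  have hR0 : 0 ≤ R := (norm_nonneg _).trans (hdS 0).1
  obtain ⟨t0, ht0, t1, ht1, -, -, hns⟩ := lim_pair hP hTil hδ (fun _ => 0) d R
    (fun n => by simp only [hTn, Set.mem_ofPred_eq, zero_add]; exact ht n)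
    (fun n => by
      simp only [hTn, Set.mem_ofPred_eq]
      rw [add_comm]; exact htd n)
    (fun n => by rw [norm_zero]; exact hR0) (fun n => (hdS n).1)
    (by simpa using hdi)
  rcases hSL C hP _ Tn hTil δ hδ with h | ⟨e, he, hSl⟩
  · exact absurd (h t0 ht0 t1 ht1) hns
  · rcases p_SLF C hP _ Tn hTil δ hδ e he.1 (hI e he) hSl t0 ht0 t1 ht1 hns with
      ⟨c, hc, -⟩ | ⟨c, hc, -⟩
    · exact ⟨e, he, _, c, hL, hc⟩
    · exact ⟨e, he, _, c, hL, hc⟩

end Pool.Agent.PTG
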