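import Pool.Agent.PTG.Targets

/-! # PTG: target HP

The half plane above a fault is periodic.
-/

set_option autoImplicit false

namespace Pool.Agent.PTG

open Pool.Agent.PTR Filter Topology
open Pool.Agent.PTR.OL (V ii dif difs FLC InHull)
open Pool.Agent.PTP (Til TDP Iv wd SF Abv Stp Stk Ds Sm)
open Pool.Agent.PTA (Dir)

namespace HPg

/-- The coefficient of a vector with respect to `e`. -/
noncomputable def cf (e w : V) : ℝ := (w.1 * e.1 + w.2 * e.2) / (e.1 ^ 2 + e.2 ^ 2)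

theorem nrm_pos {e : V} (he : e ≠ 0) : 0 < e.1 ^ 2 + e.2 ^ 2 := by
  by_contra hcon
  push Not at hcon
  apply he
  have h1 : e.1 = 0 := by nlinarith [sq_nonneg e.1, sq_nonneg e.2]
  have h2 : e.2 = 0 := by nlinarith [sq_nonneg e.1, sq_nonneg e.2]
  exact Prod.ext h1 h2

theorem cf_smul {e w : V} (he : e ≠ 0) (h : rdet e w = 0) : w = cf e w • e := by
  have hn := nrm_pos he
  have hn' := hn.ne'
  simp only [rdet] at h
  refine Prod.ext ?_ ?_
  · simp only [cf, Prod.smul_fst, smul_eq_mul]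
    field_simp
    linear_combination (-e.2) * h
  · simp only [cf, Prod.smul_snd, smul_eq_mul]
    field_simp
    linear_combination e.1 * h

theorem hrd_add (e x y : V) : rdet e (x + y) = rdet e x + rdet e y := by
  simp only [rdet, Prod.fst_add, Prod.snd_add]; ring

theorem hrd_sub (e x y : V) : rdet e (x - y) = rdet e x - rdet e y := by
  simp only [rdet, Prod.fst_sub, Prod.snd_sub]; ring

theorem hrd_smul (e x : V) (s : ℝ) : rdet e (s • x) = s * rdet e x := by
  simp only [rdet, Prod.smul_fst, Prod.smul_snd, smul_eq_mul]; ring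

theorem hrd_self (e : V) : rdet e e = 0 := by
  simp only [rdet]; ring

/-- Near an interior point there are higher and lower points. -/
theorem updown {C : Set V} {e : V} (he : e ≠ 0) {x : V} (hx : x ∈ interior C) :
    (∃ y ∈ C, rdet e y < rdet e x) ∧ ∃ y ∈ C, rdet e x < rdet e y := by
  set n : V := (-e.2, e.1) with hn
  have hpos : 0 < rdet e n := by
    have := nrm_pos he
    simp only [rdet, hn]
    nlinarith
  have hcont : Continuous fun s : ℝ => x + s • n := by fun_prop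
  have hmem : ∀ᶠ s in 𝓝 (0 : ℝ), x + s • n ∈ C := by
    have h1 : Tendsto (fun s : ℝ => x + s • n) (𝓝 0) (𝓝 (x + (0 : ℝ) • n)) := hcont.tendsto 0
    rw [zero_smul, add_zero] at h1
    exact h1.eventually (mem_interior_iff_mem_nhds.1 hx)
  obtain ⟨r, hr, hb⟩ := Metric.eventually_nhds_iff.1 hmem
  constructor
  · refine ⟨x + (-(r / 2)) • n, hb ?_, ?_⟩
    · rw [Real.dist_eq, sub_zero, abs_neg, abs_of_pos (by linarith)]; linarith
    · rw [hrd_add, hrd_smul]; nlinarith
  · refine ⟨x + (r / 2) • n, hb ?_, ?_⟩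
    · rw [Real.dist_eq, sub_zero, abs_of_pos (by linarith)]; linarith
    · rw [hrd_add, hrd_smul]; nlinarith

/-! ## Periods of sets of real numbers -/

theorem per_zero (S : Set ℝ) : PerR 0 S := fun s => by rw [add_zero]

theorem per_add' {S : Set ℝ} {p q : ℝ} (hp : PerR p S) (hq : PerR q S) : PerR (p + q) S :=
  fun s => by rw [← add_assoc, hq, hp]

theorem per_neg {S : Set ℝ} {p : ℝ} (hp : PerR p S) : PerR (-p) S := fun s => by
  have := hp (s + -p)
  rw [neg_add_cancel_right] at this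
  exact this.symm

/-- The group of periods. -/
def prG (S : Set ℝ) : AddSubgroup ℝ where
  carrier := {τ | PerR τ S}
  add_mem' := fun hp hq => per_add' hp hq
  zero_mem' := per_zero S
  neg_mem' := fun hp => per_neg hp

theorem per_nmul {S : Set ℝ} {p : ℝ} (hp : PerR p S) (n : ℕ) : PerR (n * p) S := by
  have h : (n • p) ∈ prG S := (prG S).nsmul_mem hp n
  rw [nsmul_eq_mul] at h
  exact h

/-- Two positive periods are commensurable. -/
theorem comm {S : Set ℝ} (hne : S.Nonempty)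
    (hfin : {d : ℝ | |d| ≤ 1 ∧ ∃ s ∈ S, s + d ∈ S}.Finite) {p q : ℝ} (hp0 : 0 < p) (hq0 : 0 < q)
    (hp : PerR p S) (hq : PerR q S) :
    ∃ a b : ℕ, 0 < a ∧ 0 < b ∧ (a : ℝ) * p = b * q := by
  obtain ⟨s0, hs0⟩ := hne
  rcases AddSubgroup.dense_or_cyclic (prG S) with hd | ⟨a, ha⟩
  · exfalso
    set F : Set ℝ := {d : ℝ | |d| ≤ 1 ∧ ∃ s ∈ S, s + d ∈ S} with hF
    have hop : IsOpen (Set.Ioo (0 : ℝ) 1 \ F) := isOpen_Ioo.sdiff hfin.isClosed
    have hnn : (Set.Ioo (0 : ℝ) 1 \ F).Nonempty :=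
      ((Set.Ioo_infinite (zero_lt_one' ℝ)).diff hfin).nonempty
    obtain ⟨g, hg, hgG⟩ := hd.inter_open_nonempty _ hop hnn
    apply hg.2
    refine ⟨?_, s0, hs0, ?_⟩
    · rw [abs_of_pos hg.1.1]; exact hg.1.2.le
    · exact (hgG s0).2 hs0
  · have hpG : p ∈ prG S := hp
    have hqG : q ∈ prG S := hq
    rw [ha, AddSubgroup.mem_closure_singleton] at hpG hqG
    obtain ⟨m, hm⟩ := hpG
    obtain ⟨k, hk⟩ := hqG
    rw [zsmul_eq_mul] at hm hk
    have hm0 : m ≠ 0 := by
      rintro rfl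
      rw [Int.cast_zero, zero_mul] at hm
      linarith
    have hk0 : k ≠ 0 := by
      rintro rfl
      rw [Int.cast_zero, zero_mul] at hk
      linarith
    refine ⟨k.natAbs, m.natAbs, Int.natAbs_pos.2 hk0, Int.natAbs_pos.2 hm0, ?_⟩
    rw [Nat.cast_natAbs, Nat.cast_natAbs, Int.cast_abs, Int.cast_abs]
    calc |(k : ℝ)| * p = |(k : ℝ)| * |p| := by rw [abs_of_pos hp0]
      _ = |(k : ℝ) * p| := (abs_mul _ _).symm
      _ = |(m : ℝ) * q| := by congr 1; rw [← hm, ← hk]; ring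
      _ = |(m : ℝ)| * |q| := abs_mul _ _
      _ = |(m : ℝ)| * q := by rw [abs_of_pos hq0]

/-- A multiple of `q` is a period. -/
def Cm (q : ℝ) (S : Set ℝ) : Prop := ∃ m : ℕ, 0 < m ∧ PerR (m * q) S

/-- Pigeonhole: two indices with the same pattern. -/
theorem pig (N : ℕ) (F : Finset V) (hN : F.powerset.card = N) (P : ℕ → Finset V)
    (hP : ∀ k, P k ∈ F.powerset) : ∃ i j, i < j ∧ j ≤ N ∧ P i = P j := by
  obtain ⟨i, hi, j, hj, hij, h⟩ := Finset.exists_ne_map_eq_of_card_lt_of_maps_to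
    (s := Finset.range (N + 1)) (t := F.powerset) (f := P)
    (by rw [hN, Finset.card_range]; exact Nat.lt_succ_self N) (fun k _ => hP k)
  rw [Finset.mem_range] at hi hj
  rcases lt_or_gt_of_ne hij with h1 | h1
  · exact ⟨i, j, h1, by omega, h⟩
  · exact ⟨j, i, h1, by omega, h.symm⟩

end HPg

open HPg

/-- HP. -/
theorem p_HP_of (hWD : T_WD) (_hSEP : T_SEP) (hFC : T_FC) (_hHH : T_HH) (hHW : T_HW)
    (hGAP : T_GAP) (hRDT : T_RDT) : T_HP := by
  classical
  intro C hB hIv hNS e he T c hT hSF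
  set A := Abv C e T c with hA
  by_cases hAne : A.Nonempty
  swap
  · rw [Set.not_nonempty_iff_eq_empty] at hAne
    refine ⟨e, he.1, hrd_self e, fun z => ?_⟩
    rw [hAne]
    simp
  obtain ⟨hwpos, hwd, -, -⟩ := hWD C hB e he.1
  obtain ⟨x0, hx0⟩ := hB.ne
  obtain ⟨n, hn⟩ : ∃ n : V, rdet e n = 1 := by
    have h1 := nrm_pos he.1
    have h2 := h1.ne'
    refine ⟨(1 / (e.1 ^ 2 + e.2 ^ 2)) • (-e.2, e.1), ?_⟩
    rw [hrd_smul]
    simp only [rdet]
    field_simp
    ring
  -- row differences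
  have hFd : ∀ R : ℝ, {d : ℝ | |d| ≤ R ∧ ∃ y, ∃ s ∈ row e n A y, s + d ∈ row e n A y}.Finite := by
    intro R
    have hfin := hHW C hB hIv hNS e he T c hT hSF (R * ‖e‖)
    have hinj : Function.Injective fun s : ℝ => s • e := smul_left_injective ℝ he.1
    refine (hfin.preimage hinj.injOn).subset ?_
    rintro d ⟨hd, y, s, hs, hsd⟩
    refine ⟨?_, ?_, s • e + y • n, hs, ?_⟩
    · rw [norm_smul, Real.norm_eq_abs]
      exact mul_le_mul_of_nonneg_right hd (norm_nonneg e)
    · change |rdet e (d • e)| < _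
      rw [hrd_smul, hrd_self, mul_zero, abs_zero]
      exact hwpos
    · have h1 : s • e + y • n + d • e = (s + d) • e + y • n := by
        rw [add_smul]; abel
      change s • e + y • n + d • e ∈ A
      rw [h1]; exact hsd
  obtain ⟨LG, hLG, hgap⟩ := hGAP C hB hIv hNS e n he hn T c hT hSF
  obtain ⟨LR, hLR, hrdt⟩ := hRDT C hB hIv hNS e n he hn T c hT hSF hFd
  rw [← hA] at hgap hrdt
  set R0 : ℝ := LR * ‖e‖ + wd C e * ‖n‖ with hR0
  have hFin := hHW C hB hIv hNS e he T c hT hSF R0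
  rw [← hA] at hFin
  set F : Finset V := hFin.toFinset with hF
  obtain ⟨N, hN⟩ : ∃ N, F.powerset.card = N := ⟨_, rfl⟩
  set BB : ℝ := (N + 1) * (LG + 1) with hBB
  set D : Finset ℝ := (hFd BB).toFinset with hD
  -- windows
  have hwin : ∀ y, (row e n A y).Nonempty → ∃ τ ∈ D, 0 < τ ∧
      ∀ y', |y' - y| < wd C e → PerR τ (row e n A y') := by
    intro y hy
    have hex : ∀ k : ℕ, ∃ s ∈ row e n A y, (k : ℝ) * (LG + 1) ≤ s ∧ s ≤ k * (LG + 1) + LG :=
      fun k => hgap y hy _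
    choose s hs hs1 hs2 using hex
    obtain ⟨i, j, hij, hjN, hP⟩ := pig N F hN
      (fun k => F.filter fun d => s k • e + y • n + d ∈ A)
      (fun k => Finset.mem_powerset.2 (Finset.filter_subset _ _))
    have hij' : (i : ℝ) + 1 ≤ j := by exact_mod_cast hij
    have hjN' : (j : ℝ) ≤ N := by exact_mod_cast hjN
    have hi0 : (0 : ℝ) ≤ i := Nat.cast_nonneg i
    have hpos : 0 < s j - s i := by
      have h1 := hs1 j
      have h2 := hs2 i
      nlinarith
    have hle : s j - s i ≤ BB := by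
      have h1 := hs2 j
      have h2 := hs1 i
      rw [hBB]
      nlinarith
    refine ⟨s j - s i, ?_, hpos, ?_⟩
    · rw [hD, Set.Finite.mem_toFinset]
      refine ⟨by rw [abs_of_pos hpos]; exact hle, y, s i, hs i, ?_⟩
      rw [add_sub_cancel]; exact hs j
    · intro y' hy'
      refine hrdt y' (s j - s i) (s i) fun r hr1 hr2 => ?_
      set d : V := (r - s i) • e + (y' - y) • n with hd
      have hdh : |rdet e d| < wd C e := by
        rw [hd, hrd_add, hrd_smul, hrd_smul, hrd_self, hn, mul_zero, zero_add, mul_one]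
        exact hy'
      have hdn : ‖d‖ ≤ R0 := by
        rw [hd, hR0]
        refine (norm_add_le _ _).trans ?_
        rw [norm_smul, norm_smul, Real.norm_eq_abs, Real.norm_eq_abs]
        refine add_le_add (mul_le_mul_of_nonneg_right ?_ (norm_nonneg e))
          (mul_le_mul_of_nonneg_right hy'.le (norm_nonneg n))
        rw [abs_of_nonneg (by linarith)]
        linarith
      have e1 : r • e + y' • n = s i • e + y • n + d := by
        rw [hd, sub_smul, sub_smul]; abel
      have e2 : (r + (s j - s i)) • e + y' • n = s j • e + y • n + d := by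
        rw [hd, add_smul, sub_smul, sub_smul, sub_smul]; abel
      have k1 : s i • e + y • n + d ∈ A →
          d ∈ F.filter fun d => s i • e + y • n + d ∈ A := by
        intro h
        rw [Finset.mem_filter]
        refine ⟨?_, h⟩
        rw [hF, Set.Finite.mem_toFinset]
        exact ⟨hdn, hdh, _, hs i, h⟩
      have k2 : s j • e + y • n + d ∈ A →
          d ∈ F.filter fun d => s j • e + y • n + d ∈ A := by
        intro h
        rw [Finset.mem_filter]
        refine ⟨?_, h⟩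
        rw [hF, Set.Finite.mem_toFinset]
        exact ⟨hdn, hdh, _, hs j, h⟩
      change r • e + y' • n ∈ A ↔ (r + (s j - s i)) • e + y' • n ∈ A
      rw [e1, e2]
      constructor
      · intro h
        have h1 := k1 h
        have h2 : d ∈ F.filter fun d => s j • e + y • n + d ∈ A := by
          have hP' : (F.filter fun d => s i • e + y • n + d ∈ A) =
            F.filter fun d => s j • e + y • n + d ∈ A := hP
          rw [← hP']; exact h1
        exact (Finset.mem_filter.1 h2).2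
      · intro h
        have h1 := k2 h
        have h2 : d ∈ F.filter fun d => s i • e + y • n + d ∈ A := by
          have hP' : (F.filter fun d => s i • e + y • n + d ∈ A) =
            F.filter fun d => s j • e + y • n + d ∈ A := hP
          rw [hP']; exact h1
        exact (Finset.mem_filter.1 h2).2
  -- points in rows
  have hdec : ∀ z : V, ∃ s : ℝ, z = s • e + rdet e z • n := by
    intro z
    have h1 : rdet e (z - rdet e z • n) = 0 := by
      rw [hrd_sub, hrd_smul, hn, mul_one, sub_self]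
    refine ⟨cf e (z - rdet e z • n), ?_⟩
    rw [← cf_smul he.1 h1, sub_add_cancel]
  have hrne : ∀ t ∈ A, (row e n A (rdet e t)).Nonempty := by
    intro t ht
    obtain ⟨s, hs⟩ := hdec t
    refine ⟨s, ?_⟩
    change s • e + rdet e t • n ∈ A
    rw [← hs]; exact ht
  have hfin1 : ∀ y, {d : ℝ | |d| ≤ 1 ∧ ∃ s ∈ row e n A y, s + d ∈ row e n A y}.Finite := by
    intro y
    refine (hFd 1).subset ?_
    rintro d ⟨hd, s, hs, hsd⟩
    exact ⟨hd, y, s, hs, hsd⟩
  have hstep : ∀ t ∈ A, ∀ t' ∈ A, |rdet e t' - rdet e t| < wd C e → ∀ q : ℝ, 0 < q →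
      Cm q (row e n A (rdet e t)) → Cm q (row e n A (rdet e t')) := by
    intro t ht t' ht' hlt q hq ⟨m, hm, hmq⟩
    obtain ⟨τ, -, hτ, hper⟩ := hwin _ (hrne t ht)
    have h1 : PerR τ (row e n A (rdet e t)) := hper _ (by rw [sub_self, abs_zero]; exact hwpos)
    have h2 : PerR τ (row e n A (rdet e t')) := hper _ hlt
    have hm' : (0 : ℝ) < m := by exact_mod_cast hm
    obtain ⟨a, b, ha, hb, hab⟩ := comm (hrne t ht) (hfin1 _) (mul_pos hm' hq) hτ hmq h1
    refine ⟨a * m, Nat.mul_pos ha hm, ?_⟩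
    have h3 := per_nmul h2 b
    rw [← hab] at h3
    push_cast
    rw [mul_assoc]
    exact h3
  obtain ⟨t0, ht0⟩ := hAne
  -- the relation
  set R : V → V → Prop := fun t t' => (t ∈ A ↔ t' ∈ A) ∧
    (t ∈ A → t' ∈ A → ∀ q : ℝ, 0 < q →
      (Cm q (row e n A (rdet e t)) ↔ Cm q (row e n A (rdet e t')))) with hR
  have hRs : ∀ t ∈ T, ∀ t' ∈ T, R t t' → R t' t := fun t _ t' _ h =>
    ⟨h.1.symm, fun h1 h2 Q hQ => (h.2 h2 h1 Q hQ).symm⟩
  have hRt : ∀ t ∈ T, ∀ t' ∈ T, ∀ t'' ∈ T, R t t' → R t' t'' → R t t'' :=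
    fun t _ t' _ t'' _ h h' => ⟨h.1.trans h'.1, fun h1 h2 Q hQ =>
      (h.2 h1 (h.1.1 h1) Q hQ).trans (h'.2 (h.1.1 h1) h2 Q hQ)⟩
  have hdis : ∀ t ∈ T, ∀ t' ∈ T, ∀ x ∈ interior C, ∀ y ∈ interior C,
      rdet e (t + x) = rdet e (t' + y) → t ∈ A → t' ∈ A := by
    intro t ht t' ht' x hx y hy hxy htA
    rcases hSF t' ht' with h1 | h1
    · exfalso
      obtain ⟨y', hy', hlt⟩ := (updown he.1 hy).2
      have h2 := h1 y' hy'
      have h3 := htA.2 x (interior_subset hx)
      rw [hrd_add] at h2 h3 hxy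
      rw [hrd_add] at hxy
      linarith
    · exact ⟨ht', h1⟩
  have hRi : ∀ t ∈ T, ∀ t' ∈ T, ∀ x ∈ interior C, ∀ y ∈ interior C,
      rdet e (t + x) = rdet e (t' + y) → R t t' := by
    intro t ht t' ht' x hx y hy hxy
    refine ⟨⟨hdis t ht t' ht' x hx y hy hxy, hdis t' ht' t ht y hy x hx hxy.symm⟩,
      fun h1 h2 Q hQ => ?_⟩
    have hlt : |rdet e t' - rdet e t| < wd C e := by
      obtain ⟨x', hx', hx1⟩ := (updown he.1 hx).2
      obtain ⟨y', hy', hy1⟩ := (updown he.1 hy).2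
      have h3 := hwd x' hx' y (interior_subset hy)
      have h4 := hwd y' hy' x (interior_subset hx)
      rw [hrd_add, hrd_add] at hxy
      rw [abs_lt]
      constructor <;> linarith
    have hlt' : |rdet e t - rdet e t'| < wd C e := by
      rw [abs_sub_comm]; exact hlt
    exact ⟨hstep t h1 t' h2 hlt Q hQ, hstep t' h2 t h1 hlt' Q hQ⟩
  have hkey : ∀ t ∈ A, ∀ t' ∈ A, rdet e t ≤ rdet e t' → R t t' := by
    intro t ht t' ht' hle
    by_contra hcon
    obtain ⟨c', hc', h1, h2⟩ := hFC C hB e he.1 (hIv e he) T R hRs hRt hRi t ht.1 t' ht'.1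
      hcon hle
    refine hNS e he T c c' hT ?_ hSF hc'
    obtain ⟨y, hy, hlt⟩ := (updown he.1 hx0).1
    have h3 := ht.2 y hy
    have h4 := h1 x0 (interior_subset hx0)
    rw [hrd_add] at h3 h4
    linarith
  obtain ⟨τ0, -, hτ0, hper0⟩ := hwin _ (hrne t0 ht0)
  have hC0 : Cm τ0 (row e n A (rdet e t0)) := by
    refine ⟨1, Nat.one_pos, ?_⟩
    rw [Nat.cast_one, one_mul]
    exact hper0 _ (by rw [sub_self, abs_zero]; exact hwpos)
  have hall : ∀ t ∈ A, Cm τ0 (row e n A (rdet e t)) := by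
    intro t ht
    rcases le_total (rdet e t0) (rdet e t) with h | h
    · exact ((hkey t0 ht0 t ht h).2 ht0 ht τ0 hτ0).1 hC0
    · exact ((hkey t ht t0 ht0 h).2 ht ht0 τ0 hτ0).2 hC0
  -- a common multiple
  have hchoose : ∀ τ : ℝ, ∃ b : ℕ, 0 < b ∧ ((∃ a' b' : ℕ, 0 < a' ∧ 0 < b' ∧
      (a' : ℝ) * τ = b' * τ0) → ∃ a : ℕ, (a : ℝ) * τ = b * τ0) := by
    intro τ
    by_cases h : ∃ a' b' : ℕ, 0 < a' ∧ 0 < b' ∧ (a' : ℝ) * τ = b' * τ0
    · obtain ⟨a', b', -, hb', hab⟩ := h
      exact ⟨b', hb', fun _ => ⟨a', hab⟩⟩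
    · exact ⟨1, Nat.one_pos, fun h' => absurd h' h⟩
  choose b hb0 hb using hchoose
  set M : ℕ := ∏ τ ∈ D, b τ with hM
  have hM0 : 0 < M := Finset.prod_pos fun τ _ => hb0 τ
  have hperM : ∀ y, PerR (M * τ0) (row e n A y) := by
    intro y
    by_cases hy : (row e n A y).Nonempty
    swap
    · rw [Set.not_nonempty_iff_eq_empty] at hy
      rw [hy]
      intro s
      simp
    obtain ⟨s, hs⟩ := hy
    have hyt : rdet e (s • e + y • n) = y := by
      rw [hrd_add, hrd_smul, hrd_smul, hrd_self, hn, mul_zero, zero_add, mul_one]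
    obtain ⟨m, hm, hmq⟩ := hall _ hs
    rw [hyt] at hmq
    obtain ⟨τ, hτD, hτ, hper⟩ := hwin y ⟨s, hs⟩
    have h1 : PerR τ (row e n A y) := hper _ (by rw [sub_self, abs_zero]; exact hwpos)
    have hm' : (0 : ℝ) < m := by exact_mod_cast hm
    obtain ⟨a', b', ha', hb', hab⟩ := comm ⟨s, hs⟩ (hfin1 _) hτ (mul_pos hm' hτ0) h1 hmq
    obtain ⟨a, ha⟩ := hb τ ⟨a', b' * m, ha', Nat.mul_pos hb' hm, by
      push_cast; rw [hab]; ring⟩
    obtain ⟨k, hk⟩ : b τ ∣ M := Finset.dvd_prod_of_mem b hτD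
    have h2 : (M : ℝ) * τ0 = ((k * a : ℕ) : ℝ) * τ := by
      rw [hk]
      push_cast
      rw [mul_assoc, mul_assoc, ha]
      ring
    rw [h2]
    exact per_nmul h1 (k * a)
  have hM0' : (0 : ℝ) < M := by exact_mod_cast hM0
  refine ⟨(M * τ0) • e, smul_ne_zero (mul_pos hM0' hτ0).ne' he.1,
    by rw [hrd_smul, hrd_self, mul_zero], fun z => ?_⟩
  obtain ⟨s, hs⟩ := hdec z
  have h1 := hperM (rdet e z) s
  have e1 : z + (M * τ0) • e = (s + M * τ0) • e + rdet e z • n := by
    conv_lhs => rw [hs]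
    rw [add_smul]; abel
  rw [e1]
  conv_rhs => rw [hs]
  exact h1

end Pool.Agent.PTG
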