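import Pool.Agent.PTG.Defs
import Pool.Agent.PTP.Targets

/-!
# PTG: targets

Theorem R9 of ideas row 2773 (MP_eac546_co): all bodies with the interval condition, in particular
all connected bodies.
-/

set_option autoImplicit false

namespace Pool.Agent.PTG

open Pool.Agent.PTR Filter Topology
open Pool.Agent.PTR.OL (V ii dif difs FLC InHull)
open Pool.Agent.PTP (Til TDP Iv wd SF Abv Stp Stk Ds Sm)
open Pool.Agent.PTA (Dir)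

/-! ## A. Basics (port of PTA with `C'` of `HoE` instead of the flags) -/

/-- HO. An ultrafilter below `𝓝 0 ⊓ residual V ⊓ 𝓟 {w | 0 < rdet e w}` (see `PTF.exists_ultra`,
`PTF.exact_of`); `C' = {z | ∀ᶠ w in W, z + w ∈ interior C}`. -/
def T_HO : Prop := ∀ C, Bdy C → ∀ e : V, e ≠ 0 → ∃ W C', HoE C W e C'

/-- WD. Width. -/
def T_WD : Prop := ∀ C, Bdy C → ∀ e : V, e ≠ 0 → 0 < wd C e ∧
  (∀ x ∈ C, ∀ y ∈ C, rdet e x - rdet e y ≤ wd C e) ∧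
  (∃ x ∈ C, ∃ y ∈ C, rdet e x - rdet e y = wd C e) ∧
  (Iv C e → ∀ d : ℝ, |d| < wd C e →
    ∃ x ∈ interior C, ∃ y ∈ interior C, d = rdet e x - rdet e y)

/-- SEP. The translation vectors are uniformly discrete. -/
def T_SEP : Prop := ∀ C, Bdy C → ∃ ρ > (0 : ℝ), ∀ T : Set V,
  (∀ t ∈ T, ∀ t' ∈ T, ∀ z, z - t ∈ interior C → z - t' ∈ interior C → t = t') →
  (∀ t ∈ T, ∀ t' ∈ T, t ≠ t' → ρ ≤ ‖t - t'‖) ∧ ∀ R : ℝ, {t | t ∈ T ∧ ‖t‖ ≤ R}.Finite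

/-- ULT. Limits of tilings are tilings, and there are displacements. -/
def T_ULT : Prop := ∀ C, Bdy C → ∀ (U : Ultrafilter ℕ) (Tn : ℕ → Set V),
  (∀ n, Til C (Tn n)) → Til C (Lim U Tn) ∧ ∃ δ, Ds U Tn δ

/-- ULB. Bounded sequences of tiles. -/
def T_ULB : Prop := ∀ C, Bdy C → ∀ (U : Ultrafilter ℕ) (Tn : ℕ → Set V),
  (∀ n, Til C (Tn n)) → ∀ δ, Ds U Tn δ → ∀ (f : ℕ → V) (R : ℝ),
  (∀ᶠ n in (U : Filter ℕ), f n ∈ Tn n) → (∀ᶠ n in (U : Filter ℕ), ‖f n‖ ≤ R) →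
  ∃ t ∈ Lim U Tn, ∀ᶠ n in (U : Filter ℕ), f n = t + δ t n

/-- SFL. Faults pass to the limit (heights converging). -/
def T_SFL : Prop := ∀ C, Bdy C → ∀ (U : Ultrafilter ℕ) (Tn : ℕ → Set V) (e : V) (cn : ℕ → ℝ)
  (c : ℝ), e ≠ 0 → (∀ n, Til C (Tn n)) → Tendsto cn (U : Filter ℕ) (𝓝 c) →
  (∀ᶠ n in (U : Filter ℕ), SF C e (Tn n) (cn n)) → SF C e (Lim U Tn) c

/-! ## B. Class functions: analysis of the relations -/

/-- SPL. Local version of `PTR.OL.special`. -/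
def T_SPL : Prop := ∃ K : ℕ → ℕ → ℝ, ∀ (D : Finset V) (c : V → ℤ) (t : V → ℤ) (v₀ : V) (ε R : ℝ),
  (∀ z, |t z| ≤ 1) → v₀ ∈ D → c v₀ ≠ 0 → (∀ v ∈ D, ‖v‖ ≤ ε) →
  (∀ z, ‖z‖ ≤ R → ∑ v ∈ D, c v * t (z - v) = 0) →
  ∀ z, ‖z‖ ≤ R - ε * K (∑ v ∈ D, |c v|).toNat D.card →
    difs ((D.erase v₀).toList.map fun v =>
      ((∑ v ∈ D, |c v|).toNat.factorial) • (v - v₀)) t z = 0

/-- ANN. Annihilators of the classes with small vectors. `k` = number of the classes in the ball of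
radius `R + 2`; choose `n_1, ..., n_k` such that `cov` holds in this ball and all displacements
`a i n_(l+1)` are much smaller than the distances of the `k` vectors `a i n_l`; determinant of the
matrix `X ^ (a i (n_l))`: its `k!` exponents are different; Cramer; SPL with `R + 1`. -/
def T_ANN : Prop := ∀ (ι : Type) (U : Ultrafilter ℕ) (cl : V → ι) (a : ι → ℕ → V),
  Cls U cl a → ∀ R : ℝ, (∃ x y, ‖x‖ ≤ R ∧ ‖y‖ ≤ R ∧ cl x ≠ cl y) →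
  ∃ M : ℕ, 0 < M ∧ ∀ ε > (0 : ℝ), ∃ L : List V, L.length = M ∧ (∀ w ∈ L, w ≠ 0 ∧ ‖w‖ < ε) ∧
    (∀ w ∈ L, w ∈ AddSubgroup.closure {v | ∃ x n, v = a (cl x) n}) ∧
    ∀ (i : ι) (x : V), ‖x‖ ≤ R → difs L (ii {y | cl y = i}) x = 0

/-- DET. Determinacy for vectors which are nearly parallel to the axis (`α` = abscissa, `β` =
height). One factor at a time. -/
def T_DET : Prop := ∀ (α β : V →ₗ[ℝ] ℝ) (L : List V) (g : V → ℤ) (A B a c θ ε : ℝ),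
  0 ≤ θ → 0 < ε → (L.length + 1) * ε ≤ a → |c| + a ≤ A →
  (∀ w ∈ L, α w ≠ 0 ∧ |α w| ≤ ε ∧ |β w| ≤ θ * |α w|) →
  (∀ x, |α x| ≤ A → |β x| ≤ B → difs L g x = 0) →
  (∀ x, |α x - c| ≤ a → |β x| ≤ B → g x = 0) →
  ∀ x, |α x| ≤ A → |β x| ≤ B - L.length * (2 * A + L.length * ε) * θ → g x = 0

/-- TCH. Touching disc. -/
def T_TCH : Prop := ∀ (c p : V) (κ δ₁ : ℝ) (m : ℕ), 0 < κ → 0 < δ₁ → c ≠ p →
  ∃ δ₀ > (0 : ℝ), ∀ L : List V, L.length = m →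
  (∀ w ∈ L, w ≠ 0 ∧ ‖w‖ < δ₀ ∧ κ * ‖w‖ ≤ |dt (p - c) w|) → ∀ h : V → ℤ,
  (∀ x, qd (x - c) < qd (p - c) → h x = 0) → (∀ x, ‖x - p‖ ≤ δ₁ → difs L h x = 0) →
  ∀ᶠ x in 𝓝 p, h x = 0

/-- FULL. The line through a nearest point is contained in `E`. -/
def T_FULL : Prop := ∀ (ι : Type) (U : Ultrafilter ℕ) (cl : V → ι) (a : ι → ℕ → V),
  Cls U cl a → ∀ x p, Nrst (Es cl) x p → ∀ e : V, dt e (p - x) = 0 → ∀ s : ℝ, p + s • e ∈ Es cl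

/-- DIRS. Finitely many directions of these lines in every ball. -/
def T_DIRS : Prop := ∀ (ι : Type) (U : Ultrafilter ℕ) (cl : V → ι) (a : ι → ℕ → V),
  Cls U cl a → ∀ R : ℝ, ∃ D : Finset V, ∀ x p, Nrst (Es cl) x p → ‖p‖ ≤ R →
    ∃ d ∈ D, d ≠ 0 ∧ dt d (p - x) = 0

/-- GERM. The germ of the class function along a line of `E`. -/
def T_GERM : Prop := ∀ (ι : Type) (U : Ultrafilter ℕ) (cl : V → ι) (a : ι → ℕ → V),
  Cls U cl a → ∀ e p p' : V, e ≠ 0 → p ∈ Es cl → rdet e p = rdet e p' →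
  Smp (Es cl) e p → Smp (Es cl) e p' → ∃ r > (0 : ℝ), ∀ x y, ‖x - p‖ < r → ‖y - p'‖ < r →
    rdet e x = rdet e y → x ∉ Es cl → y ∉ Es cl → cl x = cl y

/-- TWO. Two classes separated by a line. -/
def T_TWO : Prop := ∀ (ι : Type) (U : Ultrafilter ℕ) (cl : V → ι) (a : ι → ℕ → V),
  Cls U cl a → ∀ (e p : V) (r : ℝ) (i j : ι), e ≠ 0 → 0 < r →
  (∀ x, ‖x - p‖ < r → rdet e x < rdet e p → cl x = i) →
  (∀ x, ‖x - p‖ < r → rdet e p < rdet e x → cl x = j) →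
  ∀ᶠ n in (U : Filter ℕ), rdet e (a i n) = rdet e (a j n)

/-- CRS. Abstract theorem: no crossings. -/
def T_CRS : Prop := ∀ (ι : Type) (E : Set V) (cl : V → ι) (Par : V → ι → ι → Prop),
  IsClosed E → interior E = ∅ → (∀ x, x ∉ E → ∀ᶠ y in 𝓝 x, cl y = cl x) →
  (∀ p i, (∀ᶠ x in 𝓝 p, x ∉ E → cl x = i) → p ∉ E) →
  (∀ x p, Nrst E x p → ∀ e : V, dt e (p - x) = 0 → ∀ s : ℝ, p + s • e ∈ E) →
  (∀ R : ℝ, ∃ D : Finset V, ∀ x p, Nrst E x p → ‖p‖ ≤ R → ∃ d ∈ D, d ≠ 0 ∧ dt d (p - x) = 0) →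
  (∀ e p p' : V, e ≠ 0 → p ∈ E → rdet e p = rdet e p' → Smp E e p → Smp E e p' →
    ∃ r > (0 : ℝ), ∀ x y, ‖x - p‖ < r → ‖y - p'‖ < r → rdet e x = rdet e y →
      x ∉ E → y ∉ E → cl x = cl y) →
  (∀ (e p : V) (r : ℝ) (i j : ι), e ≠ 0 → 0 < r →
    (∀ x, ‖x - p‖ < r → rdet e x < rdet e p → cl x = i) →
    (∀ x, ‖x - p‖ < r → rdet e p < rdet e x → cl x = j) → Par e i j) →
  (∀ e e' i j, rdet e e' ≠ 0 → Par e i j → Par e' i j → i = j) →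
  E.Nonempty → ∃ e : V, e ≠ 0 ∧ ∀ p ∈ E, ∀ s : ℝ, p + s • e ∈ E

/-- DIFF. The displacements differ by multiples of `e` (group the classes by the height of the
displacement; ANN, DET). -/
def T_DIFF : Prop := ∀ (ι : Type) (U : Ultrafilter ℕ) (cl : V → ι) (a : ι → ℕ → V),
  Cls U cl a → ∀ e : V, e ≠ 0 → (∀ p ∈ Es cl, ∀ s : ℝ, p + s • e ∈ Es cl) → ∀ x y,
  ∀ᶠ n in (U : Filter ℕ), rdet e (a (cl x) n) = rdet e (a (cl y) n)

/-- SLC. The sliding lemma for class functions. -/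
def T_SLC : Prop := ∀ (ι : Type) (U : Ultrafilter ℕ) (cl : V → ι) (a : ι → ℕ → V),
  Cls U cl a → (∀ x y, cl x = cl y) ∨ ∃ e : V, e ≠ 0 ∧
    (∀ x y, ∀ᶠ n in (U : Filter ℕ), rdet e (a (cl x) n) = rdet e (a (cl y) n)) ∧
    (∀ x y, x ∉ Es cl → y ∉ Es cl → rdet e x = rdet e y → cl x = cl y) ∧
    ∃ p, ∀ s : ℝ, p + s • e ∈ Es cl

/-! ## C. The sliding lemma -/

/-- TCL. The class function of an ultralimit of tilings: `ι = Germ U V`, `cl x` = germ of `δ t` for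
the tile `t` of the limit with `x - t ∈ C'` (HO), `a i = Quotient.out i`. -/
def T_TCL : Prop := ∀ C W C', Bdy C → Ho C W C' → ∀ (U : Ultrafilter ℕ) (Tn : ℕ → Set V),
  (∀ n, Til C (Tn n)) → ∀ δ, Ds U Tn δ →
  ∃ (cl : V → Germ (U : Filter ℕ) V) (a : Germ (U : Filter ℕ) V → ℕ → V), Cls U cl a ∧
    ∀ t ∈ Lim U Tn, ∀ x, x - t ∈ C' → cl x = (δ t : Germ (U : Filter ℕ) V) ∧
      ∀ᶠ n in (U : Filter ℕ), a (cl x) n = δ t n

/-- SLIDE. The sliding lemma: TCL, SLC; a line of `Es` is contained in the union of the boundaries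
of the tiles (locally finite): Baire on a segment. -/
def T_SLIDE : Prop := ∀ C, Bdy C → ∀ (U : Ultrafilter ℕ) (Tn : ℕ → Set V),
  (∀ n, Til C (Tn n)) → ∀ δ, Ds U Tn δ →
  (∀ t ∈ Lim U Tn, ∀ t' ∈ Lim U Tn, Sm U δ t t') ∨ ∃ e, Dir C e ∧ Sg C U Tn δ e

/-! ## D. Faults, strips (port of PTA) -/

/-- FC. Faults between classes. -/
def T_FC : Prop := ∀ C, Bdy C → ∀ e : V, e ≠ 0 → Iv C e → ∀ (T : Set V)
  (R : V → V → Prop), (∀ t ∈ T, ∀ t' ∈ T, R t t' → R t' t) →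
  (∀ t ∈ T, ∀ t' ∈ T, ∀ t'' ∈ T, R t t' → R t' t'' → R t t'') →
  (∀ t ∈ T, ∀ t' ∈ T, ∀ x ∈ interior C, ∀ y ∈ interior C,
    rdet e (t + x) = rdet e (t' + y) → R t t') →
  ∀ t ∈ T, ∀ t' ∈ T, ¬ R t t' → rdet e t ≤ rdet e t' →
  ∃ c, SF C e T c ∧ (∀ x ∈ C, rdet e (t + x) ≤ c) ∧
    ∀ x ∈ C, c ≤ rdet e (t' + x)

/-- SLF. Sliding gives a fault. -/
def T_SLF : Prop := ∀ C, Bdy C → ∀ (U : Ultrafilter ℕ) (Tn : ℕ → Set V),
  (∀ n, Til C (Tn n)) → ∀ δ, Ds U Tn δ → ∀ e, e ≠ 0 → Iv C e → Sg C U Tn δ e →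
  ∀ t ∈ Lim U Tn, ∀ t' ∈ Lim U Tn, ¬ Sm U δ t t' →
  (∃ c, SF C e (Lim U Tn) c ∧ (∀ x ∈ C, rdet e (t + x) ≤ c) ∧
    ∀ x ∈ C, c ≤ rdet e (t' + x)) ∨
  ∃ c, SF C e (Lim U Tn) c ∧ (∀ x ∈ C, rdet e (t' + x) ≤ c) ∧
    ∀ x ∈ C, c ≤ rdet e (t + x)

/-- A0. A tiling which is not of finite local complexity gives a tiling with a fault. -/
def T_A0 : Prop := ∀ C, Bdy C → (∀ e, Dir C e → Iv C e) → ∀ T : Set V,
  Til C T → ¬ FLC T → ∃ e, Dir C e ∧ ∃ T' c, Til C T' ∧ SF C e T' c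

/-- STA. The tiles between two faults. -/
def T_STA : Prop := ∀ C, Bdy C → ∀ e : V, e ≠ 0 → ∀ (T : Set V) (c c' : ℝ),
  Til C T → c < c' → SF C e T c → SF C e T c' →
  ∃ T', Stp C e (c' - c) T'

/-- STB. -/
def T_STB : Prop := ∀ C, Bdy C → ∀ e : V, e ≠ 0 → ∀ (T : Set V) (h : ℝ), Stp C e h T →
  wd C e ≤ h ∧ ∀ c, 0 < c → c < h → SF C e T c →
    wd C e ≤ h - c ∧ ∃ T', Stp C e c T'

/-- STK. The stack of a strip. -/
def T_STK : Prop := ∀ C, Bdy C → ∀ e w : V, ∀ (T : Set V) (h : ℝ), Stp C e h T →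
  rdet e w = h → Til C (Stk w T) ∧ Per w (Stk w T) ∧
    ∀ k : ℤ, SF C e (Stk w T) (k * h)

/-- STZ. A slide direction `e'` and faults in another direction `e`: all displacements are equal.
`t` in the limit, an `e'`-line through an interior point of `t + C` meets the fault at `x`; a tile
`t₁` above the fault and a tile `t₂` below it contain `x`; `Sm U δ t t₁`, `Sm U δ t t₂` by the
second part of `Sg` (nearby parallel lines); hence `rdet e (δ t n) = cn n - c`. -/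
def T_STZ : Prop := ∀ C, Bdy C → ∀ (U : Ultrafilter ℕ) (Tn : ℕ → Set V),
  (∀ n, Til C (Tn n)) → ∀ δ, Ds U Tn δ → ∀ e e' : V, rdet e e' ≠ 0 → ∀ (cn : ℕ → ℝ) (c : ℝ),
  Tendsto cn (U : Filter ℕ) (𝓝 c) → (∀ᶠ n in (U : Filter ℕ), SF C e (Tn n) (cn n)) →
  Sg C U Tn δ e' → ∀ t ∈ Lim U Tn, ∀ t' ∈ Lim U Tn, Sm U δ t t'

/-- STF. Row 2604 (8). -/
def T_STF : Prop := ∀ C, Bdy C → (∀ e, Dir C e → Iv C e) → ∀ e, Dir C e →
  ∀ h : ℝ, (∀ T, Stp C e h T → ∀ c, 0 < c → c < h → ¬ SF C e T c) →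
  ∀ T w, Stp C e h T → rdet e w = h → FLC (Stk w T)

/-- A1. Two parallel faults: there is a doubly periodic tiling (STF, `PTF.flc_body`). -/
def T_A1 : Prop := ∀ C, Bdy C → (∀ e, Dir C e → Iv C e) → ∀ e, Dir C e →
  ∀ (T : Set V) (c c' : ℝ), Til C T → c < c' → SF C e T c → SF C e T c' →
  TDP C

/-! ## E. Half planes -/

/-- No tiling has two parallel faults. -/
def NS (C : Set V) : Prop := ∀ e, Dir C e → ∀ (T : Set V) (c c' : ℝ),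
  Til C T → c < c' → SF C e T c → SF C e T c' → False

/-- HB. Finite local complexity below every height. SLIDE, SLF, STZ. -/
def T_HB : Prop := ∀ C, Bdy C → (∀ e, Dir C e → Iv C e) → NS C → ∀ e, Dir C e →
  ∀ (T : Set V) (c : ℝ), Til C T → SF C e T c → ∀ R Y : ℝ,
  {d | ‖d‖ ≤ R ∧ ∃ t ∈ Abv C e T c, t + d ∈ Abv C e T c ∧
    rdet e t ≤ Y ∧ rdet e (t + d) ≤ Y}.Finite

/-- HH. Finitely many heights below every height; the lowest row: every point of the fault is in a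
tile whose lowest points are on the fault. HB. -/
def T_HH : Prop := ∀ C, Bdy C → (∀ e, Dir C e → Iv C e) → NS C → ∀ e, Dir C e →
  ∀ (T : Set V) (c : ℝ), Til C T → SF C e T c → ∀ Y : ℝ,
  {y | y ≤ Y ∧ ∃ t ∈ Abv C e T c, rdet e t = y}.Finite

/-- HQ. The half plane below a height is periodic. HO, HB, HH; rows from the bottom up. -/
def T_HQ : Prop := ∀ C, Bdy C → (∀ e, Dir C e → Iv C e) → NS C → ∀ e, Dir C e →
  ∀ (T : Set V) (c : ℝ), Til C T → SF C e T c → ∀ Y : ℝ,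
  ∃ q > (0 : ℝ), ∀ z, rdet e z ≤ Y → (z + q • e ∈ Abv C e T c ↔ z ∈ Abv C e T c)

/-- MEAN. A translation invariant mean for the bounded complex functions on the real line. -/
structure MR where
  E : (ℝ → ℂ) → ℂ
  add : ∀ f g : ℝ → ℂ, (∃ B : ℝ, ∀ x, ‖f x‖ ≤ B) → (∃ B : ℝ, ∀ x, ‖g x‖ ≤ B) →
    E (fun x => f x + g x) = E f + E g
  smul : ∀ (c : ℂ) (f : ℝ → ℂ), (∃ B : ℝ, ∀ x, ‖f x‖ ≤ B) → E (fun x => c * f x) = c * E f
  bd : ∀ (f : ℝ → ℂ) (B : ℝ), (∀ x, ‖f x‖ ≤ B) → ‖E f‖ ≤ B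
  one : E (fun _ => 1) = 1
  shift : ∀ (f : ℝ → ℂ) (h : ℝ), (∃ B : ℝ, ∀ x, ‖f x‖ ≤ B) → E (fun x => f (x + h)) = E f
  pos : ∀ f : ℝ → ℝ, (∀ x, 0 ≤ f x) → (∃ B : ℝ, ∀ x, f x ≤ B) → 0 ≤ (E fun x => (f x : ℂ)).re

def T_MEAN : Prop := Nonempty MR

/-- Sum over the translates by multiples of `q` (for functions with bounded support). -/
noncomputable def prd (q : ℝ) (f : ℝ → ℂ) (x : ℝ) : ℂ := ∑ᶠ k : ℤ, f (x + k * q)

/-- The transform of the bounded set `A` (depends on `q` only formally). -/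
noncomputable def trf (m : MR) (q : ℝ) (A : Set ℝ) (z : ℂ) : ℂ :=
  m.E (prd q fun x => Set.indicator A (fun _ => (1 : ℂ)) x * Complex.exp (-(z * x) * Complex.I))

/-- ENT. The transform is entire and positive at `0` if the set contains an interval. -/
def T_ENT : Prop := ∀ (m : MR) (q : ℝ) (A : Set ℝ), 0 < q → (∃ b : ℝ, A ⊆ Set.Icc (-b) b) →
  Differentiable ℂ (trf m q A) ∧
  ((∃ u v : ℝ, u < v ∧ Set.Ioo u v ⊆ A) → trf m q A 0 ≠ 0)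

/-- TRQ. Change of the period. -/
def T_TRQ : Prop := ∀ (m : MR) (q : ℝ) (A : Set ℝ) (k : ℕ) (z : ℂ), 0 < q → 0 < k →
  (∃ b : ℝ, A ⊆ Set.Icc (-b) b) →
  trf m q A z = k * trf m (k * q) A z

/-- SPEC. The rows of the half plane have their frequencies in one locally finite set. `e`, `n` with
`rdet e n = 1`. -/
def T_SPEC : Prop := ∀ C, Bdy C → ∀ e n : V, rdet e n = 1 →
  ∀ (T : Set V) (c : ℝ), Til C T → SF C e T c →
  (∀ Y : ℝ, {y | y ≤ Y ∧ ∃ t ∈ Abv C e T c, rdet e t = y}.Finite) →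
  ∀ q₀ > (0 : ℝ), ∃ X : Set ℝ, LF X ∧ ∀ (y : ℝ) (m : ℕ), 0 < m →
    (∀ y' ≤ y + wd C e, PerR (m * q₀) (row e n (Abv C e T c) y')) →
    SpR X (m * q₀) (row e n (Abv C e T c) y)

/-- LU. Lemma U, pure analysis. -/
def T_LU : Prop := ∀ X : Set ℝ, LF X → ∀ ρ > (0 : ℝ), ∀ κ > (0 : ℝ), ∃ L > (0 : ℝ), ∀ q ≥ L,
  ∀ S S' : Set ℝ, PerR q S → PerR q S' → SepR ρ S → SepR ρ S' → SpR X q S → SpR X q S' →
  ∀ s₀ ∈ S, (∀ s ∈ S', κ ≤ |s - s₀|) →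
  (¬ ∀ s, s₀ - L ≤ s → s < s₀ → (s ∈ S ↔ s ∈ S')) ∧
  ¬ ∀ s, s₀ < s → s ≤ s₀ + L → (s ∈ S ↔ s ∈ S')

/-- GAP. SPEC, LU with `S' = ∅`, and common multiples of two periods of the lowest row. -/
def T_GAP : Prop := ∀ C, Bdy C → (∀ e, Dir C e → Iv C e) → NS C → ∀ e n : V, Dir C e →
  rdet e n = 1 → ∀ (T : Set V) (c : ℝ), Til C T → SF C e T c →
  ∃ L > (0 : ℝ), ∀ y, (row e n (Abv C e T c) y).Nonempty → ∀ a : ℝ,
    ∃ s ∈ row e n (Abv C e T c) y, a ≤ s ∧ s ≤ a + L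

/-- RDT. Rows are determined by a segment (given the finiteness of the row differences). -/
def T_RDT : Prop := ∀ C, Bdy C → (∀ e, Dir C e → Iv C e) → NS C → ∀ e n : V, Dir C e →
  rdet e n = 1 → ∀ (T : Set V) (c : ℝ), Til C T → SF C e T c →
  (∀ R : ℝ, {d : ℝ | |d| ≤ R ∧ ∃ y, ∃ s ∈ row e n (Abv C e T c) y,
    s + d ∈ row e n (Abv C e T c) y}.Finite) →
  ∃ L > (0 : ℝ), ∀ y τ a : ℝ,
    (∀ s, a ≤ s → s ≤ a + L → (s ∈ row e n (Abv C e T c) y ↔ s + τ ∈ row e n (Abv C e T c) y)) →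
    PerR τ (row e n (Abv C e T c) y)

/-- HW. Windows of the half plane have finite local complexity: HB, GAP, SLIDE, SLF. -/
def T_HW : Prop := ∀ C, Bdy C → (∀ e, Dir C e → Iv C e) → NS C → ∀ e, Dir C e →
  ∀ (T : Set V) (c : ℝ), Til C T → SF C e T c → ∀ R : ℝ,
  {d | ‖d‖ ≤ R ∧ |rdet e d| < wd C e ∧
    ∃ t ∈ Abv C e T c, t + d ∈ Abv C e T c}.Finite

/-- HP. The half plane is periodic: HW, GAP, RDT, FC. -/
def T_HP : Prop := ∀ C, Bdy C → (∀ e, Dir C e → Iv C e) → NS C → ∀ e, Dir C e →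
  ∀ (T : Set V) (c : ℝ), Til C T → SF C e T c →
  ∃ p : V, p ≠ 0 ∧ rdet e p = 0 ∧ Per p (Abv C e T c)

/-- HG. Pigeonhole and gluing (port of PTA). -/
def T_HG : Prop := ∀ C, Bdy C → ∀ e : V, e ≠ 0 → ∀ (T : Set V) (c : ℝ), Til C T →
  SF C e T c → (∀ R : ℝ, {d | ‖d‖ ≤ R ∧ |rdet e d| < wd C e ∧
    ∃ t ∈ Abv C e T c, t + d ∈ Abv C e T c}.Finite) →
  ∀ p : V, p ≠ 0 → rdet e p = 0 → Per p (Abv C e T c) → TDP C

/-! ## Main theorem -/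

/-- R9. -/
def T_R9 : Prop := ∀ C, Bdy C → (∀ e, Dir C e → Iv C e) → (∃ T, Til C T) → TDP C

end Pool.Agent.PTG
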